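import Mathlib
set_option autoImplicit false

/-! Fresnel integrals over intervals are dominated by a measure. -/

namespace Pool.Agent.H728R3.SR
open MeasureTheory Set Complex Filter Topology
open scoped ENNReal

/-- Fresnel integral -/
noncomputable def fr (τ a b : ℝ) : ℂ := ∫ u in a..b, cexp (((τ * u ^ 2 : ℝ) : ℂ) * I)

lemma fr_int (τ a b : ℝ) : IntervalIntegrable (fun u : ℝ => cexp (((τ * u ^ 2 : ℝ) : ℂ) * I))
    volume a b := by
  apply Continuous.intervalIntegrable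
  fun_prop

lemma fr_le (τ a b : ℝ) (hab : a ≤ b) : ‖fr τ a b‖ ≤ b - a := by
  unfold fr
  have h := intervalIntegral.norm_integral_le_of_norm_le_const (a := a) (b := b) (C := 1)
    (f := fun u : ℝ => cexp (((τ * u ^ 2 : ℝ) : ℂ) * I)) (by
      intro x _
      rw [Complex.norm_exp_ofReal_mul_I])
  rw [abs_of_nonneg (by linarith), one_mul] at h
  exact h

lemma fr_add (τ a b c : ℝ) : fr τ a b + fr τ b c = fr τ a c :=
  intervalIntegral.integral_add_adjacent_intervals (fr_int τ a b) (fr_int τ b c)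

lemma fr_neg (τ a b : ℝ) : fr τ (-b) (-a) = fr τ a b := by
  unfold fr
  rw [← intervalIntegral.integral_comp_neg]
  simp

lemma fr_ibp (τ a b : ℝ) (hτ : τ ≠ 0) (ha : 0 < a) (hab : a ≤ b) :
    ‖fr τ a b‖ ≤ 1 / (|τ| * a) := by
  have hτ' : 0 < |τ| := abs_pos.2 hτ
  have hb : 0 < b := by linarith
  have hne : ∀ u ∈ uIcc a b, u ≠ 0 := by
    intro u hu
    rw [uIcc_of_le hab] at hu
    have := hu.1
    linarith
  set G : ℝ → ℂ := fun u => cexp (((τ * u ^ 2 : ℝ) : ℂ) * I) * (((2 * τ * u)⁻¹ : ℝ) : ℂ) * (-I)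
    with hG
  have hd : ∀ u ∈ uIcc a b, HasDerivAt G (cexp (((τ * u ^ 2 : ℝ) : ℂ) * I) +
      cexp (((τ * u ^ 2 : ℝ) : ℂ) * I) * (((-(2 * τ * u ^ 2)⁻¹ : ℝ)) : ℂ) * (-I)) u := by
    intro u hu
    have hu0 := hne u hu
    have h1 : HasDerivAt (fun u : ℝ => τ * u ^ 2) (τ * (2 * u)) u := by
      have := (hasDerivAt_pow 2 u).const_mul τ
      simpa using this
    have h2 := (h1.ofReal_comp.mul_const I).cexp
    have h3 : HasDerivAt (fun u : ℝ => (2 * τ * u)⁻¹) (-(2 * τ * u ^ 2)⁻¹) u := by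
      have := ((hasDerivAt_id u).const_mul (2 * τ)).inv (by simp [hτ, hu0])
      refine this.congr_deriv ?_
      simp only [id]
      field_simp
    have h4 := (h2.mul h3.ofReal_comp).mul_const (-I)
    refine h4.congr_deriv ?_
    have e : cexp (((τ * u ^ 2 : ℝ) : ℂ) * I) * (((τ * (2 * u) : ℝ) : ℂ) * I) *
        (((2 * τ * u)⁻¹ : ℝ) : ℂ) * (-I) = cexp (((τ * u ^ 2 : ℝ) : ℂ) * I) := by
      have e1 : ((τ * (2 * u) : ℝ) : ℂ) * (((2 * τ * u)⁻¹ : ℝ) : ℂ) = 1 := by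
        rw [← Complex.ofReal_mul]
        have : τ * (2 * u) * (2 * τ * u)⁻¹ = 1 := by field_simp
        rw [this, Complex.ofReal_one]
      have e2 : I * (-I) = 1 := by rw [mul_neg, Complex.I_mul_I, neg_neg]
      calc _ = cexp (((τ * u ^ 2 : ℝ) : ℂ) * I) *
            (((τ * (2 * u) : ℝ) : ℂ) * (((2 * τ * u)⁻¹ : ℝ) : ℂ)) * (I * (-I)) := by ring
        _ = _ := by rw [e1, e2, mul_one, mul_one]
    rw [add_mul, e]
  have hcont1 : ContinuousOn (fun u : ℝ => cexp (((τ * u ^ 2 : ℝ) : ℂ) * I)) (uIcc a b) := by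
    fun_prop
  have hcont2 : ContinuousOn (fun u : ℝ => (-(2 * τ * u ^ 2)⁻¹ : ℝ)) (uIcc a b) := by
    apply ContinuousOn.neg
    apply ContinuousOn.inv₀ (by fun_prop)
    intro u hu
    have := hne u hu
    positivity
  have hcont3 : ContinuousOn (fun u : ℝ => cexp (((τ * u ^ 2 : ℝ) : ℂ) * I) *
      (((-(2 * τ * u ^ 2)⁻¹ : ℝ)) : ℂ) * (-I)) (uIcc a b) :=
    (hcont1.mul (Complex.continuous_ofReal.comp_continuousOn hcont2)).mul continuousOn_const
  have h1 := intervalIntegral.integral_eq_sub_of_hasDerivAt hd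
    ((hcont1.add hcont3).intervalIntegrable)
  rw [intervalIntegral.integral_add hcont1.intervalIntegrable hcont3.intervalIntegrable] at h1
  have h2 : fr τ a b = G b - G a - ∫ u in a..b, cexp (((τ * u ^ 2 : ℝ) : ℂ) * I) *
      (((-(2 * τ * u ^ 2)⁻¹ : ℝ)) : ℂ) * (-I) := by
    unfold fr
    rw [← h1]
    ring
  have hGn : ∀ u : ℝ, 0 < u → ‖G u‖ = (2 * |τ| * u)⁻¹ := by
    intro u hu
    rw [hG]
    simp only
    rw [norm_mul, norm_mul, Complex.norm_exp_ofReal_mul_I, norm_neg, Complex.norm_I, mul_one,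
      one_mul, Complex.norm_real, Real.norm_eq_abs, abs_inv, abs_mul, abs_mul, abs_two,
      abs_of_pos hu]
  have h3 : ‖∫ u in a..b, cexp (((τ * u ^ 2 : ℝ) : ℂ) * I) *
      (((-(2 * τ * u ^ 2)⁻¹ : ℝ)) : ℂ) * (-I)‖ ≤ ∫ u in a..b, (2 * |τ| * u ^ 2)⁻¹ := by
    apply intervalIntegral.norm_integral_le_of_norm_le hab
    · refine ae_of_all _ fun u hu => ?_
      rw [norm_mul, norm_mul, Complex.norm_exp_ofReal_mul_I, norm_neg, Complex.norm_I, mul_one,
        one_mul, Complex.norm_real, Real.norm_eq_abs, abs_neg, abs_inv, abs_mul, abs_mul, abs_two,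
        abs_of_nonneg (sq_nonneg u)]
    · apply ContinuousOn.intervalIntegrable
      apply ContinuousOn.inv₀ (by fun_prop)
      intro u hu
      have := hne u hu
      positivity
  have h4 : ∫ u in a..b, (2 * |τ| * u ^ 2)⁻¹ = (2 * |τ| * a)⁻¹ - (2 * |τ| * b)⁻¹ := by
    have hd2 : ∀ u ∈ uIcc a b, HasDerivAt (fun u : ℝ => -(2 * |τ| * u)⁻¹)
        ((2 * |τ| * u ^ 2)⁻¹) u := by
      intro u hu
      have hu0 := hne u hu
      have := (((hasDerivAt_id u).const_mul (2 * |τ|)).inv (by simp [hτ, hu0])).neg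
      refine this.congr_deriv ?_
      simp only [id]
      field_simp
      try ring
    rw [intervalIntegral.integral_eq_sub_of_hasDerivAt hd2]
    · ring
    · apply ContinuousOn.intervalIntegrable
      apply ContinuousOn.inv₀ (by fun_prop)
      intro u hu
      have := hne u hu
      positivity
  rw [h2]
  calc _ ≤ ‖G b‖ + ‖G a‖ + ∫ u in a..b, (2 * |τ| * u ^ 2)⁻¹ := by
        refine (norm_sub_le _ _).trans (add_le_add (norm_sub_le _ _) h3)
    _ = 1 / (|τ| * a) := by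
        rw [hGn b hb, hGn a ha, h4]
        field_simp
        ring

/-- the two uniform bounds -/
lemma fr_unif (τ a b : ℝ) (hτ : τ ≠ 0) (ha : 0 ≤ a) (hab : a ≤ b) :
    ‖fr τ a b‖ ≤ 2 * (Real.sqrt |τ|)⁻¹ := by
  have hτ' : 0 < |τ| := abs_pos.2 hτ
  set s := (Real.sqrt |τ|)⁻¹ with hs
  have hs0 : 0 < s := by positivity
  have hss : |τ| * s = s⁻¹ := by
    rw [hs, inv_inv]
    have := Real.mul_self_sqrt hτ'.le
    field_simp
    nlinarith
  rcases le_or_gt b s with h | h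
  · have := fr_le τ a b hab
    linarith
  · rcases le_or_gt s a with h1 | h1
    · have h2 := fr_ibp τ a b hτ (by linarith) hab
      have h3 : 1 / (|τ| * a) ≤ s := by
        calc 1 / (|τ| * a) ≤ 1 / (|τ| * s) := by
              apply one_div_le_one_div_of_le (by positivity)
              gcongr
          _ = s := by rw [hss]; simp
      linarith
    · have h2 := fr_ibp τ s b hτ hs0 h.le
      rw [hss, one_div, inv_inv] at h2
      have h3 := fr_le τ a s h1.le
      have h4 := norm_add_le (fr τ a s) (fr τ s b)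
      rw [fr_add] at h4
      linarith

/-- the key bound on the half line -/
lemma fr_pos (τ a b γ : ℝ) (hτ : τ ≠ 0) (ha : 0 ≤ a) (hab : a < b) (hγ0 : 0 < γ) (hγ1 : γ ≤ 1) :
    ‖fr τ a b‖ ^ 2 ≤ 8 * |τ| ^ (γ / 2 - 1) * ((b - a) * b ^ (γ - 1)) := by
  have hτ' : 0 < |τ| := abs_pos.2 hτ
  have hb : 0 < b := by linarith
  set s := (Real.sqrt |τ|)⁻¹ with hs
  have hs0 : 0 < s := by positivity
  have hsp : |τ| ^ (γ / 2 - 1) = s ^ (2 - γ) := by
    rw [hs, Real.sqrt_eq_rpow, ← Real.rpow_neg hτ'.le, ← Real.rpow_mul hτ'.le]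
    congr 1
    ring
  have hss : s ^ 2 = 1 / |τ| := by
    rw [hs, inv_pow, Real.sq_sqrt hτ'.le, one_div]
  set D := ‖fr τ a b‖ with hD
  have hD0 : 0 ≤ D := norm_nonneg _
  have d1 : D ≤ b - a := fr_le τ a b hab.le
  have d2 : D ≤ 2 * s := fr_unif τ a b hτ ha hab.le
  rw [hsp]
  rcases hD0.eq_or_lt with h0 | h0
  · rw [← h0]
    have h9 : 0 ≤ b - a := by linarith
    have h10 : 0 ≤ (b - a) * b ^ (γ - 1) := mul_nonneg h9 (by positivity)
    simp only [ne_eq, OfNat.ofNat_ne_zero, not_false_eq_true, zero_pow]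
    exact mul_nonneg (by positivity) h10
  · rcases le_or_gt b (2 * a) with h | h
    · have ha0 : 0 < a := by linarith
      have d3 : D ≤ 2 * s ^ 2 / b := by
        refine (fr_ibp τ a b hτ ha0 hab.le).trans ?_
        rw [hss, div_le_div_iff₀ (by positivity) hb]
        field_simp
        linarith
      have e1 : D = D ^ γ * D ^ (1 - γ) := by
        rw [← Real.rpow_add h0]
        simp
      have e2 : D ^ γ ≤ (2 * s) ^ γ := Real.rpow_le_rpow hD0 d2 hγ0.le
      have e3 : D ^ (1 - γ) ≤ (2 * s ^ 2 / b) ^ (1 - γ) :=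
        Real.rpow_le_rpow hD0 d3 (by linarith)
      have e4 : (2 * s) ^ γ * (2 * s ^ 2 / b) ^ (1 - γ) = 2 * s ^ (2 - γ) * b ^ (γ - 1) := by
        rw [Real.mul_rpow (by norm_num) hs0.le, Real.div_rpow (by positivity) hb.le,
          Real.mul_rpow (by norm_num) (by positivity), ← Real.rpow_natCast s 2,
          ← Real.rpow_mul hs0.le]
        have f1 : (2 : ℝ) ^ γ * 2 ^ (1 - γ) = 2 := by
          rw [← Real.rpow_add (by norm_num)]
          simp
        have f2 : s ^ γ * s ^ (((2 : ℕ) : ℝ) * (1 - γ)) = s ^ (2 - γ) := by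
          rw [← Real.rpow_add hs0]
          congr 1
          push_cast
          ring
        have f3 : (b ^ (1 - γ))⁻¹ = b ^ (γ - 1) := by
          rw [← Real.rpow_neg hb.le]
          congr 1
          ring
        calc _ = ((2 : ℝ) ^ γ * 2 ^ (1 - γ)) * (s ^ γ * s ^ (((2 : ℕ) : ℝ) * (1 - γ))) *
              (b ^ (1 - γ))⁻¹ := by ring
          _ = _ := by rw [f1, f2, f3]
      calc D ^ 2 = D * D := sq D
        _ ≤ (b - a) * (2 * s ^ (2 - γ) * b ^ (γ - 1)) := by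
            apply mul_le_mul d1 _ hD0 (by linarith)
            rw [e1, ← e4]
            exact mul_le_mul e2 e3 (by positivity) (by positivity)
        _ = 2 * s ^ (2 - γ) * ((b - a) * b ^ (γ - 1)) := by ring
        _ ≤ 8 * s ^ (2 - γ) * ((b - a) * b ^ (γ - 1)) := by
            have : 0 ≤ b - a := by linarith
            gcongr
            norm_num
    · have e1 : D ^ 2 = D ^ γ * D ^ (2 - γ) := by
        rw [← Real.rpow_add h0, ← Real.rpow_natCast]
        congr 1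
        push_cast
        ring
      have e2 : D ^ γ ≤ b ^ γ := Real.rpow_le_rpow hD0 (by linarith) hγ0.le
      have e3 : D ^ (2 - γ) ≤ (2 * s) ^ (2 - γ) :=
        Real.rpow_le_rpow hD0 d2 (by linarith)
      have e4 : (2 * s) ^ (2 - γ) ≤ 4 * s ^ (2 - γ) := by
        rw [Real.mul_rpow (by norm_num) hs0.le]
        gcongr
        calc (2 : ℝ) ^ (2 - γ) ≤ 2 ^ (2 : ℝ) :=
              Real.rpow_le_rpow_of_exponent_le (by norm_num) (by linarith)
          _ = 4 := by norm_num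
      have e5 : b ^ γ = b * b ^ (γ - 1) := by
        rw [Real.rpow_sub_one hb.ne']
        field_simp
      calc D ^ 2 ≤ b ^ γ * (4 * s ^ (2 - γ)) := by
            rw [e1]
            exact mul_le_mul e2 (e3.trans e4) (by positivity) (by positivity)
        _ = 4 * s ^ (2 - γ) * (b * b ^ (γ - 1)) := by rw [e5]; ring
        _ ≤ 4 * s ^ (2 - γ) * ((2 * (b - a)) * b ^ (γ - 1)) := by
            gcongr
            linarith
        _ = 8 * s ^ (2 - γ) * ((b - a) * b ^ (γ - 1)) := by ring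

/-- lower bound for the dominating measure -/
lemma low (a b B γ : ℝ) (hab : a ≤ b) (hγ1 : γ ≤ 1)
    (h : ∀ u ∈ Ioo a b, 0 < |u| ∧ |u| ≤ B) :
    ENNReal.ofReal ((b - a) * B ^ (γ - 1)) ≤ ∫⁻ u in Ioc a b, ENNReal.ofReal (|u| ^ (γ - 1)) := by
  calc ENNReal.ofReal ((b - a) * B ^ (γ - 1))
      = ∫⁻ u in Ioo a b, ENNReal.ofReal (B ^ (γ - 1)) := by
        rw [lintegral_const, Measure.restrict_apply_univ, Real.volume_Ioo, mul_comm (b - a)]
        rcases le_or_gt 0 B with hB | hB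
        · rw [ENNReal.ofReal_mul (by positivity)]
        · have hne : a = b := by
            by_contra hne
            have hlt : a < b := lt_of_le_of_ne hab hne
            have := h ((a + b) / 2) ⟨by linarith, by linarith⟩
            linarith [this.1, this.2]
          rw [hne]
          simp
    _ ≤ ∫⁻ u in Ioo a b, ENNReal.ofReal (|u| ^ (γ - 1)) := by
        apply setLIntegral_mono' measurableSet_Ioo
        intro u hu
        apply ENNReal.ofReal_le_ofReal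
        exact Real.rpow_le_rpow_of_nonpos (h u hu).1 (h u hu).2 (by linarith)
    _ ≤ _ := lintegral_mono_set Ioo_subset_Ioc_self

lemma fr_dom0 (τ a b γ : ℝ) (hτ : τ ≠ 0) (h0 : 0 ≤ a ∨ b ≤ 0) (hab : a ≤ b) (hγ0 : 0 < γ)
    (hγ1 : γ ≤ 1) :
    ‖fr τ a b‖ₑ ^ 2 ≤ ENNReal.ofReal (8 * |τ| ^ (γ / 2 - 1)) *
      ∫⁻ u in Ioc a b, ENNReal.ofReal (|u| ^ (γ - 1)) := by
  have hτ' : 0 < |τ| := abs_pos.2 hτ
  rcases hab.eq_or_lt with he | hlt
  · subst he
    have : fr τ a a = 0 := by simp [fr]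
    rw [this]
    simp
  · rw [← ofReal_norm, ← ENNReal.ofReal_pow (norm_nonneg _)]
    rcases h0 with ha | hb
    · refine (ENNReal.ofReal_le_ofReal (fr_pos τ a b γ hτ ha hlt hγ0 hγ1)).trans ?_
      rw [ENNReal.ofReal_mul (by positivity)]
      gcongr
      apply low a b b γ hab hγ1
      intro u hu
      have h1 : 0 < u := by linarith [hu.1]
      rw [abs_of_pos h1]
      exact ⟨h1, hu.2.le⟩
    · rw [← fr_neg]
      refine (ENNReal.ofReal_le_ofReal (fr_pos τ (-b) (-a) γ hτ (by linarith) (by linarith)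
        hγ0 hγ1)).trans ?_
      rw [ENNReal.ofReal_mul (by positivity)]
      gcongr
      have h2 := low a b (-a) γ hab hγ1 (by
        intro u hu
        have h1 : u < 0 := by linarith [hu.2]
        rw [abs_of_neg h1]
        exact ⟨by linarith, by linarith [hu.1]⟩)
      rwa [show -a - -b = b - a by ring]

/-- **Fresnel integrals over intervals are dominated by a measure.** -/
theorem fr_dom (τ a b γ : ℝ) (hτ : τ ≠ 0) (hab : a ≤ b) (hγ0 : 0 < γ) (hγ1 : γ ≤ 1) :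
    ‖fr τ a b‖ₑ ^ 2 ≤ ENNReal.ofReal (16 * |τ| ^ (γ / 2 - 1)) *
      ∫⁻ u in Ioc a b, ENNReal.ofReal (|u| ^ (γ - 1)) := by
  have hτ' : 0 < |τ| := abs_pos.2 hτ
  have h816 : ENNReal.ofReal (8 * |τ| ^ (γ / 2 - 1)) ≤ ENNReal.ofReal (16 * |τ| ^ (γ / 2 - 1)) := by
    apply ENNReal.ofReal_le_ofReal
    gcongr
    norm_num
  rcases le_or_gt 0 a with ha | ha
  · exact (fr_dom0 τ a b γ hτ (Or.inl ha) hab hγ0 hγ1).trans (by gcongr)
  rcases le_or_gt b 0 with hb | hb
  · exact (fr_dom0 τ a b γ hτ (Or.inr hb) hab hγ0 hγ1).trans (by gcongr)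
  rw [← fr_add τ a 0 b]
  have h1 := fr_dom0 τ a 0 γ hτ (Or.inr le_rfl) ha.le hγ0 hγ1
  have h2 := fr_dom0 τ 0 b γ hτ (Or.inl le_rfl) hb.le hγ0 hγ1
  have h3 : ‖fr τ a 0 + fr τ 0 b‖ₑ ^ 2 ≤ 2 * (‖fr τ a 0‖ₑ ^ 2 + ‖fr τ 0 b‖ₑ ^ 2) := by
    rw [← ofReal_norm, ← ofReal_norm, ← ofReal_norm, ← ENNReal.ofReal_pow (norm_nonneg _),
      ← ENNReal.ofReal_pow (norm_nonneg _), ← ENNReal.ofReal_pow (norm_nonneg _),
      ← ENNReal.ofReal_add (by positivity) (by positivity),
      show (2 : ℝ≥0∞) = ENNReal.ofReal 2 by simp, ← ENNReal.ofReal_mul (by norm_num)]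
    apply ENNReal.ofReal_le_ofReal
    have := norm_add_le (fr τ a 0) (fr τ 0 b)
    nlinarith [norm_nonneg (fr τ a 0 + fr τ 0 b), norm_nonneg (fr τ a 0), norm_nonneg (fr τ 0 b),
      sq_nonneg (‖fr τ a 0‖ - ‖fr τ 0 b‖)]
  have h4 : ∫⁻ u in Ioc a b, ENNReal.ofReal (|u| ^ (γ - 1)) =
      (∫⁻ u in Ioc a 0, ENNReal.ofReal (|u| ^ (γ - 1))) +
        ∫⁻ u in Ioc 0 b, ENNReal.ofReal (|u| ^ (γ - 1)) := by
    rw [← Ioc_union_Ioc_eq_Ioc ha.le hb.le, lintegral_union measurableSet_Ioc]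
    rw [Set.disjoint_left]
    intro x hx hx'
    linarith [hx.2, hx'.1]
  rw [h4]
  calc _ ≤ _ := h3
    _ ≤ 2 * (ENNReal.ofReal (8 * |τ| ^ (γ / 2 - 1)) *
        (∫⁻ u in Ioc a 0, ENNReal.ofReal (|u| ^ (γ - 1))) +
        ENNReal.ofReal (8 * |τ| ^ (γ / 2 - 1)) *
        ∫⁻ u in Ioc 0 b, ENNReal.ofReal (|u| ^ (γ - 1))) := by gcongr
    _ = _ := by
        rw [show (16 : ℝ) * |τ| ^ (γ / 2 - 1) = 2 * (8 * |τ| ^ (γ / 2 - 1)) by ring,
          ENNReal.ofReal_mul (show (0 : ℝ) ≤ 2 by norm_num), ENNReal.ofReal_ofNat]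
        ring

/-- translated form: the quadratic phase `x y + t y^2` -/
theorem quad_dom (x t a b γ : ℝ) (ht : t ≠ 0) (hab : a ≤ b) (hγ0 : 0 < γ) (hγ1 : γ ≤ 1) :
    ‖∫ y in a..b, cexp (2 * Real.pi * I * ((y * x + y ^ 2 * t : ℝ) : ℂ))‖ₑ ^ 2 ≤
      ENNReal.ofReal (16 * |t| ^ (γ / 2 - 1)) *
        ∫⁻ y in Ioc a b, ENNReal.ofReal (|y + x / (2 * t)| ^ (γ - 1)) := by
  have hpi := Real.pi_pos
  have e1 : ∫ y in a..b, cexp (2 * Real.pi * I * ((y * x + y ^ 2 * t : ℝ) : ℂ)) =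
      cexp (((-(2 * Real.pi * (x ^ 2 / (4 * t))) : ℝ) : ℂ) * I) *
        fr (2 * Real.pi * t) (a + x / (2 * t)) (b + x / (2 * t)) := by
    unfold fr
    rw [← intervalIntegral.integral_comp_add_right, ← intervalIntegral.integral_const_mul]
    apply intervalIntegral.integral_congr
    intro y _
    simp only
    rw [← Complex.exp_add]
    congr 1
    have : y * x + y ^ 2 * t = t * (y + x / (2 * t)) ^ 2 - x ^ 2 / (4 * t) := by
      field_simp
      ring
    rw [this]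
    push_cast
    ring
  rw [e1, enorm_mul]
  have e2 : ‖cexp (((-(2 * Real.pi * (x ^ 2 / (4 * t))) : ℝ) : ℂ) * I)‖ₑ = 1 := by
    rw [← ofReal_norm, Complex.norm_exp_ofReal_mul_I, ENNReal.ofReal_one]
  rw [e2, one_mul]
  refine (fr_dom (2 * Real.pi * t) (a + x / (2 * t)) (b + x / (2 * t)) γ (by positivity)
    (by linarith) hγ0 hγ1).trans ?_
  gcongr ?_ * ?_
  · apply ENNReal.ofReal_le_ofReal
    have ht' : 0 < |t| := abs_pos.2 ht
    apply mul_le_mul_of_nonneg_left _ (by norm_num)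
    apply Real.rpow_le_rpow_of_nonpos ht' _ (by linarith)
    rw [abs_mul, abs_of_pos (show (0 : ℝ) < 2 * Real.pi by positivity)]
    have : 1 ≤ 2 * Real.pi := by linarith [Real.pi_gt_three]
    nlinarith
  · have h := (measurePreserving_add_right (volume : Measure ℝ) (x / (2 * t)))
    have h2 := h.setLIntegral_comp_preimage_emb (MeasurableEquiv.addRight (x / (2 * t))).measurableEmbedding
      (fun u => ENNReal.ofReal (|u| ^ (γ - 1))) (Ioc (a + x / (2 * t)) (b + x / (2 * t)))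
    rw [← h2]
    simp

end Pool.Agent.H728R3.SR
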