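import Mathlib
import Pool.Agent.H147R3.PE.Seven
import Pool.Agent.H728R3.SR.A
set_option autoImplicit false

/-! The one-dimensional extension operator and its planar estimates. -/

namespace Pool.Agent.H728R3.SR
open MeasureTheory Set Complex Filter Topology
open Pool.Agent.H147R3.PE
open scoped ENNReal

/-- one-dimensional extension operator -/
noncomputable def e1 (h : ℝ → ℂ) (x t : ℝ) : ℂ :=
  ∫ y in Icc (-1 : ℝ) 1, h y * cexp (2 * Real.pi * I * ((y * x + y ^ 2 * t : ℝ) : ℂ))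

/-- cut-off to `[-1,1]` -/
noncomputable def cut (h : ℝ → ℂ) : ℝ → ℂ := (Icc (-1 : ℝ) 1).indicator h

lemma cut_BS {h : ℝ → ℂ} (hm : Measurable h) (hb : ∀ y, ‖h y‖ ≤ 1) : BS 1 (cut h) := by
  refine ⟨hm.indicator measurableSet_Icc, fun z => ?_, fun z hz => ?_⟩
  · unfold cut
    refine (norm_indicator_le_norm_self _ _).trans (hb z)
  · unfold cut
    rw [indicator_of_notMem]
    intro h1
    have := abs_le.2 h1
    linarith

lemma e1_eq (h : ℝ → ℂ) (x t : ℝ) :
    e1 h x t = FT (ch (-(2 * Real.pi * t)) (cut h)) (-(2 * Real.pi * x)) := by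
  unfold e1 FT ch cut
  rw [← integral_indicator measurableSet_Icc]
  congr 1
  ext y
  by_cases hy : y ∈ Icc (-1 : ℝ) 1
  · rw [indicator_of_mem hy, indicator_of_mem hy, ← mul_assoc, ← Complex.exp_add, mul_comm]
    congr 2
    push_cast
    ring
  · rw [indicator_of_notMem hy, indicator_of_notMem hy]
    simp

lemma e1_meas {h : ℝ → ℂ} (hm : Measurable h) : Measurable fun p : ℝ × ℝ => e1 h p.1 p.2 := by
  simp only [e1_eq]
  apply FT_meas (fun p : ℝ × ℝ => ch (-(2 * Real.pi * p.2)) (cut h)) _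
    (fun p : ℝ × ℝ => -(2 * Real.pi * p.1))
  · fun_prop
  · unfold ch cut
    have e3 : Measurable (fun p : (ℝ × ℝ) × ℝ => (-(-(2 * Real.pi * p.1.2) * p.2 ^ 2) : ℝ)) := by
      fun_prop
    exact ((Complex.measurable_exp.comp ((Complex.measurable_ofReal.comp e3).mul_const I))).mul
      ((hm.indicator measurableSet_Icc).comp measurable_snd)

lemma e1_bd {h : ℝ → ℂ} (hm : Measurable h) (hb : ∀ y, ‖h y‖ ≤ 1) (x t : ℝ) :
    ‖e1 h x t‖ₑ ≤ 2 := by
  rw [e1_eq, ← ofReal_norm]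
  have := ((cut_BS hm hb).ch (-(2 * Real.pi * t))).FT_bd (-(2 * Real.pi * x))
  calc ENNReal.ofReal _ ≤ ENNReal.ofReal 2 := ENNReal.ofReal_le_ofReal (by linarith)
    _ = 2 := by simp

lemma scale2 (G : ℝ → ℝ≥0∞) (hG : Measurable G) :
    ∫⁻ x, G (-(2 * Real.pi * x)) = ENNReal.ofReal (2 * Real.pi)⁻¹ * ∫⁻ x, G x := by
  have hpi : 0 < 2 * Real.pi := by positivity
  have h1 := Real.map_volume_mul_left (a := -(2 * Real.pi)) (by linarith)
  have h2 : ∫⁻ x, G x ∂(Measure.map (fun x => -(2 * Real.pi) * x) volume) =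
      ∫⁻ x, G (-(2 * Real.pi) * x) := lintegral_map hG (measurable_const_mul _)
  rw [show (∫⁻ x, G (-(2 * Real.pi * x))) = ∫⁻ x, G (-(2 * Real.pi) * x) by simp only [neg_mul],
    ← h2, h1, lintegral_smul_measure, smul_eq_mul]
  congr 2
  rw [abs_inv, abs_neg, abs_of_pos hpi]

lemma cut_two {h : ℝ → ℂ} (hb : ∀ y, ‖h y‖ ≤ 1) (n : ℕ) (hn : n ≠ 0) :
    ∫⁻ z, ‖cut h z‖ₑ ^ n ≤ 2 := by
  have h1 : ∀ z, ‖cut h z‖ₑ ^ n ≤ (Icc (-1 : ℝ) 1).indicator (fun _ => 1) z := by
    intro z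
    unfold cut
    by_cases hz : z ∈ Icc (-1 : ℝ) 1
    · rw [indicator_of_mem hz, indicator_of_mem hz]
      apply pow_le_one'
      rw [← ofReal_norm, ← ENNReal.ofReal_one]
      exact ENNReal.ofReal_le_ofReal (hb z)
    · rw [indicator_of_notMem hz, indicator_of_notMem hz]
      simp [hn]
  refine (lintegral_mono h1).trans ?_
  rw [lintegral_indicator measurableSet_Icc, lintegral_const, Measure.restrict_apply_univ,
    Real.volume_Icc]
  norm_num

lemma e1_two {h : ℝ → ℂ} (hm : Measurable h) (hb : ∀ y, ‖h y‖ ≤ 1) (t : ℝ) :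
    ∫⁻ x, ‖e1 h x t‖ₑ ^ 2 = ∫⁻ z, ‖cut h z‖ₑ ^ 2 := by
  simp only [e1_eq]
  rw [scale2 (fun x => ‖FT (ch (-(2 * Real.pi * t)) (cut h)) x‖ₑ ^ 2)
    (((FT_meas1 _ ((cut_BS hm hb).ch _).meas).enorm.pow_const 2)), two_ch (cut_BS hm hb),
    ← mul_assoc, ← ENNReal.ofReal_mul (by positivity), inv_mul_cancel₀ (by positivity),
    ENNReal.ofReal_one, one_mul]

lemma e1_two_le {h : ℝ → ℂ} (hm : Measurable h) (hb : ∀ y, ‖h y‖ ≤ 1) (t : ℝ) :
    ∫⁻ x, ‖e1 h x t‖ₑ ^ 2 ≤ 2 := by
  rw [e1_two hm hb]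
  exact cut_two hb 2 (by norm_num)

/-- indicator of a closed interval -/
noncomputable def ind (a b : ℝ) : ℝ → ℂ := (Icc a b).indicator fun _ => 1

lemma ind_meas (a b : ℝ) : Measurable (ind a b) := measurable_const.indicator measurableSet_Icc

lemma ind_bd (a b : ℝ) (y : ℝ) : ‖ind a b y‖ ≤ 1 := by
  unfold ind
  refine (norm_indicator_le_norm_self _ _).trans (by simp)

lemma ind_two (a b t : ℝ) : ∫⁻ x, ‖e1 (ind a b) x t‖ₑ ^ 2 ≤ ENNReal.ofReal (b - a) := by
  rw [e1_two (ind_meas a b) (ind_bd a b)]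
  have h1 : ∀ z, ‖cut (ind a b) z‖ₑ ^ 2 ≤ (Icc a b).indicator (fun _ => 1) z := by
    intro z
    unfold cut ind
    by_cases hz : z ∈ Icc a b
    · rw [indicator_of_mem hz]
      apply pow_le_one'
      rw [← ofReal_norm, ← ENNReal.ofReal_one]
      apply ENNReal.ofReal_le_ofReal
      refine (norm_indicator_le_norm_self _ _).trans ?_
      refine (norm_indicator_le_norm_self _ _).trans (by simp)
    · rw [indicator_of_notMem hz]
      by_cases hz' : z ∈ Icc (-1 : ℝ) 1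
      · rw [indicator_of_mem hz', indicator_of_notMem hz]
        simp
      · rw [indicator_of_notMem hz']
        simp
  refine (lintegral_mono h1).trans ?_
  rw [lintegral_indicator measurableSet_Icc, lintegral_const, Measure.restrict_apply_univ,
    Real.volume_Icc, one_mul]

/-- dominating density -/
noncomputable def rr (γ x t y : ℝ) : ℝ≥0∞ :=
  if |t| ≤ 1 then 2 else ENNReal.ofReal (|y + x / (2 * t)| ^ (γ - 1))

/-- dominating factor -/
noncomputable def AA (γ t : ℝ) : ℝ≥0∞ :=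
  if |t| ≤ 1 then 1 else ENNReal.ofReal (16 * |t| ^ (γ / 2 - 1))

lemma rr_meas (γ x t : ℝ) : Measurable (rr γ x t) := by
  unfold rr
  split_ifs
  · exact measurable_const
  · have : Measurable fun y : ℝ => |y + x / (2 * t)| := by fun_prop
    exact (this.pow_const _).ennreal_ofReal

lemma ind_dom (γ x t a b : ℝ) (ha : -1 ≤ a) (hab : a ≤ b) (hb : b ≤ 1) (hγ0 : 0 < γ)
    (hγ1 : γ ≤ 1) :
    ‖e1 (ind a b) x t‖ₑ ^ 2 ≤ AA γ t * ∫⁻ y in Ioc a b, rr γ x t y := by
  have h0 : e1 (ind a b) x t =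
      ∫ y in a..b, cexp (2 * Real.pi * I * ((y * x + y ^ 2 * t : ℝ) : ℂ)) := by
    unfold e1 ind
    rw [intervalIntegral.integral_of_le hab, ← integral_Icc_eq_integral_Ioc,
      ← integral_indicator measurableSet_Icc, ← integral_indicator measurableSet_Icc]
    congr 1
    ext y
    by_cases hy : y ∈ Icc a b
    · have hy2 : y ∈ Icc (-1 : ℝ) 1 := ⟨by linarith [hy.1], by linarith [hy.2]⟩
      rw [indicator_of_mem hy, indicator_of_mem hy2, indicator_of_mem hy, one_mul]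
    · rw [indicator_of_notMem hy]
      by_cases hy2 : y ∈ Icc (-1 : ℝ) 1
      · rw [indicator_of_mem hy2, indicator_of_notMem hy, zero_mul]
      · rw [indicator_of_notMem hy2]
  unfold AA rr
  split_ifs with ht
  · rw [lintegral_const, Measure.restrict_apply_univ, Real.volume_Ioc, one_mul, h0]
    have h1 := intervalIntegral.norm_integral_le_of_norm_le_const (a := a) (b := b) (C := 1)
      (f := fun y : ℝ => cexp (2 * Real.pi * I * ((y * x + y ^ 2 * t : ℝ) : ℂ))) (by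
        intro y _
        have : (2 * Real.pi * I * ((y * x + y ^ 2 * t : ℝ) : ℂ)) =
            ((2 * Real.pi * (y * x + y ^ 2 * t) : ℝ) : ℂ) * I := by
          push_cast
          ring
        rw [this, Complex.norm_exp_ofReal_mul_I])
    rw [abs_of_nonneg (by linarith), one_mul] at h1
    rw [← ofReal_norm, ← ENNReal.ofReal_pow (norm_nonneg _),
      show (2 : ℝ≥0∞) = ENNReal.ofReal 2 by simp, ← ENNReal.ofReal_mul (by norm_num)]
    apply ENNReal.ofReal_le_ofReal
    have h2 : 0 ≤ ‖∫ y in a..b, cexp (2 * Real.pi * I * ((y * x + y ^ 2 * t : ℝ) : ℂ))‖ :=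
      norm_nonneg _
    nlinarith
  · push Not at ht
    rw [h0]
    exact quad_dom x t a b γ (by intro h; rw [h] at ht; simp at ht; linarith) hab hγ0 hγ1

/-- total mass of the density -/
noncomputable def RR (γ : ℝ) : ℝ≥0∞ := 4 + Iβ (1 - γ)

end Pool.Agent.H728R3.SR
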