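import Mathlib
import Pool.Agent.H728R3.SR.B
set_option autoImplicit false

namespace Pool.Agent.H728R3.SR
open MeasureTheory Set Complex Filter Topology
open Pool.Agent.H147R3.PE
open scoped ENNReal

lemma rr_total (γ x t : ℝ) (hγ0 : 0 < γ) (hγ1 : γ ≤ 1) :
    ∫⁻ y in Ioc (-1 : ℝ) 1, rr γ x t y ≤ RR γ := by
  unfold rr RR
  split_ifs with ht
  · rw [lintegral_const, Measure.restrict_apply_univ, Real.volume_Ioc]
    have : (2 : ℝ≥0∞) * ENNReal.ofReal (1 - -1) = 4 := by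
      rw [show (1 : ℝ) - -1 = 2 by norm_num, ENNReal.ofReal_ofNat]
      norm_num
    rw [this]
    exact le_self_add
  · set c := x / (2 * t) with hc
    set F : ℝ → ℝ≥0∞ := (Icc (-2 : ℝ) 2).indicator fun u => ENNReal.ofReal (|u| ^ (-(1 - γ)))
      with hF
    have h1 : ∀ y, ENNReal.ofReal (|y + c| ^ (γ - 1)) ≤ F (y + c) + 1 := by
      intro y
      by_cases hy : y + c ∈ Icc (-2 : ℝ) 2
      · rw [hF, indicator_of_mem hy, show -(1 - γ) = γ - 1 by ring]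
        exact le_self_add
      · refine le_trans ?_ le_add_self
        rw [← ENNReal.ofReal_one]
        apply ENNReal.ofReal_le_ofReal
        apply Real.rpow_le_one_of_one_le_of_nonpos _ (by linarith)
        by_contra hlt
        push Not at hlt
        apply hy
        have := abs_le.1 hlt.le
        exact ⟨by linarith [this.1], by linarith [this.2]⟩
    have hFm : Measurable F := by
      have h2 : Measurable fun u : ℝ => |u| := measurable_norm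
      exact ((h2.pow_const _).ennreal_ofReal).indicator measurableSet_Icc
    calc ∫⁻ y in Ioc (-1 : ℝ) 1, ENNReal.ofReal (|y + c| ^ (γ - 1))
        ≤ ∫⁻ y in Ioc (-1 : ℝ) 1, (F (y + c) + 1) := lintegral_mono h1
      _ = (∫⁻ y in Ioc (-1 : ℝ) 1, F (y + c)) + ∫⁻ y in Ioc (-1 : ℝ) 1, 1 :=
          lintegral_add_right _ measurable_const
      _ ≤ (∫⁻ y, F (y + c)) + 2 := by
          apply add_le_add (setLIntegral_le_lintegral _ _)
          rw [lintegral_const, Measure.restrict_apply_univ, Real.volume_Ioc]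
          norm_num
      _ = Iβ (1 - γ) + 2 := by
          rw [lintegral_add_right_eq_self F c, hF, lintegral_indicator measurableSet_Icc, Iβ]
      _ ≤ 4 + Iβ (1 - γ) := by
          rw [add_comm]
          gcongr
          norm_num

lemma RR_ne (γ : ℝ) (hγ0 : 0 < γ) : RR γ ≠ ⊤ := by
  unfold RR
  exact ENNReal.add_ne_top.2 ⟨by simp, Iβ_ne _ (by linarith)⟩

/-- `q`-th moment in `x` -/
noncomputable def Gq (h : ℝ → ℂ) (q t : ℝ) : ℝ≥0∞ := ∫⁻ x, ‖e1 h x t‖ₑ ^ q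

lemma Gq_meas {h : ℝ → ℂ} (hm : Measurable h) (q : ℝ) : Measurable (Gq h q) := by
  unfold Gq
  have h1 : Measurable fun p : ℝ × ℝ => ‖e1 h p.2 p.1‖ₑ ^ q :=
    ((e1_meas hm).comp measurable_swap).enorm.pow_const q
  exact h1.lintegral_prod_right'

lemma plan4 {h : ℝ → ℂ} (hm : Measurable h) (hb : ∀ y, ‖h y‖ ≤ 1) {T : ℝ} (hT : 0 < T)
    {β : ℝ} (hβ0 : 0 < β) (hβ1 : β < 1) :
    ∫⁻ t in SS T, (∫⁻ x, ‖e1 h x t‖ₑ ^ 4) ≤
      c4 * Iβ β * ENNReal.ofReal (4 * T ^ (1 - β)) * 2 := by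
  have h1 : ∀ t, ∫⁻ x, ‖e1 h x t‖ₑ ^ 4 ≤
      ∫⁻ x, ‖FT (ch (-(2 * Real.pi * t)) (cut h)) x‖ₑ ^ 4 := by
    intro t
    simp only [e1_eq]
    rw [scale2 (fun x => ‖FT (ch (-(2 * Real.pi * t)) (cut h)) x‖ₑ ^ 4)
      (((FT_meas1 _ ((cut_BS hm hb).ch _).meas).enorm.pow_const 4))]
    calc _ ≤ 1 * ∫⁻ x, ‖FT (ch (-(2 * Real.pi * t)) (cut h)) x‖ₑ ^ 4 := by
          gcongr
          rw [← ENNReal.ofReal_one]
          apply ENNReal.ofReal_le_ofReal
          apply inv_le_one_of_one_le₀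
          linarith [Real.pi_gt_three]
      _ = _ := one_mul _
  refine (lintegral_mono h1).trans ?_
  refine (L4' (volume.restrict (SS T)) (fun t => -(2 * Real.pi * t)) (by fun_prop)
    (cut_BS hm hb) (β := β) (ENNReal.ofReal (4 * T ^ (1 - β))) ?_).trans ?_
  · intro k hk σ
    have h2 : {l : ℝ | |2 * -(2 * Real.pi * l) * k - σ| ≤ 1 / 2} =
        {l : ℝ | |2 * l * (-(2 * Real.pi) * k) - σ| ≤ 1 / 2} := by
      ext l
      simp only [mem_ofPred_eq]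
      rw [show 2 * -(2 * Real.pi * l) * k - σ = 2 * l * (-(2 * Real.pi) * k) - σ by ring]
    rw [h2]
    have hpi : 0 < Real.pi := Real.pi_pos
    refine (SS_nu hT hβ0 hβ1 (-(2 * Real.pi) * k) (mul_ne_zero (by
      intro h; linarith [Real.pi_pos]) hk) σ).trans ?_
    have hk' : 0 < |k| := abs_pos.2 hk
    refine mul_le_mul_right (ENNReal.ofReal_le_ofReal ?_) _
    apply Real.rpow_le_rpow_of_nonpos hk' _ (by linarith)
    rw [abs_mul, abs_neg, abs_of_pos (show (0 : ℝ) < 2 * Real.pi by positivity)]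
    nlinarith [Real.pi_gt_three]
  · gcongr
    · exact le_of_eq rfl
    · exact cut_two hb 4 (by norm_num)

lemma plan2 {h : ℝ → ℂ} (hm : Measurable h) (hb : ∀ y, ‖h y‖ ≤ 1) {T : ℝ} :
    ∫⁻ t in SS T, (∫⁻ x, ‖e1 h x t‖ₑ ^ 2) ≤ 2 * ENNReal.ofReal (4 * T) := by
  calc _ ≤ ∫⁻ t in SS T, 2 := lintegral_mono fun t => e1_two_le hm hb t
    _ = 2 * volume (SS T) := by rw [lintegral_const, Measure.restrict_apply_univ]
    _ ≤ _ := by gcongr; exact SS_vol T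

/-- constant of the planar block estimate -/
noncomputable def CB (β q : ℝ) : ℝ≥0∞ :=
  (8 : ℝ≥0∞) ^ ((4 - q) / 2) * (c4 * Iβ β * 8) ^ ((q - 2) / 2)

lemma CB_ne (β q : ℝ) (hβ1 : β < 1) (h2 : 2 < q) (h4 : q < 4) : CB β q ≠ ⊤ := by
  unfold CB
  apply ENNReal.mul_ne_top
  · exact ENNReal.rpow_ne_top_of_nonneg (by linarith) (by simp)
  · apply ENNReal.rpow_ne_top_of_nonneg (by linarith)
    exact ENNReal.mul_ne_top (ENNReal.mul_ne_top c4_ne (Iβ_ne β hβ1)) (by simp)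

lemma plan_q {h : ℝ → ℂ} (hm : Measurable h) (hb : ∀ y, ‖h y‖ ≤ 1) {T : ℝ} (hT : 0 < T)
    {β : ℝ} (hβ0 : 0 < β) (hβ1 : β < 1) (q : ℝ) (h2 : 2 < q) (h4 : q < 4) :
    ∫⁻ t in SS T, Gq h q t ≤
      CB β q * ENNReal.ofReal (T ^ ((4 - q) / 2 + (1 - β) * ((q - 2) / 2))) := by
  have hmj : Measurable fun p : ℝ × ℝ => ‖e1 h p.2 p.1‖ₑ :=
    ((e1_meas hm).comp measurable_swap).enorm
  have h5 := holder24 ((volume.restrict (SS T)).prod volume) (fun p : ℝ × ℝ => ‖e1 h p.2 p.1‖ₑ)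
    hmj q h2 h4
  rw [lintegral_prod _ (hmj.pow_const q).aemeasurable,
    lintegral_prod _ (hmj.pow_const 2).aemeasurable,
    lintegral_prod _ (hmj.pow_const 4).aemeasurable] at h5
  unfold Gq
  refine h5.trans ?_
  have h6 : (∫⁻ t in SS T, (∫⁻ x, ‖e1 h x t‖ₑ ^ 2)) ≤ 8 * ENNReal.ofReal T * 1 := by
    refine (plan2 hm hb).trans (le_of_eq ?_)
    rw [ENNReal.ofReal_mul (by norm_num), ENNReal.ofReal_ofNat, ← mul_assoc, mul_one]
    norm_num
  have h7 : (∫⁻ t in SS T, (∫⁻ x, ‖e1 h x t‖ₑ ^ 4)) ≤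
      (c4 * Iβ β * 8) * ENNReal.ofReal (T ^ (1 - β)) * 1 := by
    refine (plan4 hm hb hT hβ0 hβ1).trans (le_of_eq ?_)
    rw [ENNReal.ofReal_mul (by norm_num), ENNReal.ofReal_ofNat, mul_one]
    have : (8 : ℝ≥0∞) = 4 * 2 := by norm_num
    rw [this]
    ring
  calc _ ≤ (8 * ENNReal.ofReal T * 1) ^ ((4 - q) / 2) *
        ((c4 * Iβ β * 8) * ENNReal.ofReal (T ^ (1 - β)) * 1) ^ ((q - 2) / 2) := by
        gcongr
    _ = _ := by
        rw [alg _ _ 1 1 T _ _ _ hT (by linarith) (by linarith)]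
        unfold CB
        simp

lemma Gq_small {h : ℝ → ℂ} (hm : Measurable h) (hb : ∀ y, ‖h y‖ ≤ 1) (q : ℝ) (h2 : 2 < q)
    (t : ℝ) : Gq h q t ≤ 2 ^ (q - 2) * 2 := by
  unfold Gq
  have h1 : ∀ x, ‖e1 h x t‖ₑ ^ q ≤ 2 ^ (q - 2) * ‖e1 h x t‖ₑ ^ 2 := by
    intro x
    have e : ‖e1 h x t‖ₑ ^ q = ‖e1 h x t‖ₑ ^ (q - 2) * ‖e1 h x t‖ₑ ^ 2 := by
      rw [← ENNReal.rpow_natCast _ 2, ← ENNReal.rpow_add_of_nonneg _ _ (by linarith) (by norm_num)]
      congr 1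
      push_cast
      ring
    rw [e]
    gcongr
    exact e1_bd hm hb x t
  calc _ ≤ ∫⁻ x, 2 ^ (q - 2) * ‖e1 h x t‖ₑ ^ 2 := lintegral_mono h1
    _ = 2 ^ (q - 2) * ∫⁻ x, ‖e1 h x t‖ₑ ^ 2 := by
        apply lintegral_const_mul
        have : Measurable fun x : ℝ => e1 h x t :=
          (e1_meas hm).comp (measurable_id.prodMk measurable_const)
        exact this.enorm.pow_const 2
    _ ≤ _ := by gcongr; exact e1_two_le hm hb t

/-- weight in time -/
noncomputable def wt (γ e t : ℝ) : ℝ≥0∞ := AA γ t ^ e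

lemma wt_SS (γ e T t : ℝ) (hγ1 : γ ≤ 1) (he : 0 ≤ e) (hT : 1 ≤ T) (ht : t ∈ SS T) :
    wt γ e t ≤ ENNReal.ofReal (16 ^ e) * ENNReal.ofReal (T ^ ((γ / 2 - 1) * e)) := by
  have h1 : AA γ t ≤ ENNReal.ofReal (16 * T ^ (γ / 2 - 1)) := by
    unfold AA
    split_ifs with h
    · have hT1 : T = 1 := le_antisymm (ht.1.trans h) hT
      rw [hT1, ← ENNReal.ofReal_one]
      apply ENNReal.ofReal_le_ofReal
      simp
    · apply ENNReal.ofReal_le_ofReal
      gcongr ?_ * ?_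
      exact Real.rpow_le_rpow_of_nonpos (by linarith) ht.1 (by linarith)
  unfold wt
  calc _ ≤ ENNReal.ofReal (16 * T ^ (γ / 2 - 1)) ^ e := by gcongr
    _ = _ := by
        rw [ENNReal.ofReal_mul (by norm_num), ENNReal.mul_rpow_of_nonneg _ _ he,
          ENNReal.ofReal_rpow_of_pos (by norm_num), ENNReal.ofReal_rpow_of_pos (by positivity),
          ← Real.rpow_mul (by linarith)]

lemma consts2 (m q : ℝ) (hm : 1 ≤ m) (hq : 2 * (m + 2) / (m + 1) < q) :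
    2 < q ∧ ∃ γ β : ℝ, 0 < γ ∧ γ ≤ 1 ∧ 0 < β ∧ β < 1 ∧
      (4 - q) / 2 + (1 - β) * ((q - 2) / 2) + (γ / 2 - 1) * (m * (q / 2 - 1)) < 0 := by
  have hq2 : 2 < q := by
    have h1 : 2 < 2 * (m + 2) / (m + 1) := by
      rw [lt_div_iff₀ (by linarith)]
      linarith
    linarith
  refine ⟨hq2, ?_⟩
  have hδ : 0 < (m + 1) * q - 2 * m - 4 := by
    rw [div_lt_iff₀ (by linarith)] at hq
    linarith
  set δ := (m + 1) * q - 2 * m - 4 with hδd
  have hd : 0 < (m + 1) * (q - 2) := mul_pos (by linarith) (by linarith)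
  set η := min (1 / 4) (δ / (2 * ((m + 1) * (q - 2)))) with hη
  have hη0 : 0 < η := lt_min (by norm_num) (by positivity)
  have hη1 : η ≤ 1 / 4 := min_le_left _ _
  have hη2 : η * ((m + 1) * (q - 2)) ≤ δ / 2 := by
    have : η ≤ δ / (2 * ((m + 1) * (q - 2))) := min_le_right _ _
    rw [le_div_iff₀ (by positivity)] at this
    linarith
  refine ⟨2 * η, 1 - η, by linarith, by linarith, by linarith, by linarith, ?_⟩
  have e : (4 - q) / 2 + (1 - (1 - η)) * ((q - 2) / 2) + (2 * η / 2 - 1) * (m * (q / 2 - 1)) =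
      (-δ + η * ((m + 1) * (q - 2))) / 2 := by
    rw [hδd]
    ring
  rw [e]
  linarith

/-- the weighted planar estimate -/
theorem wtotal (m q : ℝ) (hm : 1 ≤ m) (hq : 2 * (m + 2) / (m + 1) < q) (h4 : q < 4) :
    ∃ γ : ℝ, 0 < γ ∧ γ ≤ 1 ∧ ∃ K : ℝ≥0∞, K ≠ ⊤ ∧ ∀ h : ℝ → ℂ, Measurable h → (∀ y, ‖h y‖ ≤ 1) →
      ∫⁻ t, wt γ (m * (q / 2 - 1)) t * Gq h q t ≤ K := by
  obtain ⟨h2, γ, β, hγ0, hγ1, hβ0, hβ1, hE⟩ := consts2 m q hm hq
  set e := m * (q / 2 - 1) with he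
  have he0 : 0 ≤ e := mul_nonneg (by linarith) (by linarith)
  set E := (4 - q) / 2 + (1 - β) * ((q - 2) / 2) + (γ / 2 - 1) * e with hEd
  refine ⟨γ, hγ0, hγ1, 2 ^ (q - 2) * 2 * 2 +
    (∑' j : ℕ, ENNReal.ofReal (((2 : ℝ) ^ j) ^ E)) * (ENNReal.ofReal (16 ^ e) * CB β q), ?_, ?_⟩
  · apply ENNReal.add_ne_top.2
    constructor
    · apply ENNReal.mul_ne_top _ (by simp)
      exact ENNReal.mul_ne_top (ENNReal.rpow_ne_top_of_nonneg (by linarith) (by simp)) (by simp)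
    · exact ENNReal.mul_ne_top (tsum_fin E hE)
        (ENNReal.mul_ne_top ENNReal.ofReal_ne_top (CB_ne β q hβ1 h2 h4))
  · intro h hmh hb
    set F : ℝ → ℝ≥0∞ := fun t => wt γ e t * Gq h q t with hF
    have hcov : ∫⁻ t, F t ≤ (∫⁻ t in Icc (-1 : ℝ) 1, F t) + ∑' j : ℕ, ∫⁻ t in SS ((2 : ℝ) ^ j), F t := by
      calc ∫⁻ t, F t = ∫⁻ t in univ, F t := by rw [Measure.restrict_univ]
        _ ≤ ∫⁻ t in Icc (-1 : ℝ) 1 ∪ ⋃ j : ℕ, SS ((2 : ℝ) ^ j), F t := lintegral_mono_set cover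
        _ ≤ _ := (lintegral_union_le _ _ _).trans (add_le_add le_rfl (lintegral_iUnion_le _ _))
    refine hcov.trans (add_le_add ?_ ?_)
    · calc ∫⁻ t in Icc (-1 : ℝ) 1, F t ≤ ∫⁻ t in Icc (-1 : ℝ) 1, 2 ^ (q - 2) * 2 := by
            apply setLIntegral_mono measurable_const
            intro t ht
            have h1 : AA γ t = 1 := by
              unfold AA
              rw [if_pos (abs_le.2 ht)]
            rw [hF]
            simp only [wt, h1, ENNReal.one_rpow, one_mul]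
            exact Gq_small hmh hb q h2 t
        _ = _ := by
            rw [lintegral_const, Measure.restrict_apply_univ, Real.volume_Icc]
            norm_num
    · rw [← ENNReal.tsum_mul_right]
      apply ENNReal.tsum_le_tsum
      intro j
      have hT : (1 : ℝ) ≤ 2 ^ j := one_le_pow₀ (by norm_num)
      calc ∫⁻ t in SS ((2 : ℝ) ^ j), F t
          ≤ ∫⁻ t in SS ((2 : ℝ) ^ j), (ENNReal.ofReal (16 ^ e) *
            ENNReal.ofReal (((2 : ℝ) ^ j) ^ ((γ / 2 - 1) * e))) * Gq h q t := by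
            apply setLIntegral_mono ((Gq_meas hmh q).const_mul _)
            intro t ht
            exact mul_le_mul_left (wt_SS γ e _ t hγ1 he0 hT ht) _
        _ = (ENNReal.ofReal (16 ^ e) * ENNReal.ofReal (((2 : ℝ) ^ j) ^ ((γ / 2 - 1) * e))) *
            ∫⁻ t in SS ((2 : ℝ) ^ j), Gq h q t := lintegral_const_mul _ (Gq_meas hmh q)
        _ ≤ (ENNReal.ofReal (16 ^ e) * ENNReal.ofReal (((2 : ℝ) ^ j) ^ ((γ / 2 - 1) * e))) *
            (CB β q * ENNReal.ofReal (((2 : ℝ) ^ j) ^ ((4 - q) / 2 + (1 - β) * ((q - 2) / 2)))) := by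
            gcongr
            exact plan_q hmh hb (by linarith) hβ0 hβ1 q h2 h4
        _ = ENNReal.ofReal (((2 : ℝ) ^ j) ^ E) * (ENNReal.ofReal (16 ^ e) * CB β q) := by
            rw [hEd, Real.rpow_add (by positivity) _ ((γ / 2 - 1) * e),
              ENNReal.ofReal_mul (by positivity)]
            ring

end Pool.Agent.H728R3.SR
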