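import Mathlib
import Pool.Agent.H728R3.SR.C
set_option autoImplicit false

namespace Pool.Agent.H728R3.SR
open MeasureTheory Set Complex Filter Topology
open Pool.Agent.H147R3.PE
open scoped ENNReal

/-- Tonelli for products -/
lemma lint_prod : ∀ (m : ℕ) (f : Fin m → ℝ → ℝ≥0∞), (∀ j, Measurable (f j)) →
    ∫⁻ x : Fin m → ℝ, ∏ j, f j (x j) = ∏ j, ∫⁻ y, f j y := by
  intro m
  induction m with
  | zero =>
    intro f _
    simp [volume_pi, Measure.pi_of_empty]
  | succ m ih =>
    intro f hf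
    have h1 := (volume_preserving_piFinSuccAbove (fun _ : Fin (m + 1) => ℝ) 0).symm
    have h2 := h1.lintegral_comp_emb (MeasurableEquiv.measurableEmbedding _)
      (fun x : Fin (m + 1) → ℝ => ∏ j, f j (x j))
    rw [← h2, Fin.prod_univ_succ]
    have h3 : ∀ p : ℝ × (Fin m → ℝ), ∏ j, f j ((MeasurableEquiv.piFinSuccAbove
        (fun _ : Fin (m + 1) => ℝ) 0).symm p j) = f 0 p.1 * ∏ j : Fin m, f j.succ (p.2 j) := by
      intro p
      rw [Fin.prod_univ_succ]
      simp [MeasurableEquiv.piFinSuccAbove]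
    simp only [h3]
    have h4 : (volume : Measure (ℝ × (Fin m → ℝ))) = volume.prod volume := rfl
    have h5 := lintegral_prod_mul (μ := (volume : Measure ℝ)) (ν := (volume : Measure (Fin m → ℝ)))
      (f := f 0) (g := fun y => ∏ j : Fin m, f j.succ (y j)) (hf 0).aemeasurable
      (Finset.measurable_prod _ fun j _ => (hf j.succ).comp (measurable_pi_apply j)).aemeasurable
    rw [ih (fun j => f j.succ) (fun j => hf j.succ)] at h5
    exact h5

/-- extension operator for the paraboloid over the cube `[-1,1]^n` -/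
noncomputable def ext {n : ℕ} (f : (Fin n → ℝ) → ℂ) (y : (Fin n → ℝ) × ℝ) : ℂ :=
  ∫ ξ in Icc (fun _ : Fin n => (-1 : ℝ)) (fun _ => 1),
    f ξ * cexp (2 * Real.pi * I * ((∑ j, ξ j * y.1 j + (∑ j, ξ j ^ 2) * y.2 : ℝ) : ℂ))

lemma restrict_cube (n : ℕ) :
    (volume : Measure (Fin n → ℝ)).restrict (Icc (fun _ : Fin n => (-1 : ℝ)) (fun _ => 1)) =
      Measure.pi fun _ : Fin n => (volume : Measure ℝ).restrict (Icc (-1) 1) := by
  rw [← Set.pi_univ_Icc, volume_pi, Measure.restrict_pi_pi]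

lemma ext_prod {n : ℕ} (H : Fin n → ℝ → ℂ) (y : (Fin n → ℝ) × ℝ) :
    ext (fun ξ => ∏ j, H j (ξ j)) y = ∏ j, e1 (H j) (y.1 j) y.2 := by
  unfold ext e1
  rw [restrict_cube, ← integral_fintype_prod_eq_prod (μ := fun _ : Fin n =>
    (volume : Measure ℝ).restrict (Icc (-1) 1))]
  apply integral_congr_ae
  refine ae_of_all _ fun ξ => ?_
  simp only
  rw [Finset.prod_mul_distrib, ← Complex.exp_sum, ← Finset.mul_sum, ← Complex.ofReal_sum,
    Finset.sum_add_distrib, Finset.sum_mul]

/-- the elementary pieces: an axis-parallel box in the last `m` frequency variables times an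
arbitrary function of the first one -/
noncomputable def pc {m : ℕ} (a b : Fin m → ℝ) (g : ℝ → ℂ) (ξ : Fin (m + 1) → ℝ) : ℂ :=
  (Icc a b).indicator (fun _ => g (ξ 0)) (Fin.tail ξ)

lemma pc_eq {m : ℕ} (a b : Fin m → ℝ) (g : ℝ → ℂ) :
    pc a b g = fun ξ => ∏ j, (Fin.cons g (fun j => ind (a j) (b j)) : Fin (m + 1) → ℝ → ℂ) j (ξ j) := by
  ext ξ
  rw [Fin.prod_univ_succ]
  simp only [Fin.cons_zero, Fin.cons_succ]
  unfold pc
  by_cases h : Fin.tail ξ ∈ Icc a b
  · rw [indicator_of_mem h]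
    have : ∀ j : Fin m, ind (a j) (b j) (ξ j.succ) = 1 := by
      intro j
      unfold ind
      rw [indicator_of_mem]
      exact ⟨h.1 j, h.2 j⟩
    simp [this]
  · rw [indicator_of_notMem h]
    have : ∃ j : Fin m, ind (a j) (b j) (ξ j.succ) = 0 := by
      by_contra hne
      push Not at hne
      apply h
      constructor
      · intro j
        by_contra hj
        apply hne j
        unfold ind
        rw [indicator_of_notMem]
        intro h2
        exact hj h2.1
      · intro j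
        by_contra hj
        apply hne j
        unfold ind
        rw [indicator_of_notMem]
        intro h2
        exact hj h2.2
    obtain ⟨j, hj⟩ := this
    rw [Finset.prod_eq_zero (Finset.mem_univ j) hj, mul_zero]

lemma ext_pc {m : ℕ} (a b : Fin m → ℝ) (g : ℝ → ℂ) (y : (Fin (m + 1) → ℝ) × ℝ) :
    ext (pc a b g) y = e1 g (y.1 0) y.2 * ∏ j, e1 (ind (a j) (b j)) (y.1 j.succ) y.2 := by
  rw [pc_eq, ext_prod, Fin.prod_univ_succ]
  simp only [Fin.cons_zero, Fin.cons_succ]

/-- admissible families -/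
structure Adm {m : ℕ} {ι : Type*} [Fintype ι] (c : ι → ℝ) (a b : ι → Fin m → ℝ)
    (g : ι → ℝ → ℂ) : Prop where
  lo : ∀ k j, -1 ≤ a k j
  le : ∀ k j, a k j ≤ b k j
  hi : ∀ k j, b k j ≤ 1
  meas : ∀ k, Measurable (g k)
  bd : ∀ k y, ‖g k y‖ ≤ 1
  ov : ∀ᵐ ξ : Fin m → ℝ, ∑ k, c k ^ 2 * (Icc (a k) (b k)).indicator (fun _ => (1 : ℝ)) ξ ≤ 1

variable {m : ℕ} {ι : Type*} [Fintype ι] {c : ι → ℝ} {a b : ι → Fin m → ℝ} {g : ι → ℝ → ℂ}

lemma Adm.ov' (h : Adm c a b g) : ∀ᵐ ξ : Fin m → ℝ,
    ∑ k, ENNReal.ofReal (c k ^ 2) * (Icc (a k) (b k)).indicator (fun _ => (1 : ℝ≥0∞)) ξ ≤ 1 := by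
  filter_upwards [h.ov] with ξ hξ
  have h1 : ∀ k, ENNReal.ofReal (c k ^ 2) * (Icc (a k) (b k)).indicator (fun _ => (1 : ℝ≥0∞)) ξ =
      ENNReal.ofReal (c k ^ 2 * (Icc (a k) (b k)).indicator (fun _ => (1 : ℝ)) ξ) := by
    intro k
    by_cases hk : ξ ∈ Icc (a k) (b k)
    · rw [indicator_of_mem hk, indicator_of_mem hk, mul_one, mul_one]
    · rw [indicator_of_notMem hk, indicator_of_notMem hk]
      simp
  simp only [h1]
  rw [← ENNReal.ofReal_sum_of_nonneg]
  · rw [← ENNReal.ofReal_one]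
    exact ENNReal.ofReal_le_ofReal hξ
  · intro k _
    apply mul_nonneg (sq_nonneg _)
    exact indicator_nonneg (fun _ _ => zero_le_one) _

/-- weights -/
noncomputable def ww (c : ι → ℝ) (a b : ι → Fin m → ℝ) (k : ι) (x : Fin m → ℝ) (t : ℝ) : ℝ≥0∞ :=
  ENNReal.ofReal (c k ^ 2) * ∏ j, ‖e1 (ind (a k j) (b k j)) (x j) t‖ₑ ^ 2

lemma Adm.weight (h : Adm c a b g) (γ : ℝ) (hγ0 : 0 < γ) (hγ1 : γ ≤ 1) (x : Fin m → ℝ) (t : ℝ) :
    ∑ k, ww c a b k x t ≤ (AA γ t * RR γ) ^ m := by
  set R : Fin m → ℝ → ℝ≥0∞ := fun j => (Ioc (-1 : ℝ) 1).indicator (rr γ (x j) t) with hR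
  have hRm : ∀ j, Measurable (R j) := fun j => (rr_meas γ (x j) t).indicator measurableSet_Ioc
  have h1 : ∀ k, ww c a b k x t ≤ AA γ t ^ m * (ENNReal.ofReal (c k ^ 2) *
      ∫⁻ y : Fin m → ℝ, ∏ j, (Ioc (a k j) (b k j)).indicator (rr γ (x j) t) (y j)) := by
    intro k
    unfold ww
    rw [lint_prod m (fun j => (Ioc (a k j) (b k j)).indicator (rr γ (x j) t))
      (fun j => (rr_meas γ (x j) t).indicator measurableSet_Ioc)]
    simp only [lintegral_indicator measurableSet_Ioc]
    calc ENNReal.ofReal (c k ^ 2) * ∏ j, ‖e1 (ind (a k j) (b k j)) (x j) t‖ₑ ^ 2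
        ≤ ENNReal.ofReal (c k ^ 2) *
          ∏ j, (AA γ t * ∫⁻ y in Ioc (a k j) (b k j), rr γ (x j) t y) := by
          gcongr with j
          exact ind_dom γ (x j) t _ _ (h.lo k j) (h.le k j) (h.hi k j) hγ0 hγ1
      _ = _ := by
          rw [Finset.prod_mul_distrib, Finset.prod_const, Finset.card_univ, Fintype.card_fin]
          ring
  calc ∑ k, ww c a b k x t ≤ ∑ k, AA γ t ^ m * (ENNReal.ofReal (c k ^ 2) *
        ∫⁻ y : Fin m → ℝ, ∏ j, (Ioc (a k j) (b k j)).indicator (rr γ (x j) t) (y j)) :=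
        Finset.sum_le_sum fun k _ => h1 k
    _ = AA γ t ^ m * ∫⁻ y : Fin m → ℝ, ∑ k, ENNReal.ofReal (c k ^ 2) *
        ∏ j, (Ioc (a k j) (b k j)).indicator (rr γ (x j) t) (y j) := by
        rw [← Finset.mul_sum, lintegral_finsetSum]
        · congr 1
          apply Finset.sum_congr rfl
          intro k _
          rw [lintegral_const_mul]
          exact Finset.measurable_prod _ fun j _ =>
            ((rr_meas γ (x j) t).indicator measurableSet_Ioc).comp (measurable_pi_apply j)
        · intro k _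
          apply Measurable.const_mul
          exact Finset.measurable_prod _ fun j _ =>
            ((rr_meas γ (x j) t).indicator measurableSet_Ioc).comp (measurable_pi_apply j)
    _ ≤ AA γ t ^ m * ∫⁻ y : Fin m → ℝ, ∏ j, R j (y j) := by
        refine mul_le_mul_right ?_ _
        apply lintegral_mono_ae
        filter_upwards [h.ov'] with y hy
        have h2 : ∀ k, ∏ j, (Ioc (a k j) (b k j)).indicator (rr γ (x j) t) (y j) ≤
            (Icc (a k) (b k)).indicator (fun _ => (1 : ℝ≥0∞)) y * ∏ j, R j (y j) := by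
          intro k
          by_cases hk : ∀ j, y j ∈ Ioc (a k j) (b k j)
          · have hmem : y ∈ Icc (a k) (b k) := ⟨fun j => (hk j).1.le, fun j => (hk j).2⟩
            rw [indicator_of_mem hmem, one_mul]
            apply Finset.prod_le_prod' 
            intro j _
            rw [indicator_of_mem (hk j), hR]
            simp only
            rw [indicator_of_mem]
            exact ⟨lt_of_le_of_lt (h.lo k j) (hk j).1, (hk j).2.trans (h.hi k j)⟩
          · push Not at hk
            obtain ⟨j, hj⟩ := hk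
            rw [Finset.prod_eq_zero (Finset.mem_univ j) (indicator_of_notMem hj _)]
            exact zero_le
        calc ∑ k, ENNReal.ofReal (c k ^ 2) *
              ∏ j, (Ioc (a k j) (b k j)).indicator (rr γ (x j) t) (y j)
            ≤ ∑ k, ENNReal.ofReal (c k ^ 2) *
              ((Icc (a k) (b k)).indicator (fun _ => (1 : ℝ≥0∞)) y * ∏ j, R j (y j)) := by
              gcongr with k
              exact h2 k
          _ = (∑ k, ENNReal.ofReal (c k ^ 2) *
              (Icc (a k) (b k)).indicator (fun _ => (1 : ℝ≥0∞)) y) * ∏ j, R j (y j) := by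
              rw [Finset.sum_mul]
              simp only [mul_assoc]
          _ ≤ 1 * ∏ j, R j (y j) := by gcongr
          _ = _ := one_mul _
    _ = AA γ t ^ m * ∏ j, ∫⁻ y in Ioc (-1 : ℝ) 1, rr γ (x j) t y := by
        rw [lint_prod m R hRm]
        simp only [hR, lintegral_indicator measurableSet_Ioc]
    _ ≤ AA γ t ^ m * ∏ j : Fin m, RR γ := by
        gcongr with j
        exact rr_total γ (x j) t hγ0 hγ1
    _ = _ := by
        rw [Finset.prod_const, Finset.card_univ, Fintype.card_fin, mul_pow]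

lemma Adm.mass (h : Adm c a b g) :
    ∑ k, ENNReal.ofReal (c k ^ 2) * ∏ j, ENNReal.ofReal (b k j - a k j) ≤ 2 ^ m := by
  have h1 : ∀ k, ENNReal.ofReal (c k ^ 2) * ∏ j, ENNReal.ofReal (b k j - a k j) =
      ∫⁻ ξ in Icc (fun _ : Fin m => (-1 : ℝ)) (fun _ => 1), ENNReal.ofReal (c k ^ 2) *
        (Icc (a k) (b k)).indicator (fun _ => (1 : ℝ≥0∞)) ξ := by
    intro k
    rw [lintegral_const_mul _ (measurable_const.indicator measurableSet_Icc),
      lintegral_indicator measurableSet_Icc, Measure.restrict_restrict measurableSet_Icc,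
      inter_eq_left.2, lintegral_const, Measure.restrict_apply_univ, Real.volume_Icc_pi, one_mul]
    exact Icc_subset_Icc (fun j => h.lo k j) (fun j => h.hi k j)
  simp only [h1]
  rw [← lintegral_finsetSum]
  · calc _ ≤ ∫⁻ ξ in Icc (fun _ : Fin m => (-1 : ℝ)) (fun _ => 1), 1 := by
          apply lintegral_mono_ae
          exact ae_restrict_of_ae h.ov'
      _ = _ := by
          rw [lintegral_const, Measure.restrict_apply_univ, Real.volume_Icc_pi, one_mul]
          norm_num
  · intro k _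
    exact (measurable_const.indicator measurableSet_Icc).const_mul _

end Pool.Agent.H728R3.SR
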