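import Mathlib
set_option autoImplicit false

/-! Khinchine's inequality (upper bound, all exponents) for averages over signs. -/

namespace Pool.Agent.H728R3.SR
open MeasureTheory Set Complex Filter Topology
open scoped ENNReal

/-- the sign of a boolean -/
def sg (e : Bool) : ℝ := if e then 1 else -1

variable {ι : Type*} [Fintype ι] [DecidableEq ι]

lemma sum_exp (v : ι → ℝ) :
    ∑ ε : ι → Bool, Real.exp (∑ k, sg (ε k) * v k) ≤
      2 ^ Fintype.card ι * Real.exp ((∑ k, v k ^ 2) / 2) := by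

  have h1 : ∑ ε : ι → Bool, Real.exp (∑ k, sg (ε k) * v k) =
      ∏ k, ∑ e : Bool, Real.exp (sg e * v k) := by
    rw [Finset.prod_univ_sum, Fintype.piFinset_univ]
    apply Finset.sum_congr rfl
    intro ε _
    rw [Real.exp_sum]
  rw [h1]
  have h2 : ∀ k, ∑ e : Bool, Real.exp (sg e * v k) ≤ 2 * Real.exp (v k ^ 2 / 2) := by
    intro k
    have h3 := Real.cosh_le_exp_half_sq (v k)
    rw [Real.cosh_eq] at h3
    simp only [Fintype.sum_bool, sg, if_true, Bool.false_eq_true, if_false, one_mul, neg_mul]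
    linarith
  calc ∏ k, ∑ e : Bool, Real.exp (sg e * v k) ≤ ∏ k, (2 * Real.exp (v k ^ 2 / 2)) := by
        apply Finset.prod_le_prod
        · intro k _
          apply Finset.sum_nonneg
          intro e _
          positivity
        · intro k _
          exact h2 k
    _ = _ := by
        rw [Finset.prod_mul_distrib, Finset.prod_const, Finset.card_univ, ← Real.exp_sum,
          Finset.sum_div]

/-- the constant for normalised real sums -/
noncomputable def K0 (q : ℝ) : ℝ := 4 * (⌈q⌉₊.factorial : ℝ) * Real.exp (1 / 2)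

lemma pow_le_exp (q x : ℝ) (hq : 0 ≤ q) :
    |x| ^ q ≤ 2 * (⌈q⌉₊.factorial : ℝ) * (Real.exp x + Real.exp (-x)) := by
  set n := ⌈q⌉₊ with hn
  have hf : (1 : ℝ) ≤ (n.factorial : ℝ) := by exact_mod_cast Nat.one_le_iff_ne_zero.2 (Nat.factorial_ne_zero n)
  have h1 : |x| ^ q ≤ 1 + |x| ^ n := by
    rcases le_or_gt |x| 1 with h | h
    · have : |x| ^ q ≤ 1 := Real.rpow_le_one (abs_nonneg _) h hq
      have : 0 ≤ |x| ^ n := by positivity
      linarith
    · have : |x| ^ q ≤ |x| ^ (n : ℝ) := Real.rpow_le_rpow_of_exponent_le h.le (Nat.le_ceil q)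
      rw [Real.rpow_natCast] at this
      linarith
  have h2 : |x| ^ n ≤ n.factorial * Real.exp |x| := by
    have := Real.pow_div_factorial_le_exp |x| (abs_nonneg x) n
    rw [div_le_iff₀ (by positivity)] at this
    linarith
  have h3 : 1 ≤ (n.factorial : ℝ) * Real.exp |x| := by
    have : 1 ≤ Real.exp |x| := Real.one_le_exp (abs_nonneg x)
    nlinarith
  have h4 : Real.exp |x| ≤ Real.exp x + Real.exp (-x) := by
    rcases abs_cases x with h | h
    · rw [h.1]
      have := Real.exp_pos (-x)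
      linarith
    · rw [h.1]
      have := Real.exp_pos x
      linarith
  calc |x| ^ q ≤ 2 * (n.factorial * Real.exp |x|) := by linarith
    _ ≤ 2 * (n.factorial * (Real.exp x + Real.exp (-x))) := by gcongr
    _ = _ := by ring

lemma kh_norm (q : ℝ) (hq : 0 ≤ q) (v : ι → ℝ) (hv : ∑ k, v k ^ 2 ≤ 1) :
    ∑ ε : ι → Bool, |∑ k, sg (ε k) * v k| ^ q ≤ 2 ^ Fintype.card ι * K0 q := by
  have h1 := sum_exp v
  have h2 := sum_exp (fun k => -v k)
  have e2 : ∀ ε : ι → Bool, ∑ k, sg (ε k) * -v k = -∑ k, sg (ε k) * v k := by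
    intro ε
    rw [← Finset.sum_neg_distrib]
    apply Finset.sum_congr rfl
    intro k _
    ring
  simp only [e2, neg_sq] at h2
  have h3 : Real.exp ((∑ k, v k ^ 2) / 2) ≤ Real.exp (1 / 2) := by
    apply Real.exp_le_exp.2
    linarith
  calc ∑ ε : ι → Bool, |∑ k, sg (ε k) * v k| ^ q
      ≤ ∑ ε : ι → Bool, 2 * (⌈q⌉₊.factorial : ℝ) * (Real.exp (∑ k, sg (ε k) * v k) +
        Real.exp (-∑ k, sg (ε k) * v k)) := Finset.sum_le_sum fun ε _ => pow_le_exp q _ hq
    _ = 2 * (⌈q⌉₊.factorial : ℝ) * ((∑ ε : ι → Bool, Real.exp (∑ k, sg (ε k) * v k)) +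
        ∑ ε : ι → Bool, Real.exp (-∑ k, sg (ε k) * v k)) := by
        rw [← Finset.mul_sum, Finset.sum_add_distrib]
    _ ≤ 2 * (⌈q⌉₊.factorial : ℝ) * (2 ^ Fintype.card ι * Real.exp (1 / 2) +
        2 ^ Fintype.card ι * Real.exp (1 / 2)) := by
        gcongr
        · exact h1.trans (by gcongr)
        · exact h2.trans (by gcongr)
    _ = _ := by
        unfold K0
        ring

lemma kh_real (q : ℝ) (hq : 0 < q) (v : ι → ℝ) (S : ℝ) (hS : 0 ≤ S) (hv : ∑ k, v k ^ 2 ≤ S ^ 2) :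
    ∑ ε : ι → Bool, |∑ k, sg (ε k) * v k| ^ q ≤ 2 ^ Fintype.card ι * K0 q * S ^ q := by
  rcases hS.eq_or_lt with h | h
  · have h0 : ∀ k, v k = 0 := by
      intro k
      have h1 : v k ^ 2 ≤ ∑ k, v k ^ 2 :=
        Finset.single_le_sum (f := fun k => v k ^ 2) (fun i _ => sq_nonneg _) (Finset.mem_univ k)
      have h2 : v k ^ 2 ≤ 0 := by
        rw [← h] at hv
        linarith
      nlinarith [sq_nonneg (v k)]
    simp [h0, Real.zero_rpow hq.ne', ← h]
  · have h1 : ∑ k, (v k / S) ^ 2 ≤ 1 := by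
      simp only [div_pow]
      rw [← Finset.sum_div, div_le_one (by positivity)]
      exact hv
    have h2 := kh_norm q hq.le (fun k => v k / S) h1
    have h3 : ∀ ε : ι → Bool, |∑ k, sg (ε k) * v k| ^ q =
        S ^ q * |∑ k, sg (ε k) * (v k / S)| ^ q := by
      intro ε
      rw [← Real.mul_rpow h.le (abs_nonneg _)]
      congr 1
      rw [show S * |∑ k, sg (ε k) * (v k / S)| = |S * ∑ k, sg (ε k) * (v k / S)| by
        rw [abs_mul, abs_of_pos h], Finset.mul_sum]
      congr 1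
      apply Finset.sum_congr rfl
      intro k _
      field_simp
    simp only [h3]
    rw [← Finset.mul_sum]
    calc _ ≤ S ^ q * (2 ^ Fintype.card ι * K0 q) := by gcongr
      _ = _ := by ring

/-- the constant -/
noncomputable def K1 (q : ℝ) : ℝ := 2 * 2 ^ q * K0 q

/-- **Khinchine's inequality** -/
theorem khinchine (q : ℝ) (hq : 0 < q) (z : ι → ℂ) :
    ∑ ε : ι → Bool, ‖∑ k, (sg (ε k) : ℂ) * z k‖ₑ ^ q ≤
      2 ^ Fintype.card ι * (ENNReal.ofReal (K1 q) * (∑ k, ‖z k‖ₑ ^ 2) ^ (q / 2)) := by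
  set S := Real.sqrt (∑ k, ‖z k‖ ^ 2) with hS
  have hS0 : 0 ≤ S := Real.sqrt_nonneg _
  have hSS : S ^ 2 = ∑ k, ‖z k‖ ^ 2 := Real.sq_sqrt (Finset.sum_nonneg fun _ _ => sq_nonneg _)
  have hre : ∑ k, (z k).re ^ 2 ≤ S ^ 2 := by
    rw [hSS]
    apply Finset.sum_le_sum
    intro k _
    rw [← sq_abs]
    exact pow_le_pow_left₀ (abs_nonneg _) (Complex.abs_re_le_norm _) 2
  have him : ∑ k, (z k).im ^ 2 ≤ S ^ 2 := by
    rw [hSS]
    apply Finset.sum_le_sum
    intro k _
    rw [← sq_abs]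
    exact pow_le_pow_left₀ (abs_nonneg _) (Complex.abs_im_le_norm _) 2
  have h1 := kh_real q hq (fun k => (z k).re) S hS0 hre
  have h2 := kh_real q hq (fun k => (z k).im) S hS0 him
  have h3 : ∀ ε : ι → Bool, ‖∑ k, (sg (ε k) : ℂ) * z k‖ ^ q ≤
      2 ^ q * (|∑ k, sg (ε k) * (z k).re| ^ q + |∑ k, sg (ε k) * (z k).im| ^ q) := by
    intro ε
    set w := ∑ k, (sg (ε k) : ℂ) * z k with hw
    have e1 : w.re = ∑ k, sg (ε k) * (z k).re := by
      rw [hw, Complex.re_sum]
      apply Finset.sum_congr rfl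
      intro k _
      rw [Complex.re_ofReal_mul]
    have e2 : w.im = ∑ k, sg (ε k) * (z k).im := by
      rw [hw, Complex.im_sum]
      apply Finset.sum_congr rfl
      intro k _
      rw [Complex.im_ofReal_mul]
    rw [← e1, ← e2]
    have e3 : ‖w‖ ≤ |w.re| + |w.im| := Complex.norm_le_abs_re_add_abs_im w
    have e4 : ‖w‖ ≤ 2 * max |w.re| |w.im| := by
      have := le_max_left |w.re| |w.im|
      have := le_max_right |w.re| |w.im|
      linarith
    calc ‖w‖ ^ q ≤ (2 * max |w.re| |w.im|) ^ q := Real.rpow_le_rpow (norm_nonneg _) e4 hq.le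
      _ = 2 ^ q * (max |w.re| |w.im|) ^ q :=
          Real.mul_rpow (by norm_num) (le_max_of_le_left (abs_nonneg _))
      _ ≤ _ := by
          gcongr
          rcases max_cases |w.re| |w.im| with h | h
          · rw [h.1]
            have : 0 ≤ |w.im| ^ q := by positivity
            linarith
          · rw [h.1]
            have : 0 ≤ |w.re| ^ q := by positivity
            linarith
  have h4 : ∑ ε : ι → Bool, ‖∑ k, (sg (ε k) : ℂ) * z k‖ ^ q ≤
      2 ^ Fintype.card ι * (K1 q * S ^ q) := by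
    calc _ ≤ ∑ ε : ι → Bool, 2 ^ q * (|∑ k, sg (ε k) * (z k).re| ^ q +
          |∑ k, sg (ε k) * (z k).im| ^ q) := Finset.sum_le_sum fun ε _ => h3 ε
      _ = 2 ^ q * ((∑ ε : ι → Bool, |∑ k, sg (ε k) * (z k).re| ^ q) +
          ∑ ε : ι → Bool, |∑ k, sg (ε k) * (z k).im| ^ q) := by
          rw [← Finset.mul_sum, Finset.sum_add_distrib]
      _ ≤ 2 ^ q * (2 ^ Fintype.card ι * K0 q * S ^ q + 2 ^ Fintype.card ι * K0 q * S ^ q) := by
          gcongr
      _ = _ := by
          unfold K1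
          ring
  have hK0 : 0 ≤ K0 q := by unfold K0; positivity
  have hK1 : 0 ≤ K1 q := by unfold K1; positivity
  have h5 : ∀ w : ℂ, ‖w‖ₑ ^ q = ENNReal.ofReal (‖w‖ ^ q) := by
    intro w
    rw [← ofReal_norm, ENNReal.ofReal_rpow_of_nonneg (norm_nonneg _) hq.le]
  simp only [h5]
  rw [← ENNReal.ofReal_sum_of_nonneg (fun _ _ => by positivity)]
  have h6 : (∑ k, ‖z k‖ₑ ^ 2) ^ (q / 2) = ENNReal.ofReal (S ^ q) := by
    have e1 : ∑ k, ‖z k‖ₑ ^ 2 = ENNReal.ofReal (S ^ 2) := by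
      rw [hSS, ENNReal.ofReal_sum_of_nonneg (fun _ _ => by positivity)]
      apply Finset.sum_congr rfl
      intro k _
      rw [← ofReal_norm, ENNReal.ofReal_pow (norm_nonneg _)]
    rw [e1, ENNReal.ofReal_rpow_of_nonneg (by positivity) (by linarith)]
    congr 1
    rw [← Real.rpow_natCast S 2, ← Real.rpow_mul hS0]
    congr 1
    push_cast
    ring
  rw [h6, ← ENNReal.ofReal_mul hK1]
  have h7 : (2 : ℝ≥0∞) ^ Fintype.card ι = ENNReal.ofReal (2 ^ Fintype.card ι) := by
    rw [ENNReal.ofReal_pow (by norm_num), ENNReal.ofReal_ofNat]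
  rw [h7, ← ENNReal.ofReal_mul (by positivity)]
  exact ENNReal.ofReal_le_ofReal h4

end Pool.Agent.H728R3.SR
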