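import Mathlib
import Pool.Agent.H728R3.SR.D
import Pool.Agent.H728R3.SR.K
set_option autoImplicit false

namespace Pool.Agent.H728R3.SR
open MeasureTheory Set Complex Filter Topology
open Pool.Agent.H147R3.PE
open scoped ENNReal

variable {m : ℕ} {ι : Type*} [Fintype ι] {c : ι → ℝ} {a b : ι → Fin m → ℝ} {g : ι → ℝ → ℂ}

/-- square function (squared) -/
noncomputable def SQ (c : ι → ℝ) (a b : ι → Fin m → ℝ) (g : ι → ℝ → ℂ)
    (y : (Fin (m + 1) → ℝ) × ℝ) : ℝ≥0∞ :=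
  ∑ k, ‖(c k : ℂ) * ext (pc (a k) (b k) (g k)) y‖ₑ ^ 2

lemma SQ_eq (c : ι → ℝ) (a b : ι → Fin m → ℝ) (g : ι → ℝ → ℂ) (y : (Fin (m + 1) → ℝ) × ℝ) :
    SQ c a b g y = ∑ k, ww c a b k (Fin.tail y.1) y.2 * ‖e1 (g k) (y.1 0) y.2‖ₑ ^ 2 := by
  unfold SQ
  apply Finset.sum_congr rfl
  intro k _
  rw [ext_pc, enorm_mul, enorm_mul, mul_pow, mul_pow]
  have h1 : ‖(c k : ℂ)‖ₑ ^ 2 = ENNReal.ofReal (c k ^ 2) := by
    rw [← ofReal_norm, ← ENNReal.ofReal_pow (norm_nonneg _), Complex.norm_real,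
      Real.norm_eq_abs, sq_abs]
  have h2 : ‖∏ j, e1 (ind (a k j) (b k j)) (y.1 j.succ) y.2‖ₑ ^ 2 =
      ∏ j, ‖e1 (ind (a k j) (b k j)) (y.1 j.succ) y.2‖ₑ ^ 2 := by
    rw [← ofReal_norm, norm_prod, ENNReal.ofReal_prod_of_nonneg (fun _ _ => norm_nonneg _),
      ← Finset.prod_pow]
    simp only [ofReal_norm]
  rw [h1, h2]
  unfold ww
  simp only [Fin.tail]
  ring

lemma jensen (r : ℝ) (hr : 1 ≤ r) (p f : ι → ℝ≥0∞) :
    (∑ k, p k * f k) ^ r ≤ (∑ k, p k) ^ (r - 1) * ∑ k, p k * f k ^ r := by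
  have h1 := ENNReal.inner_le_weight_mul_Lp_of_nonneg Finset.univ hr p f
  have hr0 : 0 < r := by linarith
  calc (∑ k, p k * f k) ^ r ≤ ((∑ k, p k) ^ (1 - r⁻¹) * (∑ k, p k * f k ^ r) ^ r⁻¹) ^ r := by
        gcongr
    _ = _ := by
        rw [ENNReal.mul_rpow_of_nonneg _ _ hr0.le, ← ENNReal.rpow_mul, ← ENNReal.rpow_mul,
          inv_mul_cancel₀ hr0.ne', ENNReal.rpow_one]
        congr 2
        field_simp

lemma SQ_pt (h : Adm c a b g) (γ : ℝ) (hγ0 : 0 < γ) (hγ1 : γ ≤ 1) (q : ℝ) (h2 : 2 < q)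
    (y : (Fin (m + 1) → ℝ) × ℝ) :
    SQ c a b g y ^ (q / 2) ≤ wt γ (m * (q / 2 - 1)) y.2 * RR γ ^ ((m : ℝ) * (q / 2 - 1)) *
      ∑ k, ww c a b k (Fin.tail y.1) y.2 * ‖e1 (g k) (y.1 0) y.2‖ₑ ^ q := by
  rw [SQ_eq]
  refine (jensen (q / 2) (by linarith) _ _).trans ?_
  have h1 : ∀ k, (‖e1 (g k) (y.1 0) y.2‖ₑ ^ 2) ^ (q / 2) = ‖e1 (g k) (y.1 0) y.2‖ₑ ^ q := by
    intro k
    rw [← ENNReal.rpow_natCast, ← ENNReal.rpow_mul]
    congr 1
    push_cast
    ring
  simp only [h1]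
  refine mul_le_mul_left ?_ _
  calc (∑ k, ww c a b k (Fin.tail y.1) y.2) ^ (q / 2 - 1)
      ≤ ((AA γ y.2 * RR γ) ^ m) ^ (q / 2 - 1) := by
        gcongr
        · linarith
        · exact h.weight γ hγ0 hγ1 _ _
    _ = _ := by
        unfold wt
        rw [← ENNReal.mul_rpow_of_nonneg _ _ (mul_nonneg (by positivity) (by linarith)),
          ← ENNReal.rpow_natCast, ← ENNReal.rpow_mul]

lemma int_x (h : Adm c a b g) (q : ℝ) (k : ι) (t : ℝ) :
    ∫⁻ x : Fin (m + 1) → ℝ, ww c a b k (Fin.tail x) t * ‖e1 (g k) (x 0) t‖ₑ ^ q ≤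
      ENNReal.ofReal (c k ^ 2) * (∏ j, ENNReal.ofReal (b k j - a k j)) * Gq (g k) q t := by
  set F : Fin (m + 1) → ℝ → ℝ≥0∞ := Fin.cons (fun x => ‖e1 (g k) x t‖ₑ ^ q)
    (fun j x => ‖e1 (ind (a k j) (b k j)) x t‖ₑ ^ 2) with hF
  have hmeas : ∀ u : ℝ → ℂ, Measurable u → Measurable fun x => e1 u x t := fun u hu =>
    (e1_meas hu).comp (measurable_id.prodMk measurable_const)
  have hFm : ∀ j, Measurable (F j) := by
    intro j
    refine Fin.cases ?_ (fun i => ?_) j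
    · rw [hF, Fin.cons_zero]
      exact (hmeas _ (h.meas k)).enorm.pow_const q
    · rw [hF, Fin.cons_succ]
      exact (hmeas _ (ind_meas _ _)).enorm.pow_const 2
  have h1 : ∀ x : Fin (m + 1) → ℝ, ww c a b k (Fin.tail x) t * ‖e1 (g k) (x 0) t‖ₑ ^ q =
      ENNReal.ofReal (c k ^ 2) * ∏ j, F j (x j) := by
    intro x
    rw [Fin.prod_univ_succ]
    unfold ww
    simp only [hF, Fin.cons_zero, Fin.cons_succ, Fin.tail]
    ring
  simp only [h1]
  have hpm : Measurable fun x : Fin (m + 1) → ℝ => ∏ j, F j (x j) :=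
    Finset.measurable_prod _ fun j _ => (hFm j).comp (measurable_pi_apply j)
  rw [lintegral_const_mul _ hpm, lint_prod _ F hFm, Fin.prod_univ_succ, mul_assoc]
  refine mul_le_mul_right ?_ _
  simp only [hF, Fin.cons_zero, Fin.cons_succ]
  rw [mul_comm]
  unfold Gq
  gcongr with j
  exact ind_two _ _ t

theorem square_low (m : ℕ) (hm : 1 ≤ m) (q : ℝ) (hq : 2 * ((m : ℝ) + 2) / (m + 1) < q)
    (h4 : q < 4) :
    ∃ C : ℝ≥0∞, C ≠ ⊤ ∧ ∀ (ι : Type) [Fintype ι] (c : ι → ℝ) (a b : ι → Fin m → ℝ)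
      (g : ι → ℝ → ℂ), Adm c a b g → ∫⁻ y, SQ c a b g y ^ (q / 2) ≤ C := by
  have hm' : (1 : ℝ) ≤ m := by exact_mod_cast hm
  obtain ⟨h2, -⟩ := consts2 m q hm' hq
  obtain ⟨γ, hγ0, hγ1, K, hK, hKK⟩ := wtotal m q hm' hq h4
  refine ⟨RR γ ^ ((m : ℝ) * (q / 2 - 1)) * (2 ^ m * K), ?_, ?_⟩
  · apply ENNReal.mul_ne_top
    · exact ENNReal.rpow_ne_top_of_nonneg (mul_nonneg (by positivity) (by linarith))
        (RR_ne γ hγ0)
    · exact ENNReal.mul_ne_top (ENNReal.pow_ne_top (by simp)) hK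
  · intro ι _ c a b g h
    have hmj : ∀ k, Measurable fun y : (Fin (m + 1) → ℝ) × ℝ =>
        ww c a b k (Fin.tail y.1) y.2 * ‖e1 (g k) (y.1 0) y.2‖ₑ ^ q := by
      intro k
      apply Measurable.mul
      · unfold ww
        apply Measurable.const_mul
        apply Finset.measurable_prod
        intro j _
        have h5 : Measurable fun y : (Fin (m + 1) → ℝ) × ℝ => (y.1 j.succ, y.2) := by fun_prop
        exact ((e1_meas (ind_meas _ _)).comp h5).enorm.pow_const 2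
      · have h5 : Measurable fun y : (Fin (m + 1) → ℝ) × ℝ => (y.1 0, y.2) := by fun_prop
        exact ((e1_meas (h.meas k)).comp h5).enorm.pow_const q
    have hAm : Measurable fun t : ℝ => wt γ (m * (q / 2 - 1)) t := by
      unfold wt
      apply Measurable.pow_const
      unfold AA
      apply Measurable.ite (measurableSet_le measurable_norm measurable_const) measurable_const
      have h6 : Measurable fun t : ℝ => |t| := measurable_norm
      exact ((h6.pow_const _).const_mul 16).ennreal_ofReal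
    set W : ℝ → ℝ≥0∞ := fun t => wt γ (m * (q / 2 - 1)) t with hW
    set B : ℝ≥0∞ := RR γ ^ ((m : ℝ) * (q / 2 - 1)) with hB
    set P : ι → (Fin (m + 1) → ℝ) × ℝ → ℝ≥0∞ := fun k y =>
      ww c a b k (Fin.tail y.1) y.2 * ‖e1 (g k) (y.1 0) y.2‖ₑ ^ q with hP
    have hPm : ∀ k, Measurable (P k) := hmj
    have hSm : Measurable fun y => ∑ k, P k y := Finset.measurable_sum _ fun k _ => hPm k
    have hWB : Measurable fun y : (Fin (m + 1) → ℝ) × ℝ => W y.2 * B :=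
      (hAm.comp measurable_snd).mul_const B
    have hTm : Measurable fun y : (Fin (m + 1) → ℝ) × ℝ => W y.2 * B * ∑ k, P k y :=
      hWB.mul hSm
    have s1 : ∫⁻ y, SQ c a b g y ^ (q / 2) ≤
        ∫⁻ y : (Fin (m + 1) → ℝ) × ℝ, W y.2 * B * ∑ k, P k y :=
      lintegral_mono fun y => SQ_pt h γ hγ0 hγ1 q h2 y
    have s2 : ∫⁻ y : (Fin (m + 1) → ℝ) × ℝ, W y.2 * B * ∑ k, P k y =
        ∫⁻ t, ∫⁻ x : Fin (m + 1) → ℝ, W t * B * ∑ k, P k (x, t) := by
      rw [Measure.volume_eq_prod]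
      exact lintegral_prod_symm' _ hTm
    have h7 : ∀ k t, Measurable fun x : Fin (m + 1) → ℝ => P k (x, t) := fun k t =>
      (hPm k).comp (measurable_id.prodMk measurable_const)
    have s3 : ∀ t, ∫⁻ x : Fin (m + 1) → ℝ, W t * B * ∑ k, P k (x, t) ≤
        B * ∑ k, ENNReal.ofReal (c k ^ 2) * (∏ j, ENNReal.ofReal (b k j - a k j)) *
                (W t * Gq (g k) q t) := by
      intro t
      rw [lintegral_const_mul _ (Finset.measurable_sum _ fun k _ => h7 k t),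
        lintegral_finsetSum _ fun k _ => h7 k t]
      have e1 : ∑ k, ∫⁻ x : Fin (m + 1) → ℝ, P k (x, t) ≤
          ∑ k, ENNReal.ofReal (c k ^ 2) * (∏ j, ENNReal.ofReal (b k j - a k j)) *
            Gq (g k) q t := Finset.sum_le_sum fun k _ => int_x h q k t
      calc W t * B * ∑ k, ∫⁻ x : Fin (m + 1) → ℝ, P k (x, t) ≤
            W t * B * ∑ k, ENNReal.ofReal (c k ^ 2) * (∏ j, ENNReal.ofReal (b k j - a k j)) *
            Gq (g k) q t := mul_le_mul_right e1 _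
        _ = _ := by
            rw [mul_comm (W t), mul_assoc, Finset.mul_sum]
            congr 1
            apply Finset.sum_congr rfl
            intro k _
            ring
    have h8 : ∀ k, Measurable fun t => W t * Gq (g k) q t :=
      fun k => hAm.mul (Gq_meas (h.meas k) q)
    have s4 : ∫⁻ t, B * ∑ k, ENNReal.ofReal (c k ^ 2) *
        (∏ j, ENNReal.ofReal (b k j - a k j)) * (W t * Gq (g k) q t) =
        B * ∑ k, ENNReal.ofReal (c k ^ 2) *
          (∏ j, ENNReal.ofReal (b k j - a k j)) * ∫⁻ t, W t * Gq (g k) q t := by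
      rw [lintegral_const_mul _ (Finset.measurable_sum _ fun k _ => (h8 k).const_mul _),
        lintegral_finsetSum _ fun k _ => (h8 k).const_mul _]
      congr 1
      apply Finset.sum_congr rfl
      intro k _
      rw [lintegral_const_mul _ (h8 k)]
    have s5 : ∑ k, ENNReal.ofReal (c k ^ 2) *
        (∏ j, ENNReal.ofReal (b k j - a k j)) * ∫⁻ t, W t * Gq (g k) q t ≤ 2 ^ m * K := by
      calc _ ≤ ∑ k, ENNReal.ofReal (c k ^ 2) * (∏ j, ENNReal.ofReal (b k j - a k j)) * K :=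
            Finset.sum_le_sum fun k _ => mul_le_mul_right (hKK _ (h.meas k) (h.bd k)) _
        _ = (∑ k, ENNReal.ofReal (c k ^ 2) * (∏ j, ENNReal.ofReal (b k j - a k j))) * K := by
            rw [Finset.sum_mul]
        _ ≤ 2 ^ m * K := mul_le_mul_left h.mass _
    calc ∫⁻ y, SQ c a b g y ^ (q / 2) ≤ _ := s1
      _ = _ := s2
      _ ≤ _ := lintegral_mono s3
      _ = _ := s4
      _ ≤ _ := mul_le_mul_right s5 _

lemma SQ_bd (h : Adm c a b g) (y : (Fin (m + 1) → ℝ) × ℝ) :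
    SQ c a b g y ≤ (16 * RR 1) ^ m * 4 := by
  rw [SQ_eq]
  calc ∑ k, ww c a b k (Fin.tail y.1) y.2 * ‖e1 (g k) (y.1 0) y.2‖ₑ ^ 2
      ≤ ∑ k, ww c a b k (Fin.tail y.1) y.2 * 4 := by
        gcongr with k
        calc _ ≤ (2 : ℝ≥0∞) ^ 2 := by
              gcongr
              exact e1_bd (h.meas k) (h.bd k) _ _
          _ = 4 := by norm_num
    _ = (∑ k, ww c a b k (Fin.tail y.1) y.2) * 4 := by rw [Finset.sum_mul]
    _ ≤ (AA 1 y.2 * RR 1) ^ m * 4 := by
        gcongr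
        exact h.weight 1 one_pos le_rfl _ _
    _ ≤ _ := by
        gcongr
        unfold AA
        split_ifs with ht
        · norm_num
        · push Not at ht
          rw [show (16 : ℝ≥0∞) = ENNReal.ofReal 16 by simp]
          apply ENNReal.ofReal_le_ofReal
          have : |y.2| ^ ((1 : ℝ) / 2 - 1) ≤ 1 :=
            Real.rpow_le_one_of_one_le_of_nonpos ht.le (by norm_num)
          linarith

/-- **The square function estimate in the full range.** -/
theorem square (m : ℕ) (hm : 1 ≤ m) (q : ℝ) (hq : 2 * ((m : ℝ) + 2) / (m + 1) < q) :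
    ∃ C : ℝ≥0∞, C ≠ ⊤ ∧ ∀ (ι : Type) [Fintype ι] (c : ι → ℝ) (a b : ι → Fin m → ℝ)
      (g : ι → ℝ → ℂ), Adm c a b g → ∫⁻ y, SQ c a b g y ^ (q / 2) ≤ C := by
  have hm' : (1 : ℝ) ≤ m := by exact_mod_cast hm
  rcases lt_or_ge q 4 with h4 | h4
  · exact square_low m hm q hq h4
  · set q0 : ℝ := 7 / 2 with hq0
    have h1 : 2 * ((m : ℝ) + 2) / (m + 1) < q0 := by
      rw [div_lt_iff₀ (by linarith), hq0]
      linarith
    obtain ⟨C, hC, hCC⟩ := square_low m hm q0 h1 (by norm_num)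
    refine ⟨((16 * RR 1) ^ m * 4) ^ ((q - q0) / 2) * C, ?_, ?_⟩
    · apply ENNReal.mul_ne_top _ hC
      apply ENNReal.rpow_ne_top_of_nonneg
      · rw [hq0]; linarith
      · exact ENNReal.mul_ne_top (ENNReal.pow_ne_top (ENNReal.mul_ne_top (by simp)
          (RR_ne 1 one_pos))) (by simp)
    · intro ι _ c a b g h
      have hd : 0 ≤ (q - q0) / 2 := by rw [hq0]; linarith
      have hB : ((16 * RR 1) ^ m * 4) ^ ((q - q0) / 2) ≠ ⊤ :=
        ENNReal.rpow_ne_top_of_nonneg hd (ENNReal.mul_ne_top (ENNReal.pow_ne_top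
          (ENNReal.mul_ne_top (by simp) (RR_ne 1 one_pos))) (by simp))
      calc ∫⁻ y, SQ c a b g y ^ (q / 2)
          ≤ ∫⁻ y, ((16 * RR 1) ^ m * 4) ^ ((q - q0) / 2) * SQ c a b g y ^ (q0 / 2) := by
            apply lintegral_mono
            intro y
            have e : q / 2 = (q - q0) / 2 + q0 / 2 := by ring
            simp only
            rw [e, ENNReal.rpow_add_of_nonneg _ _ hd (by rw [hq0]; norm_num)]
            gcongr
            exact SQ_bd h y
        _ = ((16 * RR 1) ^ m * 4) ^ ((q - q0) / 2) * ∫⁻ y, SQ c a b g y ^ (q0 / 2) :=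
            lintegral_const_mul' _ _ hB
        _ ≤ _ := by
            gcongr
            exact hCC ι c a b g h

lemma e1_meas_y (u : ℝ → ℂ) (hu : Measurable u) (j : Fin (m + 1)) :
    Measurable fun y : (Fin (m + 1) → ℝ) × ℝ => e1 u (y.1 j) y.2 := by
  have h5 : Measurable fun y : (Fin (m + 1) → ℝ) × ℝ => (y.1 j, y.2) := by fun_prop
  exact (e1_meas hu).comp h5

lemma ext_pc_meas (a b : Fin m → ℝ) (g : ℝ → ℂ) (hg : Measurable g) :
    Measurable (ext (pc a b g)) := by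
  have h1 := e1_meas_y (m := m) g hg 0
  have h2 : ∀ j : Fin m, Measurable fun y : (Fin (m + 1) → ℝ) × ℝ =>
      e1 (ind (a j) (b j)) (y.1 j.succ) y.2 := fun j => e1_meas_y _ (ind_meas _ _) j.succ
  have h3 : Measurable fun y : (Fin (m + 1) → ℝ) × ℝ =>
      ∏ j, e1 (ind (a j) (b j)) (y.1 j.succ) y.2 := Finset.measurable_prod _ fun j _ => h2 j
  have e : ext (pc a b g) = fun y => e1 g (y.1 0) y.2 *
      ∏ j, e1 (ind (a j) (b j)) (y.1 j.succ) y.2 := funext (ext_pc a b g)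
  rw [e]
  exact h1.mul h3

end Pool.Agent.H728R3.SR
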