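import Mathlib
import Pool.Agent.H728R3.SR.C
set_option autoImplicit false

/-! Planar estimates with the `L^2` norm of the density on the right. -/

namespace Pool.Agent.H728R3.SR
open MeasureTheory Set Complex Filter Topology
open Pool.Agent.H147R3.PE
open scoped ENNReal

/-- `L^2` mass on `[-1,1]` -/
noncomputable def M2 (h : ℝ → ℂ) : ℝ≥0∞ := ∫⁻ z, ‖cut h z‖ₑ ^ 2

lemma plan4' {h : ℝ → ℂ} (hm : Measurable h) (hb : ∀ y, ‖h y‖ ≤ 1) {T : ℝ} (hT : 0 < T)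
    {β : ℝ} (hβ0 : 0 < β) (hβ1 : β < 1) :
    ∫⁻ t in SS T, (∫⁻ x, ‖e1 h x t‖ₑ ^ 4) ≤
      c4 * Iβ β * ENNReal.ofReal (4 * T ^ (1 - β)) * M2 h := by
  have h1 : ∀ t, ∫⁻ x, ‖e1 h x t‖ₑ ^ 4 ≤
      ∫⁻ x, ‖FT (ch (-(2 * Real.pi * t)) (cut h)) x‖ₑ ^ 4 := by
    intro t
    simp only [e1_eq]
    rw [scale2 (fun x => ‖FT (ch (-(2 * Real.pi * t)) (cut h)) x‖ₑ ^ 4)
      (((FT_meas1 _ ((cut_BS hm hb).ch _).meas).enorm.pow_const 4))]
    calc _ ≤ 1 * ∫⁻ x, ‖FT (ch (-(2 * Real.pi * t)) (cut h)) x‖ₑ ^ 4 := by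
          gcongr
          rw [← ENNReal.ofReal_one]
          apply ENNReal.ofReal_le_ofReal
          apply inv_le_one_of_one_le₀
          linarith [Real.pi_gt_three]
      _ = _ := one_mul _
  refine (lintegral_mono h1).trans ?_
  refine (L4' (volume.restrict (SS T)) (fun t => -(2 * Real.pi * t)) (by fun_prop)
    (cut_BS hm hb) (β := β) (ENNReal.ofReal (4 * T ^ (1 - β))) ?_).trans ?_
  · intro k hk σ
    have h2 : {l : ℝ | |2 * -(2 * Real.pi * l) * k - σ| ≤ 1 / 2} =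
        {l : ℝ | |2 * l * (-(2 * Real.pi) * k) - σ| ≤ 1 / 2} := by
      ext l
      simp only [mem_ofPred_eq]
      rw [show 2 * -(2 * Real.pi * l) * k - σ = 2 * l * (-(2 * Real.pi) * k) - σ by ring]
    rw [h2]
    have hpi : 0 < Real.pi := Real.pi_pos
    refine (SS_nu hT hβ0 hβ1 (-(2 * Real.pi) * k) (mul_ne_zero (by
      intro h; linarith [Real.pi_pos]) hk) σ).trans ?_
    have hk' : 0 < |k| := abs_pos.2 hk
    refine mul_le_mul_right (ENNReal.ofReal_le_ofReal ?_) _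
    apply Real.rpow_le_rpow_of_nonpos hk' _ (by linarith)
    rw [abs_mul, abs_neg, abs_of_pos (show (0 : ℝ) < 2 * Real.pi by positivity)]
    nlinarith [Real.pi_gt_three]
  · gcongr
    · exact le_of_eq rfl
    · unfold M2
      apply lintegral_mono
      intro z
      have h3 : ‖cut h z‖ₑ ≤ 1 := by
        rw [← ofReal_norm, ← ENNReal.ofReal_one]
        apply ENNReal.ofReal_le_ofReal
        unfold cut
        exact (norm_indicator_le_norm_self _ _).trans (hb z)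
      calc ‖cut h z‖ₑ ^ 4 = ‖cut h z‖ₑ ^ 2 * ‖cut h z‖ₑ ^ 2 := by ring
        _ ≤ ‖cut h z‖ₑ ^ 2 * 1 := by
            gcongr
            exact pow_le_one' h3 2
        _ = _ := mul_one _

lemma plan2' {h : ℝ → ℂ} (hm : Measurable h) (hb : ∀ y, ‖h y‖ ≤ 1) {T : ℝ} :
    ∫⁻ t in SS T, (∫⁻ x, ‖e1 h x t‖ₑ ^ 2) ≤ M2 h * ENNReal.ofReal (4 * T) := by
  calc _ = ∫⁻ t in SS T, M2 h := lintegral_congr fun t => e1_two hm hb t
    _ = M2 h * volume (SS T) := by rw [lintegral_const, Measure.restrict_apply_univ]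
    _ ≤ _ := by gcongr; exact SS_vol T

/-- constant of the planar block estimate -/
noncomputable def CB' (β q : ℝ) : ℝ≥0∞ :=
  (4 : ℝ≥0∞) ^ ((4 - q) / 2) * (c4 * Iβ β * 4) ^ ((q - 2) / 2)

lemma CB'_ne (β q : ℝ) (hβ1 : β < 1) (h2 : 2 < q) (h4 : q < 4) : CB' β q ≠ ⊤ := by
  unfold CB'
  apply ENNReal.mul_ne_top
  · exact ENNReal.rpow_ne_top_of_nonneg (by linarith) (by simp)
  · apply ENNReal.rpow_ne_top_of_nonneg (by linarith)
    exact ENNReal.mul_ne_top (ENNReal.mul_ne_top c4_ne (Iβ_ne β hβ1)) (by simp)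

lemma plan_q' {h : ℝ → ℂ} (hm : Measurable h) (hb : ∀ y, ‖h y‖ ≤ 1) {T : ℝ} (hT : 0 < T)
    {β : ℝ} (hβ0 : 0 < β) (hβ1 : β < 1) (q : ℝ) (h2 : 2 < q) (h4 : q < 4) :
    ∫⁻ t in SS T, Gq h q t ≤
      CB' β q * ENNReal.ofReal (T ^ ((4 - q) / 2 + (1 - β) * ((q - 2) / 2))) * M2 h := by
  have hmj : Measurable fun p : ℝ × ℝ => ‖e1 h p.2 p.1‖ₑ :=
    ((e1_meas hm).comp measurable_swap).enorm
  have h5 := holder24 ((volume.restrict (SS T)).prod volume) (fun p : ℝ × ℝ => ‖e1 h p.2 p.1‖ₑ)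
    hmj q h2 h4
  rw [lintegral_prod _ (hmj.pow_const q).aemeasurable,
    lintegral_prod _ (hmj.pow_const 2).aemeasurable,
    lintegral_prod _ (hmj.pow_const 4).aemeasurable] at h5
  unfold Gq
  refine h5.trans ?_
  have h6 : (∫⁻ t in SS T, (∫⁻ x, ‖e1 h x t‖ₑ ^ 2)) ≤ 4 * ENNReal.ofReal T * M2 h := by
    refine (plan2' hm hb).trans (le_of_eq ?_)
    rw [ENNReal.ofReal_mul (by norm_num), ENNReal.ofReal_ofNat]
    ring
  have h7 : (∫⁻ t in SS T, (∫⁻ x, ‖e1 h x t‖ₑ ^ 4)) ≤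
      (c4 * Iβ β * 4) * ENNReal.ofReal (T ^ (1 - β)) * M2 h := by
    refine (plan4' hm hb hT hβ0 hβ1).trans (le_of_eq ?_)
    rw [ENNReal.ofReal_mul (by norm_num), ENNReal.ofReal_ofNat]
    ring
  calc _ ≤ (4 * ENNReal.ofReal T * M2 h) ^ ((4 - q) / 2) *
        ((c4 * Iβ β * 4) * ENNReal.ofReal (T ^ (1 - β)) * M2 h) ^ ((q - 2) / 2) := by
        gcongr
    _ = _ := by
        rw [alg _ _ _ _ T _ _ _ hT (by linarith) (by linarith),
          ← ENNReal.rpow_add_of_nonneg _ _ (by linarith) (by linarith)]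
        have : (4 - q) / 2 + (q - 2) / 2 = 1 := by ring
        rw [this, ENNReal.rpow_one]
        rfl

lemma Gq_small' {h : ℝ → ℂ} (hm : Measurable h) (hb : ∀ y, ‖h y‖ ≤ 1) (q : ℝ) (h2 : 2 < q)
    (t : ℝ) : Gq h q t ≤ 2 ^ (q - 2) * M2 h := by
  unfold Gq
  have h1 : ∀ x, ‖e1 h x t‖ₑ ^ q ≤ 2 ^ (q - 2) * ‖e1 h x t‖ₑ ^ 2 := by
    intro x
    have e : ‖e1 h x t‖ₑ ^ q = ‖e1 h x t‖ₑ ^ (q - 2) * ‖e1 h x t‖ₑ ^ 2 := by
      rw [← ENNReal.rpow_natCast _ 2, ← ENNReal.rpow_add_of_nonneg _ _ (by linarith) (by norm_num)]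
      congr 1
      push_cast
      ring
    rw [e]
    gcongr
    exact e1_bd hm hb x t
  calc _ ≤ ∫⁻ x, 2 ^ (q - 2) * ‖e1 h x t‖ₑ ^ 2 := lintegral_mono h1
    _ = 2 ^ (q - 2) * ∫⁻ x, ‖e1 h x t‖ₑ ^ 2 := by
        apply lintegral_const_mul
        have : Measurable fun x : ℝ => e1 h x t :=
          (e1_meas hm).comp (measurable_id.prodMk measurable_const)
        exact this.enorm.pow_const 2
    _ = _ := by rw [e1_two hm hb t]; rfl

lemma AA_meas (γ : ℝ) : Measurable fun t : ℝ => AA γ t := by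
  unfold AA
  apply Measurable.ite (measurableSet_le measurable_norm measurable_const) measurable_const
  have h6 : Measurable fun t : ℝ => |t| := measurable_norm
  exact ((h6.pow_const _).const_mul 16).ennreal_ofReal

lemma wt_meas' (γ e : ℝ) : Measurable fun t : ℝ => wt γ e t := by
  unfold wt
  exact (AA_meas γ).pow_const e

/-- the weighted planar estimate for bounded functions -/
theorem wtotal1 (q : ℝ) (hq : 3 < q) (h4 : q < 4) :
    ∃ γ : ℝ, 0 < γ ∧ γ ≤ 1 ∧ ∃ K : ℝ≥0∞, K ≠ ⊤ ∧ ∀ h : ℝ → ℂ, Measurable h → (∀ y, ‖h y‖ ≤ 1) →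
      ∫⁻ t, wt γ (q / 2 - 1) t * Gq h q t ≤ K * M2 h := by
  obtain ⟨h2, γ, β, hγ0, hγ1, hβ0, hβ1, hE⟩ := consts2 1 q le_rfl (by norm_num; linarith)
  rw [one_mul] at hE
  set e := q / 2 - 1 with he
  have he0 : 0 ≤ e := by linarith
  set E := (4 - q) / 2 + (1 - β) * ((q - 2) / 2) + (γ / 2 - 1) * e with hEd
  refine ⟨γ, hγ0, hγ1, 2 ^ (q - 2) * 2 +
    (∑' j : ℕ, ENNReal.ofReal (((2 : ℝ) ^ j) ^ E)) * (ENNReal.ofReal (16 ^ e) * CB' β q), ?_, ?_⟩
  · apply ENNReal.add_ne_top.2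
    constructor
    · exact ENNReal.mul_ne_top (ENNReal.rpow_ne_top_of_nonneg (by linarith) (by simp)) (by simp)
    · exact ENNReal.mul_ne_top (tsum_fin E hE)
        (ENNReal.mul_ne_top ENNReal.ofReal_ne_top (CB'_ne β q hβ1 h2 h4))
  · intro h hmh hb
    set F : ℝ → ℝ≥0∞ := fun t => wt γ e t * Gq h q t with hF
    have hcov : ∫⁻ t, F t ≤ (∫⁻ t in Icc (-1 : ℝ) 1, F t) + ∑' j : ℕ, ∫⁻ t in SS ((2 : ℝ) ^ j), F t := by
      calc ∫⁻ t, F t = ∫⁻ t in univ, F t := by rw [Measure.restrict_univ]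
        _ ≤ ∫⁻ t in Icc (-1 : ℝ) 1 ∪ ⋃ j : ℕ, SS ((2 : ℝ) ^ j), F t := lintegral_mono_set cover
        _ ≤ _ := (lintegral_union_le _ _ _).trans (add_le_add le_rfl (lintegral_iUnion_le _ _))
    rw [add_mul]
    refine hcov.trans (add_le_add ?_ ?_)
    · calc ∫⁻ t in Icc (-1 : ℝ) 1, F t ≤ ∫⁻ t in Icc (-1 : ℝ) 1, 2 ^ (q - 2) * M2 h := by
            apply setLIntegral_mono measurable_const
            intro t ht
            have h1 : AA γ t = 1 := by
              unfold AA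
              rw [if_pos (abs_le.2 ht)]
            rw [hF]
            simp only [wt, h1, ENNReal.one_rpow, one_mul]
            exact Gq_small' hmh hb q h2 t
        _ = _ := by
            rw [lintegral_const, Measure.restrict_apply_univ, Real.volume_Icc]
            norm_num
            ring
    · rw [mul_assoc, ← ENNReal.tsum_mul_right]
      apply ENNReal.tsum_le_tsum
      intro j
      have hT : (1 : ℝ) ≤ 2 ^ j := one_le_pow₀ (by norm_num)
      calc ∫⁻ t in SS ((2 : ℝ) ^ j), F t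
          ≤ ∫⁻ t in SS ((2 : ℝ) ^ j), (ENNReal.ofReal (16 ^ e) *
            ENNReal.ofReal (((2 : ℝ) ^ j) ^ ((γ / 2 - 1) * e))) * Gq h q t := by
            apply setLIntegral_mono ((Gq_meas hmh q).const_mul _)
            intro t ht
            exact mul_le_mul_left (wt_SS γ e _ t hγ1 he0 hT ht) _
        _ = (ENNReal.ofReal (16 ^ e) * ENNReal.ofReal (((2 : ℝ) ^ j) ^ ((γ / 2 - 1) * e))) *
            ∫⁻ t in SS ((2 : ℝ) ^ j), Gq h q t := lintegral_const_mul _ (Gq_meas hmh q)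
        _ ≤ (ENNReal.ofReal (16 ^ e) * ENNReal.ofReal (((2 : ℝ) ^ j) ^ ((γ / 2 - 1) * e))) *
            (CB' β q * ENNReal.ofReal (((2 : ℝ) ^ j) ^ ((4 - q) / 2 + (1 - β) * ((q - 2) / 2))) *
              M2 h) := by
            gcongr
            exact plan_q' hmh hb (by linarith) hβ0 hβ1 q h2 h4
        _ = ENNReal.ofReal (((2 : ℝ) ^ j) ^ E) * ((ENNReal.ofReal (16 ^ e) * CB' β q) * M2 h) := by
            rw [hEd, Real.rpow_add (by positivity) _ ((γ / 2 - 1) * e),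
              ENNReal.ofReal_mul (by positivity)]
            ring

lemma e1_smul (c : ℂ) (h : ℝ → ℂ) (x t : ℝ) : e1 (fun y => c * h y) x t = c * e1 h x t := by
  unfold e1
  rw [← integral_const_mul]
  congr 1
  ext y
  ring

lemma M2_smul (c : ℂ) (h : ℝ → ℂ) (hm : Measurable h) :
    M2 (fun y => c * h y) = ‖c‖ₑ ^ 2 * M2 h := by
  unfold M2
  have hcm : Measurable fun z => ‖cut h z‖ₑ ^ 2 :=
    (hm.indicator measurableSet_Icc).enorm.pow_const 2
  rw [← lintegral_const_mul _ hcm]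
  apply lintegral_congr
  intro z
  have : cut (fun y => c * h y) z = c * cut h z := by
    unfold cut
    by_cases hz : z ∈ Icc (-1 : ℝ) 1
    · rw [indicator_of_mem hz, indicator_of_mem hz]
    · rw [indicator_of_notMem hz, indicator_of_notMem hz, mul_zero]
  rw [this, enorm_mul, mul_pow]

/-- the weighted planar estimate -/
theorem wtotal2 (q : ℝ) (hq : 3 < q) (h4 : q < 4) :
    ∃ γ : ℝ, 0 < γ ∧ γ ≤ 1 ∧ ∃ K : ℝ≥0∞, K ≠ ⊤ ∧ ∀ (h : ℝ → ℂ) (c : ℝ), 0 < c → Measurable h →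
      (∀ y, ‖h y‖ ≤ c) →
      ∫⁻ t, wt γ (q / 2 - 1) t * Gq h q t ≤ K * (ENNReal.ofReal (c ^ (q - 2)) * M2 h) := by
  obtain ⟨γ, hγ0, hγ1, K, hK, hKK⟩ := wtotal1 q hq h4
  refine ⟨γ, hγ0, hγ1, K, hK, ?_⟩
  intro h c hc hm hb
  set h' : ℝ → ℂ := fun y => (c⁻¹ : ℝ) * h y with hh'
  have hm' : Measurable h' := hm.const_mul _
  have e0 : h = fun y => ((c : ℝ) : ℂ) * h' y := by
    ext y
    rw [hh']
    simp only
    rw [← mul_assoc, ← Complex.ofReal_mul, mul_inv_cancel₀ hc.ne', Complex.ofReal_one, one_mul]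
  have hb' : ∀ y, ‖h' y‖ ≤ 1 := by
    intro y
    rw [hh']
    simp only
    rw [norm_mul, Complex.norm_real, norm_inv, Real.norm_of_nonneg hc.le,
      inv_mul_le_iff₀ hc, mul_one]
    exact hb y
  have hce : ‖((c : ℝ) : ℂ)‖ₑ = ENNReal.ofReal c := by
    rw [← ofReal_norm, Complex.norm_real, Real.norm_of_nonneg hc.le]
  have hG : ∀ t, Gq h q t = ENNReal.ofReal c ^ q * Gq h' q t := by
    intro t
    unfold Gq
    have hmx : Measurable fun x : ℝ => ‖e1 h' x t‖ₑ ^ q := by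
      have : Measurable fun x : ℝ => e1 h' x t :=
        (e1_meas hm').comp (measurable_id.prodMk measurable_const)
      exact this.enorm.pow_const q
    rw [← lintegral_const_mul _ hmx]
    apply lintegral_congr
    intro x
    rw [e0, e1_smul, enorm_mul, ENNReal.mul_rpow_of_nonneg _ _ (by linarith), hce]
  have hM : M2 h = ENNReal.ofReal c ^ 2 * M2 h' := by
    rw [e0, M2_smul _ _ hm', hce]
  have h1 := hKK h' hm' hb'
  have hcq : ENNReal.ofReal c ^ q ≠ ⊤ :=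
    ENNReal.rpow_ne_top_of_nonneg (by linarith) ENNReal.ofReal_ne_top
  have e2 : ∀ t, wt γ (q / 2 - 1) t * Gq h q t =
      ENNReal.ofReal c ^ q * (wt γ (q / 2 - 1) t * Gq h' q t) := by
    intro t
    rw [hG]
    ring
  simp only [e2]
  rw [lintegral_const_mul' _ _ hcq, hM]
  have e3 : ENNReal.ofReal (c ^ (q - 2)) * (ENNReal.ofReal c ^ 2 * M2 h') =
      ENNReal.ofReal c ^ q * M2 h' := by
    rw [← mul_assoc]
    congr 1
    rw [← ENNReal.ofReal_rpow_of_pos hc, ← ENNReal.rpow_natCast,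
      ← ENNReal.rpow_add_of_nonneg _ _ (by linarith) (by norm_num)]
    congr 1
    push_cast
    ring
  rw [e3]
  calc _ ≤ ENNReal.ofReal c ^ q * (K * M2 h') := mul_le_mul_right h1 _
    _ = _ := by ring

end Pool.Agent.H728R3.SR
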