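import Mathlib
import Pool.Agent.H728R3.SR.G
import Pool.Agent.H728R3.SR.F
import Pool.Agent.H147R3.PE.W2
set_option autoImplicit false

/-! The square function estimate for one level, in `ℝ^3`. -/

namespace Pool.Agent.H728R3.SR
open MeasureTheory Set Complex Filter Topology
open Pool.Agent.H147R3.PE
open scoped ENNReal

/-- admissible families of intervals -/
structure Itv {N : ℕ} (a b : Fin N → ℝ) : Prop where
  lo : ∀ k, -1 ≤ a k
  le : ∀ k, a k ≤ b k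
  hi : ∀ k, b k ≤ 1
  dj : Pairwise (Function.onFun Disjoint fun k => Ioc (a k) (b k))

variable {N : ℕ} {a b : Fin N → ℝ}

/-- the terms -/
noncomputable def ZZ (a b : Fin N → ℝ) (G : Fin N → ℝ → ℂ) (k : Fin N) (ξ : ℝ × ℝ × ℝ) : ℂ :=
  e1 (ind (a k) (b k)) ξ.1 ξ.2.2 * e1 (G k) ξ.2.1 ξ.2.2

lemma ZZ_meas {G : Fin N → ℝ → ℂ} (hG : ∀ k, Measurable (G k)) (k : Fin N) :
    Measurable (ZZ a b G k) := by
  unfold ZZ
  have h1 : Measurable fun ξ : ℝ × ℝ × ℝ => (ξ.1, ξ.2.2) := by fun_prop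
  have h2 : Measurable fun ξ : ℝ × ℝ × ℝ => (ξ.2.1, ξ.2.2) := by fun_prop
  exact ((e1_meas (ind_meas _ _)).comp h1).mul ((e1_meas (hG k)).comp h2)

/-- the squared square function -/
noncomputable def SF (a b : Fin N → ℝ) (G : Fin N → ℝ → ℂ) (ξ : ℝ × ℝ × ℝ) : ℝ≥0∞ :=
  ∑ k, ‖ZZ a b G k ξ‖ₑ ^ 2

/-- the weights -/
noncomputable def w1 (a b : Fin N → ℝ) (k : Fin N) (x t : ℝ) : ℝ≥0∞ :=
  ‖e1 (ind (a k) (b k)) x t‖ₑ ^ 2

lemma w1_sum (h : Itv a b) (γ : ℝ) (hγ0 : 0 < γ) (hγ1 : γ ≤ 1) (x t : ℝ) :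
    ∑ k, w1 a b k x t ≤ AA γ t * RR γ := by
  calc ∑ k, w1 a b k x t ≤ ∑ k, AA γ t * ∫⁻ y in Ioc (a k) (b k), rr γ x t y :=
        Finset.sum_le_sum fun k _ => ind_dom γ x t _ _ (h.lo k) (h.le k) (h.hi k) hγ0 hγ1
    _ = AA γ t * ∫⁻ y in ⋃ k ∈ (Finset.univ : Finset (Fin N)), Ioc (a k) (b k), rr γ x t y := by
        rw [← Finset.mul_sum, lintegral_biUnion_finset]
        · intro i _ j _ hij
          exact h.dj hij
        · intro k _
          exact measurableSet_Ioc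
    _ ≤ AA γ t * ∫⁻ y in Ioc (-1 : ℝ) 1, rr γ x t y := by
        gcongr
        apply iUnion₂_subset
        intro k _
        exact Ioc_subset_Ioc (h.lo k) (h.hi k)
    _ ≤ _ := by
        gcongr
        exact rr_total γ x t hγ0 hγ1

lemma SF_eq (G : Fin N → ℝ → ℂ) (ξ : ℝ × ℝ × ℝ) :
    SF a b G ξ = ∑ k, w1 a b k ξ.1 ξ.2.2 * ‖e1 (G k) ξ.2.1 ξ.2.2‖ₑ ^ 2 := by
  unfold SF ZZ w1
  apply Finset.sum_congr rfl
  intro k _
  rw [enorm_mul, mul_pow]

/-- total `L^2` mass -/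
noncomputable def S2m (a b : Fin N → ℝ) (G : Fin N → ℝ → ℂ) : ℝ≥0∞ :=
  ∑ k, ENNReal.ofReal (b k - a k) * M2 (G k)

lemma lint3 (u : ℝ → ℝ → ℝ → ℝ≥0∞) (hum : Measurable fun p : ℝ × ℝ × ℝ => u p.1 p.2.1 p.2.2) :
    ∫⁻ ξ : ℝ × ℝ × ℝ, u ξ.1 ξ.2.1 ξ.2.2 = ∫⁻ t, ∫⁻ y, ∫⁻ x, u x y t := by
  rw [← reorder volume u hum, Measure.volume_eq_prod, lintegral_prod _ hum.aemeasurable]
  apply lintegral_congr
  intro x
  have hc : Measurable fun p : ℝ × ℝ => ((x, p.1, p.2) : ℝ × ℝ × ℝ) := by fun_prop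
  rw [Measure.volume_eq_prod, lintegral_prod]
  exact (hum.comp hc).aemeasurable

theorem sf_low (q : ℝ) (hq : 3 < q) (h4 : q < 4) :
    ∃ K : ℝ≥0∞, K ≠ ⊤ ∧ ∀ (N : ℕ) (a b : Fin N → ℝ) (G : Fin N → ℝ → ℂ) (c : ℝ), Itv a b → 0 < c →
      (∀ k, Measurable (G k)) → (∀ k y, ‖G k y‖ ≤ c) →
      ∫⁻ ξ, SF a b G ξ ^ (q / 2) ≤ K * (ENNReal.ofReal (c ^ (q - 2)) * S2m a b G) := by
  obtain ⟨γ, hγ0, hγ1, K, hK, hKK⟩ := wtotal2 q hq h4
  set e := q / 2 - 1 with he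
  have he0 : 0 ≤ e := by linarith
  have hRt : RR γ ^ e ≠ ⊤ := ENNReal.rpow_ne_top_of_nonneg he0 (RR_ne γ hγ0)
  refine ⟨RR γ ^ e * K, ENNReal.mul_ne_top hRt hK, ?_⟩
  intro N a b G c h hc hGm hGb
  set P : Fin N → ℝ → ℝ → ℝ → ℝ≥0∞ := fun k x y t => w1 a b k x t * ‖e1 (G k) y t‖ₑ ^ q with hP
  have hw : ∀ k, Measurable fun p : ℝ × ℝ => w1 a b k p.1 p.2 := fun k =>
    (e1_meas (ind_meas _ _)).enorm.pow_const 2
  have hgq : ∀ k, Measurable fun p : ℝ × ℝ => ‖e1 (G k) p.1 p.2‖ₑ ^ q := fun k =>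
    (e1_meas (hGm k)).enorm.pow_const q
  have hPm : ∀ k, Measurable fun p : ℝ × ℝ × ℝ => P k p.1 p.2.1 p.2.2 := by
    intro k
    have h1 : Measurable fun ξ : ℝ × ℝ × ℝ => (ξ.1, ξ.2.2) := by fun_prop
    have h2 : Measurable fun ξ : ℝ × ℝ × ℝ => (ξ.2.1, ξ.2.2) := by fun_prop
    exact ((hw k).comp h1).mul ((hgq k).comp h2)
  set u : ℝ → ℝ → ℝ → ℝ≥0∞ := fun x y t => wt γ e t * RR γ ^ e * ∑ k, P k x y t with hu
  have hum : Measurable fun p : ℝ × ℝ × ℝ => u p.1 p.2.1 p.2.2 := by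
    apply Measurable.mul
    · have h3 : Measurable fun p : ℝ × ℝ × ℝ => wt γ e p.2.2 :=
        (wt_meas' γ e).comp (measurable_snd.comp measurable_snd)
      exact h3.mul_const _
    · exact Finset.measurable_sum _ fun k _ => hPm k
  have s0 : ∀ ξ : ℝ × ℝ × ℝ, SF a b G ξ ^ (q / 2) ≤ u ξ.1 ξ.2.1 ξ.2.2 := by
    intro ξ
    rw [SF_eq]
    refine (jensen (q / 2) (by linarith) _ _).trans ?_
    have h1 : ∀ k, (‖e1 (G k) ξ.2.1 ξ.2.2‖ₑ ^ 2) ^ (q / 2) = ‖e1 (G k) ξ.2.1 ξ.2.2‖ₑ ^ q := by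
      intro k
      rw [← ENNReal.rpow_natCast, ← ENNReal.rpow_mul]
      congr 1
      push_cast
      ring
    simp only [h1]
    refine mul_le_mul_left ?_ _
    calc (∑ k, w1 a b k ξ.1 ξ.2.2) ^ (q / 2 - 1)
        ≤ (AA γ ξ.2.2 * RR γ) ^ (q / 2 - 1) := by
          gcongr
          exact w1_sum h γ hγ0 hγ1 _ _
      _ = _ := by
          unfold wt
          rw [ENNReal.mul_rpow_of_nonneg _ _ he0]
  have s1 : ∫⁻ ξ : ℝ × ℝ × ℝ, u ξ.1 ξ.2.1 ξ.2.2 = ∫⁻ t, ∫⁻ y, ∫⁻ x, u x y t := lint3 u hum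
  have s2 : ∀ t, ∫⁻ y, ∫⁻ x, u x y t ≤
      RR γ ^ e * ∑ k, ENNReal.ofReal (b k - a k) * (wt γ e t * Gq (G k) q t) := by
    intro t
    have hsec : ∀ v : ℝ → ℂ, Measurable v → Measurable fun x : ℝ => e1 v x t := fun v hv =>
      (e1_meas hv).comp (measurable_id.prodMk measurable_const)
    have hwx : ∀ k, Measurable fun x : ℝ => w1 a b k x t := fun k =>
      (hsec _ (ind_meas _ _)).enorm.pow_const 2
    have hgy : ∀ k, Measurable fun y : ℝ => ‖e1 (G k) y t‖ₑ ^ q := fun k =>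
      (hsec _ (hGm k)).enorm.pow_const q
    have h1 : ∀ y, ∫⁻ x, u x y t = wt γ e t * RR γ ^ e *
        ∑ k, (∫⁻ x, w1 a b k x t) * ‖e1 (G k) y t‖ₑ ^ q := by
      intro y
      have h5 : ∀ k, Measurable fun x : ℝ => P k x y t := fun k => (hwx k).mul_const _
      simp only [hu]
      rw [lintegral_const_mul _ (Finset.measurable_sum _ fun k _ => h5 k),
        lintegral_finsetSum _ fun k _ => h5 k]
      congr 1
      apply Finset.sum_congr rfl
      intro k _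
      rw [hP]
      exact lintegral_mul_const _ (hwx k)
    have h2 : ∀ y, ∫⁻ x, u x y t ≤ wt γ e t * RR γ ^ e *
        ∑ k, ENNReal.ofReal (b k - a k) * ‖e1 (G k) y t‖ₑ ^ q := by
      intro y
      rw [h1]
      gcongr with k
      exact ind_two _ _ t
    calc ∫⁻ y, ∫⁻ x, u x y t ≤ ∫⁻ y, wt γ e t * RR γ ^ e *
          ∑ k, ENNReal.ofReal (b k - a k) * ‖e1 (G k) y t‖ₑ ^ q := lintegral_mono h2
      _ = wt γ e t * RR γ ^ e *
          ∑ k, ENNReal.ofReal (b k - a k) * Gq (G k) q t := by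
          rw [lintegral_const_mul _ (Finset.measurable_sum _ fun k _ => (hgy k).const_mul _),
            lintegral_finsetSum _ fun k _ => (hgy k).const_mul _]
          congr 1
          apply Finset.sum_congr rfl
          intro k _
          rw [lintegral_const_mul _ (hgy k)]
          rfl
      _ = _ := by
          rw [mul_comm (wt γ e t), mul_assoc, Finset.mul_sum]
          congr 1
          apply Finset.sum_congr rfl
          intro k _
          ring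
  have h8 : ∀ k, Measurable fun t => wt γ e t * Gq (G k) q t :=
    fun k => (wt_meas' γ e).mul (Gq_meas (hGm k) q)
  calc ∫⁻ ξ, SF a b G ξ ^ (q / 2) ≤ ∫⁻ ξ : ℝ × ℝ × ℝ, u ξ.1 ξ.2.1 ξ.2.2 := lintegral_mono s0
    _ = _ := s1
    _ ≤ ∫⁻ t, RR γ ^ e * ∑ k, ENNReal.ofReal (b k - a k) * (wt γ e t * Gq (G k) q t) :=
        lintegral_mono s2
    _ = RR γ ^ e * ∑ k, ENNReal.ofReal (b k - a k) * ∫⁻ t, wt γ e t * Gq (G k) q t := by
        rw [lintegral_const_mul _ (Finset.measurable_sum _ fun k _ => (h8 k).const_mul _),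
          lintegral_finsetSum _ fun k _ => (h8 k).const_mul _]
        congr 1
        apply Finset.sum_congr rfl
        intro k _
        rw [lintegral_const_mul _ (h8 k)]
    _ ≤ RR γ ^ e * ∑ k, ENNReal.ofReal (b k - a k) *
          (K * (ENNReal.ofReal (c ^ (q - 2)) * M2 (G k))) := by
        gcongr with k
        exact hKK (G k) c hc (hGm k) (hGb k)
    _ = _ := by
        unfold S2m
        rw [mul_assoc]
        congr 1
        rw [Finset.mul_sum, Finset.mul_sum]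
        apply Finset.sum_congr rfl
        intro k _
        ring

/-- `L^1` mass on `[-1,1]` -/
noncomputable def M1 (h : ℝ → ℂ) : ℝ≥0∞ := ∫⁻ z, ‖cut h z‖ₑ

lemma e1_le (h : ℝ → ℂ) (x t : ℝ) : ‖e1 h x t‖ₑ ≤ M1 h := by
  unfold e1 M1
  refine (enorm_integral_le_lintegral_enorm _).trans ?_
  rw [← lintegral_indicator measurableSet_Icc]
  apply lintegral_mono
  intro y
  simp only
  unfold cut
  by_cases hy : y ∈ Icc (-1 : ℝ) 1
  · rw [indicator_of_mem hy, indicator_of_mem hy, enorm_mul]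
    have : ‖cexp (2 * Real.pi * I * ((y * x + y ^ 2 * t : ℝ) : ℂ))‖ₑ = 1 := by
      have e : (2 * Real.pi * I * ((y * x + y ^ 2 * t : ℝ) : ℂ)) =
          ((2 * Real.pi * (y * x + y ^ 2 * t) : ℝ) : ℂ) * I := by
        push_cast
        ring
      rw [← ofReal_norm, e, Complex.norm_exp_ofReal_mul_I, ENNReal.ofReal_one]
    rw [this, mul_one]
  · rw [indicator_of_notMem hy, indicator_of_notMem hy]
    simp

lemma ind_M1 (a b : ℝ) : M1 (ind a b) ≤ ENNReal.ofReal (b - a) := by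
  unfold M1
  calc ∫⁻ z, ‖cut (ind a b) z‖ₑ ≤ ∫⁻ z, (Icc a b).indicator (fun _ => 1) z := by
        apply lintegral_mono
        intro z
        simp only
        unfold cut ind
        by_cases hz : z ∈ Icc a b
        · rw [indicator_of_mem hz]
          rw [← ofReal_norm, ← ENNReal.ofReal_one]
          apply ENNReal.ofReal_le_ofReal
          refine (norm_indicator_le_norm_self _ _).trans ?_
          refine (norm_indicator_le_norm_self _ _).trans (by simp)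
        · rw [indicator_of_notMem hz]
          by_cases hz' : z ∈ Icc (-1 : ℝ) 1
          · rw [indicator_of_mem hz', indicator_of_notMem hz]
            simp
          · rw [indicator_of_notMem hz']
            simp
    _ = _ := by
        rw [lintegral_indicator measurableSet_Icc, lintegral_const, Measure.restrict_apply_univ,
          Real.volume_Icc, one_mul]

/-- total `L^1` mass -/
noncomputable def S1m (a b : Fin N → ℝ) (G : Fin N → ℝ → ℂ) : ℝ≥0∞ :=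
  ∑ k, ENNReal.ofReal (b k - a k) * M1 (G k)

lemma SF_le (G : Fin N → ℝ → ℂ) (ξ : ℝ × ℝ × ℝ) : SF a b G ξ ≤ S1m a b G ^ 2 := by
  unfold SF
  have h1 : ∑ k, ‖ZZ a b G k ξ‖ₑ ≤ S1m a b G := by
    unfold S1m
    apply Finset.sum_le_sum
    intro k _
    unfold ZZ
    rw [enorm_mul]
    gcongr
    · exact (e1_le _ _ _).trans (ind_M1 _ _)
    · exact e1_le _ _ _
  calc ∑ k, ‖ZZ a b G k ξ‖ₑ ^ 2 ≤ ∑ k, ‖ZZ a b G k ξ‖ₑ * S1m a b G := by
        apply Finset.sum_le_sum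
        intro k hk
        rw [pow_two]
        gcongr
        exact (Finset.single_le_sum (f := fun k => ‖ZZ a b G k ξ‖ₑ) (fun _ _ => zero_le) hk).trans h1
    _ = (∑ k, ‖ZZ a b G k ξ‖ₑ) * S1m a b G := by rw [Finset.sum_mul]
    _ ≤ _ := by
        rw [pow_two]
        gcongr

/-- the estimate of one level -/
theorem sf_level (q q₁ : ℝ) (hq₁ : 3 < q₁) (hq4 : q₁ < 4) (hq : q₁ ≤ q) :
    ∃ K : ℝ≥0∞, K ≠ ⊤ ∧ ∀ (N : ℕ) (a b : Fin N → ℝ) (G : Fin N → ℝ → ℂ) (c : ℝ), Itv a b → 0 < c →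
      (∀ k, Measurable (G k)) → (∀ k y, ‖G k y‖ ≤ c) → S1m a b G ≠ ⊤ →
      ∫⁻ ξ, SF a b G ξ ^ (q / 2) ≤
        K * (S1m a b G ^ (q - q₁) * (ENNReal.ofReal (c ^ (q₁ - 2)) * S2m a b G)) := by
  obtain ⟨K, hK, hKK⟩ := sf_low q₁ hq₁ hq4
  refine ⟨K, hK, ?_⟩
  intro N a b G c h hc hGm hGb hfin
  have h1 := hKK N a b G c h hc hGm hGb
  have hft : S1m a b G ^ (q - q₁) ≠ ⊤ := ENNReal.rpow_ne_top_of_nonneg (by linarith) hfin
  calc ∫⁻ ξ, SF a b G ξ ^ (q / 2) ≤ ∫⁻ ξ, S1m a b G ^ (q - q₁) * SF a b G ξ ^ (q₁ / 2) := by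
        apply lintegral_mono
        intro ξ
        have e : q / 2 = (q - q₁) / 2 + q₁ / 2 := by ring
        simp only
        rw [e, ENNReal.rpow_add_of_nonneg _ _ (by linarith) (by linarith)]
        gcongr
        calc SF a b G ξ ^ ((q - q₁) / 2) ≤ (S1m a b G ^ 2) ^ ((q - q₁) / 2) :=
              ENNReal.rpow_le_rpow (SF_le G ξ) (by linarith)
          _ = _ := by
              rw [← ENNReal.rpow_natCast, ← ENNReal.rpow_mul]
              congr 1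
              push_cast
              ring
    _ = S1m a b G ^ (q - q₁) * ∫⁻ ξ, SF a b G ξ ^ (q₁ / 2) := lintegral_const_mul' _ _ hft
    _ ≤ S1m a b G ^ (q - q₁) * (K * (ENNReal.ofReal (c ^ (q₁ - 2)) * S2m a b G)) := by gcongr
    _ = _ := by ring

end Pool.Agent.H728R3.SR
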