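import Mathlib
import Pool.Agent.H728R3.SR.H
set_option autoImplicit false

/-! Decomposition into levels. -/

namespace Pool.Agent.H728R3.SR
open MeasureTheory Set Complex Filter Topology
open scoped ENNReal

/-- dyadic levels -/
def lev (s : ℝ) : ℕ → Set ℂ
  | 0 => {z | ‖z‖ < s}
  | (k + 1) => {z | (2 : ℝ) ^ k * s ≤ ‖z‖ ∧ ‖z‖ < (2 : ℝ) ^ (k + 1) * s}

lemma lev_meas (s : ℝ) (k : ℕ) : MeasurableSet (lev s k) := by
  cases k with
  | zero => exact measurableSet_lt measurable_norm measurable_const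
  | succ k =>
    have h1 : MeasurableSet {z : ℂ | (2 : ℝ) ^ k * s ≤ ‖z‖} :=
      measurableSet_le measurable_const measurable_norm
    have h2 : MeasurableSet {z : ℂ | ‖z‖ < (2 : ℝ) ^ (k + 1) * s} :=
      measurableSet_lt measurable_norm measurable_const
    exact h1.inter h2

/-- truncation to a level -/
noncomputable def tr (s : ℝ) (j : ℕ) : ℂ → ℂ := (lev s j).indicator id

lemma tr_meas (s : ℝ) (j : ℕ) : Measurable (tr s j) := measurable_id.indicator (lev_meas s j)

lemma tr_zero (s : ℝ) (j : ℕ) : tr s j 0 = 0 := by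
  unfold tr
  rw [indicator_apply_eq_zero]
  exact fun _ => rfl

lemma tr_bd (s : ℝ) (hs : 0 < s) (j : ℕ) (z : ℂ) : ‖tr s j z‖ ≤ 2 ^ j * s := by
  unfold tr
  by_cases hz : z ∈ lev s j
  · rw [indicator_of_mem hz]
    cases j with
    | zero =>
      have : ‖z‖ < s := hz
      simpa using this.le
    | succ j => exact hz.2.le
  · rw [indicator_of_notMem hz, norm_zero]
    positivity

lemma tr_pow (s : ℝ) (hs : 0 < s) (q : ℝ) (p : ℕ) (hp : p ≠ 0) (hpq : (p : ℝ) ≤ q) (j : ℕ) (z : ℂ) :
    ‖tr s (j + 1) z‖ₑ ^ p ≤ ENNReal.ofReal ((2 ^ j * s) ^ ((p : ℝ) - q)) * ‖z‖ₑ ^ q := by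
  unfold tr
  by_cases hz : z ∈ lev s (j + 1)
  · rw [indicator_of_mem hz]
    have h1 : (2 : ℝ) ^ j * s ≤ ‖z‖ := hz.1
    have hr : 0 < (2 : ℝ) ^ j * s := by positivity
    have hz0 : 0 < ‖z‖ := hr.trans_le h1
    simp only [id]
    rw [← ofReal_norm, ← ENNReal.rpow_natCast, ENNReal.ofReal_rpow_of_pos hz0,
      ENNReal.ofReal_rpow_of_pos hz0, ← ENNReal.ofReal_mul (by positivity)]
    apply ENNReal.ofReal_le_ofReal
    calc ‖z‖ ^ (p : ℝ) = ‖z‖ ^ ((p : ℝ) - q) * ‖z‖ ^ q := by
          rw [← Real.rpow_add hz0]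
          congr 1
          ring
      _ ≤ _ := by
          gcongr ?_ * _
          exact Real.rpow_le_rpow_of_nonpos hr h1 (by linarith)
  · rw [indicator_of_notMem hz]
    simp [hp]

/-- the semi-random function -/
noncomputable def semi {N : ℕ} (a b : Fin N → ℝ) (g : Fin N → ℝ → ℂ) (ε : Fin N → Bool)
    (x : ℝ × ℝ) : ℂ :=
  ∑ k, (sg (ε k) : ℂ) * (Ioc (a k) (b k)).indicator (fun _ => g k x.2) x.1

variable {N : ℕ} {a b : Fin N → ℝ}

lemma semi_mem (h : Itv a b) (g : Fin N → ℝ → ℂ) (ε : Fin N → Bool) (x : ℝ × ℝ) (k : Fin N)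
    (hk : x.1 ∈ Ioc (a k) (b k)) : semi a b g ε x = (sg (ε k) : ℂ) * g k x.2 := by
  unfold semi
  rw [Finset.sum_eq_single k, indicator_of_mem hk]
  · intro j _ hj
    have : x.1 ∉ Ioc (a j) (b j) := by
      intro h1
      exact (Set.disjoint_left.1 (h.dj hj)) h1 hk
    rw [indicator_of_notMem this, mul_zero]
  · intro h1
    exact absurd (Finset.mem_univ k) h1

lemma semi_notMem (g : Fin N → ℝ → ℂ) (ε : Fin N → Bool) (x : ℝ × ℝ)
    (hk : ∀ k, x.1 ∉ Ioc (a k) (b k)) : semi a b g ε x = 0 := by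
  unfold semi
  apply Finset.sum_eq_zero
  intro k _
  rw [indicator_of_notMem (hk k), mul_zero]

lemma sg_norm (e : Bool) : ‖(sg e : ℂ)‖ = 1 := by
  unfold sg
  split_ifs <;> simp

lemma semi_meas {g : Fin N → ℝ → ℂ} (hg : ∀ k, Measurable (g k)) (ε : Fin N → Bool) :
    Measurable (semi a b g ε) := by
  unfold semi
  apply Finset.measurable_sum
  intro k _
  apply Measurable.const_mul
  have h1 : (fun x : ℝ × ℝ => (Ioc (a k) (b k)).indicator (fun _ => g k x.2) x.1) =
      (Prod.fst ⁻¹' Ioc (a k) (b k)).indicator (fun x : ℝ × ℝ => g k x.2) := by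
    ext x
    by_cases hx : x.1 ∈ Ioc (a k) (b k)
    · rw [indicator_of_mem hx, indicator_of_mem (by exact hx)]
    · rw [indicator_of_notMem hx, indicator_of_notMem (by exact hx)]
  rw [h1]
  exact ((hg k).comp measurable_snd).indicator (measurable_fst measurableSet_Ioc)

lemma semi_S2 (h : Itv a b) {g : Fin N → ℝ → ℂ} (hg : ∀ k, Measurable (g k))
    (hg0 : ∀ k y, 1 < |y| → g k y = 0) (ε : Fin N → Bool) :
    Pool.Agent.H147R3.PE.S2 (semi a b g ε) := by
  refine ⟨semi_meas hg ε, ?_, ?_⟩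
  · intro x hx
    apply semi_notMem
    intro k hk
    have h1 : |x.1| ≤ 1 := abs_le.2 ⟨by linarith [h.lo k, hk.1], by linarith [h.hi k, hk.2]⟩
    linarith
  · intro x hx
    unfold semi
    apply Finset.sum_eq_zero
    intro k _
    rw [hg0 k _ hx]
    simp

/-- the truncated functions -/
noncomputable def gt (g : Fin N → ℝ → ℂ) (s : ℝ) (j : ℕ) (k : Fin N) (y : ℝ) : ℂ := tr s j (g k y)

lemma gt_meas {g : Fin N → ℝ → ℂ} (hg : ∀ k, Measurable (g k)) (s : ℝ) (j : ℕ) (k : Fin N) :
    Measurable (gt g s j k) := (tr_meas s j).comp (hg k)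

lemma gt_zero {g : Fin N → ℝ → ℂ} (hg0 : ∀ k y, 1 < |y| → g k y = 0) (s : ℝ) (j : ℕ) (k : Fin N)
    (y : ℝ) (hy : 1 < |y|) : gt g s j k y = 0 := by
  unfold gt
  rw [hg0 k y hy, tr_zero]

lemma pc_semi (h : Itv a b) {g : Fin N → ℝ → ℂ} (hg : ∀ k, Measurable (g k))
    (hg0 : ∀ k y, 1 < |y| → g k y = 0) (ε : Fin N → Bool) (s : ℝ) (j : ℕ) :
    Pool.Agent.H147R3.PE.pc (semi a b g ε) s j = semi a b (gt g s j) ε := by
  ext x
  have hS := semi_S2 h hg hg0 ε
  have hS' := semi_S2 h (gt_meas hg s j) (gt_zero hg0 s j) ε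
  by_cases hQ : x ∈ Pool.Agent.H147R3.PE.QQ
  · by_cases hk : ∃ k, x.1 ∈ Ioc (a k) (b k)
    · obtain ⟨k, hk⟩ := hk
      have e1 := semi_mem h g ε x k hk
      have e2 := semi_mem h (gt g s j) ε x k hk
      have e3 : ‖semi a b g ε x‖ = ‖g k x.2‖ := by rw [e1, norm_mul, sg_norm, one_mul]
      have e4 : x ∈ Pool.Agent.H147R3.PE.EE (semi a b g ε) s j ↔ g k x.2 ∈ lev s j := by
        cases j with
        | zero =>
          unfold Pool.Agent.H147R3.PE.EE lev
          simp only [mem_inter_iff, mem_ofPred_eq, e3, hQ, and_true]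
        | succ j =>
          unfold Pool.Agent.H147R3.PE.EE lev
          simp only [mem_inter_iff, mem_ofPred_eq, e3, hQ, and_true]
      rw [e2]
      unfold Pool.Agent.H147R3.PE.pc gt tr
      by_cases hm : g k x.2 ∈ lev s j
      · rw [indicator_of_mem hm, indicator_of_mem (e4.2 hm), e1]
        rfl
      · rw [indicator_of_notMem hm, indicator_of_notMem (fun h5 => hm (e4.1 h5)), mul_zero]
    · push Not at hk
      rw [semi_notMem _ _ _ hk]
      unfold Pool.Agent.H147R3.PE.pc
      rw [indicator_apply_eq_zero]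
      intro _
      exact semi_notMem _ _ _ hk
  · rw [hS'.zero x hQ]
    unfold Pool.Agent.H147R3.PE.pc
    rw [indicator_apply_eq_zero]
    intro _
    exact hS.zero x hQ

/-- the `L^q` norm to the power `q` -/
noncomputable def WW (a b : Fin N → ℝ) (g : Fin N → ℝ → ℂ) (q : ℝ) : ℝ≥0∞ :=
  ∑ k, ENNReal.ofReal (b k - a k) * ∫⁻ y, ‖g k y‖ₑ ^ q

lemma semi_norm (h : Itv a b) {g : Fin N → ℝ → ℂ} (hg : ∀ k, Measurable (g k)) (q : ℝ)
    (hq : 0 < q) (ε : Fin N → Bool) :
    ∫⁻ x, ‖semi a b g ε x‖ₑ ^ q = WW a b g q := by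
  have h1 : ∀ x : ℝ × ℝ, ‖semi a b g ε x‖ₑ ^ q =
      ∑ k, (Ioc (a k) (b k)).indicator (fun _ => (1 : ℝ≥0∞)) x.1 * ‖g k x.2‖ₑ ^ q := by
    intro x
    by_cases hk : ∃ k, x.1 ∈ Ioc (a k) (b k)
    · obtain ⟨k, hk⟩ := hk
      rw [semi_mem h g ε x k hk, Finset.sum_eq_single k, indicator_of_mem hk, one_mul, enorm_mul,
        ← ofReal_norm (sg (ε k) : ℂ), sg_norm, ENNReal.ofReal_one, one_mul]
      · intro j _ hj
        have : x.1 ∉ Ioc (a j) (b j) := by
          intro h1
          exact (Set.disjoint_left.1 (h.dj hj)) h1 hk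
        rw [indicator_of_notMem this, zero_mul]
      · intro h1
        exact absurd (Finset.mem_univ k) h1
    · push Not at hk
      rw [semi_notMem _ _ _ hk]
      rw [Finset.sum_eq_zero]
      · simp [hq]
      · intro k _
        rw [indicator_of_notMem (hk k), zero_mul]
  simp only [h1]
  rw [lintegral_finsetSum]
  · unfold WW
    apply Finset.sum_congr rfl
    intro k _
    rw [Measure.volume_eq_prod, lintegral_prod_mul
      (measurable_const.indicator measurableSet_Ioc).aemeasurable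
      ((hg k).enorm.pow_const q).aemeasurable, lintegral_indicator measurableSet_Ioc,
      lintegral_const, Measure.restrict_apply_univ, Real.volume_Ioc, one_mul]
  · intro k _
    have h2 : Measurable fun x : ℝ × ℝ =>
        (Ioc (a k) (b k)).indicator (fun _ => (1 : ℝ≥0∞)) x.1 :=
      (measurable_const.indicator measurableSet_Ioc).comp measurable_fst
    exact h2.mul (((hg k).comp measurable_snd).enorm.pow_const q)

lemma len_sum (h : Itv a b) : ∑ k, ENNReal.ofReal (b k - a k) ≤ 2 := by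
  have h1 : ∀ k, ENNReal.ofReal (b k - a k) = volume (Ioc (a k) (b k)) := fun k =>
    (Real.volume_Ioc).symm
  simp only [h1]
  rw [← measure_biUnion_finset]
  · calc volume (⋃ k ∈ (Finset.univ : Finset (Fin N)), Ioc (a k) (b k)) ≤
          volume (Ioc (-1 : ℝ) 1) := by
          apply measure_mono
          apply iUnion₂_subset
          intro k _
          exact Ioc_subset_Ioc (h.lo k) (h.hi k)
      _ = 2 := by
          rw [Real.volume_Ioc]
          norm_num
  · intro i _ j _ hij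
    exact h.dj hij
  · intro k _
    exact measurableSet_Ioc

/-- mass of one level -/
lemma level_mass (h : Itv a b) (g : Fin N → ℝ → ℂ) (q s : ℝ) (hs : 0 < s) (p : ℕ) (hp : p ≠ 0)
    (hpq : (p : ℝ) ≤ q) (hW : WW a b g q ≤ ENNReal.ofReal (s ^ q)) (j : ℕ) :
    ∑ k, ENNReal.ofReal (b k - a k) * ∫⁻ z, ‖cut (gt g s j k) z‖ₑ ^ p ≤
      ENNReal.ofReal (4 * 2 ^ q * s ^ p * ((2 : ℝ) ^ j) ^ ((p : ℝ) - q)) := by
  have hq0 : 0 ≤ q := le_trans (Nat.cast_nonneg p) hpq
  have h2q : (1 : ℝ) ≤ 2 ^ q := Real.one_le_rpow (by norm_num) hq0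
  cases j with
  | zero =>
    have h1 : ∀ k, ∫⁻ z, ‖cut (gt g s 0 k) z‖ₑ ^ p ≤ ENNReal.ofReal (s ^ p) * 2 := by
      intro k
      calc ∫⁻ z, ‖cut (gt g s 0 k) z‖ₑ ^ p ≤
            ∫⁻ z, (Icc (-1 : ℝ) 1).indicator (fun _ => ENNReal.ofReal (s ^ p)) z := by
            apply lintegral_mono
            intro z
            simp only
            unfold cut
            by_cases hz : z ∈ Icc (-1 : ℝ) 1
            · rw [indicator_of_mem hz, indicator_of_mem hz, ENNReal.ofReal_pow hs.le]
              gcongr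
              rw [← ofReal_norm]
              apply ENNReal.ofReal_le_ofReal
              have := tr_bd s hs 0 (g k z)
              simpa [gt] using this
            · rw [indicator_of_notMem hz, indicator_of_notMem hz]
              simp [hp]
        _ = _ := by
            rw [lintegral_indicator measurableSet_Icc, lintegral_const,
              Measure.restrict_apply_univ, Real.volume_Icc]
            norm_num
    calc _ ≤ ∑ k, ENNReal.ofReal (b k - a k) * (ENNReal.ofReal (s ^ p) * 2) := by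
          gcongr with k
          exact h1 k
      _ = (∑ k, ENNReal.ofReal (b k - a k)) * (ENNReal.ofReal (s ^ p) * 2) := by
          rw [Finset.sum_mul]
      _ ≤ 2 * (ENNReal.ofReal (s ^ p) * 2) := by
          gcongr
          exact len_sum h
      _ = ENNReal.ofReal (4 * s ^ p) := by
          rw [ENNReal.ofReal_mul (by norm_num), ENNReal.ofReal_ofNat]
          have : (4 : ℝ≥0∞) = 2 * 2 := by norm_num
          rw [this]
          ring
      _ ≤ _ := by
          apply ENNReal.ofReal_le_ofReal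
          rw [pow_zero, Real.one_rpow, mul_one]
          have : 0 < s ^ p := by positivity
          nlinarith
  | succ j =>
    have h1 : ∀ k, ∫⁻ z, ‖cut (gt g s (j + 1) k) z‖ₑ ^ p ≤
        ENNReal.ofReal ((2 ^ j * s) ^ ((p : ℝ) - q)) * ∫⁻ z, ‖g k z‖ₑ ^ q := by
      intro k
      rw [← lintegral_const_mul' _ _ ENNReal.ofReal_ne_top]
      apply lintegral_mono
      intro z
      simp only
      unfold cut
      by_cases hz : z ∈ Icc (-1 : ℝ) 1
      · rw [indicator_of_mem hz]
        exact tr_pow s hs q p hp hpq j (g k z)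
      · rw [indicator_of_notMem hz]
        simp [hp]
    calc _ ≤ ∑ k, ENNReal.ofReal (b k - a k) *
          (ENNReal.ofReal ((2 ^ j * s) ^ ((p : ℝ) - q)) * ∫⁻ z, ‖g k z‖ₑ ^ q) := by
          gcongr with k
          exact h1 k
      _ = ENNReal.ofReal ((2 ^ j * s) ^ ((p : ℝ) - q)) * WW a b g q := by
          unfold WW
          rw [Finset.mul_sum]
          apply Finset.sum_congr rfl
          intro k _
          ring
      _ ≤ ENNReal.ofReal ((2 ^ j * s) ^ ((p : ℝ) - q)) * ENNReal.ofReal (s ^ q) := by gcongr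
      _ ≤ _ := by
          rw [← ENNReal.ofReal_mul (by positivity)]
          apply ENNReal.ofReal_le_ofReal
          have e1 : ((2 : ℝ) ^ j * s) ^ ((p : ℝ) - q) * s ^ q =
              ((2 : ℝ) ^ j) ^ ((p : ℝ) - q) * s ^ p := by
            rw [Real.mul_rpow (by positivity) hs.le, mul_assoc, ← Real.rpow_add hs,
              show (p : ℝ) - q + q = (p : ℝ) by ring, Real.rpow_natCast]
          have e2 : ((2 : ℝ) ^ (j + 1)) ^ ((p : ℝ) - q) =
              ((2 : ℝ) ^ j) ^ ((p : ℝ) - q) * 2 ^ ((p : ℝ) - q) := by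
            rw [pow_succ, Real.mul_rpow (by positivity) (by norm_num)]
          have e3 : (1 : ℝ) ≤ 2 ^ q * 2 ^ ((p : ℝ) - q) := by
            rw [← Real.rpow_add (by norm_num)]
            apply Real.one_le_rpow (by norm_num)
            have : (0 : ℝ) ≤ p := Nat.cast_nonneg p
            linarith
          rw [e1, e2]
          have h0 : 0 < ((2 : ℝ) ^ j) ^ ((p : ℝ) - q) * s ^ p := by positivity
          calc ((2 : ℝ) ^ j) ^ ((p : ℝ) - q) * s ^ p =
                (((2 : ℝ) ^ j) ^ ((p : ℝ) - q) * s ^ p) * 1 := (mul_one _).symm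
            _ ≤ (((2 : ℝ) ^ j) ^ ((p : ℝ) - q) * s ^ p) * (4 * (2 ^ q * 2 ^ ((p : ℝ) - q))) := by
                apply mul_le_mul_of_nonneg_left _ h0.le
                linarith
            _ = _ := by ring

end Pool.Agent.H728R3.SR
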