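import Mathlib
import Pool.Agent.H728R3.SR.J
set_option autoImplicit false

/-! The `L^q` estimate. -/

namespace Pool.Agent.H728R3.SR
open MeasureTheory Set Complex Filter Topology
open scoped ENNReal

/-- scaling factor -/
noncomputable def rr0 : ℝ := -(2 * Real.pi)⁻¹

lemma rr0_mul : 2 * Real.pi * rr0 = -1 := by
  unfold rr0
  have : Real.pi ≠ 0 := Real.pi_ne_zero
  field_simp

lemma phase (y u v : ℝ) : cexp (2 * Real.pi * I * ((y * (rr0 * u) + y ^ 2 * (rr0 * v) : ℝ) : ℂ)) =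
    cexp (-I * (y * u + y ^ 2 * v)) := by
  congr 1
  have h : (2 * Real.pi * (y * (rr0 * u) + y ^ 2 * (rr0 * v)) : ℝ) = -(y * u + y ^ 2 * v) := by
    linear_combination (y * u + y ^ 2 * v) * rr0_mul
  have h2 : ((2 * Real.pi * (y * (rr0 * u) + y ^ 2 * (rr0 * v)) : ℝ) : ℂ) =
      ((-(y * u + y ^ 2 * v) : ℝ) : ℂ) := by rw [h]
  calc (2 * Real.pi * I * ((y * (rr0 * u) + y ^ 2 * (rr0 * v) : ℝ) : ℂ)) =
      I * ((2 * Real.pi * (y * (rr0 * u) + y ^ 2 * (rr0 * v)) : ℝ) : ℂ) := by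
        push_cast
        ring
    _ = I * ((-(y * u + y ^ 2 * v) : ℝ) : ℂ) := by rw [h2]
    _ = _ := by
        push_cast
        ring

lemma e1_ind (a b : ℝ) (ha : -1 ≤ a) (hb : b ≤ 1) (u v : ℝ) :
    ∫ y : ℝ, (Ioc a b).indicator (fun _ => (1 : ℂ)) y * cexp (-I * (y * u + y ^ 2 * v)) =
      e1 (ind a b) (rr0 * u) (rr0 * v) := by
  have h1 : ∫ y : ℝ, (Ioc a b).indicator (fun _ => (1 : ℂ)) y * cexp (-I * (y * u + y ^ 2 * v)) =
      ∫ y in Ioc a b, cexp (-I * (y * u + y ^ 2 * v)) := by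
    rw [← integral_indicator measurableSet_Ioc]
    congr 1
    ext y
    by_cases hy : y ∈ Ioc a b
    · rw [indicator_of_mem hy, indicator_of_mem hy, one_mul]
    · rw [indicator_of_notMem hy, indicator_of_notMem hy, zero_mul]
  rw [h1, ← integral_Icc_eq_integral_Ioc, ← integral_indicator measurableSet_Icc]
  unfold e1 ind
  rw [← integral_indicator measurableSet_Icc]
  congr 1
  ext y
  by_cases hy : y ∈ Icc a b
  · have hy2 : y ∈ Icc (-1 : ℝ) 1 := ⟨by linarith [hy.1], by linarith [hy.2]⟩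
    rw [indicator_of_mem hy, indicator_of_mem hy2, indicator_of_mem hy, one_mul, phase]
  · rw [indicator_of_notMem hy]
    by_cases hy2 : y ∈ Icc (-1 : ℝ) 1
    · rw [indicator_of_mem hy2, indicator_of_notMem hy, zero_mul]
    · rw [indicator_of_notMem hy2]

lemma e1_gen (G : ℝ → ℂ) (hG0 : ∀ y, 1 < |y| → G y = 0) (u v : ℝ) :
    ∫ y : ℝ, G y * cexp (-I * (y * u + y ^ 2 * v)) = e1 G (rr0 * u) (rr0 * v) := by
  unfold e1
  rw [← integral_indicator measurableSet_Icc]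
  congr 1
  ext y
  by_cases hy2 : y ∈ Icc (-1 : ℝ) 1
  · rw [indicator_of_mem hy2, phase]
  · rw [indicator_of_notMem hy2]
    have : 1 < |y| := by
      by_contra h
      push Not at h
      exact hy2 (abs_le.1 h)
    rw [hG0 y this, zero_mul]

lemma ext_term (a b : ℝ) (ha : -1 ≤ a) (hb : b ≤ 1) (G : ℝ → ℂ) (hG0 : ∀ y, 1 < |y| → G y = 0)
    (c : ℂ) (ξ : ℝ × ℝ × ℝ) :
    ∫ x : ℝ × ℝ, cexp (-I * (x.1 * ξ.1 + x.2 * ξ.2.1 + (x.1 ^ 2 + x.2 ^ 2) * ξ.2.2)) *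
      (c * (Ioc a b).indicator (fun _ => G x.2) x.1) =
      c * (e1 (ind a b) (rr0 * ξ.1) (rr0 * ξ.2.2) * e1 G (rr0 * ξ.2.1) (rr0 * ξ.2.2)) := by
  rw [← e1_ind a b ha hb, ← e1_gen G hG0, ← integral_prod_mul, ← integral_const_mul,
    Measure.volume_eq_prod]
  congr 1
  ext x
  have h1 : cexp (-I * (x.1 * ξ.1 + x.2 * ξ.2.1 + (x.1 ^ 2 + x.2 ^ 2) * ξ.2.2)) =
      cexp (-I * (x.1 * ξ.1 + x.1 ^ 2 * ξ.2.2)) * cexp (-I * (x.2 * ξ.2.1 + x.2 ^ 2 * ξ.2.2)) := by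
    rw [← Complex.exp_add]
    congr 1
    ring
  rw [h1]
  by_cases hx : x.1 ∈ Ioc a b
  · rw [indicator_of_mem hx, indicator_of_mem hx]
    ring
  · rw [indicator_of_notMem hx, indicator_of_notMem hx]
    ring

variable {N : ℕ} {a b : Fin N → ℝ}

/-- the random sums -/
noncomputable def EJ (a b : Fin N → ℝ) (G : Fin N → ℝ → ℂ) (ε : Fin N → Bool) (ξ : ℝ × ℝ × ℝ) : ℂ :=
  ∑ k, (sg (ε k) : ℂ) * ZZ a b G k (rr0 • ξ)

lemma ZZr_meas {G : Fin N → ℝ → ℂ} (hG : ∀ k, Measurable (G k)) (k : Fin N) :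
    Measurable fun ξ : ℝ × ℝ × ℝ => ZZ a b G k (rr0 • ξ) :=
  (ZZ_meas hG k).comp (measurable_const_smul rr0)

lemma EJ_meas {G : Fin N → ℝ → ℂ} (hG : ∀ k, Measurable (G k)) (ε : Fin N → Bool) :
    Measurable (EJ a b G ε) := by
  unfold EJ
  exact Finset.measurable_sum _ fun k _ => (ZZr_meas hG k).const_mul _

lemma ext_semi (h : Itv a b) {G : Fin N → ℝ → ℂ} (hG : ∀ k, Measurable (G k)) (c : ℝ)
    (hGb : ∀ k y, ‖G k y‖ ≤ c) (hG0 : ∀ k y, 1 < |y| → G k y = 0) (ε : Fin N → Bool)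
    (ξ : ℝ × ℝ × ℝ) :
    Pool.Agent.H147R3.PE.ext (semi a b G ε) ξ = EJ a b G ε ξ := by
  unfold Pool.Agent.H147R3.PE.ext semi EJ
  simp only [Finset.mul_sum]
  rw [integral_finsetSum]
  · apply Finset.sum_congr rfl
    intro k _
    rw [ext_term (a k) (b k) (h.lo k) (h.hi k) (G k) (hG0 k)]
    rfl
  · intro k _
    have hph : Measurable fun x : ℝ × ℝ =>
        cexp (-I * (x.1 * ξ.1 + x.2 * ξ.2.1 + (x.1 ^ 2 + x.2 ^ 2) * ξ.2.2)) := by fun_prop
    have hn : ∀ x : ℝ × ℝ,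
        ‖cexp (-I * (x.1 * ξ.1 + x.2 * ξ.2.1 + (x.1 ^ 2 + x.2 ^ 2) * ξ.2.2))‖ = 1 := by
      intro x
      have e : -I * (x.1 * ξ.1 + x.2 * ξ.2.1 + (x.1 ^ 2 + x.2 ^ 2) * ξ.2.2 : ℂ) =
          ((-(x.1 * ξ.1 + x.2 * ξ.2.1 + (x.1 ^ 2 + x.2 ^ 2) * ξ.2.2) : ℝ) : ℂ) * I := by
        push_cast
        ring
      rw [e, Complex.norm_exp_ofReal_mul_I]
    have hs : Measurable fun x : ℝ × ℝ => (Ioc (a k) (b k)).indicator (fun _ => G k x.2) x.1 := by
      have h1 : (fun x : ℝ × ℝ => (Ioc (a k) (b k)).indicator (fun _ => G k x.2) x.1) =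
          (Prod.fst ⁻¹' Ioc (a k) (b k)).indicator (fun x : ℝ × ℝ => G k x.2) := by
        ext x
        by_cases hx : x.1 ∈ Ioc (a k) (b k)
        · rw [indicator_of_mem hx, indicator_of_mem (by exact hx)]
        · rw [indicator_of_notMem hx, indicator_of_notMem (by exact hx)]
      rw [h1]
      exact ((hG k).comp measurable_snd).indicator (measurable_fst measurableSet_Ioc)
    have hB : Pool.Agent.H147R3.PE.BS2 c (fun x : ℝ × ℝ =>
        cexp (-I * (x.1 * ξ.1 + x.2 * ξ.2.1 + (x.1 ^ 2 + x.2 ^ 2) * ξ.2.2)) *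
          ((sg (ε k) : ℂ) * (Ioc (a k) (b k)).indicator (fun _ => G k x.2) x.1)) := by
      refine ⟨hph.mul (hs.const_mul _), ?_, ?_, ?_⟩
      · intro x
        rw [norm_mul, hn, one_mul, norm_mul, sg_norm, one_mul]
        refine (norm_indicator_le_norm_self _ _).trans (hGb k _)
      · intro x hx
        have : x.1 ∉ Ioc (a k) (b k) := by
          intro hk
          have h1 : |x.1| ≤ 1 := abs_le.2 ⟨by linarith [h.lo k, hk.1], by linarith [h.hi k, hk.2]⟩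
          linarith
        rw [indicator_of_notMem this]
        simp
      · intro x hx
        rw [hG0 k _ hx]
        simp
    exact hB.int

lemma avg_le {Y : Type*} [MeasurableSpace Y] (μ : Measure Y) (N : ℕ) (Z : Fin N → Y → ℂ)
    (hZ : ∀ k, Measurable (Z k)) (q : ℝ) (hq : 0 < q) :
    ((2 : ℝ≥0∞) ^ N)⁻¹ * ∑ ε : Fin N → Bool,
        ∫⁻ y, ‖∑ k, (sg (ε k) : ℂ) * Z k y‖ₑ ^ q ∂μ ≤
      ENNReal.ofReal (K1 q) * ∫⁻ y, (∑ k, ‖Z k y‖ₑ ^ 2) ^ (q / 2) ∂μ := by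
  rw [← lintegral_finsetSum]
  · have h1 : ∫⁻ y, ∑ ε : Fin N → Bool,
        ‖∑ k, (sg (ε k) : ℂ) * Z k y‖ₑ ^ q ∂μ ≤
        ∫⁻ y, 2 ^ N * (ENNReal.ofReal (K1 q) *
          (∑ k, ‖Z k y‖ₑ ^ 2) ^ (q / 2)) ∂μ := by
      apply lintegral_mono
      intro y
      have := khinchine q hq (fun k => Z k y)
      rw [Fintype.card_fin] at this
      exact this
    rw [lintegral_const_mul' _ _ (by simp), lintegral_const_mul' _ _ ENNReal.ofReal_ne_top] at h1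
    calc _ ≤ ((2 : ℝ≥0∞) ^ N)⁻¹ * (2 ^ N * (ENNReal.ofReal (K1 q) *
          ∫⁻ y, (∑ k, ‖Z k y‖ₑ ^ 2) ^ (q / 2) ∂μ)) := mul_le_mul_right h1 _
      _ = _ := by
          rw [← mul_assoc, ENNReal.inv_mul_cancel (by simp) (by simp), one_mul]
  · intro ε _
    apply Measurable.pow_const
    apply Measurable.enorm
    exact Finset.measurable_sum _ fun k _ => (hZ k).const_mul _

/-- the jacobian -/
noncomputable def jac : ℝ≥0∞ :=
  ENNReal.ofReal |(rr0 ^ Module.finrank ℝ (ℝ × ℝ × ℝ))⁻¹|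

lemma scale3 (F : ℝ × ℝ × ℝ → ℝ≥0∞) (hF : Measurable F) :
    ∫⁻ ξ, F (rr0 • ξ) = jac * ∫⁻ ξ, F ξ := by
  have hr : rr0 ≠ 0 := by
    unfold rr0
    have : 0 < Real.pi := Real.pi_pos
    simp
  have i2 : (volume : Measure (ℝ × ℝ)).IsAddHaarMeasure := by
    rw [Measure.volume_eq_prod]
    infer_instance
  have i3 : (volume : Measure (ℝ × ℝ × ℝ)).IsAddHaarMeasure := by
    rw [Measure.volume_eq_prod]
    infer_instance
  have h1 := Measure.map_addHaar_smul (volume : Measure (ℝ × ℝ × ℝ)) hr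
  rw [← lintegral_map hF (measurable_const_smul rr0), h1, lintegral_smul_measure]
  rfl

/-- one level -/
theorem level_avg (q q₁ : ℝ) (hq₁ : 3 < q₁) (hq4 : q₁ < 4) (hq : q₁ ≤ q) :
    ∃ D : ℝ≥0∞, D ≠ ⊤ ∧ ∀ (N : ℕ) (a b : Fin N → ℝ) (g : Fin N → ℝ → ℂ), Itv a b →
      (∀ k, Measurable (g k)) → ∀ s : ℝ, 0 < s → WW a b g q ≤ ENNReal.ofReal (s ^ q) → ∀ j : ℕ,
      ((2 : ℝ≥0∞) ^ N)⁻¹ * ∑ ε : Fin N → Bool, ∫⁻ ξ, ‖EJ a b (gt g s j) ε ξ‖ₑ ^ q ≤
        D * ENNReal.ofReal (s ^ q) * ENNReal.ofReal (((2 : ℝ) ^ j) ^ (-(q * (q - q₁)))) := by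
  obtain ⟨K, hK, hKK⟩ := sf_level q q₁ hq₁ hq4 hq
  obtain ⟨B, hB⟩ : ∃ B : ℝ, B = 4 * 2 ^ q := ⟨_, rfl⟩
  have hB0 : 0 < B := by rw [hB]; positivity
  set δ := q - q₁ with hδ
  have hδ0 : 0 ≤ δ := by linarith
  refine ⟨ENNReal.ofReal (K1 q) * (jac * (K * ENNReal.ofReal (B ^ (1 + δ)))), ?_, ?_⟩
  · refine ENNReal.mul_ne_top ENNReal.ofReal_ne_top (ENNReal.mul_ne_top ?_
      (ENNReal.mul_ne_top hK ENNReal.ofReal_ne_top))
    exact ENNReal.ofReal_ne_top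
  intro N a b g h hgm s hs hW j
  set G := gt g s j with hG
  have hGm : ∀ k, Measurable (G k) := gt_meas hgm s j
  have hc : 0 < (2 : ℝ) ^ j * s := by positivity
  have hGb : ∀ k y, ‖G k y‖ ≤ 2 ^ j * s := fun k y => tr_bd s hs j (g k y)
  have hm1 : S1m a b G ≤ ENNReal.ofReal (B * s ^ 1 * ((2 : ℝ) ^ j) ^ (1 - q)) := by
    have := level_mass h g q s hs 1 (by norm_num) (by push_cast; linarith) hW j
    simp only [pow_one, Nat.cast_one, ← hB] at this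
    unfold S1m M1
    rw [pow_one]
    exact this
  have hm2 : S2m a b G ≤ ENNReal.ofReal (B * s ^ 2 * ((2 : ℝ) ^ j) ^ (2 - q)) := by
    have := level_mass h g q s hs 2 (by norm_num) (by push_cast; linarith) hW j
    simp only [Nat.cast_ofNat, ← hB] at this
    exact this
  have hfin : S1m a b G ≠ ⊤ := ne_top_of_le_ne_top ENNReal.ofReal_ne_top hm1
  have h1 := hKK N a b G _ h hc hGm hGb hfin
  have h2 := avg_le (volume : Measure (ℝ × ℝ × ℝ)) N (fun k ξ => ZZ a b G k (rr0 • ξ))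
    (fun k => ZZr_meas hGm k) q (by linarith)
  have hSm : Measurable fun ξ : ℝ × ℝ × ℝ => SF a b G ξ ^ (q / 2) := by
    unfold SF
    exact (Finset.measurable_sum _ fun k _ => (ZZ_meas hGm k).enorm.pow_const 2).pow_const _
  have h3 : ∫⁻ ξ : ℝ × ℝ × ℝ, (∑ k, ‖ZZ a b G k (rr0 • ξ)‖ₑ ^ 2) ^ (q / 2) =
      jac * ∫⁻ ξ, SF a b G ξ ^ (q / 2) := scale3 (fun ξ => SF a b G ξ ^ (q / 2)) hSm
  rw [h3] at h2
  refine h2.trans ?_
  set X : ℝ := (2 : ℝ) ^ j with hX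
  have hX0 : 0 < X := by positivity
  have h4 : S1m a b G ^ (q - q₁) * (ENNReal.ofReal ((X * s) ^ (q₁ - 2)) * S2m a b G) ≤
      ENNReal.ofReal (B ^ (1 + δ) * s ^ q * X ^ (-(q * δ))) := by
    calc _ ≤ ENNReal.ofReal (B * s ^ 1 * X ^ (1 - q)) ^ δ *
          (ENNReal.ofReal ((X * s) ^ (q₁ - 2)) * ENNReal.ofReal (B * s ^ 2 * X ^ (2 - q))) := by
          gcongr
      _ = _ := by
          rw [ENNReal.ofReal_rpow_of_pos (by positivity), ← ENNReal.ofReal_mul (by positivity),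
            ← ENNReal.ofReal_mul (by positivity)]
          congr 1
          have e0 : (B * s ^ 1 * X ^ (1 - q)) ^ δ = B ^ δ * s ^ δ * X ^ ((1 - q) * δ) := by
            rw [pow_one, Real.mul_rpow (by positivity) (by positivity),
              Real.mul_rpow hB0.le hs.le, ← Real.rpow_mul hX0.le]
          have e0' : (X * s) ^ (q₁ - 2) = X ^ (q₁ - 2) * s ^ (q₁ - 2) :=
            Real.mul_rpow hX0.le hs.le
          rw [e0, e0', Real.rpow_add hB0, Real.rpow_one]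
          have e1 : s ^ q = s ^ δ * s ^ (q₁ - 2) * s ^ 2 := by
            rw [← Real.rpow_natCast s 2, ← Real.rpow_add hs, ← Real.rpow_add hs]
            congr 1
            push_cast
            rw [hδ]
            ring
          have e2 : X ^ (-(q * δ)) = X ^ ((1 - q) * δ) * X ^ (q₁ - 2) * X ^ (2 - q) := by
            rw [← Real.rpow_add hX0, ← Real.rpow_add hX0]
            congr 1
            rw [hδ]
            ring
          rw [e1, e2]
          ring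
  calc ENNReal.ofReal (K1 q) * (jac * ∫⁻ ξ, SF a b G ξ ^ (q / 2))
      ≤ ENNReal.ofReal (K1 q) * (jac * (K *
        ENNReal.ofReal (B ^ (1 + δ) * s ^ q * X ^ (-(q * δ))))) := by
        gcongr
        exact h1.trans (by gcongr)
    _ = _ := by
        rw [ENNReal.ofReal_mul (by positivity), ENNReal.ofReal_mul (by positivity)]
        ring

lemma geo (x : ℝ) (hx0 : 0 < x) (hx1 : x < 1) : (∑' k : ℕ, ENNReal.ofReal (x ^ k)) ≠ ⊤ := by
  have : ∀ k : ℕ, ENNReal.ofReal (x ^ k) = ENNReal.ofReal x ^ k := fun k =>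
    ENNReal.ofReal_pow hx0.le k
  simp only [this]
  rw [ENNReal.tsum_geometric, ENNReal.inv_ne_top]
  exact (tsub_pos_of_lt (ENNReal.ofReal_lt_one.2 hx1)).ne'

/-- the estimate with the normalisation `s` -/
theorem main_s (q : ℝ) (hq : 3 < q) :
    ∃ K : ℝ≥0∞, K ≠ ⊤ ∧ ∀ (N : ℕ) (a b : Fin N → ℝ) (g : Fin N → ℝ → ℂ), Itv a b →
      (∀ k, Measurable (g k)) → (∀ k y, 1 < |y| → g k y = 0) →
      ∀ s : ℝ, 0 < s → WW a b g q ≤ ENNReal.ofReal (s ^ q) →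
      ((2 : ℝ≥0∞) ^ N)⁻¹ * ∑ ε : Fin N → Bool,
          ∫⁻ ξ, ‖Pool.Agent.H147R3.PE.ext (semi a b g ε) ξ‖ₑ ^ q ≤
        K * ENNReal.ofReal (s ^ q) := by
  set q₁ : ℝ := (3 + min q 4) / 2 with hq₁d
  have hmin3 : 3 < min q 4 := lt_min hq (by norm_num)
  have hq₁ : 3 < q₁ := by rw [hq₁d]; linarith
  have hq4 : q₁ < 4 := by
    have := min_le_right q 4
    rw [hq₁d]; linarith
  have hqq : q₁ < q := by
    have := min_le_left q 4
    rw [hq₁d]; linarith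
  obtain ⟨D, hD, hDD⟩ := level_avg q q₁ hq₁ hq4 hqq.le
  set δ := q - q₁ with hδ
  have hδ0 : 0 < δ := by linarith
  have hq1 : 1 < q := by linarith
  set ρ : ℝ := (2 : ℝ) ^ (-(q * δ / (2 * (q - 1)))) with hρ
  have hρ0 : 0 < ρ := by positivity
  have hρ1 : ρ < 1 := by
    apply Real.rpow_lt_one_of_one_lt_of_neg (by norm_num)
    rw [neg_lt_zero]
    have : 0 < q - 1 := by linarith
    positivity
  have hsr : ∀ k : ℕ, (ρ ^ k) ^ (-(q - 1)) * ((2 : ℝ) ^ k) ^ (-(q * δ)) =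
      ((2 : ℝ) ^ (-(q * δ / 2))) ^ k := by
    intro k
    rw [← Real.rpow_natCast, ← Real.rpow_natCast, ← Real.rpow_natCast, hρ,
      ← Real.rpow_mul (by positivity), ← Real.rpow_mul (by positivity),
      ← Real.rpow_mul (by positivity), ← Real.rpow_mul (by positivity),
      ← Real.rpow_add (by norm_num)]
    congr 1
    have : q - 1 ≠ 0 := by linarith
    field_simp
    ring
  set G0 : ℝ≥0∞ := (∑' k, ENNReal.ofReal (ρ ^ k)) ^ (q - 1) with hG0d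
  have hG0t : G0 ≠ ⊤ := ENNReal.rpow_ne_top_of_nonneg (by linarith) (geo ρ hρ0 hρ1)
  refine ⟨G0 * (D * ∑' k : ℕ, ENNReal.ofReal (((2 : ℝ) ^ (-(q * δ / 2))) ^ k)), ?_, ?_⟩
  · refine ENNReal.mul_ne_top hG0t (ENNReal.mul_ne_top hD ?_)
    apply geo
    · positivity
    · apply Real.rpow_lt_one_of_one_lt_of_neg (by norm_num)
      have : 0 < q * δ := by positivity
      linarith
  intro N a b g h hgm hg0 s hs hW
  have hlev := hDD N a b g h hgm s hs hW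
  have hgt : ∀ j ε ξ, Pool.Agent.H147R3.PE.ext (semi a b (gt g s j) ε) ξ =
      EJ a b (gt g s j) ε ξ := fun j ε ξ =>
    ext_semi h (gt_meas hgm s j) (2 ^ j * s) (fun k y => tr_bd s hs j (g k y))
      (gt_zero hg0 s j) ε ξ
  have hEm : ∀ j ε, Measurable fun ξ : ℝ × ℝ × ℝ => ‖EJ a b (gt g s j) ε ξ‖ₑ ^ q :=
    fun j ε => (EJ_meas (gt_meas hgm s j) ε).enorm.pow_const q
  have hdil : ∀ f : ℝ × ℝ → ℂ, Pool.Agent.H147R3.PE.dil 1 f = f := by
    intro f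
    unfold Pool.Agent.H147R3.PE.dil
    ext x
    rw [one_mul]
  have hone : ∀ ε : Fin N → Bool,
      ∫⁻ ξ, ‖Pool.Agent.H147R3.PE.ext (semi a b g ε) ξ‖ₑ ^ q ≤
        G0 * ∑' j, ENNReal.ofReal ((ρ ^ j) ^ (-(q - 1))) *
          ∫⁻ ξ, ‖EJ a b (gt g s j) ε ξ‖ₑ ^ q := by
    intro ε
    have hf := semi_S2 h hgm hg0 ε
    have hN : ∫⁻ x, ‖semi a b g ε x‖ₑ ^ q ≤ ENNReal.ofReal (s ^ q) := by
      rw [semi_norm h hgm q (by linarith) ε]
      exact hW
    have hint : ∫⁻ x, ‖semi a b g ε x‖ₑ ≠ ⊤ := by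
      have h4 : ∀ x, ‖semi a b g ε x‖ₑ ≤
          Pool.Agent.H147R3.PE.QQ.indicator (fun _ => 1) x + ‖semi a b g ε x‖ₑ ^ q := by
        intro x
        by_cases hx : x ∈ Pool.Agent.H147R3.PE.QQ
        · rw [indicator_of_mem hx]
          by_cases h5 : ‖semi a b g ε x‖ₑ ≤ 1
          · exact h5.trans le_self_add
          · push Not at h5
            refine le_trans ?_ le_add_self
            calc ‖semi a b g ε x‖ₑ = ‖semi a b g ε x‖ₑ ^ (1 : ℝ) := (ENNReal.rpow_one _).symm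
              _ ≤ _ := ENNReal.rpow_le_rpow_of_exponent_le h5.le hq1.le
        · rw [hf.zero x hx]
          simp
      refine ne_top_of_le_ne_top ?_ (lintegral_mono h4)
      rw [lintegral_add_left ((measurable_const).indicator Pool.Agent.H147R3.PE.QQ_meas),
        lintegral_indicator Pool.Agent.H147R3.PE.QQ_meas, lintegral_const,
        Measure.restrict_apply_univ, Pool.Agent.H147R3.PE.QQ_vol]
      exact ENNReal.add_ne_top.2 ⟨by simp, ne_top_of_le_ne_top ENNReal.ofReal_ne_top hN⟩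
    have hpt : ∀ ξ, ‖Pool.Agent.H147R3.PE.ext (semi a b g ε) ξ‖ₑ ≤
        ∑' j, ‖EJ a b (gt g s j) ε ξ‖ₑ := by
      intro ξ
      have h1 := Pool.Agent.H147R3.PE.ext_sum hf hint s hs 1 le_rfl ξ
      simp only [hdil, pc_semi h hgm hg0 ε s, hgt] at h1
      exact h1
    calc ∫⁻ ξ, ‖Pool.Agent.H147R3.PE.ext (semi a b g ε) ξ‖ₑ ^ q
        ≤ ∫⁻ ξ, G0 * ∑' j, ENNReal.ofReal ((ρ ^ j) ^ (-(q - 1))) *
          ‖EJ a b (gt g s j) ε ξ‖ₑ ^ q := by
          apply lintegral_mono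
          intro ξ
          exact (ENNReal.rpow_le_rpow (hpt ξ) (show 0 ≤ q by linarith)).trans
            (Pool.Agent.H147R3.PE.wsum _ ρ hρ0 q hq1)
      _ = _ := by
          rw [lintegral_const_mul' _ _ hG0t, lintegral_tsum
            (fun j => ((hEm j ε).const_mul _).aemeasurable)]
          congr 1
          apply tsum_congr
          intro j
          rw [lintegral_const_mul _ (hEm j ε)]
  calc ((2 : ℝ≥0∞) ^ N)⁻¹ * ∑ ε : Fin N → Bool,
          ∫⁻ ξ, ‖Pool.Agent.H147R3.PE.ext (semi a b g ε) ξ‖ₑ ^ q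
      ≤ ((2 : ℝ≥0∞) ^ N)⁻¹ * ∑ ε : Fin N → Bool,
        G0 * ∑' j, ENNReal.ofReal ((ρ ^ j) ^ (-(q - 1))) *
          ∫⁻ ξ, ‖EJ a b (gt g s j) ε ξ‖ₑ ^ q := by
        gcongr with ε
        exact hone ε
    _ = G0 * ∑' j, ENNReal.ofReal ((ρ ^ j) ^ (-(q - 1))) *
        (((2 : ℝ≥0∞) ^ N)⁻¹ * ∑ ε : Fin N → Bool, ∫⁻ ξ, ‖EJ a b (gt g s j) ε ξ‖ₑ ^ q) := by
        rw [← Finset.mul_sum, ← Summable.tsum_finsetSum (fun _ _ => ENNReal.summable),
          mul_left_comm, ← ENNReal.tsum_mul_left]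
        congr 1
        apply tsum_congr
        intro j
        rw [← Finset.mul_sum]
        ring
    _ ≤ G0 * ∑' j, ENNReal.ofReal ((ρ ^ j) ^ (-(q - 1))) *
        (D * ENNReal.ofReal (s ^ q) * ENNReal.ofReal (((2 : ℝ) ^ j) ^ (-(q * δ)))) := by
        refine mul_le_mul_right (ENNReal.tsum_le_tsum fun j => ?_) _
        exact mul_le_mul_right (hlev j) _
    _ = _ := by
        have e2 : ∀ j : ℕ, ENNReal.ofReal ((ρ ^ j) ^ (-(q - 1))) *
            (D * ENNReal.ofReal (s ^ q) * ENNReal.ofReal (((2 : ℝ) ^ j) ^ (-(q * δ)))) =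
            (D * ENNReal.ofReal (s ^ q)) *
              ENNReal.ofReal (((2 : ℝ) ^ (-(q * δ / 2))) ^ j) := by
          intro j
          rw [← hsr j, ENNReal.ofReal_mul (by positivity)]
          ring
        simp only [e2]
        rw [ENNReal.tsum_mul_left]
        ring

/-- **The estimate.** -/
theorem main_W (q : ℝ) (hq : 3 < q) :
    ∃ K : ℝ≥0∞, K ≠ ⊤ ∧ K ≠ 0 ∧ ∀ (N : ℕ) (a b : Fin N → ℝ) (g : Fin N → ℝ → ℂ), Itv a b →
      (∀ k, Measurable (g k)) → (∀ k y, 1 < |y| → g k y = 0) →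
      ((2 : ℝ≥0∞) ^ N)⁻¹ * ∑ ε : Fin N → Bool,
          ∫⁻ ξ, ‖Pool.Agent.H147R3.PE.ext (semi a b g ε) ξ‖ₑ ^ q ≤ K * WW a b g q := by
  obtain ⟨K, hK, hKK⟩ := main_s q hq
  refine ⟨K + 1, ENNReal.add_ne_top.2 ⟨hK, by simp⟩, by simp, ?_⟩
  intro N a b g h hgm hg0
  have hq0 : 0 < q := by linarith
  by_cases hW : WW a b g q = ⊤
  · rw [hW, ENNReal.mul_top (by simp)]
    exact le_top
  have h1 : ∀ η : ℝ, 0 < η → ((2 : ℝ≥0∞) ^ N)⁻¹ * ∑ ε : Fin N → Bool,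
          ∫⁻ ξ, ‖Pool.Agent.H147R3.PE.ext (semi a b g ε) ξ‖ₑ ^ q ≤
          K * (WW a b g q + ENNReal.ofReal η) := by
    intro η hη
    set W := (WW a b g q).toReal with hWd
    have hW0 : 0 ≤ W := ENNReal.toReal_nonneg
    have hs : 0 < (W + η) ^ q⁻¹ := by positivity
    have e1 : ((W + η) ^ q⁻¹) ^ q = W + η := Real.rpow_inv_rpow (by positivity) hq0.ne'
    have e2 : ENNReal.ofReal (((W + η) ^ q⁻¹) ^ q) = WW a b g q + ENNReal.ofReal η := by
      rw [e1, ENNReal.ofReal_add hW0 hη.le, hWd, ENNReal.ofReal_toReal hW]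
    have h2 := hKK N a b g h hgm hg0 _ hs (by rw [e2]; exact le_self_add)
    rw [e2] at h2
    exact h2
  refine le_trans ?_ (mul_le_mul_left (show K ≤ K + 1 from le_self_add) _)
  apply ENNReal.le_of_forall_pos_le_add
  intro η hη _
  have hk0 : 0 < K.toReal + 1 := by positivity
  refine (h1 (η / (K.toReal + 1)) (by positivity)).trans ?_
  rw [mul_add]
  gcongr
  calc K * ENNReal.ofReal (η / (K.toReal + 1)) =
        ENNReal.ofReal (K.toReal * (η / (K.toReal + 1))) := by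
        rw [ENNReal.ofReal_mul ENNReal.toReal_nonneg, ENNReal.ofReal_toReal hK]
    _ ≤ ENNReal.ofReal η := by
        apply ENNReal.ofReal_le_ofReal
        rw [mul_div_assoc', div_le_iff₀ hk0]
        have : (0 : ℝ) < η := hη
        nlinarith
    _ = η := ENNReal.ofReal_coe_nnreal

end Pool.Agent.H728R3.SR
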