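import Mathlib
import Pool.Agent.H728R3.SR.L
set_option autoImplicit false

/-! Stationary phase for functions of bounded variation, one variable. -/

namespace Pool.Agent.H728R3.SR
open MeasureTheory Set Complex Filter Topology
open Pool.Agent.H147R3.PE
open scoped ENNReal

/-- majorant -/
noncomputable def kp (t z : ℝ) : ℝ := 2 / (|t| * (1 + |t| * z ^ 2))

lemma kp_nonneg (t z : ℝ) : 0 ≤ kp t z := by unfold kp; positivity

lemma kp_le (t z : ℝ) (ht : t ≠ 0) : kp t z ≤ 2 / |t| := by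
  have ht' : 0 < |t| := abs_pos.2 ht
  unfold kp
  apply div_le_div_of_nonneg_left (by norm_num) ht'
  have : 0 ≤ |t| * z ^ 2 := by positivity
  nlinarith

lemma kp_neg (t z : ℝ) : kp t (-z) = kp t z := by unfold kp; simp

lemma lint_aff (G : ℝ → ℝ≥0∞) (hG : Measurable G) (α β : ℝ) (hα : α ≠ 0) :
    ∫⁻ y, G (α * y + β) = ENNReal.ofReal |α⁻¹| * ∫⁻ y, G y := by
  have hG' : Measurable fun z => G (z + β) := hG.comp (measurable_add_const β)
  have h1 := Real.map_volume_mul_left hα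
  have h2 : ∫⁻ x, G (x + β) ∂(Measure.map (fun x => α * x) volume) = ∫⁻ x, G (α * x + β) :=
    lintegral_map hG' (measurable_const_mul α)
  rw [← h2, h1, lintegral_smul_measure, smul_eq_mul, lintegral_add_right_eq_self G β]

lemma kp_int (t c : ℝ) (ht : t ≠ 0) :
    ∫⁻ y, ENNReal.ofReal (kp t (c + y / (2 * t))) = ENNReal.ofReal (4 * Real.pi / Real.sqrt |t|) := by
  have ht' : 0 < |t| := abs_pos.2 ht
  set r := Real.sqrt |t| with hr
  have hr0 : 0 < r := Real.sqrt_pos.2 ht'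
  have hrr : r * r = |t| := Real.mul_self_sqrt ht'.le
  set α := r / (2 * t) with hα
  have hα0 : α ≠ 0 := by rw [hα]; positivity
  have e1 : ∀ y, ENNReal.ofReal (kp t (c + y / (2 * t))) =
      ENNReal.ofReal (2 / |t| * (1 + (α * y + r * c) ^ 2)⁻¹) := by
    intro y
    congr 1
    unfold kp
    have : |t| * (c + y / (2 * t)) ^ 2 = (α * y + r * c) ^ 2 := by
      rw [← hrr, hα]
      ring
    rw [this]
    field_simp
  simp only [e1]
  rw [lint_aff (fun w => ENNReal.ofReal (2 / |t| * (1 + w ^ 2)⁻¹)) (by fun_prop) α (r * c) hα0]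
  have e2 : ∀ w : ℝ, ENNReal.ofReal (2 / |t| * (1 + w ^ 2)⁻¹) =
      ENNReal.ofReal (2 / |t|) * ENNReal.ofReal ((1 + w ^ 2)⁻¹) := fun w =>
    ENNReal.ofReal_mul (by positivity)
  simp only [e2]
  rw [lintegral_const_mul' _ _ ENNReal.ofReal_ne_top,
    ← ofReal_integral_eq_lintegral_ofReal integrable_inv_one_add_sq
      (ae_of_all _ fun w => by positivity), integral_univ_inv_one_add_sq,
    ← ENNReal.ofReal_mul (by positivity), ← ENNReal.ofReal_mul (by positivity)]
  congr 1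
  rw [hα, inv_div, abs_div, abs_of_pos hr0, abs_mul, ← hrr]
  norm_num
  field_simp
  norm_num

/-- the phase -/
noncomputable def pp (y t v : ℝ) : ℂ := cexp (2 * Real.pi * I * ((v * y + v ^ 2 * t : ℝ) : ℂ))

lemma pp_cont (y t : ℝ) : Continuous (pp y t) := by unfold pp; fun_prop

lemma pp_norm (y t v : ℝ) : ‖pp y t v‖ = 1 := by
  unfold pp
  have : (2 * Real.pi * I * ((v * y + v ^ 2 * t : ℝ) : ℂ)) =
      ((2 * Real.pi * (v * y + v ^ 2 * t) : ℝ) : ℂ) * I := by
    push_cast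
    ring
  rw [this, Complex.norm_exp_ofReal_mul_I]

lemma J_eq (a b y t : ℝ) (ha : -1 ≤ a) (hab : a ≤ b) (hb : b ≤ 1) :
    e1 (ind a b) y t = ∫ v in a..b, pp y t v := by
  unfold e1 ind pp
  rw [intervalIntegral.integral_of_le hab, ← integral_Icc_eq_integral_Ioc,
    ← integral_indicator measurableSet_Icc, ← integral_indicator measurableSet_Icc]
  congr 1
  ext v
  by_cases hv : v ∈ Icc a b
  · have hv2 : v ∈ Icc (-1 : ℝ) 1 := ⟨by linarith [hv.1], by linarith [hv.2]⟩
    rw [indicator_of_mem hv, indicator_of_mem hv2, indicator_of_mem hv, one_mul]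
  · rw [indicator_of_notMem hv]
    by_cases hv2 : v ∈ Icc (-1 : ℝ) 1
    · rw [indicator_of_mem hv2, indicator_of_notMem hv, zero_mul]
    · rw [indicator_of_notMem hv2]

lemma J_add (c y t : ℝ) (h1 : -1 ≤ c) (h2 : c ≤ 1) :
    e1 (ind (-1) 1) y t = e1 (ind (-1) c) y t + e1 (ind c 1) y t := by
  rw [J_eq _ _ _ _ le_rfl (by norm_num) le_rfl, J_eq _ _ _ _ le_rfl h1 h2,
    J_eq _ _ _ _ h1 h2 le_rfl]
  exact (intervalIntegral.integral_add_adjacent_intervals
    ((pp_cont y t).intervalIntegrable _ _) ((pp_cont y t).intervalIntegrable _ _)).symm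

lemma J_norm (a b y t : ℝ) (ha : -1 ≤ a) (hab : a ≤ b) (hb : b ≤ 1) (ht : t ≠ 0) :
    ‖e1 (ind a b) y t‖ = ‖fr (2 * Real.pi * t) (a + y / (2 * t)) (b + y / (2 * t))‖ := by
  rw [J_eq a b y t ha hab hb]
  have e1 : ∫ v in a..b, pp y t v =
      cexp (((-(2 * Real.pi * (y ^ 2 / (4 * t))) : ℝ) : ℂ) * I) *
        fr (2 * Real.pi * t) (a + y / (2 * t)) (b + y / (2 * t)) := by
    unfold fr pp
    rw [← intervalIntegral.integral_comp_add_right, ← intervalIntegral.integral_const_mul]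
    apply intervalIntegral.integral_congr
    intro v _
    simp only
    rw [← Complex.exp_add]
    congr 1
    have : v * y + v ^ 2 * t = t * (v + y / (2 * t)) ^ 2 - y ^ 2 / (4 * t) := by
      field_simp
      ring
    rw [this]
    push_cast
    ring
  rw [e1, norm_mul, Complex.norm_exp_ofReal_mul_I, one_mul]

lemma fr_kp (t a b : ℝ) (ht : t ≠ 0) (ha : 0 ≤ a) (hab : a ≤ b) :
    ‖fr (2 * Real.pi * t) a b‖ ^ 2 ≤ kp t a := by
  have ht' : 0 < |t| := abs_pos.2 ht
  have hpi := Real.pi_gt_three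
  have hτ : 2 * Real.pi * t ≠ 0 := mul_ne_zero (by positivity) ht
  have hτa : |2 * Real.pi * t| = 2 * Real.pi * |t| := by
    rw [abs_mul, abs_of_pos (show (0 : ℝ) < 2 * Real.pi by positivity)]
  set M := ‖fr (2 * Real.pi * t) a b‖ with hM
  have hM0 : 0 ≤ M := norm_nonneg _
  have h1 : M ^ 2 * |t| ≤ 1 := by
    have h := fr_unif (2 * Real.pi * t) a b hτ ha hab
    rw [hτa] at h
    set r := Real.sqrt (2 * Real.pi * |t|) with hr
    have hr0 : 0 < r := Real.sqrt_pos.2 (by positivity)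
    have hrr : r * r = 2 * Real.pi * |t| := Real.mul_self_sqrt (by positivity)
    have h2 : M * r ≤ 2 := by
      have : M ≤ 2 * r⁻¹ := h
      calc M * r ≤ (2 * r⁻¹) * r := by gcongr
        _ = 2 := by field_simp
    have h3 : M ^ 2 * (2 * Real.pi * |t|) ≤ 4 := by
      rw [← hrr]
      have : M ^ 2 * (r * r) = (M * r) ^ 2 := by ring
      rw [this]
      have : 0 ≤ M * r := by positivity
      nlinarith
    have h4 : 0 ≤ M ^ 2 * |t| := by positivity
    nlinarith
  have h2 : M ^ 2 * (|t| ^ 2 * a ^ 2) ≤ 1 := by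
    rcases ha.eq_or_lt with h0 | h0
    · rw [← h0]; norm_num
    · have h := fr_ibp (2 * Real.pi * t) a b hτ h0 hab
      rw [hτa, le_div_iff₀ (by positivity)] at h
      have h5 : M * (|t| * a) ≤ 1 := by
        have : 0 ≤ M * (|t| * a) := by positivity
        nlinarith
      have h6 : 0 ≤ M * (|t| * a) := by positivity
      have : M ^ 2 * (|t| ^ 2 * a ^ 2) = (M * (|t| * a)) ^ 2 := by ring
      rw [this]
      nlinarith
  unfold kp
  rw [le_div_iff₀ (by positivity)]
  have : M ^ 2 * (|t| * (1 + |t| * a ^ 2)) = M ^ 2 * |t| + M ^ 2 * (|t| ^ 2 * a ^ 2) := by ring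
  rw [this]
  linarith

lemma J_pos (a b y t : ℝ) (ha : -1 ≤ a) (hab : a ≤ b) (hb : b ≤ 1) (ht : t ≠ 0)
    (h : 0 ≤ a + y / (2 * t)) : ‖e1 (ind a b) y t‖ ^ 2 ≤ kp t (a + y / (2 * t)) := by
  rw [J_norm a b y t ha hab hb ht]
  exact fr_kp t _ _ ht h (by linarith)

lemma J_neg (a b y t : ℝ) (ha : -1 ≤ a) (hab : a ≤ b) (hb : b ≤ 1) (ht : t ≠ 0)
    (h : b + y / (2 * t) ≤ 0) : ‖e1 (ind a b) y t‖ ^ 2 ≤ kp t (b + y / (2 * t)) := by
  rw [J_norm a b y t ha hab hb ht, ← fr_neg, ← kp_neg]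
  exact fr_kp t _ _ ht (by linarith) (by linarith)

lemma J_all (y t : ℝ) (ht : t ≠ 0) : ‖e1 (ind (-1) 1) y t‖ ^ 2 ≤ 8 / |t| := by
  have ht' : 0 < |t| := abs_pos.2 ht
  set c : ℝ := max (-1) (min 1 (-(y / (2 * t)))) with hc
  have h1 : -1 ≤ c := le_max_left _ _
  have h2 : c ≤ 1 := max_le (by norm_num) (min_le_left _ _)
  rw [J_add c y t h1 h2]
  have hb : ‖e1 (ind (-1) c) y t + e1 (ind c 1) y t‖ ^ 2 ≤
      2 * ‖e1 (ind (-1) c) y t‖ ^ 2 + 2 * ‖e1 (ind c 1) y t‖ ^ 2 := by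
    have := norm_add_le (e1 (ind (-1) c) y t) (e1 (ind c 1) y t)
    have h0 := norm_nonneg (e1 (ind (-1) c) y t + e1 (ind c 1) y t)
    have h3 := sq_nonneg (‖e1 (ind (-1) c) y t‖ - ‖e1 (ind c 1) y t‖)
    nlinarith
  have hA : ‖e1 (ind (-1) c) y t‖ ^ 2 ≤ 2 / |t| := by
    rcases le_or_gt (c + y / (2 * t)) 0 with h | h
    · exact (J_neg _ _ _ _ le_rfl h1 h2 ht h).trans (kp_le t _ ht)
    · have : c = -1 := by
        rcases max_cases (-1) (min 1 (-(y / (2 * t)))) with h3 | h3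
        · rw [hc, h3.1]
        · exfalso
          have h4 : c = min 1 (-(y / (2 * t))) := by rw [hc, h3.1]
          have h5 : c ≤ -(y / (2 * t)) := by rw [h4]; exact min_le_right _ _
          linarith
      rw [this, J_eq _ _ _ _ le_rfl le_rfl (by norm_num)]
      simp
      positivity
  have hB : ‖e1 (ind c 1) y t‖ ^ 2 ≤ 2 / |t| := by
    rcases le_or_gt 0 (c + y / (2 * t)) with h | h
    · exact (J_pos _ _ _ _ h1 h2 le_rfl ht h).trans (kp_le t _ ht)
    · have : c = 1 := by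
        have h4 : min 1 (-(y / (2 * t))) ≤ c := le_max_right _ _
        rcases min_cases 1 (-(y / (2 * t))) with h3 | h3
        · rw [h3.1] at h4
          linarith
        · rw [h3.1] at h4
          linarith
      rw [this, J_eq _ _ _ _ (by norm_num) le_rfl le_rfl]
      simp
      positivity
  have e : 8 / |t| = 2 * (2 / |t|) + 2 * (2 / |t|) := by ring
  rw [e]
  linarith

/-- the error operator -/
noncomputable def Aop (h : ℝ → ℂ) (y t : ℝ) : ℂ :=
  e1 h y t - (if |y / (2 * t)| < 1 then h (-(y / (2 * t))) * e1 (ind (-1) 1) y t else 0)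

lemma Aop_ind (S : Set ℝ) (c : ℝ) (h1 : -1 ≤ c) (h2 : c ≤ 1)
    (hS1 : ∀ v ∈ Icc (-1 : ℝ) 1, c < v → v ∈ S) (hS2 : ∀ v ∈ Icc (-1 : ℝ) 1, v < c → v ∉ S)
    (y t : ℝ) (ht : t ≠ 0) :
    ‖Aop (S.indicator fun _ => 1) y t‖ ^ 2 ≤ kp t (c + y / (2 * t)) + kp t (1 + y / (2 * t)) := by
  have e0 : e1 (S.indicator fun _ => 1) y t = e1 (ind c 1) y t := by
    unfold e1
    apply setIntegral_congr_ae measurableSet_Icc
    have hne : ∀ᵐ v : ℝ, v ≠ c := by simp [ae_iff, measure_singleton]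
    filter_upwards [hne] with v hv hvI
    congr 1
    unfold ind
    rcases lt_or_gt_of_ne hv with hlt | hgt
    · rw [indicator_of_notMem (hS2 v hvI hlt), indicator_of_notMem]
      intro h3
      linarith [h3.1]
    · rw [indicator_of_mem (hS1 v hvI hgt), indicator_of_mem]
      exact ⟨hgt.le, hvI.2⟩
  have k1 := kp_nonneg t (c + y / (2 * t))
  have k2 := kp_nonneg t (1 + y / (2 * t))
  set σ := y / (2 * t) with hσ
  unfold Aop
  rw [e0, ← hσ]
  by_cases hs : |σ| < 1
  · rw [if_pos hs]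
    have hs' := abs_lt.1 hs
    have hmem : -σ ∈ Icc (-1 : ℝ) 1 := ⟨by linarith, by linarith⟩
    by_cases hm : -σ ∈ S
    · rw [indicator_of_mem hm, one_mul, J_add c y t h1 h2]
      have hc : c ≤ -σ := by
        by_contra hlt
        push Not at hlt
        exact hS2 _ hmem hlt hm
      have e2 : e1 (ind c 1) y t - (e1 (ind (-1) c) y t + e1 (ind c 1) y t) =
          -e1 (ind (-1) c) y t := by ring
      rw [e2, norm_neg]
      have := J_neg (-1) c y t le_rfl h1 h2 ht (by rw [← hσ]; linarith)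
      rw [← hσ] at this
      linarith
    · rw [indicator_of_notMem hm, zero_mul, sub_zero]
      have hc : -σ ≤ c := by
        by_contra hlt
        push Not at hlt
        exact hm (hS1 _ hmem hlt)
      have := J_pos c 1 y t h1 h2 le_rfl ht (by rw [← hσ]; linarith)
      rw [← hσ] at this
      linarith
  · rw [if_neg hs, sub_zero]
    push Not at hs
    rcases le_or_gt 0 σ with h0 | h0
    · rw [abs_of_nonneg h0] at hs
      have := J_pos c 1 y t h1 h2 le_rfl ht (by rw [← hσ]; linarith)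
      rw [← hσ] at this
      linarith
    · rw [abs_of_neg h0] at hs
      have := J_neg c 1 y t h1 h2 le_rfl ht (by rw [← hσ]; linarith)
      rw [← hσ] at this
      linarith

/-- the class of functions of one variable to which the argument applies -/
structure Good (C : ℝ) (h : ℝ → ℂ) : Prop where
  meas : Measurable h
  bd : ∀ y t, t ≠ 0 → ‖Aop h y t‖ ≤ C * (Real.sqrt |t|)⁻¹
  two : ∀ t, t ≠ 0 → ∫⁻ y, ‖Aop h y t‖ₑ ^ 2 ≤ ENNReal.ofReal (C * (Real.sqrt |t|)⁻¹)

end Pool.Agent.H728R3.SR
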