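import Mathlib
import Pool.Agent.H728R3.SR.P
set_option autoImplicit false

/-! Assembly in `ℝ^3`. -/

namespace Pool.Agent.H728R3.SR
open MeasureTheory Set Complex Filter Topology
open Pool.Agent.H147R3.PE
open scoped ENNReal

lemma e1_joint {Λ : Type*} [MeasurableSpace Λ] (φ : Λ → ℝ → ℂ)
    (hφ : Measurable fun p : Λ × ℝ => φ p.1 p.2) (x t : Λ → ℝ) (hx : Measurable x)
    (ht : Measurable t) : Measurable fun l => e1 (φ l) (x l) (t l) := by
  simp only [e1_eq]
  apply FT_meas (fun l => ch (-(2 * Real.pi * t l)) (cut (φ l))) _ (fun l => -(2 * Real.pi * x l))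
  · exact (hx.const_mul (2 * Real.pi)).neg
  · unfold ch cut
    have e3 : Measurable (fun p : Λ × ℝ => (-(-(2 * Real.pi * t p.1) * p.2 ^ 2) : ℝ)) :=
      (((ht.comp measurable_fst).const_mul (2 * Real.pi)).neg.mul (measurable_snd.pow_const 2)).neg
    have e4 : Measurable fun p : Λ × ℝ => (Icc (-1 : ℝ) 1).indicator (φ p.1) p.2 := by
      have h1 : (fun p : Λ × ℝ => (Icc (-1 : ℝ) 1).indicator (φ p.1) p.2) =
          (Prod.snd ⁻¹' Icc (-1 : ℝ) 1).indicator (fun p : Λ × ℝ => φ p.1 p.2) := by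
        ext p
        by_cases hp : p.2 ∈ Icc (-1 : ℝ) 1
        · rw [indicator_of_mem hp, indicator_of_mem (by exact hp)]
        · rw [indicator_of_notMem hp, indicator_of_notMem (by exact hp)]
      rw [h1]
      exact hφ.indicator (measurable_snd measurableSet_Icc)
    exact ((Complex.measurable_exp.comp ((Complex.measurable_ofReal.comp e3).mul_const I))).mul e4

lemma e1_int {h : ℝ → ℂ} (hm : Measurable h) (c : ℝ) (hb : ∀ y, ‖h y‖ ≤ c) (x t : ℝ) :
    Integrable (fun y => h y * cexp (2 * Real.pi * I * ((y * x + y ^ 2 * t : ℝ) : ℂ)))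
      (volume.restrict (Icc (-1 : ℝ) 1)) := by
  refine Integrable.of_bound (hm.mul (pp_cont x t).measurable).aestronglyMeasurable c
    (ae_of_all _ fun y => ?_)
  have h1 := pp_norm x t y
  unfold pp at h1
  rw [norm_mul, h1, mul_one]
  exact hb y

lemma e1_add {h k : ℝ → ℂ} (hm : Measurable h) (km : Measurable k) (c d : ℝ)
    (hb : ∀ y, ‖h y‖ ≤ c) (kb : ∀ y, ‖k y‖ ≤ d) (x t : ℝ) :
    e1 (fun y => h y + k y) x t = e1 h x t + e1 k x t := by
  unfold e1
  rw [← integral_add (e1_int hm c hb x t) (e1_int km d kb x t)]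
  congr 1
  ext y
  ring

lemma e1_bdc {h : ℝ → ℂ} (c : ℝ) (hb : ∀ y, ‖h y‖ ≤ c) (x t : ℝ) :
    ‖e1 h x t‖ₑ ≤ ENNReal.ofReal (2 * c) := by
  refine (e1_le h x t).trans ?_
  unfold M1
  calc ∫⁻ z, ‖cut h z‖ₑ ≤ ∫⁻ z, (Icc (-1 : ℝ) 1).indicator (fun _ => ENNReal.ofReal c) z := by
        apply lintegral_mono
        intro z
        simp only
        unfold cut
        by_cases hz : z ∈ Icc (-1 : ℝ) 1
        · rw [indicator_of_mem hz, indicator_of_mem hz, ← ofReal_norm]
          exact ENNReal.ofReal_le_ofReal (hb z)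
        · rw [indicator_of_notMem hz, indicator_of_notMem hz]
          simp
    _ = _ := by
        rw [lintegral_indicator measurableSet_Icc, lintegral_const,
          Measure.restrict_apply_univ, Real.volume_Icc, mul_comm,
          ENNReal.ofReal_mul (by norm_num : (0 : ℝ) ≤ 2)]
        norm_num

lemma e1_two_c {h : ℝ → ℂ} (hm : Measurable h) (c : ℝ) (hc : 0 < c) (hb : ∀ y, ‖h y‖ ≤ c)
    (t : ℝ) : ∫⁻ x, ‖e1 h x t‖ₑ ^ 2 = M2 h := by
  set h' : ℝ → ℂ := fun y => (c⁻¹ : ℝ) * h y with hh'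
  have hm' : Measurable h' := hm.const_mul _
  have e0 : h = fun y => ((c : ℝ) : ℂ) * h' y := by
    ext y
    rw [hh']
    simp only
    rw [← mul_assoc, ← Complex.ofReal_mul, mul_inv_cancel₀ hc.ne', Complex.ofReal_one, one_mul]
  have hb' : ∀ y, ‖h' y‖ ≤ 1 := by
    intro y
    rw [hh']
    simp only
    rw [norm_mul, Complex.norm_real, norm_inv, Real.norm_of_nonneg hc.le,
      inv_mul_le_iff₀ hc, mul_one]
    exact hb y
  have hmx : Measurable fun x : ℝ => ‖e1 h' x t‖ₑ ^ 2 := by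
    have : Measurable fun x : ℝ => e1 h' x t :=
      (e1_meas hm').comp (measurable_id.prodMk measurable_const)
    exact this.enorm.pow_const 2
  rw [e0, M2_smul _ _ hm']
  simp only [e1_smul, enorm_mul, mul_pow]
  rw [lintegral_const_mul _ hmx, e1_two hm' hb']
  rfl

/-- `L^2` identity in two variables -/
lemma two2 (G : ℝ → ℝ → ℂ) (hG : Measurable fun p : ℝ × ℝ => G p.1 p.2) (c : ℝ) (hc : 0 < c)
    (hb : ∀ u y, ‖G u y‖ ≤ c) (t : ℝ) (D : ℝ≥0∞) (hD : ∀ u, ∫⁻ y, ‖G u y‖ₑ ^ 2 ≤ D)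
    (q : ℝ) (hq : 2 ≤ q) :
    ∫⁻ y, ∫⁻ x, ‖e1 (fun u => G u y) x t‖ₑ ^ q ≤ ENNReal.ofReal (2 * c) ^ (q - 2) * (2 * D) := by
  have hsec : ∀ y, Measurable fun u => G u y := fun y =>
    hG.comp (measurable_id.prodMk measurable_const)
  have hft : ENNReal.ofReal (2 * c) ^ (q - 2) ≠ ⊤ :=
    ENNReal.rpow_ne_top_of_nonneg (by linarith) ENNReal.ofReal_ne_top
  have h1 : ∀ y, ∫⁻ x, ‖e1 (fun u => G u y) x t‖ₑ ^ q ≤
      ENNReal.ofReal (2 * c) ^ (q - 2) * M2 (fun u => G u y) := by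
    intro y
    rw [← e1_two_c (hsec y) c hc (fun u => hb u y) t, ← lintegral_const_mul' _ _ hft]
    apply lintegral_mono
    intro x
    simp only
    have e : ‖e1 (fun u => G u y) x t‖ₑ ^ q =
        ‖e1 (fun u => G u y) x t‖ₑ ^ (q - 2) * ‖e1 (fun u => G u y) x t‖ₑ ^ 2 := by
      rw [← ENNReal.rpow_natCast _ 2, ← ENNReal.rpow_add_of_nonneg _ _ (by linarith) (by norm_num)]
      congr 1
      push_cast
      ring
    rw [e]
    gcongr
    exact e1_bdc c (fun u => hb u y) x t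
  have hm2 : ∀ y, M2 (fun u => G u y) = ∫⁻ u in Icc (-1 : ℝ) 1, ‖G u y‖ₑ ^ 2 := by
    intro y
    unfold M2
    rw [← lintegral_indicator measurableSet_Icc]
    apply lintegral_congr
    intro u
    unfold cut
    by_cases hu : u ∈ Icc (-1 : ℝ) 1
    · rw [indicator_of_mem hu, indicator_of_mem hu]
    · rw [indicator_of_notMem hu, indicator_of_notMem hu]
      simp
  have hsw : ∫⁻ y, ∫⁻ u in Icc (-1 : ℝ) 1, ‖G u y‖ₑ ^ 2 =
      ∫⁻ u in Icc (-1 : ℝ) 1, ∫⁻ y, ‖G u y‖ₑ ^ 2 := by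
    apply lintegral_lintegral_swap (f := fun y u => ‖G u y‖ₑ ^ 2)
    exact ((hG.comp measurable_swap).enorm.pow_const 2).aemeasurable
  calc _ ≤ ∫⁻ y, ENNReal.ofReal (2 * c) ^ (q - 2) * M2 (fun u => G u y) := lintegral_mono h1
    _ = ENNReal.ofReal (2 * c) ^ (q - 2) * ∫⁻ u in Icc (-1 : ℝ) 1, ∫⁻ y, ‖G u y‖ₑ ^ 2 := by
        rw [lintegral_const_mul' _ _ hft]
        simp only [hm2]
        rw [hsw]
    _ ≤ ENNReal.ofReal (2 * c) ^ (q - 2) * ∫⁻ u in Icc (-1 : ℝ) 1, D := by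
        gcongr with u
        exact hD u
    _ = _ := by
        rw [lintegral_const, Measure.restrict_apply_univ, Real.volume_Icc, mul_comm D]
        norm_num

/-- the extension of a function on the square -/
noncomputable def FF2 (f : ℝ × ℝ → ℂ) (x y t : ℝ) : ℂ :=
  e1 (fun u => e1 (fun v => f (u, v)) y t) x t

lemma FF2_meas {f : ℝ × ℝ → ℂ} (hf : Measurable f) :
    Measurable fun p : ℝ × ℝ × ℝ => FF2 f p.1 p.2.1 p.2.2 := by
  unfold FF2
  apply e1_joint (fun (p : ℝ × ℝ × ℝ) u => e1 (fun v => f (u, v)) p.2.1 p.2.2) _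
    (fun p => p.1) (fun p => p.2.2) measurable_fst (measurable_snd.comp measurable_snd)
  apply e1_joint (fun (p : (ℝ × ℝ × ℝ) × ℝ) v => f (p.2, v)) _
    (fun p => p.1.2.1) (fun p => p.1.2.2)
  · exact measurable_fst.comp (measurable_snd.comp measurable_fst)
  · exact measurable_snd.comp (measurable_snd.comp measurable_fst)
  · exact hf.comp ((measurable_snd.comp measurable_fst).prodMk measurable_snd)

/-- small times -/
lemma small_t {f : ℝ × ℝ → ℂ} (hf : Measurable f) (hb : ∀ x, ‖f x‖ ≤ 1) (q : ℝ) (hq : 2 ≤ q)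
    (t : ℝ) : ∫⁻ y, ∫⁻ x, ‖FF2 f x y t‖ₑ ^ q ≤ 4 ^ (q - 2) * 4 := by
  have hsec : ∀ u, Measurable fun v => f (u, v) := fun u =>
    hf.comp (measurable_const.prodMk measurable_id)
  have hG : Measurable fun p : ℝ × ℝ => e1 (fun v => f (p.1, v)) p.2 t := by
    apply e1_joint (fun (p : ℝ × ℝ) v => f (p.1, v)) _ (fun p => p.2) (fun _ => t) measurable_snd
      measurable_const
    exact hf.comp ((measurable_fst.comp measurable_fst).prodMk measurable_snd)
  have hGb : ∀ u y, ‖e1 (fun v => f (u, v)) y t‖ ≤ 2 := by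
    intro u y
    have h := e1_bdc 1 (fun v => hb (u, v)) y t
    rw [← ofReal_norm, ENNReal.ofReal_le_ofReal_iff (by norm_num)] at h
    linarith
  have h1 := two2 (fun u y => e1 (fun v => f (u, v)) y t) hG 2 (by norm_num) hGb t 2 (by
    intro u
    rw [e1_two_c (hsec u) 1 one_pos (fun v => hb (u, v)) t]
    exact cut_two (fun v => hb (u, v)) 2 (by norm_num)) q hq
  unfold FF2
  refine h1.trans (le_of_eq ?_)
  congr 1
  · congr 1
    norm_num
  · norm_num

lemma W_bd (y t : ℝ) (ht : t ≠ 0) (q : ℝ) (hq : 0 ≤ q) :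
    ‖e1 (ind (-1) 1) y t‖ₑ ^ q ≤ ENNReal.ofReal (8 ^ (q / 2) * |t| ^ (-(q / 2))) := by
  have ht' : 0 < |t| := abs_pos.2 ht
  have h1 := J_all y t ht
  rw [← ofReal_norm, ENNReal.ofReal_rpow_of_nonneg (norm_nonneg _) hq]
  apply ENNReal.ofReal_le_ofReal
  calc ‖e1 (ind (-1) 1) y t‖ ^ q = (‖e1 (ind (-1) 1) y t‖ ^ 2) ^ (q / 2) := by
        rw [← Real.rpow_natCast, ← Real.rpow_mul (norm_nonneg _)]
        congr 1
        push_cast
        ring
    _ ≤ (8 / |t|) ^ (q / 2) := Real.rpow_le_rpow (by positivity) h1 (by linarith)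
    _ = _ := by
        rw [Real.div_rpow (by norm_num) ht'.le, Real.rpow_neg ht'.le]
        rfl

/-- the main term -/
lemma main_t {f : ℝ × ℝ → ℂ} (hf : Measurable f) (q : ℝ) (hq : 2 ≤ q) (t : ℝ) (ht : t ≠ 0) :
    ∫⁻ y, ∫⁻ x, ‖(if |y / (2 * t)| < 1 then
        e1 (ind (-1) 1) y t * e1 (fun u => f (u, -(y / (2 * t)))) x t else 0)‖ₑ ^ q ≤
      ENNReal.ofReal (8 ^ (q / 2) * |t| ^ (-(q / 2)) * (2 * |t|)) *
        ∫⁻ s in Ioo (-1 : ℝ) 1, Gq (fun u => f (u, s)) q t := by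
  have ht' : 0 < |t| := abs_pos.2 ht
  set B := ENNReal.ofReal (8 ^ (q / 2) * |t| ^ (-(q / 2))) with hB
  have hGm : Measurable fun s => Gq (fun u => f (u, s)) q t := by
    unfold Gq
    have h1 : Measurable fun p : ℝ × ℝ => e1 (fun u => f (u, p.1)) p.2 t := by
      apply e1_joint (fun (p : ℝ × ℝ) u => f (u, p.1)) _ (fun p => p.2) (fun _ => t) measurable_snd
        measurable_const
      exact hf.comp (measurable_snd.prodMk (measurable_fst.comp measurable_fst))
    exact (h1.enorm.pow_const q).lintegral_prod_right'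
  set G : ℝ → ℝ≥0∞ := (Ioo (-1 : ℝ) 1).indicator fun s => Gq (fun u => f (u, s)) q t with hG
  have hGmeas : Measurable G := hGm.indicator measurableSet_Ioo
  have h1 : ∀ y, ∫⁻ x, ‖(if |y / (2 * t)| < 1 then
        e1 (ind (-1) 1) y t * e1 (fun u => f (u, -(y / (2 * t)))) x t else 0)‖ₑ ^ q ≤
        B * G (-(2 * t)⁻¹ * y + 0) := by
    intro y
    have e1' : -(2 * t)⁻¹ * y + 0 = -(y / (2 * t)) := by
      field_simp
      ring
    rw [e1']
    by_cases h : |y / (2 * t)| < 1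
    · simp only [if_pos h]
      have hm : -(y / (2 * t)) ∈ Ioo (-1 : ℝ) 1 := by
        have := abs_lt.1 h
        exact ⟨by linarith, by linarith⟩
      rw [hG, indicator_of_mem hm]
      unfold Gq
      rw [← lintegral_const_mul' _ _ ENNReal.ofReal_ne_top]
      apply lintegral_mono
      intro x
      simp only
      rw [enorm_mul, ENNReal.mul_rpow_of_nonneg _ _ (by linarith)]
      gcongr
      exact W_bd y t ht q (by linarith)
    · simp only [if_neg h]
      have : (0 : ℝ) < q := by linarith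
      simp [this]
  calc _ ≤ ∫⁻ y, B * G (-(2 * t)⁻¹ * y + 0) := lintegral_mono h1
    _ = B * (ENNReal.ofReal (2 * |t|) * ∫⁻ s, G s) := by
        rw [lintegral_const_mul' _ _ ENNReal.ofReal_ne_top, lint_aff G hGmeas _ 0 (by
          rw [neg_ne_zero]
          exact inv_ne_zero (mul_ne_zero (by norm_num) ht))]
        congr 3
        rw [inv_neg, inv_inv, abs_neg, abs_mul]
        norm_num
    _ = _ := by
        rw [hG, lintegral_indicator measurableSet_Ioo, ← mul_assoc, hB,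
          ← ENNReal.ofReal_mul (by positivity)]

lemma dec {f : ℝ × ℝ → ℂ} (hf : Measurable f) (hb : ∀ x, ‖f x‖ ≤ 1) (C : ℝ)
    (hgood : ∀ u, Good C (fun v => f (u, v))) (x y t : ℝ) (ht : t ≠ 0) :
    FF2 f x y t = (if |y / (2 * t)| < 1 then
        e1 (ind (-1) 1) y t * e1 (fun u => f (u, -(y / (2 * t)))) x t else 0) +
      e1 (fun u => Aop (fun v => f (u, v)) y t) x t := by
  have hAm : Measurable fun u => Aop (fun v => f (u, v)) y t := by
    unfold Aop
    apply Measurable.sub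
    · apply e1_joint (fun (u : ℝ) v => f (u, v)) hf (fun _ => y) (fun _ => t) measurable_const
        measurable_const
    · split_ifs
      · exact (hf.comp (measurable_id.prodMk measurable_const)).mul_const _
      · exact measurable_const
  have hAb : ∀ u, ‖Aop (fun v => f (u, v)) y t‖ ≤ C * (Real.sqrt |t|)⁻¹ := fun u =>
    (hgood u).bd y t ht
  have hWb : ‖e1 (ind (-1) 1) y t‖ ≤ 2 := by
    have h := e1_bdc 1 (ind_bd (-1) 1) y t
    rw [← ofReal_norm, ENNReal.ofReal_le_ofReal_iff (by norm_num)] at h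
    linarith
  by_cases h : |y / (2 * t)| < 1
  · rw [if_pos h, ← e1_smul, ← e1_add (c := 2) (d := C * (Real.sqrt |t|)⁻¹)]
    · unfold FF2
      congr 1
      ext u
      unfold Aop
      rw [if_pos h]
      ring
    · exact (hf.comp (measurable_id.prodMk measurable_const)).const_mul _
    · exact hAm
    · intro u
      rw [norm_mul]
      have := hb (u, -(y / (2 * t)))
      have h0 := norm_nonneg (f (u, -(y / (2 * t))))
      have h1 := norm_nonneg (e1 (ind (-1) 1) y t)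
      nlinarith
    · exact hAb
  · rw [if_neg h, zero_add]
    unfold FF2
    congr 1
    ext u
    unfold Aop
    rw [if_neg h, sub_zero]

/-- the error term -/
lemma err_t {f : ℝ × ℝ → ℂ} (hf : Measurable f) (C : ℝ) (hC : 0 < C)
    (hgood : ∀ u, Good C (fun v => f (u, v))) (q : ℝ) (hq : 2 ≤ q) (t : ℝ) (ht : t ≠ 0) :
    ∫⁻ y, ∫⁻ x, ‖e1 (fun u => Aop (fun v => f (u, v)) y t) x t‖ₑ ^ q ≤
      ENNReal.ofReal ((2 * C) ^ (q - 1) * |t| ^ (-((q - 1) / 2))) := by
  have ht' : 0 < |t| := abs_pos.2 ht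
  have hG : Measurable fun p : ℝ × ℝ => Aop (fun v => f (p.1, v)) p.2 t := by
    unfold Aop
    apply Measurable.sub
    · apply e1_joint (fun (p : ℝ × ℝ) v => f (p.1, v)) _ (fun p => p.2) (fun _ => t)
        measurable_snd measurable_const
      exact hf.comp ((measurable_fst.comp measurable_fst).prodMk measurable_snd)
    · apply Measurable.ite
      · exact measurableSet_lt ((measurable_snd.div_const _).norm) measurable_const
      · apply Measurable.mul
        · exact hf.comp (measurable_fst.prodMk (measurable_snd.div_const _).neg)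
        · exact (e1_meas (ind_meas _ _)).comp (measurable_snd.prodMk measurable_const)
      · exact measurable_const
  have h1 := two2 (fun u y => Aop (fun v => f (u, v)) y t) hG (C * (Real.sqrt |t|)⁻¹)
    (by positivity) (fun u y => (hgood u).bd y t ht) t (ENNReal.ofReal (C * (Real.sqrt |t|)⁻¹))
    (fun u => (hgood u).two t ht) q hq
  refine h1.trans (le_of_eq ?_)
  rw [show (2 : ℝ≥0∞) = ENNReal.ofReal 2 by simp, ← ENNReal.ofReal_mul (by norm_num),
    ENNReal.ofReal_rpow_of_pos (by positivity), ← ENNReal.ofReal_mul (by positivity)]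
  congr 1
  set w := 2 * (C * (Real.sqrt |t|)⁻¹) with hw
  have hw0 : 0 < w := by positivity
  have e1 : w ^ (q - 2) * w = w ^ (q - 1) := by
    nth_rewrite 2 [← Real.rpow_one w]
    rw [← Real.rpow_add hw0]
    congr 1
    ring
  rw [e1, hw, ← mul_assoc, Real.mul_rpow (by positivity) (by positivity), Real.sqrt_eq_rpow,
    ← Real.rpow_neg ht'.le, ← Real.rpow_mul ht'.le]
  congr 2
  ring

lemma split_t (F P R : ℝ → ℝ → ℂ) (hF : ∀ y x, F y x = P y x + R y x)
    (hRm : Measurable fun r : ℝ × ℝ => R r.1 r.2) (q : ℝ) (hq : 1 ≤ q) (A B : ℝ≥0∞)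
    (hA : ∫⁻ y, ∫⁻ x, ‖P y x‖ₑ ^ q ≤ A) (hB : ∫⁻ y, ∫⁻ x, ‖R y x‖ₑ ^ q ≤ B) :
    ∫⁻ y, ∫⁻ x, ‖F y x‖ₑ ^ q ≤ 2 ^ (q - 1) * (A + B) := by
  have h2t : (2 : ℝ≥0∞) ^ (q - 1) ≠ ⊤ := ENNReal.rpow_ne_top_of_nonneg (by linarith) (by simp)
  have hRq : Measurable fun r : ℝ × ℝ => ‖R r.1 r.2‖ₑ ^ q := hRm.enorm.pow_const q
  have hRy : ∀ y, Measurable fun x => ‖R y x‖ₑ ^ q := fun y => by
    have : Measurable fun x => R y x := hRm.comp (measurable_const.prodMk measurable_id)
    exact this.enorm.pow_const q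
  have hRI : Measurable fun y => ∫⁻ x, ‖R y x‖ₑ ^ q := hRq.lintegral_prod_right'
  have hpt : ∀ y x, ‖F y x‖ₑ ^ q ≤ 2 ^ (q - 1) * (‖P y x‖ₑ ^ q + ‖R y x‖ₑ ^ q) := by
    intro y x
    rw [hF]
    refine (ENNReal.rpow_le_rpow (enorm_add_le _ _) (by linarith)).trans ?_
    exact ENNReal.rpow_add_le_mul_rpow_add_rpow _ _ (by linarith)
  calc ∫⁻ y, ∫⁻ x, ‖F y x‖ₑ ^ q
      ≤ ∫⁻ y, ∫⁻ x, 2 ^ (q - 1) * (‖P y x‖ₑ ^ q + ‖R y x‖ₑ ^ q) :=
        lintegral_mono fun y => lintegral_mono fun x => hpt y x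
    _ = 2 ^ (q - 1) * ((∫⁻ y, ∫⁻ x, ‖P y x‖ₑ ^ q) + ∫⁻ y, ∫⁻ x, ‖R y x‖ₑ ^ q) := by
        simp only [lintegral_const_mul' _ _ h2t]
        congr 1
        rw [← lintegral_add_right _ hRI]
        apply lintegral_congr
        intro y
        exact lintegral_add_right _ (hRy y)
    _ ≤ _ := mul_le_mul_right (add_le_add hA hB) _

lemma err_meas {f : ℝ × ℝ → ℂ} (hf : Measurable f) (t : ℝ) :
    Measurable fun r : ℝ × ℝ => e1 (fun u => Aop (fun v => f (u, v)) r.1 t) r.2 t := by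
  apply e1_joint (fun (r : ℝ × ℝ) u => Aop (fun v => f (u, v)) r.1 t) _ (fun r => r.2)
    (fun _ => t) measurable_snd measurable_const
  unfold Aop
  apply Measurable.sub
  · apply e1_joint (fun (r : (ℝ × ℝ) × ℝ) v => f (r.2, v)) _ (fun r => r.1.1) (fun _ => t)
      (measurable_fst.comp measurable_fst) measurable_const
    exact hf.comp ((measurable_snd.comp measurable_fst).prodMk measurable_snd)
  · have hy : Measurable fun r : (ℝ × ℝ) × ℝ => r.1.1 / (2 * t) :=
      (measurable_fst.comp measurable_fst).div_const _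
    apply Measurable.ite
    · exact measurableSet_lt hy.norm measurable_const
    · apply Measurable.mul
      · exact hf.comp (measurable_snd.prodMk hy.neg)
      · have h9 : Measurable fun r : (ℝ × ℝ) × ℝ => (r.1.1, t) :=
          (measurable_fst.comp measurable_fst).prodMk measurable_const
        exact (e1_meas (ind_meas (-1) 1)).comp h9
    · exact measurable_const

lemma split_f {f : ℝ × ℝ → ℂ} (hf : Measurable f) (hb : ∀ x, ‖f x‖ ≤ 1) (C : ℝ) (hC : 0 < C)
    (hgood : ∀ u, Good C (fun v => f (u, v))) (q : ℝ) (hq : 2 ≤ q) (t : ℝ) (ht : t ≠ 0) :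
    ∫⁻ y, ∫⁻ x, ‖FF2 f x y t‖ₑ ^ q ≤
      2 ^ (q - 1) * (ENNReal.ofReal (8 ^ (q / 2) * |t| ^ (-(q / 2)) * (2 * |t|)) *
        (∫⁻ s in Ioo (-1 : ℝ) 1, Gq (fun u => f (u, s)) q t) +
            ENNReal.ofReal ((2 * C) ^ (q - 1) * |t| ^ (-((q - 1) / 2)))) :=
  split_t (fun y x => FF2 f x y t) _ _ (fun y x => dec hf hb C hgood x y t ht)
    (err_meas hf t) q (by linarith) _ _ (main_t hf q hq t ht) (err_t hf C hC hgood q hq t ht)

lemma swap_S (w : ℝ → ℝ≥0∞) (hw : Measurable w) (GG : ℝ → ℝ → ℝ≥0∞)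
    (hj : Measurable fun r : ℝ × ℝ => GG r.1 r.2) (D : ℝ≥0∞)
    (hD : ∀ s, ∫⁻ t, w t * GG t s ≤ D) :
    ∫⁻ t, w t * ∫⁻ s in Ioo (-1 : ℝ) 1, GG t s ≤ 2 * D := by
  have hsec : ∀ t, Measurable fun s => GG t s := fun t =>
    hj.comp (measurable_const.prodMk measurable_id)
  have h1 : ∀ t, w t * ∫⁻ s in Ioo (-1 : ℝ) 1, GG t s =
      ∫⁻ s in Ioo (-1 : ℝ) 1, w t * GG t s := by
    intro t
    rw [lintegral_const_mul _ (hsec t)]
  simp only [h1]
  rw [lintegral_lintegral_swap (f := fun t s => w t * GG t s)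
    ((hw.comp measurable_fst).mul hj).aemeasurable]
  calc _ ≤ ∫⁻ s in Ioo (-1 : ℝ) 1, D := lintegral_mono hD
    _ = _ := by
        rw [lintegral_const, Measure.restrict_apply_univ, Real.volume_Ioo, mul_comm]
        norm_num

theorem assemble (q : ℝ) (hq : 3 < q) (h4 : q < 4) (C : ℝ) (hC : 0 < C) :
    ∃ K : ℝ≥0∞, K ≠ ⊤ ∧ ∀ f : ℝ × ℝ → ℂ, Measurable f → (∀ x, ‖f x‖ ≤ 1) →
      (∀ u, Good C (fun v => f (u, v))) →
      ∫⁻ ξ : ℝ × ℝ × ℝ, ‖FF2 f ξ.1 ξ.2.1 ξ.2.2‖ₑ ^ q ≤ K := by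
  obtain ⟨γ, hγ0, hγ1, K, hK, hKK⟩ := wtotal1 q hq h4
  set p := (q - 1) / 2 with hp
  have hp1 : 1 < p := by rw [hp]; linarith
  set A0 : ℝ≥0∞ := 4 ^ (q - 2) * 4 with hA0
  have hA0t : A0 ≠ ⊤ := ENNReal.mul_ne_top (ENNReal.rpow_ne_top_of_nonneg (by linarith) (by simp))
    (by simp)
  set B1 : ℝ≥0∞ := 2 ^ (q - 1) * ENNReal.ofReal ((2 * C) ^ (q - 1) * 2 ^ p) with hB1
  have h2t : (2 : ℝ≥0∞) ^ (q - 1) ≠ ⊤ := ENNReal.rpow_ne_top_of_nonneg (by linarith) (by simp)
  have hB1t : B1 ≠ ⊤ := ENNReal.mul_ne_top h2t ENNReal.ofReal_ne_top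
  set B2 : ℝ≥0∞ := 2 ^ (q - 1) * ENNReal.ofReal (8 ^ (q / 2) * 2) with hB2
  have hB2t : B2 ≠ ⊤ := ENNReal.mul_ne_top h2t ENNReal.ofReal_ne_top
  set T0 : ℝ≥0∞ := ∫⁻ t : ℝ, ENNReal.ofReal ((1 + ‖t‖) ^ (-p)) with hT0
  have hT0t : T0 ≠ ⊤ := by
    have := finite_integral_one_add_norm (E := ℝ) (μ := volume) (r := p) (by simpa using hp1)
    exact this.ne
  refine ⟨A0 * 2 + (B1 * T0 + B2 * (2 * (K * 2))), ?_, ?_⟩
  · refine ENNReal.add_ne_top.2 ⟨ENNReal.mul_ne_top hA0t (by simp),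
      ENNReal.add_ne_top.2 ⟨ENNReal.mul_ne_top hB1t hT0t, ENNReal.mul_ne_top hB2t
        (ENNReal.mul_ne_top (by simp) (ENNReal.mul_ne_top hK (by simp)))⟩⟩
  intro f hf hb hgood
  have hsecv : ∀ s, Measurable fun u => f (u, s) := fun s =>
    hf.comp (measurable_id.prodMk measurable_const)
  set S : ℝ → ℝ≥0∞ := fun t => ∫⁻ s in Ioo (-1 : ℝ) 1, Gq (fun u => f (u, s)) q t with hS
  have hjoint : Measurable fun r : ℝ × ℝ => Gq (fun u => f (u, r.2)) q r.1 := by
    unfold Gq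
    have h1 : Measurable fun r : (ℝ × ℝ) × ℝ => e1 (fun u => f (u, r.1.2)) r.2 r.1.1 := by
      apply e1_joint (fun (r : (ℝ × ℝ) × ℝ) u => f (u, r.1.2)) _ (fun r => r.2) (fun r => r.1.1)
        measurable_snd (measurable_fst.comp measurable_fst)
      exact hf.comp (measurable_snd.prodMk
        (measurable_snd.comp (measurable_fst.comp measurable_fst)))
    exact (h1.enorm.pow_const q).lintegral_prod_right'
  have hSm : Measurable S := hjoint.lintegral_prod_right'
  have hwm := wt_meas' γ (q / 2 - 1)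
  have hlarge : ∀ t : ℝ, 1 < |t| → ∫⁻ y, ∫⁻ x, ‖FF2 f x y t‖ₑ ^ q ≤
      B1 * ENNReal.ofReal ((1 + ‖t‖) ^ (-p)) + B2 * (wt γ (q / 2 - 1) t * S t) := by
    intro t h1t
    have ht' : 0 < |t| := by linarith
    have ht : t ≠ 0 := abs_pos.1 ht'
    calc ∫⁻ y, ∫⁻ x, ‖FF2 f x y t‖ₑ ^ q
        ≤ 2 ^ (q - 1) * (ENNReal.ofReal (8 ^ (q / 2) * |t| ^ (-(q / 2)) * (2 * |t|)) * S t +
            ENNReal.ofReal ((2 * C) ^ (q - 1) * |t| ^ (-p))) :=
          split_f hf hb C hC hgood q (by linarith) t ht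
      _ ≤ 2 ^ (q - 1) * (ENNReal.ofReal (8 ^ (q / 2) * 2) * (wt γ (q / 2 - 1) t * S t) +
            ENNReal.ofReal ((2 * C) ^ (q - 1) * 2 ^ p) * ENNReal.ofReal ((1 + ‖t‖) ^ (-p))) := by
          refine mul_le_mul_right (add_le_add ?_ ?_) _
          · rw [← mul_assoc (ENNReal.ofReal (8 ^ (q / 2) * 2)) (wt γ (q / 2 - 1) t) (S t)]
            refine mul_le_mul_left ?_ _
            have e1 : (8 : ℝ) ^ (q / 2) * |t| ^ (-(q / 2)) * (2 * |t|) =
                (8 ^ (q / 2) * 2) * |t| ^ (-(q / 2 - 1)) := by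
              have : |t| ^ (-(q / 2 - 1)) = |t| ^ (-(q / 2)) * |t| := by
                have h9 : |t| ^ (-(q / 2)) * |t| = |t| ^ (-(q / 2)) * |t| ^ (1 : ℝ) := by
                  rw [Real.rpow_one]
                rw [h9, ← Real.rpow_add ht']
                congr 1
                ring
              rw [this]
              ring
            rw [e1, ENNReal.ofReal_mul (by positivity)]
            refine mul_le_mul_right ?_ _
            unfold wt AA
            rw [if_neg (not_le.2 h1t), ENNReal.ofReal_rpow_of_pos (by positivity)]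
            apply ENNReal.ofReal_le_ofReal
            calc |t| ^ (-(q / 2 - 1)) = (|t| ^ (-1 : ℝ)) ^ (q / 2 - 1) := by
                  rw [← Real.rpow_mul ht'.le]
                  congr 1
                  ring
              _ ≤ _ := by
                  apply Real.rpow_le_rpow (by positivity) _ (by linarith)
                  have h5 : |t| ^ (-1 : ℝ) ≤ |t| ^ (γ / 2 - 1) :=
                    Real.rpow_le_rpow_of_exponent_le h1t.le (by linarith)
                  have h6 : 0 < |t| ^ (γ / 2 - 1) := by positivity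
                  linarith
          · rw [← ENNReal.ofReal_mul (by positivity)]
            apply ENNReal.ofReal_le_ofReal
            rw [mul_assoc]
            apply mul_le_mul_of_nonneg_left _ (by positivity)
            have h7 : (1 + ‖t‖) ≤ 2 * |t| := by
              rw [Real.norm_eq_abs]
              linarith
            have h8 : (2 * |t|) ^ (-p) ≤ (1 + ‖t‖) ^ (-p) :=
              Real.rpow_le_rpow_of_nonpos (by positivity) h7 (by linarith)
            calc |t| ^ (-p) = 2 ^ p * (2 * |t|) ^ (-p) := by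
                  rw [Real.mul_rpow (by norm_num) ht'.le, ← mul_assoc, ← Real.rpow_add (by norm_num)]
                  simp
              _ ≤ _ := by gcongr
      _ = _ := by
          rw [hB1, hB2]
          ring
  have hpw : ∀ t : ℝ, ∫⁻ y, ∫⁻ x, ‖FF2 f x y t‖ₑ ^ q ≤
      (Icc (-1 : ℝ) 1).indicator (fun _ => A0) t +
      (B1 * ENNReal.ofReal ((1 + ‖t‖) ^ (-p)) + B2 * (wt γ (q / 2 - 1) t * S t)) := by
    intro t
    by_cases h : |t| ≤ 1
    · rw [indicator_of_mem (show t ∈ Icc (-1 : ℝ) 1 from abs_le.1 h)]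
      exact (small_t hf hb q (by linarith) t).trans le_self_add
    · push Not at h
      exact (hlarge t h).trans le_add_self
  have hm1 : Measurable fun t : ℝ => ENNReal.ofReal ((1 + ‖t‖) ^ (-p)) :=
    ((measurable_norm.const_add 1).pow_const (-p)).ennreal_ofReal
  have hmS : Measurable fun t : ℝ => wt γ (q / 2 - 1) t * S t := hwm.mul hSm
  have hswap : ∫⁻ t, wt γ (q / 2 - 1) t * S t ≤ 2 * (K * 2) := by
    apply swap_S _ hwm (fun t s => Gq (fun u => f (u, s)) q t) hjoint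
    intro s
    refine (hKK (fun u => f (u, s)) (hsecv s) (fun u => hb (u, s))).trans ?_
    refine mul_le_mul_right ?_ _
    exact cut_two (fun u => hb (u, s)) 2 (by norm_num)
  rw [lint3 (fun x y t => ‖FF2 f x y t‖ₑ ^ q) ((FF2_meas hf).enorm.pow_const q)]
  calc ∫⁻ t, ∫⁻ y, ∫⁻ x, ‖FF2 f x y t‖ₑ ^ q
      ≤ ∫⁻ t, ((Icc (-1 : ℝ) 1).indicator (fun _ => A0) t +
      (B1 * ENNReal.ofReal ((1 + ‖t‖) ^ (-p)) + B2 * (wt γ (q / 2 - 1) t * S t))) :=
        lintegral_mono hpw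
    _ = A0 * 2 + (B1 * T0 + B2 * ∫⁻ t, wt γ (q / 2 - 1) t * S t) := by
        rw [lintegral_add_left (measurable_const.indicator measurableSet_Icc),
          lintegral_add_left (hm1.const_mul B1), lintegral_const_mul _ hm1,
          lintegral_const_mul _ hmS, lintegral_indicator measurableSet_Icc, lintegral_const,
          Measure.restrict_apply_univ, Real.volume_Icc]
        have h2 : ENNReal.ofReal ((1 : ℝ) - -1) = 2 := by norm_num
        rw [h2]
    _ ≤ _ := by gcongr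

end Pool.Agent.H728R3.SR
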