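import Mathlib
import Pool.Agent.H728R3.SR.Q
set_option autoImplicit false

/-! Functions of bounded variation of one variable are good. -/

namespace Pool.Agent.H728R3.SR
open MeasureTheory Set Complex Filter Topology
open Pool.Agent.H147R3.PE
open scoped ENNReal NNReal

/-- left end point of super-level sets -/
noncomputable def cc (P : ℝ → ℝ) (u : ℝ) : ℝ := sInf ({v | v ∈ Icc (-1 : ℝ) 1 ∧ u < P v} ∪ {1})

lemma cc_bdd (P : ℝ → ℝ) (u : ℝ) : BddBelow ({v | v ∈ Icc (-1 : ℝ) 1 ∧ u < P v} ∪ {1}) := by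
  refine ⟨-1, ?_⟩
  rintro v (hv | hv)
  · exact hv.1.1
  · rw [mem_singleton_iff] at hv
    rw [hv]
    norm_num

lemma cc_ne (P : ℝ → ℝ) (u : ℝ) : ({v | v ∈ Icc (-1 : ℝ) 1 ∧ u < P v} ∪ {1}).Nonempty :=
  ⟨1, Or.inr rfl⟩

lemma cc_lo (P : ℝ → ℝ) (u : ℝ) : -1 ≤ cc P u := by
  apply le_csInf (cc_ne P u)
  rintro v (hv | hv)
  · exact hv.1.1
  · rw [mem_singleton_iff] at hv
    rw [hv]
    norm_num

lemma cc_hi (P : ℝ → ℝ) (u : ℝ) : cc P u ≤ 1 := csInf_le (cc_bdd P u) (Or.inr rfl)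

lemma cc_lt {P : ℝ → ℝ} (hP : Monotone P) (u v : ℝ) (hv : v ∈ Icc (-1 : ℝ) 1) (h : cc P u < v) :
    u < P v := by
  obtain ⟨w, hw, hwv⟩ := exists_lt_of_csInf_lt (cc_ne P u) h
  rcases hw with hw | hw
  · exact hw.2.trans_le (hP hwv.le)
  · rw [mem_singleton_iff] at hw
    linarith [hv.2]

lemma cc_gt {P : ℝ → ℝ} (u v : ℝ) (hv : v ∈ Icc (-1 : ℝ) 1) (h : v < cc P u) : ¬ u < P v := by
  intro hu
  have : cc P u ≤ v := csInf_le (cc_bdd P u) (Or.inl ⟨hv, hu⟩)
  linarith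

lemma cc_mono (P : ℝ → ℝ) : Monotone (cc P) := by
  intro u u' huu
  apply csInf_le_csInf (cc_bdd P u) (cc_ne P u')
  rintro v (hv | hv)
  · exact Or.inl ⟨hv.1, huu.trans_lt hv.2⟩
  · exact Or.inr hv

/-- indicator of the super-level set -/
noncomputable def sl (P : ℝ → ℝ) (u v : ℝ) : ℂ := ({v | u < P v} : Set ℝ).indicator (fun _ => 1) v

lemma sl_meas {P : ℝ → ℝ} (hP : Monotone P) : Measurable fun p : ℝ × ℝ => sl P p.1 p.2 := by
  have h1 : (fun p : ℝ × ℝ => sl P p.1 p.2) =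
      ({p : ℝ × ℝ | p.1 < P p.2}).indicator (fun _ => 1) := by
    ext p
    unfold sl
    by_cases h : p.1 < P p.2
    · rw [indicator_of_mem (by exact h), indicator_of_mem (by exact h)]
    · rw [indicator_of_notMem (by exact h), indicator_of_notMem (by exact h)]
  rw [h1]
  exact measurable_const.indicator (measurableSet_lt measurable_fst (hP.measurable.comp measurable_snd))

lemma sl_bd (P : ℝ → ℝ) (u v : ℝ) : ‖sl P u v‖ ≤ 1 := by
  unfold sl
  exact (norm_indicator_le_norm_self _ _).trans (by simp)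

lemma sl_int (P : ℝ → ℝ) (v : ℝ) (h0 : 0 ≤ P v) (h1 : P v ≤ 1) :
    ∫ u in Ioc (0 : ℝ) 1, sl P u v = ((P v : ℝ) : ℂ) := by
  have e1 : ∀ u, sl P u v = (Iio (P v)).indicator (fun _ => (1 : ℂ)) u := by
    intro u
    unfold sl
    by_cases h : u < P v
    · rw [indicator_of_mem (by exact h), indicator_of_mem (by exact h)]
    · rw [indicator_of_notMem (by exact h), indicator_of_notMem (by exact h)]
  simp only [e1]
  rw [setIntegral_indicator measurableSet_Iio]
  have e2 : Ioc (0 : ℝ) 1 ∩ Iio (P v) = Ioo 0 (P v) := by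
    ext u
    constructor
    · rintro ⟨h2, h3⟩
      exact ⟨h2.1, h3⟩
    · rintro ⟨h2, h3⟩
      exact ⟨⟨h2, by linarith⟩, h3⟩
  rw [e2, setIntegral_const]
  simp [Measure.real, h0]

lemma Aop_layer {P : ℝ → ℝ} (hP : Monotone P) (h0 : ∀ v, 0 ≤ P v) (h1 : ∀ v, P v ≤ 1)
    (y t : ℝ) : Aop (fun v => ((P v : ℝ) : ℂ)) y t = ∫ u in Ioc (0 : ℝ) 1, Aop (sl P u) y t := by
  have hpm : Measurable (pp y t) := (pp_cont y t).measurable
  have hI : Integrable (fun p : ℝ × ℝ => sl P p.1 p.2 * pp y t p.2)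
      ((volume.restrict (Ioc (0 : ℝ) 1)).prod (volume.restrict (Icc (-1 : ℝ) 1))) := by
    refine Integrable.of_bound ((sl_meas hP).mul (hpm.comp measurable_snd)).aestronglyMeasurable 1
      (ae_of_all _ fun p => ?_)
    rw [norm_mul, pp_norm, mul_one]
    exact sl_bd P _ _
  have hA : e1 (fun v => ((P v : ℝ) : ℂ)) y t = ∫ u in Ioc (0 : ℝ) 1, e1 (sl P u) y t := by
    have e1' : e1 (fun v => ((P v : ℝ) : ℂ)) y t =
        ∫ v in Icc (-1 : ℝ) 1, ∫ u in Ioc (0 : ℝ) 1, sl P u v * pp y t v := by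
      unfold e1
      congr 1
      ext v
      rw [integral_mul_const, sl_int P v (h0 v) (h1 v)]
      rfl
    rw [e1', integral_integral_swap]
    · rfl
    · exact hI.swap
  have hB : Integrable (fun u => e1 (sl P u) y t) (volume.restrict (Ioc (0 : ℝ) 1)) :=
    hI.integral_prod_left
  unfold Aop
  by_cases h : |y / (2 * t)| < 1
  · simp only [if_pos h]
    have hC : Integrable (fun u => sl P u (-(y / (2 * t))) * e1 (ind (-1) 1) y t)
        (volume.restrict (Ioc (0 : ℝ) 1)) := by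
      apply Integrable.mul_const
      refine Integrable.of_bound ((sl_meas hP).comp
        (measurable_id.prodMk measurable_const)).aestronglyMeasurable 1 (ae_of_all _ fun u => ?_)
      exact sl_bd P _ _
    rw [integral_sub hB hC, ← hA, integral_mul_const, sl_int P _ (h0 _) (h1 _)]
  · simp only [if_neg h, sub_zero]
    exact hA

lemma Aop_sl {P : ℝ → ℝ} (hP : Monotone P) (u y t : ℝ) (ht : t ≠ 0) :
    ‖Aop (sl P u) y t‖ ^ 2 ≤ kp t (cc P u + y / (2 * t)) + kp t (1 + y / (2 * t)) :=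
  Aop_ind {v | u < P v} (cc P u) (cc_lo P u) (cc_hi P u) (fun v hv h => cc_lt hP u v hv h)
    (fun v hv h => cc_gt u v hv h) y t ht

lemma kp_cont (t : ℝ) (ht : t ≠ 0) : Continuous (kp t) := by
  have ht' : 0 < |t| := abs_pos.2 ht
  unfold kp
  apply Continuous.div continuous_const (by fun_prop)
  intro z
  have : 0 ≤ |t| * z ^ 2 := by positivity
  positivity

lemma Aop_pt {P : ℝ → ℝ} (hP : Monotone P) (h0 : ∀ v, 0 ≤ P v) (h1 : ∀ v, P v ≤ 1)
    (y t : ℝ) (ht : t ≠ 0) : ‖Aop (fun v => ((P v : ℝ) : ℂ)) y t‖ₑ ^ 2 ≤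
      ∫⁻ u in Ioc (0 : ℝ) 1,
        ENNReal.ofReal (kp t (cc P u + y / (2 * t)) + kp t (1 + y / (2 * t))) := by
  set k : ℝ → ℝ≥0∞ := fun u =>
    ENNReal.ofReal (Real.sqrt (kp t (cc P u + y / (2 * t)) + kp t (1 + y / (2 * t)))) with hk
  have hcm : Measurable fun u => kp t (cc P u + y / (2 * t)) + kp t (1 + y / (2 * t)) :=
    ((kp_cont t ht).measurable.comp ((cc_mono P).measurable.add_const _)).add_const _
  have hkm : Measurable k := (hcm.sqrt).ennreal_ofReal
  have hle : ‖Aop (fun v => ((P v : ℝ) : ℂ)) y t‖ₑ ≤ ∫⁻ u in Ioc (0 : ℝ) 1, k u := by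
    rw [Aop_layer hP h0 h1 y t]
    refine (enorm_integral_le_lintegral_enorm _).trans ?_
    apply lintegral_mono
    intro u
    simp only [hk]
    rw [← ofReal_norm]
    apply ENNReal.ofReal_le_ofReal
    apply Real.le_sqrt_of_sq_le
    exact Aop_sl hP u y t ht
  have hsq := cs (volume.restrict (Ioc (0 : ℝ) 1)) k hkm
  rw [Measure.restrict_apply_univ, Real.volume_Ioc] at hsq
  calc _ ≤ (∫⁻ u in Ioc (0 : ℝ) 1, k u) ^ 2 := by gcongr
    _ ≤ ENNReal.ofReal (1 - 0) * ∫⁻ u in Ioc (0 : ℝ) 1, k u ^ 2 := hsq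
    _ = _ := by
        rw [sub_zero, ENNReal.ofReal_one, one_mul]
        apply lintegral_congr
        intro u
        rw [hk]
        simp only
        rw [← ENNReal.ofReal_pow (Real.sqrt_nonneg _), Real.sq_sqrt]
        exact add_nonneg (kp_nonneg _ _) (kp_nonneg _ _)

lemma good_mono {P : ℝ → ℝ} (hP : Monotone P) (h0 : ∀ v, 0 ≤ P v) (h1 : ∀ v, P v ≤ 1) :
    Good 32 (fun v => ((P v : ℝ) : ℂ)) := by
  refine ⟨Complex.measurable_ofReal.comp hP.measurable, ?_, ?_⟩
  · intro y t ht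
    have ht' : 0 < |t| := abs_pos.2 ht
    have h := Aop_pt hP h0 h1 y t ht
    have h2 : ∫⁻ u in Ioc (0 : ℝ) 1,
        ENNReal.ofReal (kp t (cc P u + y / (2 * t)) + kp t (1 + y / (2 * t))) ≤
        ENNReal.ofReal (4 / |t|) := by
      calc _ ≤ ∫⁻ u in Ioc (0 : ℝ) 1, ENNReal.ofReal (4 / |t|) := by
            apply lintegral_mono
            intro u
            apply ENNReal.ofReal_le_ofReal
            have a1 := kp_le t (cc P u + y / (2 * t)) ht
            have a2 := kp_le t (1 + y / (2 * t)) ht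
            have : 4 / |t| = 2 / |t| + 2 / |t| := by ring
            rw [this]
            linarith
        _ = _ := by
            rw [lintegral_const, Measure.restrict_apply_univ, Real.volume_Ioc]
            simp
    have h3 := h.trans h2
    rw [← ofReal_norm, ← ENNReal.ofReal_pow (norm_nonneg _),
      ENNReal.ofReal_le_ofReal_iff (by positivity)] at h3
    set M := ‖Aop (fun v => ((P v : ℝ) : ℂ)) y t‖ with hM
    have hM0 : 0 ≤ M := norm_nonneg _
    set r := Real.sqrt |t| with hr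
    have hr0 : 0 < r := Real.sqrt_pos.2 ht'
    have hrr : r * r = |t| := Real.mul_self_sqrt ht'.le
    have h4 : M ^ 2 * (r * r) ≤ 4 := by
      rw [hrr]
      rwa [le_div_iff₀ ht'] at h3
    have h5 : M * r ≤ 2 := by
      by_contra hlt
      push Not at hlt
      nlinarith
    calc M = (M * r) * r⁻¹ := by field_simp
      _ ≤ 2 * r⁻¹ := by gcongr
      _ ≤ 32 * r⁻¹ := by gcongr; norm_num
  · intro t ht
    have ht' : 0 < |t| := abs_pos.2 ht
    have hj : Measurable fun p : ℝ × ℝ =>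
        ENNReal.ofReal (kp t (cc P p.2 + p.1 / (2 * t)) + kp t (1 + p.1 / (2 * t))) := by
      have a1 : Measurable fun p : ℝ × ℝ => cc P p.2 + p.1 / (2 * t) :=
        ((cc_mono P).measurable.comp measurable_snd).add (measurable_fst.div_const _)
      have a2 : Measurable fun p : ℝ × ℝ => 1 + p.1 / (2 * t) :=
        (measurable_fst.div_const _).const_add _
      exact (((kp_cont t ht).measurable.comp a1).add
        ((kp_cont t ht).measurable.comp a2)).ennreal_ofReal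
    have hsw : ∫⁻ y, ∫⁻ u in Ioc (0 : ℝ) 1,
        ENNReal.ofReal (kp t (cc P u + y / (2 * t)) + kp t (1 + y / (2 * t))) =
        ∫⁻ u in Ioc (0 : ℝ) 1, ∫⁻ y,
        ENNReal.ofReal (kp t (cc P u + y / (2 * t)) + kp t (1 + y / (2 * t))) :=
      lintegral_lintegral_swap (f := fun y u =>
        ENNReal.ofReal (kp t (cc P u + y / (2 * t)) + kp t (1 + y / (2 * t)))) hj.aemeasurable
    have hone : ∀ c : ℝ, ∫⁻ y,
        ENNReal.ofReal (kp t (c + y / (2 * t)) + kp t (1 + y / (2 * t))) ≤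
        ENNReal.ofReal (32 * (Real.sqrt |t|)⁻¹) := by
      intro c
      have hm : Measurable fun y : ℝ => ENNReal.ofReal (kp t (c + y / (2 * t))) :=
        ((kp_cont t ht).measurable.comp ((measurable_id.div_const _).const_add _)).ennreal_ofReal
      have e : ∀ y, ENNReal.ofReal (kp t (c + y / (2 * t)) + kp t (1 + y / (2 * t))) =
          ENNReal.ofReal (kp t (c + y / (2 * t))) + ENNReal.ofReal (kp t (1 + y / (2 * t))) :=
        fun y => ENNReal.ofReal_add (kp_nonneg _ _) (kp_nonneg _ _)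
      simp only [e]
      rw [lintegral_add_left hm, kp_int t c ht, kp_int t 1 ht, ← ENNReal.ofReal_add (by positivity)
        (by positivity)]
      apply ENNReal.ofReal_le_ofReal
      have hpi : Real.pi ≤ 4 := Real.pi_le_four
      have hr0 : 0 < (Real.sqrt |t|)⁻¹ := by positivity
      rw [div_eq_mul_inv]
      nlinarith
    calc ∫⁻ y, ‖Aop (fun v => ((P v : ℝ) : ℂ)) y t‖ₑ ^ 2
        ≤ ∫⁻ y, ∫⁻ u in Ioc (0 : ℝ) 1,
          ENNReal.ofReal (kp t (cc P u + y / (2 * t)) + kp t (1 + y / (2 * t))) :=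
          lintegral_mono fun y => Aop_pt hP h0 h1 y t ht
      _ = _ := hsw
      _ ≤ ∫⁻ u in Ioc (0 : ℝ) 1, ENNReal.ofReal (32 * (Real.sqrt |t|)⁻¹) :=
          lintegral_mono fun u => hone _
      _ = _ := by
          rw [lintegral_const, Measure.restrict_apply_univ, Real.volume_Ioc]
          simp

lemma Aop_smul (c : ℂ) (h : ℝ → ℂ) (y t : ℝ) : Aop (fun v => c * h v) y t = c * Aop h y t := by
  unfold Aop
  rw [e1_smul]
  split_ifs <;> ring

lemma Aop_add {h k : ℝ → ℂ} (hm : Measurable h) (km : Measurable k) (c d : ℝ)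
    (hb : ∀ y, ‖h y‖ ≤ c) (kb : ∀ y, ‖k y‖ ≤ d) (y t : ℝ) :
    Aop (fun v => h v + k v) y t = Aop h y t + Aop k y t := by
  unfold Aop
  rw [e1_add hm km c d hb kb]
  split_ifs <;> ring

lemma Good.smul {C : ℝ} (hC : 0 ≤ C) {h : ℝ → ℂ} (hg : Good C h) (c : ℂ) :
    Good ((1 + ‖c‖) ^ 2 * C) (fun v => c * h v) := by
  have hc : 0 ≤ ‖c‖ := norm_nonneg c
  refine ⟨hg.meas.const_mul _, ?_, ?_⟩
  · intro y t ht
    rw [Aop_smul, norm_mul]
    have h1 := hg.bd y t ht
    have h2 : 0 ≤ C * (Real.sqrt |t|)⁻¹ := by positivity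
    calc ‖c‖ * ‖Aop h y t‖ ≤ ‖c‖ * (C * (Real.sqrt |t|)⁻¹) := by gcongr
      _ ≤ (1 + ‖c‖) ^ 2 * (C * (Real.sqrt |t|)⁻¹) := by
          gcongr
          nlinarith
      _ = _ := by ring
  · intro t ht
    simp only [Aop_smul, enorm_mul, mul_pow]
    rw [lintegral_const_mul' _ _ (by simp)]
    have h2 : 0 ≤ C * (Real.sqrt |t|)⁻¹ := by positivity
    calc ‖c‖ₑ ^ 2 * ∫⁻ y, ‖Aop h y t‖ₑ ^ 2 ≤
          ‖c‖ₑ ^ 2 * ENNReal.ofReal (C * (Real.sqrt |t|)⁻¹) := by gcongr; exact hg.two t ht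
      _ = ENNReal.ofReal (‖c‖ ^ 2 * (C * (Real.sqrt |t|)⁻¹)) := by
          rw [ENNReal.ofReal_mul (p := ‖c‖ ^ 2) (by positivity), ENNReal.ofReal_pow (norm_nonneg _),
            ofReal_norm]
      _ ≤ _ := by
          apply ENNReal.ofReal_le_ofReal
          calc ‖c‖ ^ 2 * (C * (Real.sqrt |t|)⁻¹) ≤ (1 + ‖c‖) ^ 2 * (C * (Real.sqrt |t|)⁻¹) := by
                gcongr
                linarith
            _ = _ := by ring

lemma e1_sec {w : ℝ → ℂ} (hw : Measurable w) (t : ℝ) : Measurable fun y : ℝ => e1 w y t :=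
  (e1_meas hw).comp (measurable_id.prodMk measurable_const)

lemma Aop_meas {w : ℝ → ℂ} (hw : Measurable w) (t : ℝ) : Measurable fun y : ℝ => Aop w y t := by
  have h1 := e1_sec hw t
  have h2 := e1_sec (ind_meas (-1) 1) t
  have h3 : Measurable fun y : ℝ => w (-(y / (2 * t))) := hw.comp (by fun_prop)
  have h4 : MeasurableSet {y : ℝ | |y / (2 * t)| < 1} := by
    have : Measurable fun y : ℝ => |y / (2 * t)| := by fun_prop
    exact measurableSet_lt this measurable_const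
  unfold Aop
  exact h1.sub (Measurable.ite h4 (h3.mul h2) measurable_const)

lemma Good.add {C D : ℝ} (hC : 0 ≤ C) (hD : 0 ≤ D) {h k : ℝ → ℂ} (hg : Good C h) (kg : Good D k)
    (c d : ℝ) (hb : ∀ y, ‖h y‖ ≤ c) (kb : ∀ y, ‖k y‖ ≤ d) :
    Good (2 * (C + D)) (fun v => h v + k v) := by
  refine ⟨hg.meas.add kg.meas, ?_, ?_⟩
  · intro y t ht
    rw [Aop_add hg.meas kg.meas c d hb kb]
    have h1 := hg.bd y t ht
    have h2 := kg.bd y t ht
    have h3 : 0 ≤ (Real.sqrt |t|)⁻¹ := by positivity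
    calc _ ≤ ‖Aop h y t‖ + ‖Aop k y t‖ := norm_add_le _ _
      _ ≤ C * (Real.sqrt |t|)⁻¹ + D * (Real.sqrt |t|)⁻¹ := add_le_add h1 h2
      _ = (C + D) * (Real.sqrt |t|)⁻¹ := by ring
      _ ≤ _ := by
          gcongr
          linarith
  · intro t ht
    have hme : ∀ {w : ℝ → ℂ}, Measurable w → Measurable fun y => Aop w y t := fun hw =>
      Aop_meas hw t
    have hpt : ∀ y, ‖Aop (fun v => h v + k v) y t‖ₑ ^ 2 ≤
        2 * ‖Aop h y t‖ₑ ^ 2 + 2 * ‖Aop k y t‖ₑ ^ 2 := by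
      intro y
      rw [Aop_add hg.meas kg.meas c d hb kb, ← ofReal_norm, ← ofReal_norm, ← ofReal_norm,
        ← ENNReal.ofReal_pow (norm_nonneg _), ← ENNReal.ofReal_pow (norm_nonneg _),
        ← ENNReal.ofReal_pow (norm_nonneg _), show (2 : ℝ≥0∞) = ENNReal.ofReal 2 by simp,
        ← ENNReal.ofReal_mul (by norm_num), ← ENNReal.ofReal_mul (by norm_num),
        ← ENNReal.ofReal_add (by positivity) (by positivity)]
      apply ENNReal.ofReal_le_ofReal
      have h1 := norm_add_le (Aop h y t) (Aop k y t)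
      have h0 := norm_nonneg (Aop h y t + Aop k y t)
      have h3 := sq_nonneg (‖Aop h y t‖ - ‖Aop k y t‖)
      nlinarith
    have hm1 : Measurable fun y => ‖Aop h y t‖ₑ ^ 2 := (hme hg.meas).enorm.pow_const 2
    have hm2 : Measurable fun y => ‖Aop k y t‖ₑ ^ 2 := (hme kg.meas).enorm.pow_const 2
    calc _ ≤ ∫⁻ y, (2 * ‖Aop h y t‖ₑ ^ 2 + 2 * ‖Aop k y t‖ₑ ^ 2) := lintegral_mono hpt
      _ = 2 * (∫⁻ y, ‖Aop h y t‖ₑ ^ 2) + 2 * ∫⁻ y, ‖Aop k y t‖ₑ ^ 2 := by
          rw [lintegral_add_left (hm1.const_mul 2), lintegral_const_mul _ hm1,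
            lintegral_const_mul _ hm2]
      _ ≤ 2 * ENNReal.ofReal (C * (Real.sqrt |t|)⁻¹) + 2 * ENNReal.ofReal (D * (Real.sqrt |t|)⁻¹) := by
          gcongr
          · exact hg.two t ht
          · exact kg.two t ht
      _ = _ := by
          rw [show (2 : ℝ≥0∞) = ENNReal.ofReal 2 by simp,
            ← ENNReal.ofReal_mul (by norm_num), ← ENNReal.ofReal_mul (by norm_num),
            ← ENNReal.ofReal_add (by positivity) (by positivity)]
          congr 1
          ring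

end Pool.Agent.H728R3.SR
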