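import Mathlib
import Pool.Agent.H728R3.SR.R
set_option autoImplicit false

/-! The extension estimate for functions of bounded variation in one variable. -/

namespace Pool.Agent.H728R3.SR
open MeasureTheory Set Complex Filter Topology
open Pool.Agent.H147R3.PE
open scoped ENNReal NNReal

lemma Good.congr {C : ℝ} {h k : ℝ → ℂ} (hg : Good C h) (hk : Measurable k)
    (he : ∀ v ∈ Icc (-1 : ℝ) 1, h v = k v) : Good C k := by
  have hA : ∀ y t, Aop k y t = Aop h y t := by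
    intro y t
    unfold Aop
    have e1' : e1 k y t = e1 h y t := by
      unfold e1
      apply setIntegral_congr_fun measurableSet_Icc
      intro v hv
      simp only
      rw [he v hv]
    rw [e1']
    split_ifs with h1
    · have hs := abs_lt.1 h1
      rw [he _ ⟨by linarith, by linarith⟩]
    · rfl
  refine ⟨hk, ?_, ?_⟩
  · intro y t ht
    rw [hA]
    exact hg.bd y t ht
  · intro t ht
    simp only [hA]
    exact hg.two t ht

lemma Good.mono {C D : ℝ} (hCD : C ≤ D) {h : ℝ → ℂ} (hg : Good C h) : Good D h := by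
  refine ⟨hg.meas, ?_, ?_⟩
  · intro y t ht
    refine (hg.bd y t ht).trans ?_
    gcongr
  · intro t ht
    refine (hg.two t ht).trans (ENNReal.ofReal_le_ofReal ?_)
    gcongr

/-- real functions of bounded variation -/
lemma good_real {r : ℝ → ℝ} (hr : Measurable r) (hb : ∀ v, |r v| ≤ 1)
    (hv : eVariationOn r (Icc (-1 : ℝ) 1) ≤ 1) :
    ∃ H : ℝ → ℂ, Good 5000 H ∧ (∀ v, ‖H v‖ ≤ 5) ∧ ∀ v ∈ Icc (-1 : ℝ) 1, H v = ((r v : ℝ) : ℂ) := by
  have h11 : (-1 : ℝ) ≤ 1 := by norm_num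
  set I : Set ℝ := Icc (-1 : ℝ) 1 with hI
  have hm1 : (-1 : ℝ) ∈ I := ⟨le_rfl, h11⟩
  have hbv : BoundedVariationOn r I := ne_top_of_le_ne_top (by simp) hv
  have hl := hbv.locallyBoundedVariationOn
  set p : ℝ → ℝ := variationOnFromTo r I (-1) with hp
  have hpm : MonotoneOn p I := variationOnFromTo.monotoneOn hl hm1
  have hqm : MonotoneOn (p - r) I := variationOnFromTo.sub_self_monotoneOn hl hm1
  have hp0 : ∀ v ∈ I, 0 ≤ p v := fun v hv => variationOnFromTo.nonneg_of_le r I hv.1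
  have hp1 : ∀ v ∈ I, p v ≤ 1 := by
    intro v hv'
    rw [hp, variationOnFromTo.eq_of_le r I hv'.1]
    have h1 : eVariationOn r (I ∩ Icc (-1) v) ≤ 1 :=
      (eVariationOn.mono r inter_subset_left).trans hv
    have := ENNReal.toReal_mono (by simp) h1
    simpa using this
  set π' : ℝ → ℝ := fun v => (projIcc (-1 : ℝ) 1 h11 v : ℝ) with hπ
  have hπm : Monotone π' := fun v w hvw => by
    have := monotone_projIcc h11 hvw
    exact this
  have hπI : ∀ v, π' v ∈ I := fun v => (projIcc (-1 : ℝ) 1 h11 v).2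
  have hπe : ∀ v ∈ I, π' v = v := fun v hv' => by
    rw [hπ]
    simp only
    rw [projIcc_of_mem h11 hv']
  set P1 : ℝ → ℝ := fun v => p (π' v) with hP1
  set P2 : ℝ → ℝ := fun v => (p (π' v) - r (π' v) + 1) / 3 with hP2
  have hP1m : Monotone P1 := fun v w hvw => hpm (hπI v) (hπI w) (hπm hvw)
  have hP2m : Monotone P2 := fun v w hvw => by
    have := hqm (hπI v) (hπI w) (hπm hvw)
    simp only [Pi.sub_apply] at this
    rw [hP2]
    simp only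
    linarith
  have hP1a : ∀ v, 0 ≤ P1 v := fun v => hp0 _ (hπI v)
  have hP1b : ∀ v, P1 v ≤ 1 := fun v => hp1 _ (hπI v)
  have hP2a : ∀ v, 0 ≤ P2 v := fun v => by
    have h1 := hp0 _ (hπI v)
    have h2 := abs_le.1 (hb (π' v))
    rw [hP2]
    simp only
    linarith [h2.2]
  have hP2b : ∀ v, P2 v ≤ 1 := fun v => by
    have h1 := hp1 _ (hπI v)
    have h2 := abs_le.1 (hb (π' v))
    rw [hP2]
    simp only
    linarith [h2.1]
  have g1 := good_mono hP1m hP1a hP1b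
  have g2 := good_mono hP2m hP2a hP2b
  have g3 := good_mono (P := fun _ => 1) monotone_const (fun _ => by norm_num) (fun _ => le_rfl)
  have g2' := g2.smul (by norm_num) (-3)
  have nb : ∀ x : ℝ, 0 ≤ x → x ≤ 1 → ‖((x : ℝ) : ℂ)‖ ≤ 1 := by
    intro x h0 h1
    rw [Complex.norm_real, Real.norm_of_nonneg h0]
    exact h1
  have b1 : ∀ v, ‖((P1 v : ℝ) : ℂ)‖ ≤ 1 := fun v => nb _ (hP1a v) (hP1b v)
  have b2 : ∀ v, ‖(-3 : ℂ) * ((P2 v : ℝ) : ℂ)‖ ≤ 3 := by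
    intro v
    rw [norm_mul]
    have h1 := nb _ (hP2a v) (hP2b v)
    have h2 : ‖(-3 : ℂ)‖ = 3 := by simp
    rw [h2]
    linarith
  have b3 : ∀ v : ℝ, ‖(((fun _ => 1 : ℝ → ℝ) v : ℝ) : ℂ)‖ ≤ 1 := fun v => nb _ (by norm_num) le_rfl
  have g12 := g1.add (by norm_num) (by positivity) g2' 1 3 b1 b2
  have b12 : ∀ v, ‖((P1 v : ℝ) : ℂ) + (-3 : ℂ) * ((P2 v : ℝ) : ℂ)‖ ≤ 4 := fun v => by
    have := norm_add_le ((P1 v : ℝ) : ℂ) ((-3 : ℂ) * ((P2 v : ℝ) : ℂ))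
    linarith [b1 v, b2 v]
  have g123 := g12.add (by positivity) (by norm_num) g3 4 1 b12 b3
  refine ⟨_, g123.mono ?_, ?_, ?_⟩
  · have h2 : ‖(-3 : ℂ)‖ = 3 := by simp
    rw [h2]
    norm_num
  · intro v
    have := norm_add_le (((P1 v : ℝ) : ℂ) + (-3 : ℂ) * ((P2 v : ℝ) : ℂ))
      (((fun _ => 1 : ℝ → ℝ) v : ℝ) : ℂ)
    linarith [b12 v, b3 v]
  · intro v hv'
    simp only [hP1, hP2, hπe v hv']
    push_cast
    ring

/-- complex functions of bounded variation -/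
lemma good_bv {h : ℝ → ℂ} (hm : Measurable h) (hb : ∀ v, ‖h v‖ ≤ 1)
    (hv : eVariationOn h (Icc (-1 : ℝ) 1) ≤ 1) : Good 60000 h := by
  have hre : eVariationOn (fun v => (h v).re) (Icc (-1 : ℝ) 1) ≤ 1 := by
    have hL : LipschitzWith 1 Complex.re := by
      apply LipschitzWith.of_dist_le_mul
      intro z w
      rw [Real.dist_eq, Complex.dist_eq, ← Complex.sub_re, NNReal.coe_one, one_mul]
      exact Complex.abs_re_le_norm _
    have h1 := (hL.lipschitzOnWith (s := univ)).comp_eVariationOn_le (g := h)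
      (s := Icc (-1 : ℝ) 1) (mapsTo_univ _ _)
    refine h1.trans ?_
    simpa using hv
  have him : eVariationOn (fun v => (h v).im) (Icc (-1 : ℝ) 1) ≤ 1 := by
    have hL : LipschitzWith 1 Complex.im := by
      apply LipschitzWith.of_dist_le_mul
      intro z w
      rw [Real.dist_eq, Complex.dist_eq, ← Complex.sub_im, NNReal.coe_one, one_mul]
      exact Complex.abs_im_le_norm _
    have h1 := (hL.lipschitzOnWith (s := univ)).comp_eVariationOn_le (g := h)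
      (s := Icc (-1 : ℝ) 1) (mapsTo_univ _ _)
    refine h1.trans ?_
    simpa using hv
  obtain ⟨H1, g1, b1, e1'⟩ := good_real (Complex.measurable_re.comp hm)
    (fun v => (Complex.abs_re_le_norm _).trans (hb v)) hre
  obtain ⟨H2, g2, b2, e2'⟩ := good_real (Complex.measurable_im.comp hm)
    (fun v => (Complex.abs_im_le_norm _).trans (hb v)) him
  have g2' := g2.smul (by norm_num) I
  have b2' : ∀ v, ‖I * H2 v‖ ≤ 5 := by
    intro v
    rw [norm_mul, Complex.norm_I, one_mul]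
    exact b2 v
  have g := g1.add (by norm_num) (by positivity) g2' 5 5 b1 b2'
  refine (g.mono ?_).congr hm ?_
  · rw [Complex.norm_I]
    norm_num
  · intro v hv'
    simp only [e1' v hv', e2' v hv', Function.comp]
    rw [mul_comm]
    exact Complex.re_add_im (h v)

/-- the square -/
def sqr : Set (ℝ × ℝ) := Icc (-1 : ℝ) 1 ×ˢ Icc (-1 : ℝ) 1

/-- extension operator of the paraboloid in `ℝ^3`, with `2π` -/
noncomputable def ext3 (f : ℝ × ℝ → ℂ) (x : ℝ × ℝ × ℝ) : ℂ :=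
  ∫ ξ in Icc (-1 : ℝ) 1 ×ˢ Icc (-1 : ℝ) 1, f ξ *
    cexp (2 * Real.pi * I * ((ξ.1 * x.1 + ξ.2 * x.2.1 + (ξ.1 ^ 2 + ξ.2 ^ 2) * x.2.2 : ℝ) : ℂ))

lemma ext3_eq {f : ℝ × ℝ → ℂ} (hf : Measurable f) (c : ℝ) (hb : ∀ x, ‖f x‖ ≤ c)
    (x : ℝ × ℝ × ℝ) : ext3 f x = FF2 f x.1 x.2.1 x.2.2 := by
  have hI : IntegrableOn (fun ξ : ℝ × ℝ => f ξ *
    cexp (2 * Real.pi * I * ((ξ.1 * x.1 + ξ.2 * x.2.1 + (ξ.1 ^ 2 + ξ.2 ^ 2) * x.2.2 : ℝ) : ℂ)))
      (Icc (-1 : ℝ) 1 ×ˢ Icc (-1 : ℝ) 1) (volume.prod volume) := by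
    unfold IntegrableOn
    rw [← Measure.prod_restrict]
    have hph : Measurable fun ξ : ℝ × ℝ =>
        cexp (2 * Real.pi * I * ((ξ.1 * x.1 + ξ.2 * x.2.1 + (ξ.1 ^ 2 + ξ.2 ^ 2) * x.2.2 : ℝ) : ℂ)) := by
      apply Continuous.measurable
      fun_prop
    refine Integrable.of_bound (hf.mul hph).aestronglyMeasurable c (ae_of_all _ fun ξ => ?_)
    have h1 : ‖cexp (2 * Real.pi * I *
        ((ξ.1 * x.1 + ξ.2 * x.2.1 + (ξ.1 ^ 2 + ξ.2 ^ 2) * x.2.2 : ℝ) : ℂ))‖ = 1 := by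
      have : (2 * Real.pi * I *
          ((ξ.1 * x.1 + ξ.2 * x.2.1 + (ξ.1 ^ 2 + ξ.2 ^ 2) * x.2.2 : ℝ) : ℂ)) =
          ((2 * Real.pi * (ξ.1 * x.1 + ξ.2 * x.2.1 + (ξ.1 ^ 2 + ξ.2 ^ 2) * x.2.2) : ℝ) : ℂ) * I := by
        push_cast
        ring
      rw [this, Complex.norm_exp_ofReal_mul_I]
    rw [norm_mul, h1, mul_one]
    exact hb ξ
  unfold ext3 FF2 e1
  rw [Measure.volume_eq_prod, setIntegral_prod _ hI]
  apply setIntegral_congr_fun measurableSet_Icc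
  intro u _
  simp only
  rw [← integral_mul_const]
  apply setIntegral_congr_fun measurableSet_Icc
  intro v _
  simp only
  have h5 : cexp (2 * Real.pi * I * ((u * x.1 + v * x.2.1 + (u ^ 2 + v ^ 2) * x.2.2 : ℝ) : ℂ)) =
      cexp (2 * Real.pi * I * ((v * x.2.1 + v ^ 2 * x.2.2 : ℝ) : ℂ)) *
      cexp (2 * Real.pi * I * ((u * x.1 + u ^ 2 * x.2.2 : ℝ) : ℂ)) := by
    rw [← Complex.exp_add]
    congr 1
    push_cast
    ring
  rw [h5]
  ring

/-- extension operator without `2π` -/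
lemma ext_FF2 {f : ℝ × ℝ → ℂ} (hf : Measurable f) (c : ℝ) (hb : ∀ x, ‖f x‖ ≤ c)
    (h1 : ∀ x : ℝ × ℝ, 1 < |x.1| → f x = 0) (h2 : ∀ x : ℝ × ℝ, 1 < |x.2| → f x = 0)
    (ξ : ℝ × ℝ × ℝ) : Pool.Agent.H147R3.PE.ext f ξ =
      FF2 f (rr0 • ξ).1 (rr0 • ξ).2.1 (rr0 • ξ).2.2 := by
  have hph : Measurable fun x : ℝ × ℝ =>
      cexp (-I * (x.1 * ξ.1 + x.2 * ξ.2.1 + (x.1 ^ 2 + x.2 ^ 2) * ξ.2.2)) := by fun_prop
  have hn : ∀ x : ℝ × ℝ,
      ‖cexp (-I * (x.1 * ξ.1 + x.2 * ξ.2.1 + (x.1 ^ 2 + x.2 ^ 2) * ξ.2.2))‖ = 1 := by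
    intro x
    have e : -I * (x.1 * ξ.1 + x.2 * ξ.2.1 + (x.1 ^ 2 + x.2 ^ 2) * ξ.2.2 : ℂ) =
        ((-(x.1 * ξ.1 + x.2 * ξ.2.1 + (x.1 ^ 2 + x.2 ^ 2) * ξ.2.2) : ℝ) : ℂ) * I := by
      push_cast
      ring
    rw [e, Complex.norm_exp_ofReal_mul_I]
  have hB : BS2 c (fun x : ℝ × ℝ =>
      cexp (-I * (x.1 * ξ.1 + x.2 * ξ.2.1 + (x.1 ^ 2 + x.2 ^ 2) * ξ.2.2)) * f x) := by
    refine ⟨hph.mul hf, ?_, ?_, ?_⟩
    · intro x
      rw [norm_mul, hn, one_mul]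
      exact hb x
    · intro x hx
      rw [h1 x hx, mul_zero]
    · intro x hx
      rw [h2 x hx, mul_zero]
  have hint := hB.int
  rw [Measure.volume_eq_prod] at hint
  unfold Pool.Agent.H147R3.PE.ext FF2
  rw [Measure.volume_eq_prod, integral_prod _ hint]
  simp only [Prod.smul_fst, Prod.smul_snd, smul_eq_mul]
  rw [← e1_gen (fun u => e1 (fun v => f (u, v)) (rr0 * ξ.2.1) (rr0 * ξ.2.2)) (by
    intro u hu
    have : (fun v => f (u, v)) = fun _ => 0 := by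
      ext v
      exact h1 (u, v) hu
    rw [this]
    unfold e1
    simp)]
  apply integral_congr_ae
  refine ae_of_all _ fun u => ?_
  simp only
  rw [← e1_gen (fun v => f (u, v)) (fun v hv => h2 (u, v) hv), ← integral_mul_const]
  apply integral_congr_ae
  refine ae_of_all _ fun v => ?_
  simp only
  have h5 : cexp (-I * ((u : ℂ) * ξ.1 + v * ξ.2.1 + ((u : ℂ) ^ 2 + (v : ℂ) ^ 2) * ξ.2.2)) =
      cexp (-I * ((v : ℂ) * ξ.2.1 + (v : ℂ) ^ 2 * ξ.2.2)) *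
      cexp (-I * ((u : ℂ) * ξ.1 + (u : ℂ) ^ 2 * ξ.2.2)) := by
    rw [← Complex.exp_add]
    congr 1
    ring
  rw [h5]
  ring

theorem bv_one (q : ℝ) (hq : 3 < q) :
    ∃ K : ℝ≥0∞, K ≠ ⊤ ∧ ∀ f : ℝ × ℝ → ℂ, Measurable f → (∀ x, ‖f x‖ ≤ 1) →
      (∀ u, eVariationOn (fun v => f (u, v)) (Icc (-1 : ℝ) 1) ≤ 1) →
      ∫⁻ x : ℝ × ℝ × ℝ, ‖FF2 f x.1 x.2.1 x.2.2‖ₑ ^ q ≤ K := by
  set q₁ : ℝ := (3 + min q 4) / 2 with hq₁d
  have hmin3 : 3 < min q 4 := lt_min hq (by norm_num)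
  have hq₁ : 3 < q₁ := by rw [hq₁d]; linarith
  have hq4 : q₁ < 4 := by
    have := min_le_right q 4
    rw [hq₁d]; linarith
  have hqq : q₁ < q := by
    have := min_le_left q 4
    rw [hq₁d]; linarith
  obtain ⟨K, hK, hKK⟩ := assemble q₁ hq₁ hq4 60000 (by norm_num)
  have h4t : (4 : ℝ≥0∞) ^ (q - q₁) ≠ ⊤ := ENNReal.rpow_ne_top_of_nonneg (by linarith) (by simp)
  refine ⟨4 ^ (q - q₁) * K, ENNReal.mul_ne_top h4t hK, ?_⟩
  intro f hf hb hv
  have hgood : ∀ u, Good 60000 (fun v => f (u, v)) := fun u =>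
    good_bv (hf.comp (measurable_const.prodMk measurable_id)) (fun v => hb (u, v)) (hv u)
  have hsup : ∀ x y t, ‖FF2 f x y t‖ₑ ≤ 4 := by
    intro x y t
    have h1 : ∀ u, ‖e1 (fun v => f (u, v)) y t‖ ≤ 2 := by
      intro u
      have h := e1_bdc 1 (fun v => hb (u, v)) y t
      rw [← ofReal_norm, ENNReal.ofReal_le_ofReal_iff (by norm_num)] at h
      linarith
    have h2 := e1_bdc 2 h1 x t
    unfold FF2
    refine h2.trans (le_of_eq ?_)
    norm_num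
  have h1 := hKK f hf hb hgood
  calc ∫⁻ x : ℝ × ℝ × ℝ, ‖FF2 f x.1 x.2.1 x.2.2‖ₑ ^ q
      ≤ ∫⁻ x : ℝ × ℝ × ℝ, 4 ^ (q - q₁) * ‖FF2 f x.1 x.2.1 x.2.2‖ₑ ^ q₁ := by
        apply lintegral_mono
        intro x
        simp only
        have e : ‖FF2 f x.1 x.2.1 x.2.2‖ₑ ^ q =
            ‖FF2 f x.1 x.2.1 x.2.2‖ₑ ^ (q - q₁) * ‖FF2 f x.1 x.2.1 x.2.2‖ₑ ^ q₁ := by
          rw [← ENNReal.rpow_add_of_nonneg _ _ (by linarith) (by linarith)]
          congr 1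
          ring
        rw [e]
        refine mul_le_mul_left ?_ _
        exact ENNReal.rpow_le_rpow (hsup _ _ _) (by linarith)
    _ = 4 ^ (q - q₁) * ∫⁻ x : ℝ × ℝ × ℝ, ‖FF2 f x.1 x.2.1 x.2.2‖ₑ ^ q₁ :=
        lintegral_const_mul' _ _ h4t
    _ ≤ _ := mul_le_mul_right h1 _

/-- homogeneous form -/
theorem bv_hom (q : ℝ) (hq : 3 < q) :
    ∃ K : ℝ≥0∞, K ≠ ⊤ ∧ ∀ (A : ℝ≥0) (f : ℝ × ℝ → ℂ), Measurable f → (∀ x, ‖f x‖ ≤ A) →
      (∀ u, eVariationOn (fun v => f (u, v)) (Icc (-1 : ℝ) 1) ≤ A) →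
      ∫⁻ x : ℝ × ℝ × ℝ, ‖FF2 f x.1 x.2.1 x.2.2‖ₑ ^ q ≤ K * (A : ℝ≥0∞) ^ q := by
  obtain ⟨K, hK, hKK⟩ := bv_one q hq
  refine ⟨K, hK, ?_⟩
  intro A f hf hb hv
  rcases eq_or_ne A 0 with hA | hA
  · have h0 : ∀ x, f x = 0 := by
      intro x
      have := hb x
      rw [hA, NNReal.coe_zero] at this
      exact norm_le_zero_iff.1 this
    have h1 : ∀ x y t, FF2 f x y t = 0 := by
      intro x y t
      unfold FF2 e1
      simp [h0]
    have hq0 : (0 : ℝ) < q := by linarith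
    simp [h1, hq0]
  · have hA0 : (0 : ℝ) < A := lt_of_le_of_ne A.2 (by
      intro h
      apply hA
      exact NNReal.coe_eq_zero.1 h.symm)
    set g : ℝ × ℝ → ℂ := fun x => ((A : ℝ)⁻¹ : ℝ) * f x with hg
    have hgm : Measurable g := hf.const_mul _
    have hgb : ∀ x, ‖g x‖ ≤ 1 := by
      intro x
      rw [hg]
      simp only
      rw [norm_mul, Complex.norm_real, norm_inv, Real.norm_of_nonneg hA0.le,
        inv_mul_le_iff₀ hA0, mul_one]
      exact hb x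
    have hgv : ∀ u, eVariationOn (fun v => g (u, v)) (Icc (-1 : ℝ) 1) ≤ 1 := by
      intro u
      have hL : LipschitzWith (A⁻¹) (fun z : ℂ => ((A : ℝ)⁻¹ : ℝ) * z) := by
        apply LipschitzWith.of_dist_le_mul
        intro z w
        rw [Complex.dist_eq, Complex.dist_eq, ← mul_sub, norm_mul, Complex.norm_real, norm_inv,
          Real.norm_of_nonneg hA0.le, NNReal.coe_inv]
      have h1 := (hL.lipschitzOnWith (s := univ)).comp_eVariationOn_le (g := fun v => f (u, v))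
        (s := Icc (-1 : ℝ) 1) (mapsTo_univ _ _)
      refine h1.trans ?_
      calc ((A⁻¹ : ℝ≥0) : ℝ≥0∞) * eVariationOn (fun v => f (u, v)) (Icc (-1 : ℝ) 1)
          ≤ ((A⁻¹ : ℝ≥0) : ℝ≥0∞) * A := by gcongr; exact hv u
        _ = 1 := by
            rw [← ENNReal.coe_mul, inv_mul_cancel₀ hA, ENNReal.coe_one]
    have hfg : ∀ x y t, FF2 f x y t = ((A : ℝ) : ℂ) * FF2 g x y t := by
      intro x y t
      unfold FF2
      rw [← e1_smul]
      congr 1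
      ext u
      rw [← e1_smul]
      congr 1
      ext v
      rw [hg]
      simp only
      rw [← mul_assoc, ← Complex.ofReal_mul, mul_inv_cancel₀ hA0.ne', Complex.ofReal_one, one_mul]
    have hAe : ‖((A : ℝ) : ℂ)‖ₑ = (A : ℝ≥0∞) := by
      rw [← ofReal_norm, Complex.norm_real, Real.norm_of_nonneg hA0.le]
      exact ENNReal.ofReal_coe_nnreal
    have hAt : (A : ℝ≥0∞) ^ q ≠ ⊤ := ENNReal.rpow_ne_top_of_nonneg (by linarith) (by simp)
    simp only [hfg, enorm_mul, ENNReal.mul_rpow_of_nonneg _ _ (show 0 ≤ q by linarith), hAe]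
    rw [lintegral_const_mul' _ _ hAt, mul_comm]
    exact mul_le_mul_left (hKK g hgm hgb hgv) _

end Pool.Agent.H728R3.SR
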