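import Mathlib
import Pool.Agent.H728R3.SR.S
set_option autoImplicit false

/-!
# The restriction conjecture in `ℝ³` for functions of bounded variation in one variable

Let `d = 3` and `q > 3 = 2d/(d-1)`. If `f` is measurable on `[-1,1]²`, `|f| ≤ A` and, for each
`ξ₁`, the total variation of `ξ₂ ↦ f(ξ₁, ξ₂)` on `[-1,1]` is at most `A`, then
`‖E f‖_q ≤ C(q) A`. Nothing is assumed on the dependence on `ξ₁` beyond measurability.
-/

namespace Pool.Agent.H728R3.SR.BV3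

open MeasureTheory Set Complex
open scoped ENNReal NNReal

/-- The extension operator of the truncated paraboloid in `ℝ³`,
`Ef(x) = ∫_{[-1,1]²} f(ξ) exp(2πi(ξ₁ x₁ + ξ₂ x₂ + |ξ|² x₃)) dξ`, with `x = (x₁, (x₂, x₃))`. -/
noncomputable def ext (f : ℝ × ℝ → ℂ) (x : ℝ × ℝ × ℝ) : ℂ :=
  ∫ ξ in Icc (-1 : ℝ) 1 ×ˢ Icc (-1 : ℝ) 1, f ξ *
    cexp (2 * Real.pi * I * ((ξ.1 * x.1 + ξ.2 * x.2.1 + (ξ.1 ^ 2 + ξ.2 ^ 2) * x.2.2 : ℝ) : ℂ))

/-- **The restriction conjecture in `ℝ³` for functions of bounded variation in one variable.** For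
every `q > 3` there is `C` such that for every `A` and every measurable `f` with `|f| ≤ A` on
`[-1,1]²` for which the total variation of `v ↦ f(u, v)` on `[-1,1]` is at most `A` for every
`u` in `[-1,1]`, the integral of `|E f|^q` over `ℝ³` is at most `C A^q`. -/
theorem result (q : ℝ) (hq : 3 < q) :
    ∃ C : ℝ≥0, ∀ (A : ℝ≥0) (f : ℝ × ℝ → ℂ), Measurable f →
      (∀ ξ ∈ Icc (-1 : ℝ) 1 ×ˢ Icc (-1 : ℝ) 1, ‖f ξ‖ ≤ A) →
      (∀ u ∈ Icc (-1 : ℝ) 1, eVariationOn (fun v => f (u, v)) (Icc (-1 : ℝ) 1) ≤ A) →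
      ∫⁻ x : ℝ × ℝ × ℝ, ‖ext f x‖ₑ ^ q ≤ C * (A : ℝ≥0∞) ^ q := by
  obtain ⟨K, hK, hKK⟩ := Pool.Agent.H728R3.SR.bv_hom q hq
  refine ⟨K.toNNReal, ?_⟩
  intro A f hf hb hv
  rw [ENNReal.coe_toNNReal hK]
  have hQ : MeasurableSet (Icc (-1 : ℝ) 1 ×ˢ Icc (-1 : ℝ) 1) :=
    measurableSet_Icc.prod measurableSet_Icc
  set g : ℝ × ℝ → ℂ := (Icc (-1 : ℝ) 1 ×ˢ Icc (-1 : ℝ) 1).indicator f with hg
  have hgm : Measurable g := hf.indicator hQ
  have hgb : ∀ x, ‖g x‖ ≤ A := by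
    intro x
    rw [hg]
    by_cases hx : x ∈ Icc (-1 : ℝ) 1 ×ˢ Icc (-1 : ℝ) 1
    · rw [indicator_of_mem hx]
      exact hb x hx
    · rw [indicator_of_notMem hx, norm_zero]
      exact A.2
  have hgv : ∀ u, eVariationOn (fun v => g (u, v)) (Icc (-1 : ℝ) 1) ≤ A := by
    intro u
    by_cases hu : u ∈ Icc (-1 : ℝ) 1
    · have h1 : EqOn (fun v => g (u, v)) (fun v => f (u, v)) (Icc (-1 : ℝ) 1) := by
        intro v hv'
        rw [hg]
        simp only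
        rw [indicator_of_mem (show (u, v) ∈ Icc (-1 : ℝ) 1 ×ˢ Icc (-1 : ℝ) 1 from ⟨hu, hv'⟩)]
      rw [eVariationOn.eq_of_eqOn h1]
      exact hv u hu
    · have h1 : EqOn (fun v => g (u, v)) (fun _ => 0) (Icc (-1 : ℝ) 1) := by
        intro v _
        rw [hg]
        simp only
        rw [indicator_of_notMem]
        intro h2
        exact hu h2.1
      rw [eVariationOn.eq_of_eqOn h1, eVariationOn.constant_on]
      · exact zero_le
      · intro x hx y hy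
        obtain ⟨_, _, rfl⟩ := hx
        obtain ⟨_, _, rfl⟩ := hy
        rfl
  have he : ∀ x, ext f x = Pool.Agent.H728R3.SR.FF2 g x.1 x.2.1 x.2.2 := by
    intro x
    rw [← Pool.Agent.H728R3.SR.ext3_eq hgm A hgb x]
    unfold ext Pool.Agent.H728R3.SR.ext3
    apply setIntegral_congr_fun hQ
    intro ξ hξ
    simp only
    rw [hg, indicator_of_mem hξ]
  simp only [he]
  exact hKK A g hgm hgb hgv

end Pool.Agent.H728R3.SR.BV3
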