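import Mathlib
import Pool.Agent.H728R3.SR.S
set_option autoImplicit false

/-! The estimate with the mass of the support in the first variable. -/

namespace Pool.Agent.H728R3.SR
open MeasureTheory Set Complex Filter Topology
open Pool.Agent.H147R3.PE
open scoped ENNReal NNReal

lemma two2E (G : ℝ → ℝ → ℂ) (hG : Measurable fun p : ℝ × ℝ => G p.1 p.2) (c : ℝ) (hc : 0 < c)
    (hb : ∀ u y, ‖G u y‖ ≤ c) (t : ℝ) (D : ℝ≥0∞) (E : Set ℝ) (hE : MeasurableSet E)
    (hGE : ∀ u, u ∉ E → ∀ y, G u y = 0) (hD : ∀ u, ∫⁻ y, ‖G u y‖ₑ ^ 2 ≤ D)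
    (q : ℝ) (hq : 2 ≤ q) :
    ∫⁻ y, ∫⁻ x, ‖e1 (fun u => G u y) x t‖ₑ ^ q ≤
      ENNReal.ofReal (2 * c) ^ (q - 2) * (D * volume E) := by
  have hsec : ∀ y, Measurable fun u => G u y := fun y =>
    hG.comp (measurable_id.prodMk measurable_const)
  have hft : ENNReal.ofReal (2 * c) ^ (q - 2) ≠ ⊤ :=
    ENNReal.rpow_ne_top_of_nonneg (by linarith) ENNReal.ofReal_ne_top
  have h1 : ∀ y, ∫⁻ x, ‖e1 (fun u => G u y) x t‖ₑ ^ q ≤
      ENNReal.ofReal (2 * c) ^ (q - 2) * M2 (fun u => G u y) := by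
    intro y
    rw [← e1_two_c (hsec y) c hc (fun u => hb u y) t, ← lintegral_const_mul' _ _ hft]
    apply lintegral_mono
    intro x
    simp only
    have e : ‖e1 (fun u => G u y) x t‖ₑ ^ q =
        ‖e1 (fun u => G u y) x t‖ₑ ^ (q - 2) * ‖e1 (fun u => G u y) x t‖ₑ ^ 2 := by
      rw [← ENNReal.rpow_natCast _ 2, ← ENNReal.rpow_add_of_nonneg _ _ (by linarith) (by norm_num)]
      congr 1
      push_cast
      ring
    rw [e]
    gcongr
    exact e1_bdc c (fun u => hb u y) x t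
  have hm2 : ∀ y, M2 (fun u => G u y) ≤ ∫⁻ u, ‖G u y‖ₑ ^ 2 := by
    intro y
    unfold M2
    apply lintegral_mono
    intro u
    simp only
    unfold cut
    by_cases hu : u ∈ Icc (-1 : ℝ) 1
    · rw [indicator_of_mem hu]
    · rw [indicator_of_notMem hu]
      simp
  have hsw : ∫⁻ y, ∫⁻ u, ‖G u y‖ₑ ^ 2 = ∫⁻ u, ∫⁻ y, ‖G u y‖ₑ ^ 2 := by
    apply lintegral_lintegral_swap (f := fun y u => ‖G u y‖ₑ ^ 2)
    exact ((hG.comp measurable_swap).enorm.pow_const 2).aemeasurable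
  calc _ ≤ ∫⁻ y, ENNReal.ofReal (2 * c) ^ (q - 2) * ∫⁻ u, ‖G u y‖ₑ ^ 2 :=
        lintegral_mono fun y => (h1 y).trans (mul_le_mul_right (hm2 y) _)
    _ = ENNReal.ofReal (2 * c) ^ (q - 2) * ∫⁻ u, ∫⁻ y, ‖G u y‖ₑ ^ 2 := by
        rw [lintegral_const_mul' _ _ hft, hsw]
    _ ≤ ENNReal.ofReal (2 * c) ^ (q - 2) * ∫⁻ u, E.indicator (fun _ => D) u := by
        refine mul_le_mul_right (lintegral_mono fun u => ?_) _
        by_cases hu : u ∈ E
        · rw [indicator_of_mem hu]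
          exact hD u
        · rw [indicator_of_notMem hu]
          simp [hGE u hu]
    _ = _ := by
        rw [lintegral_indicator hE, lintegral_const, Measure.restrict_apply_univ]

lemma small_tE {f : ℝ × ℝ → ℂ} (hf : Measurable f) (hb : ∀ x, ‖f x‖ ≤ 1) (E : Set ℝ)
    (hE : MeasurableSet E) (hfE : ∀ u, u ∉ E → ∀ v, f (u, v) = 0) (q : ℝ) (hq : 2 ≤ q)
    (t : ℝ) : ∫⁻ y, ∫⁻ x, ‖FF2 f x y t‖ₑ ^ q ≤ 4 ^ (q - 2) * 2 * volume E := by
  have hsec : ∀ u, Measurable fun v => f (u, v) := fun u =>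
    hf.comp (measurable_const.prodMk measurable_id)
  have hG : Measurable fun p : ℝ × ℝ => e1 (fun v => f (p.1, v)) p.2 t := by
    apply e1_joint (fun (p : ℝ × ℝ) v => f (p.1, v)) _ (fun p => p.2) (fun _ => t) measurable_snd
      measurable_const
    exact hf.comp ((measurable_fst.comp measurable_fst).prodMk measurable_snd)
  have hGb : ∀ u y, ‖e1 (fun v => f (u, v)) y t‖ ≤ 2 := by
    intro u y
    have h := e1_bdc 1 (fun v => hb (u, v)) y t
    rw [← ofReal_norm, ENNReal.ofReal_le_ofReal_iff (by norm_num)] at h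
    linarith
  have h1 := two2E (fun u y => e1 (fun v => f (u, v)) y t) hG 2 (by norm_num) hGb t 2 E hE (by
    intro u hu y
    unfold e1
    simp [hfE u hu]) (by
    intro u
    rw [e1_two_c (hsec u) 1 one_pos (fun v => hb (u, v)) t]
    exact cut_two (fun v => hb (u, v)) 2 (by norm_num)) q hq
  unfold FF2
  refine h1.trans (le_of_eq ?_)
  rw [← mul_assoc]
  congr 3
  norm_num

lemma err_tE {f : ℝ × ℝ → ℂ} (hf : Measurable f) (C : ℝ) (hC : 0 < C)
    (hgood : ∀ u, Good C (fun v => f (u, v))) (E : Set ℝ)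
    (hE : MeasurableSet E) (hfE : ∀ u, u ∉ E → ∀ v, f (u, v) = 0)
    (q : ℝ) (hq : 2 ≤ q) (t : ℝ) (ht : t ≠ 0) :
    ∫⁻ y, ∫⁻ x, ‖e1 (fun u => Aop (fun v => f (u, v)) y t) x t‖ₑ ^ q ≤
      ENNReal.ofReal ((2 * C) ^ (q - 1) * |t| ^ (-((q - 1) / 2))) * volume E := by
  have ht' : 0 < |t| := abs_pos.2 ht
  have hG : Measurable fun p : ℝ × ℝ => Aop (fun v => f (p.1, v)) p.2 t := by
    unfold Aop
    apply Measurable.sub
    · apply e1_joint (fun (p : ℝ × ℝ) v => f (p.1, v)) _ (fun p => p.2) (fun _ => t)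
        measurable_snd measurable_const
      exact hf.comp ((measurable_fst.comp measurable_fst).prodMk measurable_snd)
    · apply Measurable.ite
      · exact measurableSet_lt ((measurable_snd.div_const _).norm) measurable_const
      · apply Measurable.mul
        · exact hf.comp (measurable_fst.prodMk (measurable_snd.div_const _).neg)
        · exact (e1_meas (ind_meas _ _)).comp (measurable_snd.prodMk measurable_const)
      · exact measurable_const
  have h1 := two2E (fun u y => Aop (fun v => f (u, v)) y t) hG (C * (Real.sqrt |t|)⁻¹)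
    (by positivity) (fun u y => (hgood u).bd y t ht) t (ENNReal.ofReal (C * (Real.sqrt |t|)⁻¹))
    E hE (by
      intro u hu y
      unfold Aop e1
      simp [hfE u hu]) (fun u => (hgood u).two t ht) q hq
  refine h1.trans ?_
  rw [← mul_assoc]
  refine mul_le_mul_left ?_ _
  rw [ENNReal.ofReal_rpow_of_pos (by positivity), ← ENNReal.ofReal_mul (by positivity)]
  apply ENNReal.ofReal_le_ofReal
  set w := 2 * (C * (Real.sqrt |t|)⁻¹) with hw
  have hw0 : 0 < w := by positivity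
  have e1 : w ^ (q - 2) * w = w ^ (q - 1) := by
    nth_rewrite 2 [← Real.rpow_one w]
    rw [← Real.rpow_add hw0]
    congr 1
    ring
  calc w ^ (q - 2) * (C * (Real.sqrt |t|)⁻¹) ≤ w ^ (q - 2) * w := by
        gcongr
        rw [hw]
        have : 0 < C * (Real.sqrt |t|)⁻¹ := by positivity
        linarith
    _ = _ := by
        rw [e1, hw, ← mul_assoc, Real.mul_rpow (by positivity) (by positivity), Real.sqrt_eq_rpow,
          ← Real.rpow_neg ht'.le, ← Real.rpow_mul ht'.le]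
        congr 2
        ring

lemma split_fE {f : ℝ × ℝ → ℂ} (hf : Measurable f) (hb : ∀ x, ‖f x‖ ≤ 1) (C : ℝ) (hC : 0 < C)
    (hgood : ∀ u, Good C (fun v => f (u, v))) (E : Set ℝ)
    (hE : MeasurableSet E) (hfE : ∀ u, u ∉ E → ∀ v, f (u, v) = 0)
    (q : ℝ) (hq : 2 ≤ q) (t : ℝ) (ht : t ≠ 0) :
    ∫⁻ y, ∫⁻ x, ‖FF2 f x y t‖ₑ ^ q ≤
      2 ^ (q - 1) * (ENNReal.ofReal (8 ^ (q / 2) * |t| ^ (-(q / 2)) * (2 * |t|)) *
        (∫⁻ s in Ioo (-1 : ℝ) 1, Gq (fun u => f (u, s)) q t) +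
            ENNReal.ofReal ((2 * C) ^ (q - 1) * |t| ^ (-((q - 1) / 2))) * volume E) :=
  split_t (fun y x => FF2 f x y t) _ _ (fun y x => dec hf hb C hgood x y t ht)
    (err_meas hf t) q (by linarith) _ _ (main_t hf q hq t ht)
    (err_tE hf C hC hgood E hE hfE q hq t ht)

lemma M2_E (E : Set ℝ) (hE : MeasurableSet E) (h : ℝ → ℂ) (hb : ∀ u, ‖h u‖ ≤ 1)
    (h0 : ∀ u, u ∉ E → h u = 0) : M2 h ≤ volume E := by
  unfold M2
  calc ∫⁻ z, ‖cut h z‖ₑ ^ 2 ≤ ∫⁻ z, E.indicator (fun _ => 1) z := by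
        apply lintegral_mono
        intro z
        simp only
        unfold cut
        by_cases hz : z ∈ E
        · rw [indicator_of_mem hz]
          apply pow_le_one'
          rw [← ofReal_norm, ← ENNReal.ofReal_one]
          apply ENNReal.ofReal_le_ofReal
          exact (norm_indicator_le_norm_self _ _).trans (hb z)
        · rw [indicator_of_notMem hz]
          have : (Icc (-1 : ℝ) 1).indicator h z = 0 := by
            rw [indicator_apply_eq_zero]
            exact fun _ => h0 z hz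
          rw [this]
          simp
    _ = _ := by
        rw [lintegral_indicator hE, lintegral_const, Measure.restrict_apply_univ, one_mul]

theorem assembleE (q : ℝ) (hq : 3 < q) (h4 : q < 4) (C : ℝ) (hC : 0 < C) :
    ∃ K : ℝ≥0∞, K ≠ ⊤ ∧ ∀ (f : ℝ × ℝ → ℂ) (E : Set ℝ), Measurable f → (∀ x, ‖f x‖ ≤ 1) →
      MeasurableSet E → volume E ≠ ⊤ → (∀ u, u ∉ E → ∀ v, f (u, v) = 0) →
      (∀ u, Good C (fun v => f (u, v))) →
      ∫⁻ ξ : ℝ × ℝ × ℝ, ‖FF2 f ξ.1 ξ.2.1 ξ.2.2‖ₑ ^ q ≤ K * volume E := by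
  obtain ⟨γ, hγ0, hγ1, K, hK, hKK⟩ := wtotal1 q hq h4
  set p := (q - 1) / 2 with hp
  have hp1 : 1 < p := by rw [hp]; linarith
  set A0 : ℝ≥0∞ := 4 ^ (q - 2) * 2 with hA0
  have hA0t : A0 ≠ ⊤ := ENNReal.mul_ne_top (ENNReal.rpow_ne_top_of_nonneg (by linarith) (by simp))
    (by simp)
  set B1 : ℝ≥0∞ := 2 ^ (q - 1) * ENNReal.ofReal ((2 * C) ^ (q - 1) * 2 ^ p) with hB1
  have h2t : (2 : ℝ≥0∞) ^ (q - 1) ≠ ⊤ := ENNReal.rpow_ne_top_of_nonneg (by linarith) (by simp)
  have hB1t : B1 ≠ ⊤ := ENNReal.mul_ne_top h2t ENNReal.ofReal_ne_top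
  set B2 : ℝ≥0∞ := 2 ^ (q - 1) * ENNReal.ofReal (8 ^ (q / 2) * 2) with hB2
  have hB2t : B2 ≠ ⊤ := ENNReal.mul_ne_top h2t ENNReal.ofReal_ne_top
  set T0 : ℝ≥0∞ := ∫⁻ t : ℝ, ENNReal.ofReal ((1 + ‖t‖) ^ (-p)) with hT0
  have hT0t : T0 ≠ ⊤ := by
    have := finite_integral_one_add_norm (E := ℝ) (μ := volume) (r := p) (by simpa using hp1)
    exact this.ne
  refine ⟨A0 * 2 + (B1 * T0 + B2 * (2 * K)), ?_, ?_⟩
  · refine ENNReal.add_ne_top.2 ⟨ENNReal.mul_ne_top hA0t (by simp),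
      ENNReal.add_ne_top.2 ⟨ENNReal.mul_ne_top hB1t hT0t, ENNReal.mul_ne_top hB2t
        (ENNReal.mul_ne_top (by simp) hK)⟩⟩
  intro f E hf hb hE hEt hfE hgood
  set w := volume E with hw
  have hsecv : ∀ s, Measurable fun u => f (u, s) := fun s =>
    hf.comp (measurable_id.prodMk measurable_const)
  set S : ℝ → ℝ≥0∞ := fun t => ∫⁻ s in Ioo (-1 : ℝ) 1, Gq (fun u => f (u, s)) q t with hS
  have hjoint : Measurable fun r : ℝ × ℝ => Gq (fun u => f (u, r.2)) q r.1 := by
    unfold Gq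
    have h1 : Measurable fun r : (ℝ × ℝ) × ℝ => e1 (fun u => f (u, r.1.2)) r.2 r.1.1 := by
      apply e1_joint (fun (r : (ℝ × ℝ) × ℝ) u => f (u, r.1.2)) _ (fun r => r.2) (fun r => r.1.1)
        measurable_snd (measurable_fst.comp measurable_fst)
      exact hf.comp (measurable_snd.prodMk
        (measurable_snd.comp (measurable_fst.comp measurable_fst)))
    exact (h1.enorm.pow_const q).lintegral_prod_right'
  have hSm : Measurable S := hjoint.lintegral_prod_right'
  have hwm := wt_meas' γ (q / 2 - 1)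
  have hlarge : ∀ t : ℝ, 1 < |t| → ∫⁻ y, ∫⁻ x, ‖FF2 f x y t‖ₑ ^ q ≤
      B1 * w * ENNReal.ofReal ((1 + ‖t‖) ^ (-p)) + B2 * (wt γ (q / 2 - 1) t * S t) := by
    intro t h1t
    have ht' : 0 < |t| := by linarith
    have ht : t ≠ 0 := abs_pos.1 ht'
    calc ∫⁻ y, ∫⁻ x, ‖FF2 f x y t‖ₑ ^ q
        ≤ 2 ^ (q - 1) * (ENNReal.ofReal (8 ^ (q / 2) * |t| ^ (-(q / 2)) * (2 * |t|)) * S t +
            ENNReal.ofReal ((2 * C) ^ (q - 1) * |t| ^ (-p)) * w) :=
          split_fE hf hb C hC hgood E hE hfE q (by linarith) t ht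
      _ ≤ 2 ^ (q - 1) * (ENNReal.ofReal (8 ^ (q / 2) * 2) * (wt γ (q / 2 - 1) t * S t) +
            ENNReal.ofReal ((2 * C) ^ (q - 1) * 2 ^ p) * ENNReal.ofReal ((1 + ‖t‖) ^ (-p)) * w) := by
          refine mul_le_mul_right (add_le_add ?_ (mul_le_mul_left ?_ _)) _
          · rw [← mul_assoc (ENNReal.ofReal (8 ^ (q / 2) * 2)) (wt γ (q / 2 - 1) t) (S t)]
            refine mul_le_mul_left ?_ _
            have e1 : (8 : ℝ) ^ (q / 2) * |t| ^ (-(q / 2)) * (2 * |t|) =
                (8 ^ (q / 2) * 2) * |t| ^ (-(q / 2 - 1)) := by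
              have : |t| ^ (-(q / 2 - 1)) = |t| ^ (-(q / 2)) * |t| := by
                have h9 : |t| ^ (-(q / 2)) * |t| = |t| ^ (-(q / 2)) * |t| ^ (1 : ℝ) := by
                  rw [Real.rpow_one]
                rw [h9, ← Real.rpow_add ht']
                congr 1
                ring
              rw [this]
              ring
            rw [e1, ENNReal.ofReal_mul (by positivity)]
            refine mul_le_mul_right ?_ _
            unfold wt AA
            rw [if_neg (not_le.2 h1t), ENNReal.ofReal_rpow_of_pos (by positivity)]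
            apply ENNReal.ofReal_le_ofReal
            calc |t| ^ (-(q / 2 - 1)) = (|t| ^ (-1 : ℝ)) ^ (q / 2 - 1) := by
                  rw [← Real.rpow_mul ht'.le]
                  congr 1
                  ring
              _ ≤ _ := by
                  apply Real.rpow_le_rpow (by positivity) _ (by linarith)
                  have h5 : |t| ^ (-1 : ℝ) ≤ |t| ^ (γ / 2 - 1) :=
                    Real.rpow_le_rpow_of_exponent_le h1t.le (by linarith)
                  have h6 : 0 < |t| ^ (γ / 2 - 1) := by positivity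
                  linarith
          · rw [← ENNReal.ofReal_mul (by positivity)]
            apply ENNReal.ofReal_le_ofReal
            rw [mul_assoc]
            apply mul_le_mul_of_nonneg_left _ (by positivity)
            have h7 : (1 + ‖t‖) ≤ 2 * |t| := by
              rw [Real.norm_eq_abs]
              linarith
            have h8 : (2 * |t|) ^ (-p) ≤ (1 + ‖t‖) ^ (-p) :=
              Real.rpow_le_rpow_of_nonpos (by positivity) h7 (by linarith)
            calc |t| ^ (-p) = 2 ^ p * (2 * |t|) ^ (-p) := by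
                  rw [Real.mul_rpow (by norm_num) ht'.le, ← mul_assoc, ← Real.rpow_add (by norm_num)]
                  simp
              _ ≤ _ := by gcongr
      _ = _ := by
          rw [hB1, hB2]
          ring
  have hpw : ∀ t : ℝ, ∫⁻ y, ∫⁻ x, ‖FF2 f x y t‖ₑ ^ q ≤
      (Icc (-1 : ℝ) 1).indicator (fun _ => A0 * w) t +
      (B1 * w * ENNReal.ofReal ((1 + ‖t‖) ^ (-p)) + B2 * (wt γ (q / 2 - 1) t * S t)) := by
    intro t
    by_cases h : |t| ≤ 1
    · rw [indicator_of_mem (show t ∈ Icc (-1 : ℝ) 1 from abs_le.1 h)]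
      exact (small_tE hf hb E hE hfE q (by linarith) t).trans le_self_add
    · push Not at h
      exact (hlarge t h).trans le_add_self
  have hm1 : Measurable fun t : ℝ => ENNReal.ofReal ((1 + ‖t‖) ^ (-p)) :=
    ((measurable_norm.const_add 1).pow_const (-p)).ennreal_ofReal
  have hmS : Measurable fun t : ℝ => wt γ (q / 2 - 1) t * S t := hwm.mul hSm
  have hswap : ∫⁻ t, wt γ (q / 2 - 1) t * S t ≤ 2 * (K * w) := by
    apply swap_S _ hwm (fun t s => Gq (fun u => f (u, s)) q t) hjoint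
    intro s
    refine (hKK (fun u => f (u, s)) (hsecv s) (fun u => hb (u, s))).trans ?_
    refine mul_le_mul_right ?_ _
    exact M2_E E hE (fun u => f (u, s)) (fun u => hb (u, s)) (fun u hu => hfE u hu s)
  rw [lint3 (fun x y t => ‖FF2 f x y t‖ₑ ^ q) ((FF2_meas hf).enorm.pow_const q)]
  calc ∫⁻ t, ∫⁻ y, ∫⁻ x, ‖FF2 f x y t‖ₑ ^ q
      ≤ ∫⁻ t, ((Icc (-1 : ℝ) 1).indicator (fun _ => A0 * w) t +
      (B1 * w * ENNReal.ofReal ((1 + ‖t‖) ^ (-p)) + B2 * (wt γ (q / 2 - 1) t * S t))) :=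
        lintegral_mono hpw
    _ = A0 * w * 2 + (B1 * w * T0 + B2 * ∫⁻ t, wt γ (q / 2 - 1) t * S t) := by
        rw [lintegral_add_left (measurable_const.indicator measurableSet_Icc),
          lintegral_add_left (hm1.const_mul (B1 * w)), lintegral_const_mul _ hm1,
          lintegral_const_mul _ hmS, lintegral_indicator measurableSet_Icc, lintegral_const,
          Measure.restrict_apply_univ, Real.volume_Icc]
        have h2 : ENNReal.ofReal ((1 : ℝ) - -1) = 2 := by norm_num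
        rw [h2]
    _ ≤ A0 * w * 2 + (B1 * w * T0 + B2 * (2 * (K * w))) := by gcongr
    _ = _ := by ring

end Pool.Agent.H728R3.SR
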