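import Mathlib
import Pool.Agent.H728R3.SR.T
set_option autoImplicit false

/-! Levels in the first variable. -/

namespace Pool.Agent.H728R3.SR
open MeasureTheory Set Complex Filter Topology
open Pool.Agent.H147R3.PE
open scoped ENNReal NNReal

lemma lev_exists (s : ℝ) (hs : 0 < s) (z : ℂ) : ∃ k, z ∈ lev s k ∧ ∀ j, j ≠ k → z ∉ lev s j := by
  by_cases h : ‖z‖ < s
  · refine ⟨0, h, ?_⟩
    intro j hj hxj
    cases j with
    | zero => exact hj rfl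
    | succ j =>
      have h1 : (2 : ℝ) ^ j * s ≤ ‖z‖ := hxj.1
      have h2 : (1 : ℝ) ≤ 2 ^ j := one_le_pow₀ (by norm_num)
      nlinarith
  · push Not at h
    have h1 : 1 ≤ ‖z‖ / s := by rwa [one_le_div hs]
    obtain ⟨j, hj1, hj2⟩ := exists_nat_pow_near h1 (by norm_num : (1 : ℝ) < 2)
    rw [le_div_iff₀ hs] at hj1
    rw [div_lt_iff₀ hs] at hj2
    refine ⟨j + 1, ⟨hj1, hj2⟩, ?_⟩
    intro i hi hxi
    cases i with
    | zero => exact absurd (show ‖z‖ < s from hxi) (not_lt.2 h)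
    | succ i =>
      have h2 : (2 : ℝ) ^ i * s ≤ ‖z‖ := hxi.1
      have h3 : ‖z‖ < (2 : ℝ) ^ (i + 1) * s := hxi.2
      have h4 : (2 : ℝ) ^ i * s < (2 : ℝ) ^ (j + 1) * s := lt_of_le_of_lt h2 hj2
      have h5 : (2 : ℝ) ^ j * s < (2 : ℝ) ^ (i + 1) * s := lt_of_le_of_lt hj1 h3
      have h6 := (pow_lt_pow_iff_right₀ (by norm_num : (1 : ℝ) < 2)).1 (lt_of_mul_lt_mul_right h4 hs.le)
      have h7 := (pow_lt_pow_iff_right₀ (by norm_num : (1 : ℝ) < 2)).1 (lt_of_mul_lt_mul_right h5 hs.le)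
      apply hi
      omega

/-- hypotheses -/
structure Cls (f : ℝ × ℝ → ℂ) (B : ℝ → ℝ≥0) : Prop where
  fm : Measurable f
  Bm : Measurable B
  zero : ∀ x, x ∉ Icc (-1 : ℝ) 1 ×ˢ Icc (-1 : ℝ) 1 → f x = 0
  bd : ∀ u v, ‖f (u, v)‖ ≤ B u
  var : ∀ u, eVariationOn (fun v => f (u, v)) (Icc (-1 : ℝ) 1) ≤ B u

/-- level sets in the first variable -/
def LE (B : ℝ → ℝ≥0) (s : ℝ) (j : ℕ) : Set ℝ := {u | ((B u : ℝ) : ℂ) ∈ lev s j} ∩ Icc (-1 : ℝ) 1

lemma LE_meas {B : ℝ → ℝ≥0} (hB : Measurable B) (s : ℝ) (j : ℕ) : MeasurableSet (LE B s j) := by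
  have h1 : Measurable fun u => ((B u : ℝ) : ℂ) :=
    Complex.measurable_ofReal.comp (measurable_coe_nnreal_real.comp hB)
  exact (h1 (lev_meas s j)).inter measurableSet_Icc

lemma B_norm (B : ℝ → ℝ≥0) (u : ℝ) : ‖((B u : ℝ) : ℂ)‖ = B u := by
  rw [Complex.norm_real, Real.norm_of_nonneg (NNReal.coe_nonneg _)]

lemma LE_up {B : ℝ → ℝ≥0} (s : ℝ) (hs : 0 < s) (j : ℕ) (u : ℝ) (hu : u ∈ LE B s j) :
    (B u : ℝ) ≤ 2 ^ j * s := by
  have h1 := hu.1
  cases j with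
  | zero =>
    have : ‖((B u : ℝ) : ℂ)‖ < s := h1
    rw [B_norm] at this
    rw [pow_zero, one_mul]
    exact this.le
  | succ j =>
    have : ‖((B u : ℝ) : ℂ)‖ < (2 : ℝ) ^ (j + 1) * s := h1.2
    rw [B_norm] at this
    exact this.le

lemma LE_vol0 (B : ℝ → ℝ≥0) (s : ℝ) (j : ℕ) : volume (LE B s j) ≤ 2 := by
  calc volume (LE B s j) ≤ volume (Icc (-1 : ℝ) 1) := measure_mono inter_subset_right
    _ = 2 := by
        rw [Real.volume_Icc]
        norm_num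

lemma LE_vol {B : ℝ → ℝ≥0} (hB : Measurable B) (s : ℝ) (hs : 0 < s) (q : ℝ) (hq : 0 < q)
    (hN : ∫⁻ u in Icc (-1 : ℝ) 1, (B u : ℝ≥0∞) ^ q ≤ ENNReal.ofReal (s ^ q)) (k : ℕ) :
    volume (LE B s (k + 1)) ≤ ENNReal.ofReal (((2 : ℝ) ^ k) ^ (-q)) := by
  have hm : Measurable fun u => (B u : ℝ≥0∞) ^ q := (hB.coe_nnreal_ennreal).pow_const q
  have h2 := mul_meas_ge_le_lintegral₀ (μ := volume.restrict (Icc (-1 : ℝ) 1))
    hm.aemeasurable (ENNReal.ofReal (((2 : ℝ) ^ k * s) ^ q))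
  have h1 : volume (LE B s (k + 1)) ≤ (volume.restrict (Icc (-1 : ℝ) 1))
      {u | ENNReal.ofReal (((2 : ℝ) ^ k * s) ^ q) ≤ (B u : ℝ≥0∞) ^ q} := by
    rw [Measure.restrict_apply (measurableSet_le measurable_const hm)]
    apply measure_mono
    intro u hu
    refine ⟨?_, hu.2⟩
    have h3 : (2 : ℝ) ^ k * s ≤ ‖((B u : ℝ) : ℂ)‖ := hu.1.1
    rw [B_norm] at h3
    change ENNReal.ofReal (((2 : ℝ) ^ k * s) ^ q) ≤ (B u : ℝ≥0∞) ^ q
    rw [← ENNReal.ofReal_rpow_of_pos (by positivity)]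
    apply ENNReal.rpow_le_rpow _ hq.le
    calc ENNReal.ofReal ((2 : ℝ) ^ k * s) ≤ ENNReal.ofReal (B u) := ENNReal.ofReal_le_ofReal h3
      _ = _ := ENNReal.ofReal_coe_nnreal
  have h3 : ENNReal.ofReal (((2 : ℝ) ^ k * s) ^ q) * volume (LE B s (k + 1)) ≤
      ENNReal.ofReal (s ^ q) := (mul_le_mul' le_rfl h1).trans (h2.trans hN)
  have h4 : ENNReal.ofReal (((2 : ℝ) ^ k * s) ^ q) ≠ 0 := by
    rw [Ne, ENNReal.ofReal_eq_zero, not_le]
    positivity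
  rw [mul_comm, ← ENNReal.le_div_iff_mul_le (Or.inl h4) (Or.inl ENNReal.ofReal_ne_top)] at h3
  refine h3.trans (le_of_eq ?_)
  rw [← ENNReal.ofReal_div_of_pos (by positivity)]
  congr 1
  rw [Real.mul_rpow (by positivity) hs.le, Real.rpow_neg (by positivity)]
  have : s ^ q ≠ 0 := by positivity
  field_simp

/-- the pieces -/
noncomputable def fl (f : ℝ × ℝ → ℂ) (B : ℝ → ℝ≥0) (s : ℝ) (j : ℕ) (x : ℝ × ℝ) : ℂ :=
  (LE B s j).indicator (fun _ => f x) x.1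

variable {f : ℝ × ℝ → ℂ} {B : ℝ → ℝ≥0}

lemma fl_meas (h : Cls f B) (s : ℝ) (j : ℕ) : Measurable (fl f B s j) := by
  have h1 : fl f B s j = (Prod.fst ⁻¹' (LE B s j)).indicator f := by
    ext x
    unfold fl
    by_cases hx : x.1 ∈ LE B s j
    · rw [indicator_of_mem hx, indicator_of_mem (by exact hx)]
    · rw [indicator_of_notMem hx, indicator_of_notMem (by exact hx)]
  rw [h1]
  exact h.fm.indicator (measurable_fst (LE_meas h.Bm s j))

lemma fl_bd (h : Cls f B) (s : ℝ) (hs : 0 < s) (j : ℕ) (x : ℝ × ℝ) :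
    ‖fl f B s j x‖ ≤ 2 ^ j * s := by
  unfold fl
  by_cases hx : x.1 ∈ LE B s j
  · rw [indicator_of_mem hx]
    exact (h.bd x.1 x.2).trans (LE_up s hs j x.1 hx)
  · rw [indicator_of_notMem hx, norm_zero]
    positivity

lemma fl_zero (s : ℝ) (j : ℕ) (u : ℝ) (hu : u ∉ LE B s j) (v : ℝ) : fl f B s j (u, v) = 0 := by
  unfold fl
  rw [indicator_of_notMem hu]

lemma FF2_sup (g : ℝ × ℝ → ℂ) (c : ℝ) (hb : ∀ x, ‖g x‖ ≤ c) (E : Set ℝ)
    (hE : MeasurableSet E) (hgE : ∀ u, u ∉ E → ∀ v, g (u, v) = 0) (x y t : ℝ) :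
    ‖FF2 g x y t‖ₑ ≤ ENNReal.ofReal (2 * c) * volume E := by
  unfold FF2
  refine (e1_le _ x t).trans ?_
  unfold M1
  calc ∫⁻ z, ‖cut (fun u => e1 (fun v => g (u, v)) y t) z‖ₑ ≤
        ∫⁻ z, E.indicator (fun _ => ENNReal.ofReal (2 * c)) z := by
        apply lintegral_mono
        intro z
        simp only
        by_cases hz : z ∈ E
        · rw [indicator_of_mem hz]
          unfold cut
          by_cases hz2 : z ∈ Icc (-1 : ℝ) 1
          · rw [indicator_of_mem hz2]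
            exact e1_bdc c (fun v => hb (z, v)) y t
          · rw [indicator_of_notMem hz2]
            simp
        · have : cut (fun u => e1 (fun v => g (u, v)) y t) z = 0 := by
            unfold cut
            rw [indicator_apply_eq_zero]
            intro _
            unfold e1
            simp [hgE z hz]
          rw [this]
          simp
    _ = _ := by rw [lintegral_indicator hE, lintegral_const, Measure.restrict_apply_univ]

/-- estimate for functions bounded by `c` in the first variable -/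
theorem lev_est (q q₁ : ℝ) (hq₁ : 3 < q₁) (hq4 : q₁ < 4) (hq : q₁ ≤ q) :
    ∃ K : ℝ≥0∞, K ≠ ⊤ ∧ ∀ (g : ℝ × ℝ → ℂ) (E : Set ℝ) (c : ℝ≥0), 0 < c → Measurable g →
      (∀ x, ‖g x‖ ≤ c) → MeasurableSet E → volume E ≤ 2 → (∀ u, u ∉ E → ∀ v, g (u, v) = 0) →
      (∀ u, eVariationOn (fun v => g (u, v)) (Icc (-1 : ℝ) 1) ≤ c) →
      ∫⁻ x : ℝ × ℝ × ℝ, ‖FF2 g x.1 x.2.1 x.2.2‖ₑ ^ q ≤
        K * ((c : ℝ≥0∞) ^ q * volume E ^ (1 + (q - q₁))) := by
  obtain ⟨K, hK, hKK⟩ := assembleE q₁ hq₁ hq4 60000 (by norm_num)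
  have h2t : (2 : ℝ≥0∞) ^ (q - q₁) ≠ ⊤ := ENNReal.rpow_ne_top_of_nonneg (by linarith) (by simp)
  refine ⟨2 ^ (q - q₁) * K, ENNReal.mul_ne_top h2t hK, ?_⟩
  intro g E c hc hgm hgb hE hE2 hgE hgv
  have hEt : volume E ≠ ⊤ := ne_top_of_le_ne_top (by simp) hE2
  have hc0 : (0 : ℝ) < c := hc
  -- normalise
  set k : ℝ × ℝ → ℂ := fun x => ((c : ℝ)⁻¹ : ℝ) * g x with hk
  have hkm : Measurable k := hgm.const_mul _
  have hkb : ∀ x, ‖k x‖ ≤ 1 := by
    intro x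
    rw [hk]
    simp only
    rw [norm_mul, Complex.norm_real, norm_inv, Real.norm_of_nonneg hc0.le,
      inv_mul_le_iff₀ hc0, mul_one]
    exact hgb x
  have hkE : ∀ u, u ∉ E → ∀ v, k (u, v) = 0 := by
    intro u hu v
    rw [hk]
    simp only
    rw [hgE u hu v, mul_zero]
  have hkv : ∀ u, eVariationOn (fun v => k (u, v)) (Icc (-1 : ℝ) 1) ≤ 1 := by
    intro u
    have hL : LipschitzWith (c⁻¹) (fun z : ℂ => ((c : ℝ)⁻¹ : ℝ) * z) := by
      apply LipschitzWith.of_dist_le_mul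
      intro z w
      rw [Complex.dist_eq, Complex.dist_eq, ← mul_sub, norm_mul, Complex.norm_real, norm_inv,
        Real.norm_of_nonneg hc0.le, NNReal.coe_inv]
    have h1 := (hL.lipschitzOnWith (s := univ)).comp_eVariationOn_le (g := fun v => g (u, v))
      (s := Icc (-1 : ℝ) 1) (mapsTo_univ _ _)
    refine h1.trans ?_
    calc ((c⁻¹ : ℝ≥0) : ℝ≥0∞) * eVariationOn (fun v => g (u, v)) (Icc (-1 : ℝ) 1)
        ≤ ((c⁻¹ : ℝ≥0) : ℝ≥0∞) * c := by gcongr; exact hgv u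
      _ = 1 := by
          rw [← ENNReal.coe_mul, inv_mul_cancel₀ hc.ne', ENNReal.coe_one]
  have hgood : ∀ u, Good 60000 (fun v => k (u, v)) := fun u =>
    good_bv (hkm.comp (measurable_const.prodMk measurable_id)) (fun v => hkb (u, v)) (hkv u)
  have h1 := hKK k E hkm hkb hE hEt hkE hgood
  have hfg : ∀ x y t, FF2 g x y t = ((c : ℝ) : ℂ) * FF2 k x y t := by
    intro x y t
    unfold FF2
    rw [← e1_smul]
    congr 1
    ext u
    rw [← e1_smul]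
    congr 1
    ext v
    rw [hk]
    simp only
    rw [← mul_assoc, ← Complex.ofReal_mul, mul_inv_cancel₀ hc0.ne', Complex.ofReal_one, one_mul]
  have hAe : ‖((c : ℝ) : ℂ)‖ₑ = (c : ℝ≥0∞) := by
    rw [← ofReal_norm, Complex.norm_real, Real.norm_of_nonneg hc0.le]
    exact ENNReal.ofReal_coe_nnreal
  have hct : (c : ℝ≥0∞) ^ q ≠ ⊤ := ENNReal.rpow_ne_top_of_nonneg (by linarith) (by simp)
  have hsup : ∀ x y t, ‖FF2 k x y t‖ₑ ≤ 2 * volume E := by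
    intro x y t
    have := FF2_sup k 1 hkb E hE hkE x y t
    simpa using this
  have hst : (2 * volume E) ^ (q - q₁) ≠ ⊤ :=
    ENNReal.rpow_ne_top_of_nonneg (by linarith) (ENNReal.mul_ne_top (by simp) hEt)
  have hmk : ∫⁻ x : ℝ × ℝ × ℝ, ‖FF2 k x.1 x.2.1 x.2.2‖ₑ ^ q ≤
      (2 * volume E) ^ (q - q₁) * (K * volume E) := by
    calc ∫⁻ x : ℝ × ℝ × ℝ, ‖FF2 k x.1 x.2.1 x.2.2‖ₑ ^ q
        ≤ ∫⁻ x : ℝ × ℝ × ℝ, (2 * volume E) ^ (q - q₁) * ‖FF2 k x.1 x.2.1 x.2.2‖ₑ ^ q₁ := by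
          apply lintegral_mono
          intro x
          simp only
          have e : ‖FF2 k x.1 x.2.1 x.2.2‖ₑ ^ q =
              ‖FF2 k x.1 x.2.1 x.2.2‖ₑ ^ (q - q₁) * ‖FF2 k x.1 x.2.1 x.2.2‖ₑ ^ q₁ := by
            rw [← ENNReal.rpow_add_of_nonneg _ _ (by linarith) (by linarith)]
            congr 1
            ring
          rw [e]
          refine mul_le_mul_left ?_ _
          exact ENNReal.rpow_le_rpow (hsup _ _ _) (by linarith)
      _ = (2 * volume E) ^ (q - q₁) * ∫⁻ x : ℝ × ℝ × ℝ, ‖FF2 k x.1 x.2.1 x.2.2‖ₑ ^ q₁ :=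
          lintegral_const_mul' _ _ hst
      _ ≤ _ := mul_le_mul_right h1 _
  simp only [hfg, enorm_mul, ENNReal.mul_rpow_of_nonneg _ _ (show 0 ≤ q by linarith), hAe]
  rw [lintegral_const_mul' _ _ hct]
  calc (c : ℝ≥0∞) ^ q * ∫⁻ x : ℝ × ℝ × ℝ, ‖FF2 k x.1 x.2.1 x.2.2‖ₑ ^ q
      ≤ (c : ℝ≥0∞) ^ q * ((2 * volume E) ^ (q - q₁) * (K * volume E)) := mul_le_mul_right hmk _
    _ = _ := by
        rw [ENNReal.mul_rpow_of_nonneg _ _ (show 0 ≤ q - q₁ by linarith),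
          ENNReal.rpow_add_of_nonneg _ _ (by norm_num) (show 0 ≤ q - q₁ by linarith),
          ENNReal.rpow_one]
        ring

end Pool.Agent.H728R3.SR
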