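import Mathlib
import Pool.Agent.H728R3.SR.U
set_option autoImplicit false

/-! Summation of the levels. -/

namespace Pool.Agent.H728R3.SR
open MeasureTheory Set Complex Filter Topology
open Pool.Agent.H147R3.PE
open scoped ENNReal NNReal

variable {f : ℝ × ℝ → ℂ} {B : ℝ → ℝ≥0}

lemma fl_var (h : Cls f B) (s : ℝ) (hs : 0 < s) (j : ℕ) (u : ℝ) :
    eVariationOn (fun v => fl f B s j (u, v)) (Icc (-1 : ℝ) 1) ≤ ENNReal.ofReal (2 ^ j * s) := by
  by_cases hu : u ∈ LE B s j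
  · have h1 : (fun v => fl f B s j (u, v)) = fun v => f (u, v) := by
      ext v
      unfold fl
      rw [indicator_of_mem hu]
    rw [h1]
    refine (h.var u).trans ?_
    rw [← ENNReal.ofReal_coe_nnreal]
    exact ENNReal.ofReal_le_ofReal (LE_up s hs j u hu)
  · have h1 : EqOn (fun v => fl f B s j (u, v)) (fun _ => 0) (Icc (-1 : ℝ) 1) := by
      intro v _
      exact fl_zero s j u hu v
    rw [eVariationOn.eq_of_eqOn h1, eVariationOn.constant_on]
    · exact zero_le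
    · intro x hx y hy
      obtain ⟨_, _, rfl⟩ := hx
      obtain ⟨_, _, rfl⟩ := hy
      rfl

/-- superposition of the levels -/
lemma FF2_sum (h : Cls f B) (s : ℝ) (hs : 0 < s)
    (hint : ∫⁻ u in Icc (-1 : ℝ) 1, (B u : ℝ≥0∞) ≠ ⊤) (x y t : ℝ) :
    ‖FF2 f x y t‖ₑ ≤ ∑' j, ‖FF2 (fl f B s j) x y t‖ₑ := by
  set H : ℝ → ℂ := fun u => e1 (fun v => f (u, v)) y t with hH
  have hHm : Measurable H := by
    rw [hH]
    exact e1_joint (fun (u : ℝ) v => f (u, v)) h.fm (fun _ => y) (fun _ => t) measurable_const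
      measurable_const
  have hHb : ∀ u, ‖H u‖ₑ ≤ 2 * (B u : ℝ≥0∞) := by
    intro u
    have h1 := e1_bdc (B u) (fun v => h.bd u v) y t
    rw [ENNReal.ofReal_mul (by norm_num)] at h1
    simpa using h1
  have hpm : Measurable (pp x t) := (pp_cont x t).measurable
  have hpe : ∀ u, ‖pp x t u‖ₑ = 1 := fun u => by
    rw [← ofReal_norm, pp_norm, ENNReal.ofReal_one]
  have hpiece : ∀ j, FF2 (fl f B s j) x y t =
      ∫ u in Icc (-1 : ℝ) 1, (LE B s j).indicator H u * pp x t u := by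
    intro j
    unfold FF2
    change ∫ u in Icc (-1 : ℝ) 1, _ * pp x t u = _
    congr 1
    ext u
    congr 1
    by_cases hu : u ∈ LE B s j
    · rw [indicator_of_mem hu, hH]
      simp only
      congr 1
      ext v
      unfold fl
      rw [indicator_of_mem hu]
    · rw [indicator_of_notMem hu]
      have : (fun v => fl f B s j (u, v)) = fun _ => 0 := by
        ext v
        exact fl_zero s j u hu v
      rw [this]
      unfold e1
      simp
  have hsum : ∀ u ∈ Icc (-1 : ℝ) 1, ∑' j, (LE B s j).indicator H u = H u := by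
    intro u hu
    obtain ⟨k, hk, hk2⟩ := lev_exists s hs ((B u : ℝ) : ℂ)
    rw [tsum_eq_single k]
    · rw [indicator_of_mem (show u ∈ LE B s k from ⟨hk, hu⟩)]
    · intro j hj
      rw [indicator_of_notMem]
      intro h5
      exact hk2 j hj h5.1
  have hesum : ∀ u ∈ Icc (-1 : ℝ) 1, ∑' j, ‖(LE B s j).indicator H u‖ₑ = ‖H u‖ₑ := by
    intro u hu
    obtain ⟨k, hk, hk2⟩ := lev_exists s hs ((B u : ℝ) : ℂ)
    rw [tsum_eq_single k]
    · rw [indicator_of_mem (show u ∈ LE B s k from ⟨hk, hu⟩)]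
    · intro j hj
      rw [indicator_of_notMem, enorm_zero]
      intro h5
      exact hk2 j hj h5.1
  have hlm : ∀ j, Measurable ((LE B s j).indicator H) := fun j =>
    hHm.indicator (LE_meas h.Bm s j)
  have h1 : FF2 f x y t = ∑' j, FF2 (fl f B s j) x y t := by
    simp only [hpiece]
    rw [← integral_tsum]
    · unfold FF2
      change ∫ u in Icc (-1 : ℝ) 1, H u * pp x t u = _
      apply setIntegral_congr_fun measurableSet_Icc
      intro u hu
      simp only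
      rw [tsum_mul_right, hsum u hu]
    · intro j
      exact ((hlm j).mul hpm).aestronglyMeasurable
    · have e2 : ∀ j, ∫⁻ u in Icc (-1 : ℝ) 1, ‖(LE B s j).indicator H u * pp x t u‖ₑ =
          ∫⁻ u in Icc (-1 : ℝ) 1, ‖(LE B s j).indicator H u‖ₑ := by
        intro j
        apply lintegral_congr
        intro u
        rw [enorm_mul, hpe, mul_one]
      simp only [e2]
      rw [← lintegral_tsum (fun j => (hlm j).enorm.aemeasurable)]
      have e3 : ∫⁻ u in Icc (-1 : ℝ) 1, ∑' j, ‖(LE B s j).indicator H u‖ₑ =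
          ∫⁻ u in Icc (-1 : ℝ) 1, ‖H u‖ₑ := by
        apply setLIntegral_congr_fun measurableSet_Icc
        intro u hu
        exact hesum u hu
      rw [e3]
      refine ne_top_of_le_ne_top ?_ (lintegral_mono hHb)
      rw [lintegral_const_mul' _ _ (by simp)]
      exact ENNReal.mul_ne_top (by simp) hint
  rw [h1]
  exact enorm_tsum_le_tsum_enorm

/-- the estimate with the normalisation `s` -/
theorem bvq_s (q : ℝ) (hq : 3 < q) :
    ∃ K : ℝ≥0∞, K ≠ ⊤ ∧ ∀ (f : ℝ × ℝ → ℂ) (B : ℝ → ℝ≥0), Cls f B →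
      ∀ s : ℝ, 0 < s → ∫⁻ u in Icc (-1 : ℝ) 1, (B u : ℝ≥0∞) ^ q ≤ ENNReal.ofReal (s ^ q) →
      ∫⁻ x : ℝ × ℝ × ℝ, ‖FF2 f x.1 x.2.1 x.2.2‖ₑ ^ q ≤ K * ENNReal.ofReal (s ^ q) := by
  set q₁ : ℝ := (3 + min q 4) / 2 with hq₁d
  have hmin3 : 3 < min q 4 := lt_min hq (by norm_num)
  have hq₁ : 3 < q₁ := by rw [hq₁d]; linarith
  have hq4 : q₁ < 4 := by
    have := min_le_right q 4
    rw [hq₁d]; linarith
  have hqq : q₁ < q := by
    have := min_le_left q 4
    rw [hq₁d]; linarith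
  obtain ⟨K, hK, hKK⟩ := lev_est q q₁ hq₁ hq4 hqq.le
  set δ := q - q₁ with hδ
  have hδ0 : 0 < δ := by linarith
  have hq1 : 1 < q := by linarith
  have hq0 : 0 < q := by linarith
  set ρ : ℝ := (2 : ℝ) ^ (-(q * δ / (2 * (q - 1)))) with hρ
  have hρ0 : 0 < ρ := by positivity
  have hρ1 : ρ < 1 := by
    apply Real.rpow_lt_one_of_one_lt_of_neg (by norm_num)
    rw [neg_lt_zero]
    have : 0 < q - 1 := by linarith
    positivity
  have hsr : ∀ k : ℕ, (ρ ^ k) ^ (-(q - 1)) * ((2 : ℝ) ^ k) ^ (-(q * δ)) =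
      ((2 : ℝ) ^ (-(q * δ / 2))) ^ k := by
    intro k
    rw [← Real.rpow_natCast, ← Real.rpow_natCast, ← Real.rpow_natCast, hρ,
      ← Real.rpow_mul (by positivity), ← Real.rpow_mul (by positivity),
      ← Real.rpow_mul (by positivity), ← Real.rpow_mul (by positivity),
      ← Real.rpow_add (by norm_num)]
    congr 1
    have : q - 1 ≠ 0 := by linarith
    field_simp
    ring
  set G0 : ℝ≥0∞ := (∑' k, ENNReal.ofReal (ρ ^ k)) ^ (q - 1) with hG0d
  have hG0t : G0 ≠ ⊤ := ENNReal.rpow_ne_top_of_nonneg (by linarith) (geo ρ hρ0 hρ1)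
  obtain ⟨C₀, hC₀⟩ : ∃ C₀ : ℝ, C₀ = (2 : ℝ) ^ (q + q * δ) + 2 ^ (1 + δ) := ⟨_, rfl⟩
  have hC₀0 : 0 < C₀ := by rw [hC₀]; positivity
  refine ⟨G0 * (K * ENNReal.ofReal C₀ *
    ∑' k : ℕ, ENNReal.ofReal (((2 : ℝ) ^ (-(q * δ / 2))) ^ k)), ?_, ?_⟩
  · refine ENNReal.mul_ne_top hG0t (ENNReal.mul_ne_top (ENNReal.mul_ne_top hK
      ENNReal.ofReal_ne_top) ?_)
    apply geo
    · positivity
    · apply Real.rpow_lt_one_of_one_lt_of_neg (by norm_num)
      have : 0 < q * δ := by positivity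
      linarith
  intro f B h s hs hN
  have hint : ∫⁻ u in Icc (-1 : ℝ) 1, (B u : ℝ≥0∞) ≠ ⊤ := by
    have h4 : ∀ u, (B u : ℝ≥0∞) ≤ 1 + (B u : ℝ≥0∞) ^ q := by
      intro u
      by_cases h5 : (B u : ℝ≥0∞) ≤ 1
      · exact h5.trans le_self_add
      · push Not at h5
        refine le_trans ?_ le_add_self
        calc (B u : ℝ≥0∞) = (B u : ℝ≥0∞) ^ (1 : ℝ) := (ENNReal.rpow_one _).symm
          _ ≤ _ := ENNReal.rpow_le_rpow_of_exponent_le h5.le hq1.le
    refine ne_top_of_le_ne_top ?_ (lintegral_mono h4)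
    rw [lintegral_add_left measurable_const, lintegral_const, Measure.restrict_apply_univ,
      Real.volume_Icc]
    exact ENNReal.add_ne_top.2 ⟨ENNReal.mul_ne_top (by simp) ENNReal.ofReal_ne_top,
      ne_top_of_le_ne_top ENNReal.ofReal_ne_top hN⟩
  have hX : ∀ j, ∫⁻ x : ℝ × ℝ × ℝ, ‖FF2 (fl f B s j) x.1 x.2.1 x.2.2‖ₑ ^ q ≤
      K * (ENNReal.ofReal (s ^ q) * ENNReal.ofReal C₀ *
        ENNReal.ofReal (((2 : ℝ) ^ j) ^ (-(q * δ)))) := by
    intro j
    have hcj : 0 < (2 : ℝ) ^ j * s := by positivity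
    have h1 := hKK (fl f B s j) (LE B s j) (Real.toNNReal (2 ^ j * s))
      (Real.toNNReal_pos.2 hcj) (fl_meas h s j)
      (fun x => by rw [Real.coe_toNNReal _ hcj.le]; exact fl_bd h s hs j x)
      (LE_meas h.Bm s j) (LE_vol0 B s j) (fun u hu v => fl_zero s j u hu v)
      (fl_var h s hs j)
    refine h1.trans (mul_le_mul_right ?_ _)
    have hce : ((Real.toNNReal (2 ^ j * s) : ℝ≥0) : ℝ≥0∞) = ENNReal.ofReal (2 ^ j * s) := rfl
    rw [hce, ENNReal.ofReal_rpow_of_pos hcj, Real.mul_rpow (by positivity) hs.le,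
      ENNReal.ofReal_mul (by positivity), mul_comm (ENNReal.ofReal (((2 : ℝ) ^ j) ^ q)), mul_assoc,
      mul_assoc]
    refine mul_le_mul_right ?_ _
    cases j with
    | zero =>
      simp only [pow_zero, Real.one_rpow, ENNReal.ofReal_one, one_mul, mul_one]
      calc volume (LE B s 0) ^ (1 + δ) ≤ 2 ^ (1 + δ) :=
            ENNReal.rpow_le_rpow (LE_vol0 B s 0) (by linarith)
        _ = ENNReal.ofReal (2 ^ (1 + δ)) := by
            rw [← ENNReal.ofReal_rpow_of_pos (by norm_num)]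
            norm_num
        _ ≤ _ := ENNReal.ofReal_le_ofReal (by
            rw [hC₀]
            have : 0 < (2 : ℝ) ^ (q + q * δ) := by positivity
            linarith)
    | succ k =>
      have h5 := LE_vol h.Bm s hs q hq0 hN k
      calc ENNReal.ofReal (((2 : ℝ) ^ (k + 1)) ^ q) * volume (LE B s (k + 1)) ^ (1 + δ)
          ≤ ENNReal.ofReal (((2 : ℝ) ^ (k + 1)) ^ q) *
            (ENNReal.ofReal (((2 : ℝ) ^ k) ^ (-q))) ^ (1 + δ) :=
            mul_le_mul_right (ENNReal.rpow_le_rpow h5 (by linarith)) _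
        _ = ENNReal.ofReal ((2 : ℝ) ^ (q + q * δ) * ((2 : ℝ) ^ (k + 1)) ^ (-(q * δ))) := by
            rw [ENNReal.ofReal_rpow_of_pos (by positivity), ← ENNReal.ofReal_mul (by positivity)]
            congr 1
            rw [← Real.rpow_natCast, ← Real.rpow_natCast,
              ← Real.rpow_mul (by norm_num), ← Real.rpow_mul (by norm_num),
              ← Real.rpow_mul (by norm_num), ← Real.rpow_mul (by norm_num),
              ← Real.rpow_add (by norm_num), ← Real.rpow_add (by norm_num)]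
            congr 1
            push_cast
            ring
        _ ≤ ENNReal.ofReal (C₀ * ((2 : ℝ) ^ (k + 1)) ^ (-(q * δ))) := by
            apply ENNReal.ofReal_le_ofReal
            rw [hC₀]
            have : 0 < (2 : ℝ) ^ (1 + δ) := by positivity
            gcongr
            linarith
        _ = _ := by rw [ENNReal.ofReal_mul hC₀0.le]
  have hEm : ∀ j, Measurable fun x : ℝ × ℝ × ℝ => ‖FF2 (fl f B s j) x.1 x.2.1 x.2.2‖ₑ ^ q :=
    fun j => (FF2_meas (fl_meas h s j)).enorm.pow_const q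
  calc ∫⁻ x : ℝ × ℝ × ℝ, ‖FF2 f x.1 x.2.1 x.2.2‖ₑ ^ q
      ≤ ∫⁻ x : ℝ × ℝ × ℝ, G0 * ∑' j, ENNReal.ofReal ((ρ ^ j) ^ (-(q - 1))) *
          ‖FF2 (fl f B s j) x.1 x.2.1 x.2.2‖ₑ ^ q := by
          apply lintegral_mono
          intro x
          exact (ENNReal.rpow_le_rpow (FF2_sum h s hs hint _ _ _) hq0.le).trans
            (wsum _ ρ hρ0 q hq1)
    _ = G0 * ∑' j, ENNReal.ofReal ((ρ ^ j) ^ (-(q - 1))) *
          ∫⁻ x : ℝ × ℝ × ℝ, ‖FF2 (fl f B s j) x.1 x.2.1 x.2.2‖ₑ ^ q := by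
          rw [lintegral_const_mul' _ _ hG0t, lintegral_tsum
            (fun j => ((hEm j).const_mul _).aemeasurable)]
          congr 1
          apply tsum_congr
          intro j
          rw [lintegral_const_mul _ (hEm j)]
    _ ≤ G0 * ∑' j, ENNReal.ofReal ((ρ ^ j) ^ (-(q - 1))) *
        (K * (ENNReal.ofReal (s ^ q) * ENNReal.ofReal C₀ *
        ENNReal.ofReal (((2 : ℝ) ^ j) ^ (-(q * δ))))) := by
        refine mul_le_mul_right (ENNReal.tsum_le_tsum fun j => ?_) _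
        exact mul_le_mul_right (hX j) _
    _ = _ := by
        have e2 : ∀ j : ℕ, ENNReal.ofReal ((ρ ^ j) ^ (-(q - 1))) *
            (K * (ENNReal.ofReal (s ^ q) * ENNReal.ofReal C₀ *
              ENNReal.ofReal (((2 : ℝ) ^ j) ^ (-(q * δ))))) =
            (K * ENNReal.ofReal C₀ * ENNReal.ofReal (s ^ q)) *
              ENNReal.ofReal (((2 : ℝ) ^ (-(q * δ / 2))) ^ j) := by
          intro j
          rw [← hsr j, ENNReal.ofReal_mul (by positivity)]
          ring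
        simp only [e2]
        rw [ENNReal.tsum_mul_left]
        ring

/-- **The estimate.** -/
theorem bvq (q : ℝ) (hq : 3 < q) :
    ∃ K : ℝ≥0∞, K ≠ ⊤ ∧ ∀ (f : ℝ × ℝ → ℂ) (B : ℝ → ℝ≥0), Cls f B →
      ∫⁻ x : ℝ × ℝ × ℝ, ‖FF2 f x.1 x.2.1 x.2.2‖ₑ ^ q ≤
        K * ∫⁻ u in Icc (-1 : ℝ) 1, (B u : ℝ≥0∞) ^ q := by
  obtain ⟨K, hK, hKK⟩ := bvq_s q hq
  refine ⟨K + 1, ENNReal.add_ne_top.2 ⟨hK, by simp⟩, ?_⟩
  intro f B h
  have hq0 : 0 < q := by linarith
  set W := ∫⁻ u in Icc (-1 : ℝ) 1, (B u : ℝ≥0∞) ^ q with hWd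
  by_cases hW : W = ⊤
  · rw [hW, ENNReal.mul_top (by simp)]
    exact le_top
  have h1 : ∀ η : ℝ, 0 < η → ∫⁻ x : ℝ × ℝ × ℝ, ‖FF2 f x.1 x.2.1 x.2.2‖ₑ ^ q ≤
          K * (W + ENNReal.ofReal η) := by
    intro η hη
    have hW0 : 0 ≤ W.toReal := ENNReal.toReal_nonneg
    have hs : 0 < (W.toReal + η) ^ q⁻¹ := by positivity
    have e1 : ((W.toReal + η) ^ q⁻¹) ^ q = W.toReal + η :=
      Real.rpow_inv_rpow (by positivity) hq0.ne'
    have e2 : ENNReal.ofReal (((W.toReal + η) ^ q⁻¹) ^ q) = W + ENNReal.ofReal η := by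
      rw [e1, ENNReal.ofReal_add hW0 hη.le, ENNReal.ofReal_toReal hW]
    have h2 := hKK f B h _ hs (by rw [e2]; exact le_self_add)
    rw [e2] at h2
    exact h2
  refine le_trans ?_ (mul_le_mul_left (show K ≤ K + 1 from le_self_add) _)
  apply ENNReal.le_of_forall_pos_le_add
  intro η hη _
  have hk0 : 0 < K.toReal + 1 := by positivity
  refine (h1 (η / (K.toReal + 1)) (by positivity)).trans ?_
  rw [mul_add]
  refine add_le_add le_rfl ?_
  calc K * ENNReal.ofReal (η / (K.toReal + 1)) =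
        ENNReal.ofReal (K.toReal * (η / (K.toReal + 1))) := by
        rw [ENNReal.ofReal_mul ENNReal.toReal_nonneg, ENNReal.ofReal_toReal hK]
    _ ≤ ENNReal.ofReal η := by
        apply ENNReal.ofReal_le_ofReal
        rw [mul_div_assoc', div_le_iff₀ hk0]
        have : (0 : ℝ) < η := hη
        nlinarith
    _ = η := ENNReal.ofReal_coe_nnreal

end Pool.Agent.H728R3.SR
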