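import Mathlib
import Pool.Agent.H728R3.SR.S
set_option autoImplicit false

/-! Several variables: preparations. -/

namespace Pool.Agent.H728R3.SR
open MeasureTheory Set Complex Filter Topology
open Pool.Agent.H147R3.PE
open scoped ENNReal NNReal

lemma sq_two (z w : ℂ) : ‖z + w‖ₑ ^ 2 ≤ 2 * ‖z‖ₑ ^ 2 + 2 * ‖w‖ₑ ^ 2 := by
  rw [← ofReal_norm, ← ofReal_norm, ← ofReal_norm,
    ← ENNReal.ofReal_pow (norm_nonneg _), ← ENNReal.ofReal_pow (norm_nonneg _),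
    ← ENNReal.ofReal_pow (norm_nonneg _), show (2 : ℝ≥0∞) = ENNReal.ofReal 2 by simp,
    ← ENNReal.ofReal_mul (by norm_num), ← ENNReal.ofReal_mul (by norm_num),
    ← ENNReal.ofReal_add (by positivity) (by positivity)]
  apply ENNReal.ofReal_le_ofReal
  have h1 := norm_add_le z w
  have h0 := norm_nonneg (z + w)
  have h3 := sq_nonneg (‖z‖ - ‖w‖)
  nlinarith

lemma enorm_prod' {m : ℕ} (a : Fin m → ℂ) (n : ℕ) : ‖∏ j, a j‖ₑ ^ n = ∏ j, ‖a j‖ₑ ^ n := by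
  rw [← ofReal_norm, norm_prod, ENNReal.ofReal_prod_of_nonneg (fun _ _ => norm_nonneg _),
    ← Finset.prod_pow]
  simp only [ofReal_norm]

lemma pd_meas {m : ℕ} {a : Fin m → ℝ → ℂ} (ha : ∀ j, Measurable (a j)) :
    Measurable fun y : Fin m → ℝ => ∏ j, a j (y j) :=
  Finset.measurable_prod _ fun j _ => (ha j).comp (measurable_pi_apply j)

lemma prod_dec : ∀ (m : ℕ) (a b : Fin m → ℝ → ℂ), (∀ j, Measurable (a j)) →
    (∀ j, Measurable (b j)) → ∀ A ε : ℝ≥0∞, (∀ j, ∫⁻ y, ‖a j y‖ₑ ^ 2 ≤ A) →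
    (∀ j, ∫⁻ y, ‖b j y‖ₑ ^ 2 ≤ A) → (∀ j, ∫⁻ y, ‖a j y - b j y‖ₑ ^ 2 ≤ ε) →
    ∫⁻ y : Fin m → ℝ, ‖∏ j, a j (y j) - ∏ j, b j (y j)‖ₑ ^ 2 ≤ m * (2 * (A + 1)) ^ m * ε := by
  intro m
  induction m with
  | zero =>
    intro a b _ _ A ε _ _ _
    simp
  | succ m ih =>
    intro a b ham hbm A ε hA hB hE
    have h1 := (volume_preserving_piFinSuccAbove (fun _ : Fin (m + 1) => ℝ) 0).symm
    have h2 := h1.lintegral_comp_emb (MeasurableEquiv.measurableEmbedding _)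
      (fun y : Fin (m + 1) → ℝ => ‖∏ j, a j (y j) - ∏ j, b j (y j)‖ₑ ^ 2)
    rw [← h2]
    set Pa : (Fin m → ℝ) → ℂ := fun y => ∏ j : Fin m, a j.succ (y j) with hPa
    set Pb : (Fin m → ℝ) → ℂ := fun y => ∏ j : Fin m, b j.succ (y j) with hPb
    have hPam : Measurable Pa := pd_meas fun j => ham j.succ
    have hPbm : Measurable Pb := pd_meas fun j => hbm j.succ
    have h3 : ∀ p : ℝ × (Fin m → ℝ), ‖∏ j, a j ((MeasurableEquiv.piFinSuccAbove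
        (fun _ : Fin (m + 1) => ℝ) 0).symm p j) - ∏ j, b j ((MeasurableEquiv.piFinSuccAbove
        (fun _ : Fin (m + 1) => ℝ) 0).symm p j)‖ₑ ^ 2 ≤
        2 * (‖a 0 p.1‖ₑ ^ 2 * ‖Pa p.2 - Pb p.2‖ₑ ^ 2) +
          2 * (‖a 0 p.1 - b 0 p.1‖ₑ ^ 2 * ‖Pb p.2‖ₑ ^ 2) := by
      intro p
      rw [Fin.prod_univ_succ, Fin.prod_univ_succ]
      have e : a 0 p.1 * Pa p.2 - b 0 p.1 * Pb p.2 =
          a 0 p.1 * (Pa p.2 - Pb p.2) + (a 0 p.1 - b 0 p.1) * Pb p.2 := by ring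
      have e2 : a 0 ((MeasurableEquiv.piFinSuccAbove (fun _ : Fin (m + 1) => ℝ) 0).symm p 0) *
          ∏ i : Fin m, a i.succ ((MeasurableEquiv.piFinSuccAbove (fun _ : Fin (m + 1) => ℝ) 0).symm p
            i.succ) - b 0 ((MeasurableEquiv.piFinSuccAbove (fun _ : Fin (m + 1) => ℝ) 0).symm p 0) *
          ∏ i : Fin m, b i.succ ((MeasurableEquiv.piFinSuccAbove (fun _ : Fin (m + 1) => ℝ) 0).symm p
            i.succ) = a 0 p.1 * Pa p.2 - b 0 p.1 * Pb p.2 := by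
        simp [MeasurableEquiv.piFinSuccAbove, hPa, hPb]
      rw [e2, e]
      refine (sq_two _ _).trans (le_of_eq ?_)
      rw [enorm_mul, enorm_mul, mul_pow, mul_pow]
    have hih := ih (fun j => a j.succ) (fun j => b j.succ) (fun j => ham j.succ)
      (fun j => hbm j.succ) A ε (fun j => hA j.succ) (fun j => hB j.succ) (fun j => hE j.succ)
    have hPb2 : ∫⁻ y, ‖Pb y‖ₑ ^ 2 ≤ A ^ m := by
      have e3 : ∀ y : Fin m → ℝ, ‖Pb y‖ₑ ^ 2 = ∏ j : Fin m, ‖b j.succ (y j)‖ₑ ^ 2 := fun y =>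
        enorm_prod' (fun j => b j.succ (y j)) 2
      simp only [e3]
      rw [lint_prod m (fun j z => ‖b j.succ z‖ₑ ^ 2) (fun j => (hbm j.succ).enorm.pow_const 2)]
      calc ∏ j : Fin m, ∫⁻ z, ‖b j.succ z‖ₑ ^ 2 ≤ ∏ j : Fin m, A :=
            Finset.prod_le_prod' fun j _ => hB j.succ
        _ = A ^ m := by simp
    have m1 : Measurable fun z => ‖a 0 z‖ₑ ^ 2 := (ham 0).enorm.pow_const 2
    have m2 : Measurable fun y => ‖Pa y - Pb y‖ₑ ^ 2 := (hPam.sub hPbm).enorm.pow_const 2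
    have m3 : Measurable fun z => ‖a 0 z - b 0 z‖ₑ ^ 2 := ((ham 0).sub (hbm 0)).enorm.pow_const 2
    have m4 : Measurable fun y => ‖Pb y‖ₑ ^ 2 := hPbm.enorm.pow_const 2
    have m12 : Measurable fun p : ℝ × (Fin m → ℝ) => ‖a 0 p.1‖ₑ ^ 2 * ‖Pa p.2 - Pb p.2‖ₑ ^ 2 :=
      (m1.comp measurable_fst).mul (m2.comp measurable_snd)
    have m34 : Measurable fun p : ℝ × (Fin m → ℝ) => ‖a 0 p.1 - b 0 p.1‖ₑ ^ 2 * ‖Pb p.2‖ₑ ^ 2 :=
      (m3.comp measurable_fst).mul (m4.comp measurable_snd)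
    refine (lintegral_mono h3).trans ?_
    rw [lintegral_add_left (m12.const_mul 2), lintegral_const_mul _ m12,
      lintegral_const_mul _ m34, Measure.volume_eq_prod,
      lintegral_prod_mul (f := fun z => ‖a 0 z‖ₑ ^ 2) (g := fun y => ‖Pa y - Pb y‖ₑ ^ 2)
        m1.aemeasurable m2.aemeasurable,
      lintegral_prod_mul (f := fun z => ‖a 0 z - b 0 z‖ₑ ^ 2) (g := fun y => ‖Pb y‖ₑ ^ 2)
        m3.aemeasurable m4.aemeasurable]
    calc 2 * ((∫⁻ z, ‖a 0 z‖ₑ ^ 2) * ∫⁻ y, ‖Pa y - Pb y‖ₑ ^ 2) +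
          2 * ((∫⁻ z, ‖a 0 z - b 0 z‖ₑ ^ 2) * ∫⁻ y, ‖Pb y‖ₑ ^ 2)
        ≤ 2 * (A * (m * (2 * (A + 1)) ^ m * ε)) + 2 * (ε * A ^ m) := by
          gcongr
          · exact hA 0
          · exact hE 0
      _ ≤ (2 * (A + 1)) * (m * (2 * (A + 1)) ^ m * ε) + (2 * (A + 1)) * (ε * (2 * (A + 1)) ^ m) := by
          have k1 : 2 * A ≤ 2 * (A + 1) := by gcongr; exact le_self_add
          have k2 : (2 : ℝ≥0∞) ≤ 2 * (A + 1) := by
            calc (2 : ℝ≥0∞) = 2 * 1 := (mul_one _).symm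
              _ ≤ _ := by gcongr; exact le_add_self
          have k3 : A ^ m ≤ (2 * (A + 1)) ^ m := by
            gcongr
            calc A = 1 * A := (one_mul _).symm
              _ ≤ 2 * (A + 1) := by gcongr; exact one_le_two; exact le_self_add
          refine add_le_add ?_ ?_
          · rw [← mul_assoc]
            exact mul_le_mul_left k1 _
          · exact mul_le_mul' k2 (mul_le_mul_right k3 _)
      _ = _ := by
          push_cast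
          ring

/-- `L^2` estimate, general second variable -/
lemma two2m {Y : Type*} [MeasurableSpace Y] (μ : Measure Y) [SFinite μ] (G : ℝ → Y → ℂ)
    (hG : Measurable fun p : ℝ × Y => G p.1 p.2) (c : ℝ) (hc : 0 < c)
    (hb : ∀ u y, ‖G u y‖ ≤ c) (t : ℝ) (D : ℝ≥0∞) (hD : ∀ u, ∫⁻ y, ‖G u y‖ₑ ^ 2 ∂μ ≤ D)
    (q : ℝ) (hq : 2 ≤ q) :
    ∫⁻ y, (∫⁻ x, ‖e1 (fun u => G u y) x t‖ₑ ^ q) ∂μ ≤
      ENNReal.ofReal (2 * c) ^ (q - 2) * (2 * D) := by
  have hsec : ∀ y, Measurable fun u => G u y := fun y =>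
    hG.comp (measurable_id.prodMk measurable_const)
  have hft : ENNReal.ofReal (2 * c) ^ (q - 2) ≠ ⊤ :=
    ENNReal.rpow_ne_top_of_nonneg (by linarith) ENNReal.ofReal_ne_top
  have h1 : ∀ y, ∫⁻ x, ‖e1 (fun u => G u y) x t‖ₑ ^ q ≤
      ENNReal.ofReal (2 * c) ^ (q - 2) * M2 (fun u => G u y) := by
    intro y
    rw [← e1_two_c (hsec y) c hc (fun u => hb u y) t, ← lintegral_const_mul' _ _ hft]
    apply lintegral_mono
    intro x
    simp only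
    have e : ‖e1 (fun u => G u y) x t‖ₑ ^ q =
        ‖e1 (fun u => G u y) x t‖ₑ ^ (q - 2) * ‖e1 (fun u => G u y) x t‖ₑ ^ 2 := by
      rw [← ENNReal.rpow_natCast _ 2, ← ENNReal.rpow_add_of_nonneg _ _ (by linarith) (by norm_num)]
      congr 1
      push_cast
      ring
    rw [e]
    gcongr
    exact e1_bdc c (fun u => hb u y) x t
  have hm2 : ∀ y, M2 (fun u => G u y) = ∫⁻ u in Icc (-1 : ℝ) 1, ‖G u y‖ₑ ^ 2 := by
    intro y
    unfold M2
    rw [← lintegral_indicator measurableSet_Icc]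
    apply lintegral_congr
    intro u
    unfold cut
    by_cases hu : u ∈ Icc (-1 : ℝ) 1
    · rw [indicator_of_mem hu, indicator_of_mem hu]
    · rw [indicator_of_notMem hu, indicator_of_notMem hu]
      simp
  have hsw : ∫⁻ y, (∫⁻ u in Icc (-1 : ℝ) 1, ‖G u y‖ₑ ^ 2) ∂μ =
      ∫⁻ u in Icc (-1 : ℝ) 1, (∫⁻ y, ‖G u y‖ₑ ^ 2 ∂μ) := by
    apply lintegral_lintegral_swap (f := fun y u => ‖G u y‖ₑ ^ 2)
    exact ((hG.comp measurable_swap).enorm.pow_const 2).aemeasurable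
  calc _ ≤ ∫⁻ y, ENNReal.ofReal (2 * c) ^ (q - 2) * M2 (fun u => G u y) ∂μ := lintegral_mono h1
    _ = ENNReal.ofReal (2 * c) ^ (q - 2) * ∫⁻ u in Icc (-1 : ℝ) 1, (∫⁻ y, ‖G u y‖ₑ ^ 2 ∂μ) := by
        rw [lintegral_const_mul' _ _ hft]
        simp only [hm2]
        rw [hsw]
    _ ≤ ENNReal.ofReal (2 * c) ^ (q - 2) * ∫⁻ u in Icc (-1 : ℝ) 1, D := by
        gcongr with u
        exact hD u
    _ = _ := by
        rw [lintegral_const, Measure.restrict_apply_univ, Real.volume_Icc, mul_comm D]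
        norm_num

end Pool.Agent.H728R3.SR
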