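import Mathlib
import Pool.Agent.H728R3.SR.X
set_option autoImplicit false

/-! Several variables: main term and error term. -/

namespace Pool.Agent.H728R3.SR
open MeasureTheory Set Complex Filter Topology
open Pool.Agent.H147R3.PE
open scoped ENNReal NNReal

variable {m : ℕ}

/-- first factor -/
noncomputable def aj (f : Fin m → ℝ × ℝ → ℂ) (t u : ℝ) (j : Fin m) (y : ℝ) : ℂ :=
  e1 (fun v => f j (u, v)) y t

/-- cut-off stationary phase factor -/
noncomputable def wj (t y : ℝ) : ℂ := if |y / (2 * t)| < 1 then e1 (ind (-1) 1) y t else 0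

/-- main factor -/
noncomputable def bj (f : Fin m → ℝ × ℝ → ℂ) (t u : ℝ) (j : Fin m) (y : ℝ) : ℂ :=
  f j (u, -(y / (2 * t))) * wj t y

lemma ab_sub (f : Fin m → ℝ × ℝ → ℂ) (t u : ℝ) (j : Fin m) (y : ℝ) :
    aj f t u j y - bj f t u j y = Aop (fun v => f j (u, v)) y t := by
  unfold aj bj wj Aop
  split_ifs <;> ring

lemma wj_meas (t : ℝ) : Measurable (wj t) := by
  have h2 := e1_sec (ind_meas (-1) 1) t
  have h4 : MeasurableSet {y : ℝ | |y / (2 * t)| < 1} := by
    have : Measurable fun y : ℝ => |y / (2 * t)| := by fun_prop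
    exact measurableSet_lt this measurable_const
  unfold wj
  exact Measurable.ite h4 h2 measurable_const

lemma aj_meas {f : Fin m → ℝ × ℝ → ℂ} (hf : ∀ j, Measurable (f j)) (t : ℝ) (j : Fin m) :
    Measurable fun p : ℝ × ℝ => aj f t p.1 j p.2 := by
  unfold aj
  apply e1_joint (fun (p : ℝ × ℝ) v => f j (p.1, v)) _ (fun p => p.2) (fun _ => t) measurable_snd
    measurable_const
  exact (hf j).comp ((measurable_fst.comp measurable_fst).prodMk measurable_snd)

lemma bj_meas {f : Fin m → ℝ × ℝ → ℂ} (hf : ∀ j, Measurable (f j)) (t : ℝ) (j : Fin m) :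
    Measurable fun p : ℝ × ℝ => bj f t p.1 j p.2 := by
  unfold bj
  exact ((hf j).comp (measurable_fst.prodMk (measurable_snd.div_const _).neg)).mul
    ((wj_meas t).comp measurable_snd)

lemma pj_meas {F : ℝ → Fin m → ℝ → ℂ} (hF : ∀ j, Measurable fun p : ℝ × ℝ => F p.1 j p.2) :
    Measurable fun p : ℝ × (Fin m → ℝ) => ∏ j, F p.1 j (p.2 j) := by
  apply Finset.measurable_prod
  intro j _
  exact (hF j).comp (measurable_fst.prodMk ((measurable_pi_apply j).comp measurable_snd))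

lemma aj_bd {f : Fin m → ℝ × ℝ → ℂ} (hb : ∀ j x, ‖f j x‖ ≤ 1) (t u : ℝ) (j : Fin m) (y : ℝ) :
    ‖aj f t u j y‖ ≤ 2 := by
  have h := e1_bdc 1 (fun v => hb j (u, v)) y t
  rw [← ofReal_norm, ENNReal.ofReal_le_ofReal_iff (by norm_num)] at h
  unfold aj
  linarith

lemma wj_bd (t : ℝ) (ht : t ≠ 0) (y : ℝ) : ‖wj t y‖ ≤ 3 * (Real.sqrt |t|)⁻¹ := by
  have ht' : 0 < |t| := abs_pos.2 ht
  unfold wj
  split_ifs
  · have h := J_all y t ht
    set M := ‖e1 (ind (-1) 1) y t‖ with hM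
    have hM0 : 0 ≤ M := norm_nonneg _
    set r := Real.sqrt |t| with hr
    have hr0 : 0 < r := Real.sqrt_pos.2 ht'
    have hrr : r * r = |t| := Real.mul_self_sqrt ht'.le
    rw [le_div_iff₀ ht', ← hrr] at h
    have h5 : M * r ≤ 3 := by
      by_contra hlt
      push Not at hlt
      nlinarith
    calc M = (M * r) * r⁻¹ := by field_simp
      _ ≤ 3 * r⁻¹ := by gcongr
  · rw [norm_zero]
    positivity

lemma bj_bd {f : Fin m → ℝ × ℝ → ℂ} (hb : ∀ j x, ‖f j x‖ ≤ 1) (t : ℝ) (ht : t ≠ 0) (u : ℝ)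
    (j : Fin m) (y : ℝ) : ‖bj f t u j y‖ ≤ 3 * (Real.sqrt |t|)⁻¹ := by
  unfold bj
  rw [norm_mul]
  have h1 := wj_bd t ht y
  have h2 := hb j (u, -(y / (2 * t)))
  have h3 := norm_nonneg (wj t y)
  have h4 := norm_nonneg (f j (u, -(y / (2 * t))))
  nlinarith

lemma wj_two (t : ℝ) (ht : t ≠ 0) : ∫⁻ y, ‖wj t y‖ₑ ^ 2 ≤ 36 := by
  have ht' : 0 < |t| := abs_pos.2 ht
  set k : ℝ≥0∞ := ENNReal.ofReal (3 * (Real.sqrt |t|)⁻¹) ^ 2 with hk
  have h1 : ∀ y, ‖wj t y‖ₑ ^ 2 ≤ (Ioo (-(2 * |t|)) (2 * |t|)).indicator (fun _ => k) y := by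
    intro y
    by_cases h : |y / (2 * t)| < 1
    · have hy : y ∈ Ioo (-(2 * |t|)) (2 * |t|) := by
        rw [abs_div, abs_mul, div_lt_one (by positivity)] at h
        norm_num at h
        exact abs_lt.1 h
      rw [indicator_of_mem hy, hk, ← ofReal_norm]
      gcongr
      exact wj_bd t ht y
    · have : wj t y = 0 := by
        unfold wj
        rw [if_neg h]
      rw [this]
      simp
  refine (lintegral_mono h1).trans (le_of_eq ?_)
  rw [lintegral_indicator measurableSet_Ioo, lintegral_const, Measure.restrict_apply_univ,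
    Real.volume_Ioo, hk, ← ENNReal.ofReal_pow (by positivity), ← ENNReal.ofReal_mul (by positivity)]
  have hr0 : 0 < Real.sqrt |t| := Real.sqrt_pos.2 ht'
  have hrr : Real.sqrt |t| * Real.sqrt |t| = |t| := Real.mul_self_sqrt ht'.le
  have : (3 * (Real.sqrt |t|)⁻¹) ^ 2 * (2 * |t| - -(2 * |t|)) = 36 := by
    have h6 : (Real.sqrt |t|)⁻¹ ^ 2 * |t| = 1 := by
      rw [inv_pow, Real.sq_sqrt ht'.le, inv_mul_cancel₀ ht'.ne']
    linear_combination 36 * h6
  rw [this]
  norm_num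

lemma ab_two {f : Fin m → ℝ × ℝ → ℂ} (hf : ∀ j, Measurable (f j)) (hb : ∀ j x, ‖f j x‖ ≤ 1)
    (t : ℝ) (ht : t ≠ 0) (u : ℝ) (j : Fin m) :
    ∫⁻ y, ‖aj f t u j y‖ₑ ^ 2 ≤ 36 ∧ ∫⁻ y, ‖bj f t u j y‖ₑ ^ 2 ≤ 36 := by
  constructor
  · unfold aj
    have hs : Measurable fun v => f j (u, v) :=
      (hf j).comp (measurable_const.prodMk measurable_id)
    rw [e1_two_c hs 1 one_pos (fun v => hb j (u, v)) t]
    refine (cut_two (fun v => hb j (u, v)) 2 (by norm_num)).trans ?_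
    norm_num
  · refine le_trans (lintegral_mono fun y => ?_) (wj_two t ht)
    simp only
    gcongr
    unfold bj
    rw [← ofReal_norm, ← ofReal_norm]
    apply ENNReal.ofReal_le_ofReal
    rw [norm_mul]
    have h2 := hb j (u, -(y / (2 * t)))
    have h3 := norm_nonneg (wj t y)
    nlinarith

/-- extension of a product -/
noncomputable def FFm (f : Fin m → ℝ × ℝ → ℂ) (x : ℝ) (y : Fin m → ℝ) (t : ℝ) : ℂ :=
  e1 (fun u => ∏ j, aj f t u j (y j)) x t

lemma prod_bd (a : Fin m → ℂ) (c : ℝ) (ha : ∀ j, ‖a j‖ ≤ c) : ‖∏ j, a j‖ ≤ c ^ m := by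
  rw [norm_prod]
  calc ∏ j, ‖a j‖ ≤ ∏ _j : Fin m, c :=
        Finset.prod_le_prod (fun _ _ => norm_nonneg _) fun j _ => ha j
    _ = c ^ m := by simp

lemma small_m {f : Fin m → ℝ × ℝ → ℂ} (hf : ∀ j, Measurable (f j)) (hb : ∀ j x, ‖f j x‖ ≤ 1)
    (q : ℝ) (hq : 2 ≤ q) (t : ℝ) :
    ∫⁻ y : Fin m → ℝ, ∫⁻ x, ‖FFm f x y t‖ₑ ^ q ≤
      ENNReal.ofReal (2 * 2 ^ m) ^ (q - 2) * (2 * 2 ^ m) := by
  apply two2m volume (fun u (y : Fin m → ℝ) => ∏ j, aj f t u j (y j))
    (pj_meas (fun j => aj_meas hf t j)) (2 ^ m) (by positivity)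
    (fun u y => prod_bd _ 2 fun j => aj_bd hb t u j (y j)) t (2 ^ m) _ q hq
  intro u
  have hsec : ∀ j, Measurable (aj f t u j) := fun j =>
    (aj_meas hf t j).comp (measurable_const.prodMk measurable_id)
  have e3 : ∀ y : Fin m → ℝ, ‖∏ j, aj f t u j (y j)‖ₑ ^ 2 = ∏ j, ‖aj f t u j (y j)‖ₑ ^ 2 :=
    fun y => enorm_prod' _ 2
  simp only [e3]
  rw [lint_prod m (fun j z => ‖aj f t u j z‖ₑ ^ 2) (fun j => (hsec j).enorm.pow_const 2)]
  calc ∏ j : Fin m, ∫⁻ z, ‖aj f t u j z‖ₑ ^ 2 ≤ ∏ j : Fin m, 2 := by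
        apply Finset.prod_le_prod'
        intro j _
        unfold aj
        have hs : Measurable fun v => f j (u, v) :=
          (hf j).comp (measurable_const.prodMk measurable_id)
        rw [e1_two_c hs 1 one_pos (fun v => hb j (u, v)) t]
        exact cut_two (fun v => hb j (u, v)) 2 (by norm_num)
    _ = 2 ^ m := by simp

/-- error term -/
lemma err_m (C : ℝ) (hC : 0 < C) {f : Fin m → ℝ × ℝ → ℂ} (hf : ∀ j, Measurable (f j))
    (hb : ∀ j x, ‖f j x‖ ≤ 1) (hgood : ∀ j u, Good C (fun v => f j (u, v)))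
    (q : ℝ) (hq : 2 ≤ q) (t : ℝ) (ht : t ≠ 0) :
    ∫⁻ y : Fin m → ℝ, ∫⁻ x, ‖e1 (fun u => ∏ j, aj f t u j (y j) - ∏ j, bj f t u j (y j)) x t‖ₑ ^ q
      ≤ ENNReal.ofReal (2 * (2 * ((C + 3) * (Real.sqrt |t|)⁻¹) ^ m)) ^ (q - 2) *
        (2 * (m * (2 * (36 + 1)) ^ m * ENNReal.ofReal (C * (Real.sqrt |t|)⁻¹))) := by
  have ht' : 0 < |t| := abs_pos.2 ht
  have hr : 0 < (Real.sqrt |t|)⁻¹ := by positivity
  have ha : ∀ j u y, ‖aj f t u j y‖ ≤ (C + 3) * (Real.sqrt |t|)⁻¹ := by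
    intro j u y
    have e : aj f t u j y = Aop (fun v => f j (u, v)) y t + bj f t u j y := by
      rw [← ab_sub]
      ring
    rw [e]
    refine (norm_add_le _ _).trans ?_
    rw [add_mul]
    exact add_le_add ((hgood j u).bd y t ht) (bj_bd hb t ht u j y)
  have hb' : ∀ j u y, ‖bj f t u j y‖ ≤ (C + 3) * (Real.sqrt |t|)⁻¹ := by
    intro j u y
    refine (bj_bd hb t ht u j y).trans ?_
    gcongr
    linarith
  apply two2m volume (fun u (y : Fin m → ℝ) => ∏ j, aj f t u j (y j) - ∏ j, bj f t u j (y j))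
    ((pj_meas (fun j => aj_meas hf t j)).sub (pj_meas (fun j => bj_meas hf t j)))
    (2 * ((C + 3) * (Real.sqrt |t|)⁻¹) ^ m) (by positivity) _ t _ _ q hq
  · intro u y
    refine (norm_sub_le _ _).trans ?_
    have h1 := prod_bd (fun j => aj f t u j (y j)) _ (fun j => ha j u (y j))
    have h2 := prod_bd (fun j => bj f t u j (y j)) _ (fun j => hb' j u (y j))
    linarith
  · intro u
    apply prod_dec m (aj f t u) (bj f t u)
      (fun j => (aj_meas hf t j).comp (measurable_const.prodMk measurable_id))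
      (fun j => (bj_meas hf t j).comp (measurable_const.prodMk measurable_id)) 36
      (ENNReal.ofReal (C * (Real.sqrt |t|)⁻¹)) (fun j => (ab_two hf hb t ht u j).1)
      (fun j => (ab_two hf hb t ht u j).2)
    intro j
    simp only [ab_sub]
    exact (hgood j u).two t ht

/-- open cube -/
def cb (m : ℕ) : Set (Fin m → ℝ) := Set.pi univ fun _ => Ioo (-1 : ℝ) 1

lemma cb_meas : MeasurableSet (cb m) := MeasurableSet.univ_pi fun _ => measurableSet_Ioo

lemma cb_vol : volume (cb m) = 2 ^ m := by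
  unfold cb
  rw [Real.volume_pi_Ioo]
  have : ENNReal.ofReal ((1 : ℝ) - -1) = 2 := by norm_num
  simp only [this]
  simp

/-- main term -/
lemma main_m {f : Fin m → ℝ × ℝ → ℂ} (hf : ∀ j, Measurable (f j)) (q : ℝ) (hq : 2 ≤ q) (t : ℝ)
    (ht : t ≠ 0) :
    ∫⁻ y : Fin m → ℝ, ∫⁻ x, ‖e1 (fun u => ∏ j, bj f t u j (y j)) x t‖ₑ ^ q ≤
      (ENNReal.ofReal ((3 * (Real.sqrt |t|)⁻¹) ^ q) ^ m * ENNReal.ofReal ((2 * |t|) ^ m)) *
        ∫⁻ s in cb m, Gq (fun u => ∏ j, f j (u, s j)) q t := by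
  have ht' : 0 < |t| := abs_pos.2 ht
  have hr : 0 < (Real.sqrt |t|)⁻¹ := by positivity
  set B : ℝ≥0∞ := ENNReal.ofReal ((3 * (Real.sqrt |t|)⁻¹) ^ q) with hB
  have hBt : B ^ m ≠ ⊤ := ENNReal.pow_ne_top ENNReal.ofReal_ne_top
  have hGm : Measurable fun s : Fin m → ℝ => Gq (fun u => ∏ j, f j (u, s j)) q t := by
    unfold Gq
    have h1 : Measurable fun p : (Fin m → ℝ) × ℝ => e1 (fun u => ∏ j, f j (u, p.1 j)) p.2 t := by
      apply e1_joint (fun (p : (Fin m → ℝ) × ℝ) u => ∏ j, f j (u, p.1 j)) _ (fun p => p.2)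
        (fun _ => t) measurable_snd measurable_const
      apply Finset.measurable_prod
      intro j _
      exact (hf j).comp (measurable_snd.prodMk
        ((measurable_pi_apply j).comp (measurable_fst.comp measurable_fst)))
    exact (h1.enorm.pow_const q).lintegral_prod_right'
  set G : (Fin m → ℝ) → ℝ≥0∞ := (cb m).indicator fun s => Gq (fun u => ∏ j, f j (u, s j)) q t
    with hG
  have hGmeas : Measurable G := hGm.indicator cb_meas
  set r0 : ℝ := -(2 * t)⁻¹ with hr0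
  have hr0n : r0 ≠ 0 := by
    rw [hr0, neg_ne_zero]
    exact inv_ne_zero (mul_ne_zero (by norm_num) ht)
  have h1 : ∀ y : Fin m → ℝ, ∫⁻ x, ‖e1 (fun u => ∏ j, bj f t u j (y j)) x t‖ₑ ^ q ≤
        B ^ m * G (r0 • y) := by
    intro y
    have hfac : ∀ x, e1 (fun u => ∏ j, bj f t u j (y j)) x t =
        (∏ j, wj t (y j)) * e1 (fun u => ∏ j, f j (u, (r0 • y) j)) x t := by
      intro x
      rw [← e1_smul]
      congr 1
      ext u
      unfold bj
      rw [Finset.prod_mul_distrib, mul_comm]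
      congr 1
      apply Finset.prod_congr rfl
      intro j _
      congr 2
      rw [Pi.smul_apply, smul_eq_mul, hr0]
      ring
    simp only [hfac]
    by_cases h : ∀ j, |y j / (2 * t)| < 1
    · have hm : r0 • y ∈ cb m := by
        intro j _
        have := abs_lt.1 (h j)
        rw [Pi.smul_apply, smul_eq_mul, hr0]
        have e : -(2 * t)⁻¹ * y j = -(y j / (2 * t)) := by ring
        rw [e]
        exact ⟨by linarith, by linarith⟩
      rw [hG, indicator_of_mem hm]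
      unfold Gq
      rw [← lintegral_const_mul' _ _ hBt]
      apply lintegral_mono
      intro x
      simp only
      rw [enorm_mul, ENNReal.mul_rpow_of_nonneg _ _ (by linarith)]
      refine mul_le_mul_left ?_ _
      rw [← ofReal_norm, ENNReal.ofReal_rpow_of_nonneg (norm_nonneg _) (by linarith), hB,
        ← ENNReal.ofReal_pow (by positivity)]
      apply ENNReal.ofReal_le_ofReal
      have h5 := prod_bd (fun j => wj t (y j)) _ (fun j => wj_bd t ht (y j))
      calc ‖∏ j, wj t (y j)‖ ^ q ≤ ((3 * (Real.sqrt |t|)⁻¹) ^ m) ^ q :=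
            Real.rpow_le_rpow (norm_nonneg _) h5 (by linarith)
        _ = _ := by
            rw [← Real.rpow_natCast, ← Real.rpow_natCast, ← Real.rpow_mul (by positivity),
              ← Real.rpow_mul (by positivity), mul_comm (m : ℝ) q]
    · push Not at h
      obtain ⟨j, hj⟩ := h
      have hw : ∏ j, wj t (y j) = 0 := by
        apply Finset.prod_eq_zero (Finset.mem_univ j)
        unfold wj
        rw [if_neg (not_lt.2 hj)]
      rw [hw]
      have : (0 : ℝ) < q := by linarith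
      simp [this]
  have h2 : ∫⁻ y : Fin m → ℝ, G (r0 • y) = ENNReal.ofReal ((2 * |t|) ^ m) * ∫⁻ s, G s := by
    have h3 := Measure.map_addHaar_smul (volume : Measure (Fin m → ℝ)) hr0n
    rw [← lintegral_map hGmeas (measurable_const_smul r0), h3, lintegral_smul_measure, smul_eq_mul]
    congr 2
    rw [Module.finrank_fin_fun, abs_inv, abs_pow, hr0, abs_neg, abs_inv, abs_mul, ← inv_pow,
      inv_inv]
    norm_num
  calc _ ≤ ∫⁻ y : Fin m → ℝ, B ^ m * G (r0 • y) := lintegral_mono h1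
    _ = _ := by
        rw [lintegral_const_mul' _ _ hBt, h2, hG, lintegral_indicator cb_meas, ← mul_assoc]

end Pool.Agent.H728R3.SR
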