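import Mathlib
import Pool.Agent.H728R3.SR.Y
set_option autoImplicit false

/-! Several variables: assembly. -/

namespace Pool.Agent.H728R3.SR
open MeasureTheory Set Complex Filter Topology
open Pool.Agent.H147R3.PE
open scoped ENNReal NNReal

lemma split_m {Y : Type*} [MeasurableSpace Y] (μ : Measure Y) [SFinite μ]
    (F P R : Y → ℝ → ℂ) (hF : ∀ y x, F y x = P y x + R y x)
    (hRm : Measurable fun r : Y × ℝ => R r.1 r.2) (q : ℝ) (hq : 1 ≤ q) (A B : ℝ≥0∞)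
    (hA : ∫⁻ y, (∫⁻ x, ‖P y x‖ₑ ^ q) ∂μ ≤ A) (hB : ∫⁻ y, (∫⁻ x, ‖R y x‖ₑ ^ q) ∂μ ≤ B) :
    ∫⁻ y, (∫⁻ x, ‖F y x‖ₑ ^ q) ∂μ ≤ 2 ^ (q - 1) * (A + B) := by
  have h2t : (2 : ℝ≥0∞) ^ (q - 1) ≠ ⊤ := ENNReal.rpow_ne_top_of_nonneg (by linarith) (by simp)
  have hRq : Measurable fun r : Y × ℝ => ‖R r.1 r.2‖ₑ ^ q := hRm.enorm.pow_const q
  have hRy : ∀ y, Measurable fun x => ‖R y x‖ₑ ^ q := fun y => by
    have : Measurable fun x => R y x := hRm.comp (measurable_const.prodMk measurable_id)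
    exact this.enorm.pow_const q
  have hRI : Measurable fun y => ∫⁻ x, ‖R y x‖ₑ ^ q := hRq.lintegral_prod_right'
  have hpt : ∀ y x, ‖F y x‖ₑ ^ q ≤ 2 ^ (q - 1) * (‖P y x‖ₑ ^ q + ‖R y x‖ₑ ^ q) := by
    intro y x
    rw [hF]
    refine (ENNReal.rpow_le_rpow (enorm_add_le _ _) (by linarith)).trans ?_
    exact ENNReal.rpow_add_le_mul_rpow_add_rpow _ _ (by linarith)
  calc ∫⁻ y, (∫⁻ x, ‖F y x‖ₑ ^ q) ∂μ
      ≤ ∫⁻ y, (∫⁻ x, 2 ^ (q - 1) * (‖P y x‖ₑ ^ q + ‖R y x‖ₑ ^ q)) ∂μ :=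
        lintegral_mono fun y => lintegral_mono fun x => hpt y x
    _ = 2 ^ (q - 1) * ((∫⁻ y, (∫⁻ x, ‖P y x‖ₑ ^ q) ∂μ) + ∫⁻ y, (∫⁻ x, ‖R y x‖ₑ ^ q) ∂μ) := by
        simp only [lintegral_const_mul' _ _ h2t]
        congr 1
        rw [← lintegral_add_right _ hRI]
        apply lintegral_congr
        intro y
        exact lintegral_add_right _ (hRy y)
    _ ≤ _ := mul_le_mul_right (add_le_add hA hB) _

lemma swap_m {Y : Type*} [MeasurableSpace Y] (μ : Measure Y) [SFinite μ] (w : ℝ → ℝ≥0∞)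
    (hw : Measurable w) (GG : ℝ → Y → ℝ≥0∞)
    (hj : Measurable fun r : ℝ × Y => GG r.1 r.2) (D : ℝ≥0∞)
    (hD : ∀ s, ∫⁻ t, w t * GG t s ≤ D) :
    ∫⁻ t, w t * (∫⁻ s, GG t s ∂μ) ≤ D * μ univ := by
  have hsec : ∀ t, Measurable fun s => GG t s := fun t =>
    hj.comp (measurable_const.prodMk measurable_id)
  have h1 : ∀ t, w t * (∫⁻ s, GG t s ∂μ) = ∫⁻ s, w t * GG t s ∂μ := by
    intro t
    rw [lintegral_const_mul _ (hsec t)]
  simp only [h1]
  rw [lintegral_lintegral_swap (f := fun t s => w t * GG t s)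
    ((hw.comp measurable_fst).mul hj).aemeasurable]
  calc _ ≤ ∫⁻ _s, D ∂μ := lintegral_mono hD
    _ = _ := by rw [lintegral_const]

lemma split_fm {m : ℕ} (C : ℝ) (hC : 0 < C) {f : Fin m → ℝ × ℝ → ℂ} (hf : ∀ j, Measurable (f j))
    (hb : ∀ j x, ‖f j x‖ ≤ 1) (hgood : ∀ j u, Good C (fun v => f j (u, v)))
    (q : ℝ) (hq : 2 ≤ q) (t : ℝ) (ht : t ≠ 0) :
    ∫⁻ y : Fin m → ℝ, ∫⁻ x, ‖FFm f x y t‖ₑ ^ q ≤ 2 ^ (q - 1) *
      ((ENNReal.ofReal ((3 * (Real.sqrt |t|)⁻¹) ^ q) ^ m * ENNReal.ofReal ((2 * |t|) ^ m)) *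
        (∫⁻ s in cb m, Gq (fun u => ∏ j, f j (u, s j)) q t) +
      ENNReal.ofReal (2 * (2 * ((C + 3) * (Real.sqrt |t|)⁻¹) ^ m)) ^ (q - 2) *
        (2 * (m * (2 * (36 + 1)) ^ m * ENNReal.ofReal (C * (Real.sqrt |t|)⁻¹)))) := by
  have ht' : 0 < |t| := abs_pos.2 ht
  have ham := pj_meas (fun j => aj_meas hf t j)
  have hbm := pj_meas (fun j => bj_meas hf t j)
  apply split_m volume (fun (y : Fin m → ℝ) x => FFm f x y t)
    (fun y x => e1 (fun u => ∏ j, bj f t u j (y j)) x t)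
    (fun y x => e1 (fun u => ∏ j, aj f t u j (y j) - ∏ j, bj f t u j (y j)) x t) _ _ q
    (by linarith) _ _ (main_m hf q hq t ht) (err_m C hC hf hb hgood q hq t ht)
  · intro y x
    have h1 : Measurable fun u => ∏ j, bj f t u j (y j) :=
      hbm.comp (measurable_id.prodMk measurable_const)
    have h2 : Measurable fun u => ∏ j, aj f t u j (y j) :=
      ham.comp (measurable_id.prodMk measurable_const)
    have hbb : ∀ u, ‖∏ j, bj f t u j (y j)‖ ≤ (3 * (Real.sqrt |t|)⁻¹) ^ m := fun u =>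
      prod_bd _ _ fun j => bj_bd hb t ht u j (y j)
    have hab : ∀ u, ‖∏ j, aj f t u j (y j)‖ ≤ 2 ^ m := fun u =>
      prod_bd _ _ fun j => aj_bd hb t u j (y j)
    have h21 : Measurable fun u => ∏ j, aj f t u j (y j) - ∏ j, bj f t u j (y j) := h2.sub h1
    have h3 := e1_add h1 h21 ((3 * (Real.sqrt |t|)⁻¹) ^ m)
      (2 ^ m + (3 * (Real.sqrt |t|)⁻¹) ^ m) hbb
      (fun u => (norm_sub_le _ _).trans (add_le_add (hab u) (hbb u))) x t
    rw [← h3]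
    unfold FFm
    congr 1
    ext u
    ring
  · apply e1_joint (fun (r : (Fin m → ℝ) × ℝ) u => ∏ j, aj f t u j (r.1 j) -
      ∏ j, bj f t u j (r.1 j)) _ (fun r => r.2) (fun _ => t) measurable_snd measurable_const
    have hsw : Measurable fun p : ((Fin m → ℝ) × ℝ) × ℝ => (p.2, p.1.1) :=
      measurable_snd.prodMk (measurable_fst.comp measurable_fst)
    exact (ham.comp hsw).sub (hbm.comp hsw)

/-- constants -/
noncomputable def E1m (m : ℕ) (C q : ℝ) : ℝ≥0∞ :=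
  ENNReal.ofReal ((4 * (C + 3) ^ m) ^ (q - 2)) * (2 * (m * (2 * (36 + 1)) ^ m * ENNReal.ofReal C))

lemma E1m_ne (m : ℕ) (C q : ℝ) : E1m m C q ≠ ⊤ := by
  unfold E1m
  refine ENNReal.mul_ne_top ENNReal.ofReal_ne_top (ENNReal.mul_ne_top (by simp)
    (ENNReal.mul_ne_top (ENNReal.mul_ne_top (by simp) ?_) ENNReal.ofReal_ne_top))
  exact ENNReal.pow_ne_top (by norm_num)

lemma err_const (m : ℕ) (C q : ℝ) (hC : 0 < C) (hq : 2 ≤ q) (t : ℝ) (ht : t ≠ 0) :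
    ENNReal.ofReal (2 * (2 * ((C + 3) * (Real.sqrt |t|)⁻¹) ^ m)) ^ (q - 2) *
        (2 * (m * (2 * (36 + 1)) ^ m * ENNReal.ofReal (C * (Real.sqrt |t|)⁻¹))) =
      E1m m C q * ENNReal.ofReal (|t| ^ (-((m * (q - 2) + 1) / 2))) := by
  have ht' : 0 < |t| := abs_pos.2 ht
  have hr : 0 < (Real.sqrt |t|)⁻¹ := by positivity
  set r := (Real.sqrt |t|)⁻¹ with hrd
  have e1 : 2 * (2 * ((C + 3) * r) ^ m) = (4 * (C + 3) ^ m) * r ^ m := by
    rw [mul_pow]
    ring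
  have e2 : |t| ^ (-((m * (q - 2) + 1) / 2)) = (r ^ m) ^ (q - 2) * r := by
    have h1 : r = |t| ^ (-(1 / 2) : ℝ) := by
      rw [hrd, Real.sqrt_eq_rpow, ← Real.rpow_neg ht'.le]
    have h2 : (r ^ m) ^ (q - 2) * r = r ^ ((m : ℝ) * (q - 2) + 1) := by
      rw [← Real.rpow_natCast r m, ← Real.rpow_mul hr.le, Real.rpow_add hr, Real.rpow_one]
    rw [h2, h1, ← Real.rpow_mul ht'.le]
    congr 1
    ring
  rw [e1, e2, ENNReal.ofReal_mul (q := r ^ m) (by positivity),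
    ENNReal.mul_rpow_of_nonneg _ _ (by linarith), ENNReal.ofReal_mul hC.le,
    ENNReal.ofReal_mul (q := r) (by positivity), ← ENNReal.ofReal_rpow_of_pos (x := r ^ m) (by positivity)]
  unfold E1m
  rw [← ENNReal.ofReal_rpow_of_pos (x := 4 * (C + 3) ^ m) (by positivity)]
  ring

lemma main_const (m : ℕ) (q : ℝ) (hq : 2 ≤ q) (γ : ℝ) (hγ0 : 0 < γ) (t : ℝ) (h1t : 1 < |t|) :
    ENNReal.ofReal ((3 * (Real.sqrt |t|)⁻¹) ^ q) ^ m * ENNReal.ofReal ((2 * |t|) ^ m) ≤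
      ENNReal.ofReal ((3 ^ q * 2) ^ m) * wt γ (m * (q / 2 - 1)) t := by
  have ht' : 0 < |t| := by linarith
  have hr : 0 < (Real.sqrt |t|)⁻¹ := by positivity
  have he : 0 ≤ (m : ℝ) * (q / 2 - 1) := mul_nonneg (Nat.cast_nonneg m) (by linarith)
  unfold wt AA
  rw [if_neg (not_le.2 h1t), ENNReal.ofReal_rpow_of_pos (by positivity),
    ← ENNReal.ofReal_pow (by positivity), ← ENNReal.ofReal_mul (by positivity),
    ← ENNReal.ofReal_mul (by positivity)]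
  apply ENNReal.ofReal_le_ofReal
  have e1 : ((3 * (Real.sqrt |t|)⁻¹) ^ q) ^ m * (2 * |t|) ^ m =
      (3 ^ q * 2) ^ m * (|t| ^ (-1 : ℝ)) ^ ((m : ℝ) * (q / 2 - 1)) := by
    have h2 : ((Real.sqrt |t|)⁻¹) ^ q * |t| = (|t| ^ (-1 : ℝ)) ^ (q / 2 - 1) := by
      rw [Real.sqrt_eq_rpow, ← Real.rpow_neg ht'.le, ← Real.rpow_mul ht'.le,
        ← Real.rpow_mul ht'.le]
      have h3 : |t| ^ (-(1 / 2) * q) * |t| = |t| ^ (-(1 / 2) * q) * |t| ^ (1 : ℝ) := by
        rw [Real.rpow_one]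
      rw [h3, ← Real.rpow_add ht']
      congr 1
      ring
    have h4 : (|t| ^ (-1 : ℝ)) ^ ((m : ℝ) * (q / 2 - 1)) =
        ((|t| ^ (-1 : ℝ)) ^ (q / 2 - 1)) ^ m := by
      rw [mul_comm, Real.rpow_mul (by positivity), Real.rpow_natCast]
    rw [h4, ← h2, Real.mul_rpow (by norm_num) hr.le, ← mul_pow, ← mul_pow]
    congr 1
    ring
  rw [e1]
  gcongr ?_ * ?_
  apply Real.rpow_le_rpow (by positivity) _ he
  have h5 : |t| ^ (-1 : ℝ) ≤ |t| ^ (γ / 2 - 1) :=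
    Real.rpow_le_rpow_of_exponent_le h1t.le (by linarith)
  have h6 : 0 < |t| ^ (γ / 2 - 1) := by positivity
  linarith

theorem assemble_m (m : ℕ) (hm : 1 ≤ m) (q : ℝ) (hq : 2 * ((m : ℝ) + 2) / (m + 1) < q)
    (h4 : q < 4) (C : ℝ) (hC : 0 < C) :
    ∃ K : ℝ≥0∞, K ≠ ⊤ ∧ ∀ f : Fin m → ℝ × ℝ → ℂ, (∀ j, Measurable (f j)) →
      (∀ j x, ‖f j x‖ ≤ 1) → (∀ j u, Good C (fun v => f j (u, v))) →
      ∫⁻ t, ∫⁻ y : Fin m → ℝ, ∫⁻ x, ‖FFm f x y t‖ₑ ^ q ≤ K := by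
  have hm' : (1 : ℝ) ≤ m := by exact_mod_cast hm
  obtain ⟨h2, -⟩ := consts2 m q hm' hq
  obtain ⟨γ, hγ0, hγ1, K, hK, hKK⟩ := wtotal m q hm' hq h4
  set p := (m * (q - 2) + 1) / 2 with hp
  have hp1 : 1 < p := by
    have h5 : 2 * ((m : ℝ) + 2) < q * (m + 1) := by
      rwa [div_lt_iff₀ (by linarith)] at hq
    rw [hp]
    nlinarith
  set A0 : ℝ≥0∞ := ENNReal.ofReal (2 * 2 ^ m) ^ (q - 2) * (2 * 2 ^ m) with hA0
  have hA0t : A0 ≠ ⊤ := ENNReal.mul_ne_top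
    (ENNReal.rpow_ne_top_of_nonneg (by linarith) ENNReal.ofReal_ne_top)
    (ENNReal.mul_ne_top (by simp) (ENNReal.pow_ne_top (by simp)))
  have h2t : (2 : ℝ≥0∞) ^ (q - 1) ≠ ⊤ := ENNReal.rpow_ne_top_of_nonneg (by linarith) (by simp)
  set B1 : ℝ≥0∞ := 2 ^ (q - 1) * (E1m m C q * ENNReal.ofReal (2 ^ p)) with hB1
  have hB1t : B1 ≠ ⊤ := ENNReal.mul_ne_top h2t (ENNReal.mul_ne_top (E1m_ne m C q)
    ENNReal.ofReal_ne_top)
  set B2 : ℝ≥0∞ := 2 ^ (q - 1) * ENNReal.ofReal ((3 ^ q * 2) ^ m) with hB2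
  have hB2t : B2 ≠ ⊤ := ENNReal.mul_ne_top h2t ENNReal.ofReal_ne_top
  set T0 : ℝ≥0∞ := ∫⁻ t : ℝ, ENNReal.ofReal ((1 + ‖t‖) ^ (-p)) with hT0
  have hT0t : T0 ≠ ⊤ := by
    have := finite_integral_one_add_norm (E := ℝ) (μ := volume) (r := p) (by simpa using hp1)
    exact this.ne
  refine ⟨A0 * 2 + (B1 * T0 + B2 * (K * 2 ^ m)), ?_, ?_⟩
  · refine ENNReal.add_ne_top.2 ⟨ENNReal.mul_ne_top hA0t (by simp),
      ENNReal.add_ne_top.2 ⟨ENNReal.mul_ne_top hB1t hT0t, ENNReal.mul_ne_top hB2t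
        (ENNReal.mul_ne_top hK (ENNReal.pow_ne_top (by simp)))⟩⟩
  intro f hf hb hgood
  set S : ℝ → ℝ≥0∞ := fun t => ∫⁻ s in cb m, Gq (fun u => ∏ j, f j (u, s j)) q t with hS
  have hjoint : Measurable fun r : ℝ × (Fin m → ℝ) => Gq (fun u => ∏ j, f j (u, r.2 j)) q r.1 := by
    unfold Gq
    have h1 : Measurable fun r : (ℝ × (Fin m → ℝ)) × ℝ =>
        e1 (fun u => ∏ j, f j (u, r.1.2 j)) r.2 r.1.1 := by
      apply e1_joint (fun (r : (ℝ × (Fin m → ℝ)) × ℝ) u => ∏ j, f j (u, r.1.2 j)) _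
        (fun r => r.2) (fun r => r.1.1) measurable_snd (measurable_fst.comp measurable_fst)
      apply Finset.measurable_prod
      intro j _
      exact (hf j).comp (measurable_snd.prodMk ((measurable_pi_apply j).comp
        (measurable_snd.comp (measurable_fst.comp measurable_fst))))
    exact (h1.enorm.pow_const q).lintegral_prod_right'
  have hSm : Measurable S := hjoint.lintegral_prod_right'
  have hwm := wt_meas' γ (m * (q / 2 - 1))
  have hlarge : ∀ t : ℝ, 1 < |t| → ∫⁻ y : Fin m → ℝ, ∫⁻ x, ‖FFm f x y t‖ₑ ^ q ≤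
      B1 * ENNReal.ofReal ((1 + ‖t‖) ^ (-p)) + B2 * (wt γ (m * (q / 2 - 1)) t * S t) := by
    intro t h1t
    have ht' : 0 < |t| := by linarith
    have ht : t ≠ 0 := abs_pos.1 ht'
    refine (split_fm C hC hf hb hgood q (by linarith) t ht).trans ?_
    rw [err_const m C q hC (by linarith) t ht]
    calc _ ≤ 2 ^ (q - 1) * ((ENNReal.ofReal ((3 ^ q * 2) ^ m) * wt γ (m * (q / 2 - 1)) t) * S t +
            E1m m C q * (ENNReal.ofReal (2 ^ p) * ENNReal.ofReal ((1 + ‖t‖) ^ (-p)))) := by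
          refine mul_le_mul_right (add_le_add ?_ ?_) _
          · exact mul_le_mul_left (main_const m q (by linarith) γ hγ0 t h1t) _
          · refine mul_le_mul_right ?_ _
            rw [← ENNReal.ofReal_mul (by positivity)]
            apply ENNReal.ofReal_le_ofReal
            have h7 : (1 + ‖t‖) ≤ 2 * |t| := by
              rw [Real.norm_eq_abs]
              linarith
            have h8 : (2 * |t|) ^ (-p) ≤ (1 + ‖t‖) ^ (-p) :=
              Real.rpow_le_rpow_of_nonpos (by positivity) h7 (by linarith)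
            calc |t| ^ (-p) = 2 ^ p * (2 * |t|) ^ (-p) := by
                  rw [Real.mul_rpow (by norm_num) ht'.le, ← mul_assoc, ← Real.rpow_add (by norm_num)]
                  simp
              _ ≤ _ := by gcongr
      _ = _ := by
          rw [hB1, hB2]
          ring
  have hpw : ∀ t : ℝ, ∫⁻ y : Fin m → ℝ, ∫⁻ x, ‖FFm f x y t‖ₑ ^ q ≤
      (Icc (-1 : ℝ) 1).indicator (fun _ => A0) t +
      (B1 * ENNReal.ofReal ((1 + ‖t‖) ^ (-p)) + B2 * (wt γ (m * (q / 2 - 1)) t * S t)) := by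
    intro t
    by_cases h : |t| ≤ 1
    · rw [indicator_of_mem (show t ∈ Icc (-1 : ℝ) 1 from abs_le.1 h)]
      exact (small_m hf hb q (by linarith) t).trans le_self_add
    · push Not at h
      exact (hlarge t h).trans le_add_self
  have hm1 : Measurable fun t : ℝ => ENNReal.ofReal ((1 + ‖t‖) ^ (-p)) :=
    ((measurable_norm.const_add 1).pow_const (-p)).ennreal_ofReal
  have hmS : Measurable fun t : ℝ => wt γ (m * (q / 2 - 1)) t * S t := hwm.mul hSm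
  have hswap : ∫⁻ t, wt γ (m * (q / 2 - 1)) t * S t ≤ K * 2 ^ m := by
    have h6 := swap_m (volume.restrict (cb m)) _ hwm
      (fun t (s : Fin m → ℝ) => Gq (fun u => ∏ j, f j (u, s j)) q t) hjoint K (by
        intro s
        apply hKK
        · apply Finset.measurable_prod
          intro j _
          exact (hf j).comp (measurable_id.prodMk measurable_const)
        · intro u
          have := prod_bd (fun j => f j (u, s j)) 1 (fun j => hb j _)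
          simpa using this)
    rw [Measure.restrict_apply_univ, cb_vol] at h6
    exact h6
  calc ∫⁻ t, ∫⁻ y : Fin m → ℝ, ∫⁻ x, ‖FFm f x y t‖ₑ ^ q
      ≤ ∫⁻ t, ((Icc (-1 : ℝ) 1).indicator (fun _ => A0) t +
      (B1 * ENNReal.ofReal ((1 + ‖t‖) ^ (-p)) + B2 * (wt γ (m * (q / 2 - 1)) t * S t))) :=
        lintegral_mono hpw
    _ = A0 * 2 + (B1 * T0 + B2 * ∫⁻ t, wt γ (m * (q / 2 - 1)) t * S t) := by
        rw [lintegral_add_left (measurable_const.indicator measurableSet_Icc),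
          lintegral_add_left (hm1.const_mul B1), lintegral_const_mul _ hm1,
          lintegral_const_mul _ hmS, lintegral_indicator measurableSet_Icc, lintegral_const,
          Measure.restrict_apply_univ, Real.volume_Icc]
        have h2 : ENNReal.ofReal ((1 : ℝ) - -1) = 2 := by norm_num
        rw [h2]
    _ ≤ _ := by gcongr

end Pool.Agent.H728R3.SR
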