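import Mathlib
import Pool.Agent.H728R3.SR.Z
set_option autoImplicit false

/-! Several variables: the final estimate. -/

namespace Pool.Agent.H728R3.SR
open MeasureTheory Set Complex Filter Topology
open Pool.Agent.H147R3.PE
open scoped ENNReal NNReal

variable {m : ℕ}

lemma ext_FFm {f : Fin m → ℝ × ℝ → ℂ} (hf : ∀ j, Measurable (f j)) (hb : ∀ j x, ‖f j x‖ ≤ 1)
    (y : (Fin (m + 1) → ℝ) × ℝ) :
    ext (fun ξ => ∏ j : Fin m, f j (ξ 0, ξ j.succ)) y =
      FFm f (y.1 0) (fun j => y.1 j.succ) y.2 := by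
  unfold ext
  rw [restrict_cube]
  set μ : Measure ℝ := volume.restrict (Icc (-1) 1) with hμ
  have hfin : IsFiniteMeasure μ := ⟨by
    rw [hμ, Measure.restrict_apply_univ, Real.volume_Icc]
    exact ENNReal.ofReal_lt_top⟩
  have h1 := (measurePreserving_piFinSuccAbove (fun _ : Fin (m + 1) => μ) 0).symm
  set G : ℝ → (Fin m → ℝ) → ℂ := fun u v =>
    cexp (2 * Real.pi * I * ((u * y.1 0 + u ^ 2 * y.2 : ℝ) : ℂ)) *
      ∏ j, (f j (u, v j) *
        cexp (2 * Real.pi * I * ((v j * y.1 j.succ + v j ^ 2 * y.2 : ℝ) : ℂ))) with hG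
  have h2 := h1.integral_comp (MeasurableEquiv.measurableEmbedding _)
    (fun ξ : Fin (m + 1) → ℝ => (∏ j : Fin m, f j (ξ 0, ξ j.succ)) *
      cexp (2 * Real.pi * I * ((∑ j, ξ j * y.1 j + (∑ j, ξ j ^ 2) * y.2 : ℝ) : ℂ)))
  rw [← h2]
  have h3 : ∀ p : ℝ × (Fin m → ℝ), (∏ j : Fin m, f j
      ((MeasurableEquiv.piFinSuccAbove (fun _ : Fin (m + 1) => ℝ) 0).symm p 0,
        (MeasurableEquiv.piFinSuccAbove (fun _ : Fin (m + 1) => ℝ) 0).symm p j.succ)) *
      cexp (2 * Real.pi * I * ((∑ j,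
        (MeasurableEquiv.piFinSuccAbove (fun _ : Fin (m + 1) => ℝ) 0).symm p j * y.1 j +
        (∑ j, (MeasurableEquiv.piFinSuccAbove (fun _ : Fin (m + 1) => ℝ) 0).symm p j ^ 2) *
          y.2 : ℝ) : ℂ)) = G p.1 p.2 := by
    intro p
    have e0 : (MeasurableEquiv.piFinSuccAbove (fun _ : Fin (m + 1) => ℝ) 0).symm p 0 = p.1 := by
      simp [MeasurableEquiv.piFinSuccAbove]
    have e1 : ∀ j : Fin m,
        (MeasurableEquiv.piFinSuccAbove (fun _ : Fin (m + 1) => ℝ) 0).symm p j.succ = p.2 j := by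
      intro j
      simp [MeasurableEquiv.piFinSuccAbove]
    rw [Fin.sum_univ_succ, Fin.sum_univ_succ, hG]
    simp only [e0, e1]
    rw [Finset.prod_mul_distrib, ← Complex.exp_sum, ← Finset.mul_sum, ← Complex.ofReal_sum,
      mul_left_comm, ← Complex.exp_add, Finset.sum_add_distrib, ← Finset.sum_mul]
    congr 2
    push_cast
    ring
  simp only [h3]
  have hGm : Measurable fun p : ℝ × (Fin m → ℝ) => G p.1 p.2 := by
    have ha : Measurable fun p : ℝ × (Fin m → ℝ) =>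
        cexp (2 * Real.pi * I * ((p.1 * y.1 0 + p.1 ^ 2 * y.2 : ℝ) : ℂ)) := by
      apply Continuous.measurable
      fun_prop
    apply ha.mul
    apply Finset.measurable_prod
    intro j _
    apply Measurable.mul
    · exact (hf j).comp (measurable_fst.prodMk ((measurable_pi_apply j).comp measurable_snd))
    · apply Continuous.measurable
      fun_prop
  have hnorm : ∀ s : ℝ, ‖cexp (2 * Real.pi * I * (s : ℂ))‖ = 1 := by
    intro s
    have : (2 * Real.pi * I * (s : ℂ)) = ((2 * Real.pi * s : ℝ) : ℂ) * I := by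
      push_cast
      ring
    rw [this, Complex.norm_exp_ofReal_mul_I]
  have hGb : ∀ p : ℝ × (Fin m → ℝ), ‖G p.1 p.2‖ ≤ 1 := by
    intro p
    rw [hG]
    simp only
    rw [norm_mul, hnorm, one_mul]
    have := prod_bd (fun j => f j (p.1, p.2 j) *
      cexp (2 * Real.pi * I * ((p.2 j * y.1 j.succ + p.2 j ^ 2 * y.2 : ℝ) : ℂ))) 1 (fun j => by
        rw [norm_mul, hnorm, mul_one]
        exact hb j _)
    simpa using this
  have hGi : Integrable (fun p : ℝ × (Fin m → ℝ) => G p.1 p.2)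
      (μ.prod (Measure.pi fun _ : Fin m => μ)) :=
    Integrable.of_bound hGm.aestronglyMeasurable 1 (ae_of_all _ hGb)
  have h4 : ∫ p, G p.1 p.2 ∂(μ.prod (Measure.pi fun _ : Fin m => μ)) =
      ∫ u, (∫ v, G u v ∂(Measure.pi fun _ : Fin m => μ)) ∂μ := integral_prod _ hGi
  refine Eq.trans h4 ?_
  unfold FFm
  conv_rhs => unfold e1
  apply integral_congr_ae
  refine ae_of_all _ fun u => ?_
  simp only [hG]
  rw [integral_const_mul, mul_comm]
  congr 1
  have h5 := integral_fintype_prod_eq_prod (μ := fun _ : Fin m => μ) (fun j (v : ℝ) => f j (u, v) *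
    cexp (2 * Real.pi * I * ((v * y.1 j.succ + v ^ 2 * y.2 : ℝ) : ℂ)))
  rw [h5]
  rfl

lemma FFm_meas {Λ : Type*} [MeasurableSpace Λ] {f : Fin m → ℝ × ℝ → ℂ}
    (hf : ∀ j, Measurable (f j)) (X : Λ → ℝ) (Y : Λ → Fin m → ℝ) (T : Λ → ℝ)
    (hX : Measurable X) (hY : Measurable Y) (hT : Measurable T) :
    Measurable fun l => FFm f (X l) (Y l) (T l) := by
  unfold FFm
  apply e1_joint (fun l u => ∏ j, aj f (T l) u j (Y l j)) _ X T hX hT
  apply Finset.measurable_prod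
  intro j _
  unfold aj
  apply e1_joint (fun (p : Λ × ℝ) v => f j (p.2, v)) _ (fun p => Y p.1 j) (fun p => T p.1)
    ((measurable_pi_apply j).comp (hY.comp measurable_fst)) (hT.comp measurable_fst)
  exact (hf j).comp ((measurable_snd.comp measurable_fst).prodMk measurable_snd)

lemma lint_cons (m : ℕ) (K : (Fin (m + 1) → ℝ) → ℝ≥0∞) (hK : Measurable K) :
    ∫⁻ w, K w = ∫⁻ y : Fin m → ℝ, ∫⁻ x : ℝ,
      K ((MeasurableEquiv.piFinSuccAbove (fun _ : Fin (m + 1) => ℝ) 0).symm (x, y)) := by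
  have h1 := (volume_preserving_piFinSuccAbove (fun _ : Fin (m + 1) => ℝ) 0).symm
  have h2 := h1.lintegral_comp_emb (MeasurableEquiv.measurableEmbedding _) K
  have h4 : Measurable fun p : ℝ × (Fin m → ℝ) =>
      K ((MeasurableEquiv.piFinSuccAbove (fun _ : Fin (m + 1) => ℝ) 0).symm p) :=
    hK.comp (MeasurableEquiv.measurable _)
  have h5 := lintegral_prod_symm (μ := (volume : Measure ℝ)) (ν := (volume : Measure (Fin m → ℝ)))
    _ h4.aemeasurable
  exact h2.symm.trans h5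

lemma h0_l {f : Fin m → ℝ × ℝ → ℂ} (hf : ∀ j, Measurable (f j)) (q : ℝ) :
    Measurable fun y : (Fin (m + 1) → ℝ) × ℝ =>
      ‖FFm f (y.1 0) (fun j => y.1 j.succ) y.2‖ₑ ^ q := by
  have a1 : Measurable fun y : (Fin (m + 1) → ℝ) × ℝ => y.1 0 :=
    (measurable_pi_apply 0).comp measurable_fst
  have a2 : Measurable fun y : (Fin (m + 1) → ℝ) × ℝ => (fun j : Fin m => y.1 j.succ) := by
    apply measurable_pi_lambda
    intro j
    exact (measurable_pi_apply (j.succ)).comp measurable_fst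
  exact (FFm_meas hf (fun y : (Fin (m + 1) → ℝ) × ℝ => y.1 0)
    (fun y j => y.1 j.succ) (fun y => y.2) a1 a2 measurable_snd).enorm.pow_const q

lemma h6_l {f : Fin m → ℝ × ℝ → ℂ} (hf : ∀ j, Measurable (f j)) (q t : ℝ) :
    Measurable fun w : Fin (m + 1) → ℝ => ‖FFm f (w 0) (fun j => w j.succ) t‖ₑ ^ q := by
  have a2 : Measurable fun w : Fin (m + 1) → ℝ => (fun j : Fin m => w j.succ) := by
    apply measurable_pi_lambda
    intro j
    exact measurable_pi_apply (j.succ)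
  exact (FFm_meas hf (fun w : Fin (m + 1) → ℝ => w 0)
    (fun w j => w j.succ) (fun _ => t) (measurable_pi_apply 0) a2 measurable_const).enorm.pow_const q

lemma lint_slice {f : Fin m → ℝ × ℝ → ℂ} (hf : ∀ j, Measurable (f j)) (q t : ℝ) :
    ∫⁻ w : Fin (m + 1) → ℝ, ‖FFm f (w 0) (fun j => w j.succ) t‖ₑ ^ q =
      ∫⁻ y : Fin m → ℝ, ∫⁻ x, ‖FFm f x y t‖ₑ ^ q := by
  rw [lint_cons m _ (h6_l hf q t)]
  apply lintegral_congr
  intro y
  apply lintegral_congr
  intro x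
  have k0 : (MeasurableEquiv.piFinSuccAbove (fun _ : Fin (m + 1) => ℝ) 0).symm (x, y) 0 = x := by
    simp [MeasurableEquiv.piFinSuccAbove]
  have k1 : (fun j : Fin m =>
      (MeasurableEquiv.piFinSuccAbove (fun _ : Fin (m + 1) => ℝ) 0).symm (x, y) j.succ) = y := by
    ext j
    simp [MeasurableEquiv.piFinSuccAbove]
  rw [k0, k1]

lemma lint_split {f : Fin m → ℝ × ℝ → ℂ} (hf : ∀ j, Measurable (f j)) (q : ℝ) :
    ∫⁻ y : (Fin (m + 1) → ℝ) × ℝ, ‖FFm f (y.1 0) (fun j => y.1 j.succ) y.2‖ₑ ^ q =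
      ∫⁻ t, ∫⁻ y : Fin m → ℝ, ∫⁻ x, ‖FFm f x y t‖ₑ ^ q := by
  rw [Measure.volume_eq_prod, lintegral_prod_symm _ (h0_l hf q).aemeasurable]
  apply lintegral_congr
  intro t
  exact lint_slice hf q t

/-- **The estimate, normalised.** -/
theorem bvm (m : ℕ) (hm : 1 ≤ m) (q : ℝ) (hq : 2 * ((m : ℝ) + 2) / (m + 1) < q) :
    ∃ K : ℝ≥0∞, K ≠ ⊤ ∧ ∀ f : Fin m → ℝ × ℝ → ℂ, (∀ j, Measurable (f j)) →
      (∀ j x, ‖f j x‖ ≤ 1) →
      (∀ j u, eVariationOn (fun v => f j (u, v)) (Icc (-1 : ℝ) 1) ≤ 1) →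
      ∫⁻ y : (Fin (m + 1) → ℝ) × ℝ,
        ‖ext (fun ξ => ∏ j : Fin m, f j (ξ 0, ξ j.succ)) y‖ₑ ^ q ≤ K := by
  have hm' : (1 : ℝ) ≤ m := by exact_mod_cast hm
  have hlow : ∀ q : ℝ, 2 * ((m : ℝ) + 2) / (m + 1) < q → q < 4 →
      ∃ K : ℝ≥0∞, K ≠ ⊤ ∧ ∀ f : Fin m → ℝ × ℝ → ℂ, (∀ j, Measurable (f j)) →
      (∀ j x, ‖f j x‖ ≤ 1) →
      (∀ j u, eVariationOn (fun v => f j (u, v)) (Icc (-1 : ℝ) 1) ≤ 1) →
      ∫⁻ y : (Fin (m + 1) → ℝ) × ℝ,
        ‖FFm f (y.1 0) (fun j => y.1 j.succ) y.2‖ₑ ^ q ≤ K := by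
    intro q hq h4
    obtain ⟨K, hK, hKK⟩ := assemble_m m hm q hq h4 60000 (by norm_num)
    refine ⟨K, hK, ?_⟩
    intro f hf hb hv
    rw [lint_split hf q]
    exact hKK f hf hb fun j u =>
      good_bv ((hf j).comp (measurable_const.prodMk measurable_id)) (fun v => hb j (u, v)) (hv j u)
  rcases lt_or_ge q 4 with h4 | h4
  · obtain ⟨K, hK, hKK⟩ := hlow q hq h4
    refine ⟨K, hK, ?_⟩
    intro f hf hb hv
    simp only [ext_FFm hf hb]
    exact hKK f hf hb hv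
  · set q0 : ℝ := 7 / 2 with hq0
    have h1 : 2 * ((m : ℝ) + 2) / (m + 1) < q0 := by
      rw [div_lt_iff₀ (by linarith), hq0]
      linarith
    obtain ⟨K, hK, hKK⟩ := hlow q0 h1 (by norm_num)
    have hB : ENNReal.ofReal (2 * 2 ^ m) ^ (q - q0) ≠ ⊤ :=
      ENNReal.rpow_ne_top_of_nonneg (by rw [hq0]; linarith) ENNReal.ofReal_ne_top
    refine ⟨ENNReal.ofReal (2 * 2 ^ m) ^ (q - q0) * K, ENNReal.mul_ne_top hB hK, ?_⟩
    intro f hf hb hv
    simp only [ext_FFm hf hb]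
    calc ∫⁻ y : (Fin (m + 1) → ℝ) × ℝ, ‖FFm f (y.1 0) (fun j => y.1 j.succ) y.2‖ₑ ^ q
        ≤ ∫⁻ y : (Fin (m + 1) → ℝ) × ℝ, ENNReal.ofReal (2 * 2 ^ m) ^ (q - q0) *
          ‖FFm f (y.1 0) (fun j => y.1 j.succ) y.2‖ₑ ^ q0 := by
          apply lintegral_mono
          intro y
          simp only
          have e : q = (q - q0) + q0 := by ring
          conv_lhs => rw [e]
          rw [ENNReal.rpow_add_of_nonneg _ _ (by rw [hq0]; linarith) (by rw [hq0]; norm_num)]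
          refine mul_le_mul_left (ENNReal.rpow_le_rpow ?_ (by rw [hq0]; linarith)) _
          unfold FFm
          exact e1_bdc (2 ^ m) (fun u => prod_bd _ 2 fun j => aj_bd hb y.2 u j _) _ _
      _ = ENNReal.ofReal (2 * 2 ^ m) ^ (q - q0) * ∫⁻ y : (Fin (m + 1) → ℝ) × ℝ,
          ‖FFm f (y.1 0) (fun j => y.1 j.succ) y.2‖ₑ ^ q0 := lintegral_const_mul' _ _ hB
      _ ≤ _ := by
          gcongr
          exact hKK f hf hb hv

end Pool.Agent.H728R3.SR
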